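import Pool.Agent.Lib.MP_391708_nt.T1.ECR2

/-!
# Theorem T1a (`n² + a`): the quadratic character `χ = χ_{-4a}`, `r(x) = ∑_{d ∣ x} χ(d)`

`chz a n` is the Jacobi symbol `(-a / n)` at odd `n` and zero at even `n`; completely multiplicative,
periodic modulo `4 |a|`.
-/

set_option autoImplicit false

namespace Pool.Agent.Lib.MP391708.TA

open Finset Filter Topology
open scoped NumberTheorySymbols

/-- `χ = χ_{-4a}` -/
def chz (a : ℤ) (n : ℕ) : ℤ := if n % 2 = 0 then 0 else jacobiSym (-a) n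

/-- `χ` with real values -/
noncomputable def ch (a : ℤ) (n : ℕ) : ℝ := (chz a n : ℝ)

/-- `r(x) = ∑_{d ∣ x} χ(d)` -/
noncomputable def rr (a : ℤ) (x : ℕ) : ℝ := ∑ d ∈ x.divisors, ch a d

/-- `∏_{l ∣ D} (1 - χ(l)/l)` -/
noncomputable def rp (a : ℤ) (D : ℕ) : ℝ := ∏ l ∈ D.primeFactors, (1 - ch a l / l)

/-- `L(1, χ)` -/
noncomputable def LL (a : ℤ) : ℝ :=
  limUnder atTop (fun n : ℕ => ∑ i ∈ range n, ch a i / (i : ℝ))

/-- the character takes the value `-1` (equivalently `-a` is not a square) -/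
def Nsq (a : ℤ) : Prop := ∃ n : ℕ, chz a n = -1

/-! ## the character -/

lemma chz_zero (a : ℤ) : chz a 0 = 0 := by simp [chz]
lemma chz_one (a : ℤ) : chz a 1 = 1 := by simp [chz]
lemma chz_even {a : ℤ} {n : ℕ} (h : n % 2 = 0) : chz a n = 0 := by simp [chz, h]
lemma chz_odd {a : ℤ} {n : ℕ} (h : n % 2 = 1) : chz a n = jacobiSym (-a) n := by simp [chz, h]

lemma chz_mul (a : ℤ) (m n : ℕ) : chz a (m * n) = chz a m * chz a n := by
  rcases Nat.mod_two_eq_zero_or_one m with h | h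
  · rw [chz_even h, zero_mul, chz_even]
    rw [Nat.mul_mod, h, zero_mul, Nat.zero_mod]
  rcases Nat.mod_two_eq_zero_or_one n with h' | h'
  · rw [chz_even h', mul_zero, chz_even]
    rw [Nat.mul_mod, h', mul_zero, Nat.zero_mod]
  have h3 : (m * n) % 2 = 1 := by rw [Nat.mul_mod, h, h']
  rw [chz_odd h, chz_odd h', chz_odd h3]
  have hm : NeZero m := ⟨by rintro rfl; simp at h⟩
  have hn : NeZero n := ⟨by rintro rfl; simp at h'⟩
  exact jacobiSym.mul_right _ _ _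

lemma chz_pow (a : ℤ) (m k : ℕ) : chz a (m ^ k) = chz a m ^ k := by
  induction k with
  | zero => simp [chz_one]
  | succ k ih => rw [pow_succ, chz_mul, ih, pow_succ]

lemma chz_trichotomy (a : ℤ) (n : ℕ) : chz a n = 0 ∨ chz a n = 1 ∨ chz a n = -1 := by
  rcases Nat.mod_two_eq_zero_or_one n with h | h
  · exact Or.inl (chz_even h)
  · rw [chz_odd h]; exact jacobiSym.trichotomy _ _

lemma chz_mod (a : ℤ) (n : ℕ) : chz a (n % (4 * a.natAbs)) = chz a n := by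
  have h0 : (n % (4 * a.natAbs)) % 2 = n % 2 :=
    Nat.mod_mod_of_dvd n (Dvd.intro (2 * a.natAbs) (by ring))
  rcases Nat.mod_two_eq_zero_or_one n with h | h
  · rw [chz_even h, chz_even (h0.trans h)]
  · rw [chz_odd h, chz_odd (h0.trans h)]
    have h1 := jacobiSym.mod_right (-a) (b := n) (Nat.odd_iff.2 h)
    rw [h1, Int.natAbs_neg]

lemma chz_congr {a : ℤ} {q m n : ℕ} (hq : 4 * a.natAbs ∣ q) (h : m ≡ n [MOD q]) :
    chz a m = chz a n := by
  rw [← chz_mod a m, ← chz_mod a n]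
  rw [(h.of_dvd hq : m ≡ n [MOD 4 * a.natAbs])]

lemma chz_eq_zero_iff {a : ℤ} {n : ℕ} (hn : n ≠ 0) : chz a n = 0 ↔ ¬ n.Coprime (2 * a.natAbs) := by
  rcases Nat.mod_two_eq_zero_or_one n with h | h
  · rw [chz_even h]
    refine ⟨fun _ h1 => ?_, fun _ => rfl⟩
    have h2 : 2 ∣ Nat.gcd n (2 * a.natAbs) :=
      Nat.dvd_gcd (Nat.dvd_of_mod_eq_zero h) (Dvd.intro _ rfl)
    rw [h1] at h2
    omega
  · rw [chz_odd h, jacobiSym.eq_zero_iff]
    have h2 : Nat.Coprime n 2 := Nat.coprime_two_right.2 (Nat.odd_iff.2 h)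
    have h3 : (-a).gcd n = Nat.gcd n a.natAbs := by
      rw [Int.gcd, Int.natAbs_neg, Int.natAbs_natCast, Nat.gcd_comm]
    rw [h3]
    constructor
    · rintro ⟨-, h4⟩ h5
      exact h4 (Nat.Coprime.coprime_mul_left_right h5)
    · intro h4
      exact ⟨hn, fun h5 => h4 (Nat.Coprime.mul_right h2 h5)⟩

lemma chz_sq {a : ℤ} {n : ℕ} (hn : n ≠ 0) (h : n.Coprime (2 * a.natAbs)) : chz a n = 1 ∨ chz a n = -1 := by
  rcases chz_trichotomy a n with h1 | h1 | h1
  · exact absurd h ((chz_eq_zero_iff hn).1 h1)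
  · exact Or.inl h1
  · exact Or.inr h1

/-- for an odd prime `l ∤ a`: `χ(l) = 1` iff `-a` is a square modulo `l` -/
lemma chz_prime_one {a : ℤ} {l : ℕ} (hl : l.Prime) (h2 : l ≠ 2) (hla : ¬ (l : ℤ) ∣ a) :
    chz a l = 1 ↔ ∃ s : ℤ, (l : ℤ) ∣ s ^ 2 + a := by
  have : Fact l.Prime := ⟨hl⟩
  have hodd : l % 2 = 1 := by
    rcases hl.eq_two_or_odd with h | h
    · exact absurd h h2
    · exact h
  rw [chz_odd hodd, ← jacobiSym.legendreSym.to_jacobiSym]
  have h3 : ((-a : ℤ) : ZMod l) ≠ 0 := by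
    intro h
    rw [ZMod.intCast_zmod_eq_zero_iff_dvd] at h
    exact hla ((dvd_neg).1 h)
  rw [legendreSym.eq_one_iff l h3]
  constructor
  · rintro ⟨y, hy⟩
    refine ⟨(y.val : ℤ), ?_⟩
    rw [← ZMod.intCast_zmod_eq_zero_iff_dvd]
    push_cast
    rw [ZMod.natCast_zmod_val]
    push_cast at hy
    linear_combination -hy
  · rintro ⟨s, hs⟩
    refine ⟨(s : ZMod l), ?_⟩
    rw [← ZMod.intCast_zmod_eq_zero_iff_dvd] at hs
    push_cast at hs ⊢
    linear_combination -hs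

lemma chz_dvd {a : ℤ} {l : ℕ} (hl : l.Prime) (h : l ∣ 2 * a.natAbs) : chz a l = 0 := by
  rw [chz_eq_zero_iff hl.ne_zero]
  intro h1
  have h2 := Nat.dvd_gcd dvd_rfl h
  rw [h1] at h2
  exact hl.one_lt.ne' (Nat.dvd_one.1 h2)

/-- for `a ≥ 1`: `χ(4a - 1) = -1` -/
lemma nsq_of_pos {a : ℤ} (ha : 0 < a) : Nsq a := by
  obtain ⟨k, rfl⟩ : ∃ k : ℕ, a = (k : ℤ) + 1 := ⟨(a - 1).toNat, by omega⟩
  refine ⟨4 * k + 3, ?_⟩
  have hodd : (4 * k + 3) % 2 = 1 := by omega
  have hO : Odd (4 * k + 3) := Nat.odd_iff.2 hodd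
  rw [chz_odd hodd, jacobiSym.neg _ hO]
  have h1 : jacobiSym ((k : ℤ) + 1) (4 * k + 3) = 1 := by
    have h4 : jacobiSym (4 * ((k : ℤ) + 1)) (4 * k + 3) = 1 := by
      have e : jacobiSym (4 * ((k : ℤ) + 1)) (4 * k + 3) = jacobiSym 1 (4 * k + 3) := by
        apply jacobiSym.mod_left'
        have : (4 * ((k : ℤ) + 1)) = 1 + ((4 * k + 3 : ℕ) : ℤ) := by push_cast; ring
        rw [this, Int.add_emod_right]
      rw [e, jacobiSym.one_left]
    rw [jacobiSym.mul_left, jacobiSym.at_four hO, one_mul] at h4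
    exact h4
  rw [h1, mul_one, ZMod.χ₄_nat_three_mod_four (by omega)]

/-! ## real values -/

lemma ch_mul (a : ℤ) (m n : ℕ) : ch a (m * n) = ch a m * ch a n := by
  unfold ch; rw [chz_mul]; push_cast; ring

lemma ch_one (a : ℤ) : ch a 1 = 1 := by unfold ch; rw [chz_one]; norm_num

lemma ch_zero (a : ℤ) : ch a 0 = 0 := by unfold ch; rw [chz_zero]; norm_num

lemma ch_abs_le (a : ℤ) (n : ℕ) : |ch a n| ≤ 1 := by
  unfold ch
  rcases chz_trichotomy a n with h | h | h <;> rw [h] <;> norm_num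

lemma ch_le (a : ℤ) (n : ℕ) : ch a n ≤ 1 := (le_abs_self _).trans (ch_abs_le a n)

lemma ch_ge (a : ℤ) (n : ℕ) : -1 ≤ ch a n := by
  have := neg_abs_le (ch a n)
  linarith [ch_abs_le a n]

lemma ch_congr {a : ℤ} {q m n : ℕ} (hq : 4 * a.natAbs ∣ q) (h : m ≡ n [MOD q]) :
    ch a m = ch a n := by unfold ch; rw [chz_congr hq h]

lemma one_sub_pos {a : ℤ} {l : ℕ} (hl : l.Prime) : 0 < 1 - ch a l / (l : ℝ) := by
  have h2 : (2 : ℝ) ≤ l := by exact_mod_cast hl.two_le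
  rw [sub_pos, div_lt_one (by linarith)]
  linarith [ch_le a l]

lemma rp_pos (a : ℤ) (D : ℕ) : 0 < rp a D :=
  prod_pos fun _ hl => one_sub_pos (Nat.prime_of_mem_primeFactors hl)

/-! ## partial sums -/

lemma sum_period {a : ℤ} (ha : a ≠ 0) (hN : Nsq a) : ∑ n ∈ range (4 * a.natAbs), ch a n = 0 := by
  obtain ⟨k, hk⟩ := hN
  set q := 4 * a.natAbs with hq
  have hqpos : 0 < q := by have := Int.natAbs_pos.2 ha; omega
  have hk0 : k ≠ 0 := by rintro rfl; rw [chz_zero] at hk; norm_num at hk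
  have hkc : k.Coprime q := by
    have h1 : k.Coprime (2 * a.natAbs) := by
      by_contra h
      rw [(chz_eq_zero_iff hk0).2 h] at hk
      norm_num at hk
    rw [hq, show 4 * a.natAbs = 2 * (2 * a.natAbs) by ring]
    exact Nat.Coprime.mul_right (Nat.Coprime.coprime_mul_right_right h1) h1
  have h1 : ∑ n ∈ range q, ch a (k * n) = ∑ n ∈ range q, ch a n := by
    have h2 := T1.ECRT.perm_sum hqpos hkc 0 (fun n => ch a n)
      (fun x => ch_congr dvd_rfl (Nat.mod_modEq _ _))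
    simpa only [zero_add] using h2
  have h3 : ∑ n ∈ range q, ch a (k * n) = - ∑ n ∈ range q, ch a n := by
    rw [← sum_neg_distrib]
    refine sum_congr rfl fun n _ => ?_
    rw [ch_mul, show ch a k = -1 by unfold ch; rw [hk]; norm_num]
    ring
  linarith

end Pool.Agent.Lib.MP391708.TA
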