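import Pool.Agent.Lib.MP_391708_nt.TA.Chi
import Pool.Agent.Lib.MP_391708_nt.Eqd.Prime

/-!
# Theorem T1a: the size of `S0` and of `rp`

`|S0 - log log z| ≤ C`, and `1 / rp D ≤ exp (δ S0)` for all `D ≤ B (N + 1) ^ 2`; here
`S0 = ∑ 2 / l` over the primes `l > E`, `l < z`, with `χ(l) = 1`.
-/

set_option autoImplicit false

namespace Pool.Agent.Lib.MP391708.TA.A3

open Finset Filter Topology
open Pool.Agent.Lib.MP391708.TA

noncomputable section

/-- the primes up to `y` with `χ(l) = 1` -/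
def P1 (a : ℤ) (y : ℕ) : Finset ℕ := (Icc 1 y).filter (fun l => l.Prime ∧ chz a l = 1)

/-- the classes modulo `4 |a|` with `χ = 1` -/
def cl1 (a : ℤ) : Finset ℕ := (range (4 * a.natAbs)).filter (fun b => chz a b = 1)

lemma card_cl1 {a : ℤ} (ha : a ≠ 0) (hN : Nsq a) :
    2 * ((cl1 a).card : ℝ) = ((4 * a.natAbs).totient : ℝ) := by
  set q := 4 * a.natAbs with hq
  have h1 := sum_period ha hN
  rw [← hq] at h1
  have h2 : ∑ n ∈ range q, ch a n ^ 2 = (q.totient : ℝ) := by
    rw [Nat.totient_eq_card_coprime, Finset.card_filter]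
    push_cast
    refine Finset.sum_congr rfl fun n _ => ?_
    rcases eq_or_ne n 0 with rfl | hn
    · rw [ch_zero]
      have hq1 : ¬ q.Coprime 0 := by
        rw [Nat.coprime_zero_right]
        have := Int.natAbs_pos.2 ha
        omega
      simp [hq1]
    have e1 : q.Coprime n ↔ n.Coprime (2 * a.natAbs) := by
      rw [Nat.coprime_comm]
      constructor
      · intro h
        exact h.coprime_dvd_right (Dvd.intro_left 2 (by rw [hq]; ring))
      · intro h
        have h2 : n.Coprime 2 := h.coprime_dvd_right (Dvd.intro _ rfl)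
        rw [hq, show 4 * a.natAbs = 2 * (2 * a.natAbs) by ring]
        exact Nat.Coprime.mul_right h2 h
    by_cases h : n.Coprime (2 * a.natAbs)
    · rw [if_pos (e1.2 h)]
      unfold ch
      rcases chz_sq hn h with h3 | h3 <;> rw [h3] <;> norm_num
    · rw [if_neg (fun h' => h (e1.1 h'))]
      unfold ch
      rw [(chz_eq_zero_iff hn).2 h]
      norm_num
  have h3 : ∀ n : ℕ, ch a n + ch a n ^ 2 = if chz a n = 1 then 2 else 0 := by
    intro n
    unfold ch
    rcases chz_trichotomy a n with h | h | h <;> rw [h] <;> norm_num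
  have h4 : ∑ n ∈ range q, (ch a n + ch a n ^ 2) = 2 * ((cl1 a).card : ℝ) := by
    rw [Finset.sum_congr rfl fun n _ => h3 n, ← Finset.sum_filter, Finset.sum_const, cl1,
      nsmul_eq_mul, mul_comm]
  rw [Finset.sum_add_distrib, h1, h2, zero_add] at h4
  exact h4.symm

lemma mert {a : ℤ} (ha : a ≠ 0) (hN : Nsq a) : ∃ C : ℝ, 0 ≤ C ∧ ∀ y : ℕ, 3 ≤ y →
    |(∑ l ∈ P1 a y, 1 / (l : ℝ)) - 1 / 2 * Real.log (Real.log y)| ≤ C := by
  set q := 4 * a.natAbs with hq
  have hq0 : 0 < q := by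
    have := Int.natAbs_pos.2 ha
    omega
  have hcop : ∀ b ∈ cl1 a, b.Coprime q := by
    intro b hb
    have h1 := (mem_filter.1 hb).2
    have hb0 : b ≠ 0 := by rintro rfl; rw [chz_zero] at h1; norm_num at h1
    have h2 : b.Coprime (2 * a.natAbs) := by
      by_contra h
      rw [(chz_eq_zero_iff hb0).2 h] at h1
      norm_num at h1
    have h3 : b.Coprime 2 := h2.coprime_dvd_right (Dvd.intro _ rfl)
    rw [hq, show 4 * a.natAbs = 2 * (2 * a.natAbs) by ring]
    exact Nat.Coprime.mul_right h3 h2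
  have hsp : ∀ b ∈ cl1 a, ∃ C : ℝ, ∀ y : ℕ, 3 ≤ y →
      |(∑ l ∈ (Icc 1 y).filter (fun l => l.Prime ∧ l ≡ b [MOD q]), 1 / (l : ℝ)) -
        1 / (q.totient : ℝ) * Real.log (Real.log y)| ≤ C := by
    intro b hb
    obtain ⟨C, hC⟩ := Pool.Agent.Lib.MP391708.Eqd.specPrime q hq0 b (hcop b hb) 1 one_pos
    refine ⟨C, fun y hy => ?_⟩
    have h := hC y hy 0 (by simp)
    have h1 : (∑ p ∈ (Icc 1 y).filter (fun p => p.Prime ∧ p ≡ b [MOD q]),
        (p : ℂ) ^ (-1 + Complex.I * ((0 : ℝ) : ℂ))) =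
        ((∑ l ∈ (Icc 1 y).filter (fun l => l.Prime ∧ l ≡ b [MOD q]), 1 / (l : ℝ) : ℝ) : ℂ) := by
      push_cast
      refine Finset.sum_congr rfl fun p _ => ?_
      rw [mul_zero, add_zero, Complex.cpow_neg_one, one_div]
    rw [h1, ← Complex.ofReal_sub, Complex.norm_real, Real.norm_eq_abs] at h
    have h2 : -Real.log (1 / Real.log y + |(0 : ℝ)|) = Real.log (Real.log y) := by
      rw [abs_zero, add_zero, one_div, Real.log_inv, neg_neg]
    rw [h2] at h
    exact h
  choose! Cb hCb using hsp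
  refine ⟨∑ b ∈ cl1 a, |Cb b|, Finset.sum_nonneg fun _ _ => abs_nonneg _, fun y hy => ?_⟩
  have h1 : ∑ l ∈ P1 a y, 1 / (l : ℝ) =
      ∑ b ∈ cl1 a, ∑ l ∈ (Icc 1 y).filter (fun l => l.Prime ∧ l ≡ b [MOD q]), 1 / (l : ℝ) := by
    have h2 : ∀ l ∈ P1 a y, l % q ∈ cl1 a := by
      intro l hl
      have h3 := (mem_filter.1 hl).2.2
      refine mem_filter.2 ⟨mem_range.2 (Nat.mod_lt _ hq0), ?_⟩
      rw [hq, chz_mod]
      exact h3
    rw [← Finset.sum_fiberwise_of_maps_to h2]
    refine Finset.sum_congr rfl fun b hb => Finset.sum_congr ?_ fun _ _ => rfl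
    have hbq : b < q := mem_range.1 (mem_filter.1 hb).1
    have hb1 := (mem_filter.1 hb).2
    ext l
    simp only [P1, mem_filter, mem_Icc]
    constructor
    · rintro ⟨⟨h3, h4, h5⟩, h6⟩
      refine ⟨h3, h4, ?_⟩
      rw [Nat.ModEq, h6, Nat.mod_eq_of_lt hbq]
    · rintro ⟨h3, h4, h5⟩
      refine ⟨⟨h3, h4, ?_⟩, ?_⟩
      · rw [chz_congr (dvd_of_eq hq.symm) h5, hb1]
      · rw [Nat.ModEq, Nat.mod_eq_of_lt hbq] at h5
        exact h5
  have h3 : 1 / 2 * Real.log (Real.log y) =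
      ∑ b ∈ cl1 a, 1 / (q.totient : ℝ) * Real.log (Real.log y) := by
    rw [Finset.sum_const, nsmul_eq_mul]
    have h4 := card_cl1 ha hN
    rw [← hq] at h4
    have h5 : (0 : ℝ) < q.totient := by exact_mod_cast Nat.totient_pos.2 hq0
    rw [← h4] at h5 ⊢
    have h6 : ((cl1 a).card : ℝ) ≠ 0 := by
      intro h
      rw [h] at h5
      norm_num at h5
    field_simp
  rw [h1, h3, ← Finset.sum_sub_distrib]
  refine (Finset.abs_sum_le_sum_abs _ _).trans (Finset.sum_le_sum fun b hb => ?_)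
  exact (hCb b hb y hy).trans (le_abs_self _)

/-- the sieving primes -/
def PPf (a : ℤ) (E : ℕ) (z : ℝ) : Finset ℕ :=
  (range ⌈z⌉₊).filter (fun l => l.Prime ∧ chz a l = 1 ∧ E < l)

/-- `S0` -/
def S0f (a : ℤ) (E : ℕ) (z : ℝ) : ℝ := ∑ l ∈ PPf a E z, 2 / (l : ℝ)

lemma PPf_eq (a : ℤ) (E : ℕ) (z : ℝ) :
    PPf a E z = (P1 a (⌈z⌉₊ - 1)).filter (fun l => E < l) := by
  ext l
  rw [PPf, mem_filter, mem_range, mem_filter, P1, mem_filter, mem_Icc]
  constructor
  · rintro ⟨h1, h2, h3, h4⟩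
    have := h2.pos
    exact ⟨⟨⟨this, by omega⟩, h2, h3⟩, h4⟩
  · rintro ⟨⟨⟨h1, h2⟩, h3, h4⟩, h5⟩
    exact ⟨by omega, h3, h4, h5⟩

lemma S0_le_sum (a : ℤ) (E : ℕ) (z : ℝ) :
    S0f a E z ≤ 2 * ∑ l ∈ P1 a (⌈z⌉₊ - 1), 1 / (l : ℝ) := by
  unfold S0f
  rw [PPf_eq, Finset.mul_sum]
  calc _ = ∑ l ∈ (P1 a (⌈z⌉₊ - 1)).filter (fun l => E < l), 2 * (1 / (l : ℝ)) :=
        Finset.sum_congr rfl fun l _ => by ring
    _ ≤ _ := Finset.sum_le_sum_of_subset_of_nonneg (filter_subset _ _)
        fun l _ _ => by positivity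

lemma sum_le_S0 (a : ℤ) (E : ℕ) (z : ℝ) :
    2 * ∑ l ∈ P1 a (⌈z⌉₊ - 1), 1 / (l : ℝ) ≤ S0f a E z + 2 * E := by
  unfold S0f
  rw [PPf_eq, ← Finset.sum_filter_add_sum_filter_not (P1 a (⌈z⌉₊ - 1)) (fun l => E < l),
    mul_add, Finset.mul_sum]
  have h1 : ∑ l ∈ (P1 a (⌈z⌉₊ - 1)).filter (fun l => ¬ E < l), 1 / (l : ℝ) ≤ E := by
    calc _ ≤ ∑ l ∈ (P1 a (⌈z⌉₊ - 1)).filter (fun l => ¬ E < l), (1 : ℝ) := by
          refine Finset.sum_le_sum fun l hl => ?_
          have h2 : 1 ≤ l := by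
            have h3 := (mem_filter.1 hl).1
            unfold P1 at h3
            exact (mem_Icc.1 (mem_filter.1 h3).1).1
          have h3 : (1 : ℝ) ≤ l := by exact_mod_cast h2
          rw [div_le_one (by linarith)]
          exact h3
      _ = (((P1 a (⌈z⌉₊ - 1)).filter (fun l => ¬ E < l)).card : ℝ) := by simp
      _ ≤ ((Icc 1 E).card : ℝ) := by
          refine Nat.cast_le.2 (Finset.card_le_card fun l hl => ?_)
          have h3 := mem_filter.1 hl
          have h4 := h3.1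
          unfold P1 at h4
          exact mem_Icc.2 ⟨(mem_Icc.1 (mem_filter.1 h4).1).1, by omega⟩
      _ = E := by simp
  have h2 : ∑ l ∈ (P1 a (⌈z⌉₊ - 1)).filter (fun l => E < l), 2 * (1 / (l : ℝ)) =
      ∑ l ∈ (P1 a (⌈z⌉₊ - 1)).filter (fun l => E < l), 2 / (l : ℝ) :=
    Finset.sum_congr rfl fun l _ => by ring
  rw [h2]
  linarith

/-- **the size of `S0`** -/
theorem S0_bounds {a : ℤ} (ha : a ≠ 0) (hN : Nsq a) (E : ℕ) : ∃ C : ℝ, 0 ≤ C ∧
    ∀ z : ℝ, 9 ≤ z → |S0f a E z - Real.log (Real.log z)| ≤ C := by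
  obtain ⟨C, hC0, hC⟩ := mert ha hN
  refine ⟨2 * C + 2 * E + Real.log 2, by positivity, ?_⟩
  intro z hN
  set y := ⌈z⌉₊ - 1 with hy
  have h1 : (9 : ℝ) ≤ ⌈z⌉₊ := hN.trans (Nat.le_ceil z)
  have h1' : 9 ≤ ⌈z⌉₊ := by exact_mod_cast h1
  have hy3 : 3 ≤ y := by omega
  have hyz : z - 1 ≤ y := by
    have h2 := Nat.le_ceil z
    have h3 : (y : ℝ) = ⌈z⌉₊ - 1 := by
      rw [hy, Nat.cast_sub (by omega)]
      simp
    linarith
  have hyz' : (y : ℝ) ≤ z := by
    have h2 := Nat.ceil_lt_add_one (by linarith : 0 ≤ z)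
    have h3 : (y : ℝ) = ⌈z⌉₊ - 1 := by
      rw [hy, Nat.cast_sub (by omega)]
      simp
    linarith
  have hlogz : 1 < Real.log z := by
    rw [Real.lt_log_iff_exp_lt (by linarith)]
    have := Real.exp_one_lt_d9
    linarith
  have h2 : 1 / 2 * Real.log z ≤ Real.log y := by
    have h3 : Real.sqrt z ≤ z - 1 := by
      rw [Real.sqrt_le_left (by linarith)]
      nlinarith
    have h4 : 1 / 2 * Real.log z = Real.log (Real.sqrt z) := by
      rw [Real.log_sqrt (by linarith)]
      ring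
    rw [h4]
    exact Real.log_le_log (Real.sqrt_pos.2 (by linarith)) (h3.trans hyz)
  have h3 : Real.log y ≤ Real.log z := Real.log_le_log (by
    have : (3 : ℝ) ≤ y := by exact_mod_cast hy3
    linarith) hyz'
  have h4 : Real.log (Real.log y) ≤ Real.log (Real.log z) :=
    Real.log_le_log (by linarith) h3
  have h5 : Real.log (Real.log z) - Real.log 2 ≤ Real.log (Real.log y) := by
    rw [← Real.log_div (by linarith) (by norm_num)]
    refine Real.log_le_log (by linarith) ?_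
    linarith
  have h6 := abs_le.1 (hC y hy3)
  have h7 := S0_le_sum a E z
  have h8 := sum_le_S0 a E z
  rw [← hy] at h7 h8
  have h9 : 0 ≤ Real.log 2 := Real.log_nonneg (by norm_num)
  have hE : (0 : ℝ) ≤ E := Nat.cast_nonneg _
  rw [abs_le]
  constructor <;> linarith [h6.1, h6.2]

/-- `exp S0 ≤ C log z` -/
theorem exp_S0_le {a : ℤ} (ha : a ≠ 0) (hN : Nsq a) (E : ℕ) : ∃ C : ℝ, 0 < C ∧
    ∀ z : ℝ, 9 ≤ z → Real.exp (S0f a E z) ≤ C * Real.log z ∧ 1 < Real.log z ∧
      Real.log z ≤ C * Real.exp (S0f a E z) := by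
  obtain ⟨C, hC0, hC⟩ := S0_bounds ha hN E
  refine ⟨Real.exp C, Real.exp_pos _, ?_⟩
  intro z hz
  have hlogz : 1 < Real.log z := by
    rw [Real.lt_log_iff_exp_lt (by linarith)]
    have := Real.exp_one_lt_d9
    linarith
  have h1 := abs_le.1 (hC z hz)
  refine ⟨?_, hlogz, ?_⟩
  · calc Real.exp (S0f a E z) ≤ Real.exp (C + Real.log (Real.log z)) :=
          Real.exp_le_exp.2 (by linarith [h1.2])
      _ = _ := by rw [Real.exp_add, Real.exp_log (by linarith)]
  · calc Real.log z = Real.exp (Real.log (Real.log z)) := by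
          rw [Real.exp_log (by linarith)]
      _ ≤ Real.exp (C + S0f a E z) := Real.exp_le_exp.2 (by linarith [h1.1])
      _ = _ := by rw [Real.exp_add]

lemma tendsto_z {ζ : ℝ} (hζ : 0 < ζ) : Tendsto (fun N : ℕ => (N : ℝ) ^ ζ) atTop atTop :=
  (tendsto_rpow_atTop hζ).comp tendsto_natCast_atTop_atTop

/-! ### The weight `rp` -/

lemma ch_nonpos {a : ℤ} {l : ℕ} (hl : chz a l ≠ 1) : ch a l ≤ 0 := by
  unfold ch
  rcases chz_trichotomy a l with h | h | h
  · rw [h]; norm_num
  · exact absurd h hl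
  · rw [h]; norm_num

lemma one_div_rp_le (a : ℤ) (D : ℕ) : 1 / rp a D ≤
    Real.exp (1 + ∑ l ∈ D.primeFactors.filter (fun l => chz a l = 1), 1 / (l : ℝ)) := by
  have h1 : 1 / rp a D ≤ ∏ l ∈ D.primeFactors,
      (if chz a l = 1 then Real.exp (1 / (l : ℝ) + (1 / ((l : ℝ) - 1) - 1 / l)) else 1) := by
    unfold rp
    rw [one_div, ← Finset.prod_inv_distrib]
    refine Finset.prod_le_prod (fun l hl => ?_) fun l hl => ?_
    · have := one_sub_pos (a := a) (Nat.prime_of_mem_primeFactors hl)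
      positivity
    · have h1 := (Nat.prime_of_mem_primeFactors hl).two_le
      have h2 : (2 : ℝ) ≤ l := by exact_mod_cast h1
      split_ifs with h
      · have h3 := ch_le a l
        have h4 : ch a l / l ≤ 1 / l := by gcongr
        have h5 : (0 : ℝ) < 1 - 1 / l := by
          have : 1 / (l : ℝ) ≤ 1 / 2 := by gcongr
          linarith
        calc (1 - ch a l / l)⁻¹ ≤ (1 - 1 / (l : ℝ))⁻¹ := inv_anti₀ h5 (by linarith)
          _ = 1 + 1 / ((l : ℝ) - 1) := by
              have : (l : ℝ) - 1 ≠ 0 := by linarith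
              field_simp
              ring
          _ ≤ Real.exp (1 / ((l : ℝ) - 1)) := by
              have := Real.add_one_le_exp (1 / ((l : ℝ) - 1))
              linarith
          _ = _ := by congr 1; ring
      · have h3 : ch a l / l ≤ 0 := div_nonpos_of_nonpos_of_nonneg (ch_nonpos h) (by linarith)
        exact inv_le_one_of_one_le₀ (by linarith)
  refine h1.trans ?_
  rw [← Finset.prod_filter, ← Real.exp_sum, Real.exp_le_exp, Finset.sum_add_distrib, add_comm]
  gcongr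
  -- telescoping
  set s := D.primeFactors.filter (fun l => chz a l = 1) with hs
  have hsub : s ⊆ Ico 2 (D + 2) := by
    intro l hl
    have h2 := (mem_filter.1 hl).1
    have h3 := (Nat.prime_of_mem_primeFactors h2).two_le
    have h4 := Nat.le_of_mem_primeFactors h2
    exact mem_Ico.2 ⟨h3, by omega⟩
  calc ∑ l ∈ s, (1 / ((l : ℝ) - 1) - 1 / l) ≤ ∑ l ∈ Ico 2 (D + 2), (1 / ((l : ℝ) - 1) - 1 / l) := by
        refine Finset.sum_le_sum_of_subset_of_nonneg hsub fun l hl _ => ?_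
        have h3 : (2 : ℝ) ≤ l := by exact_mod_cast (mem_Ico.1 hl).1
        have h4 : 1 / (l : ℝ) ≤ 1 / ((l : ℝ) - 1) :=
          one_div_le_one_div_of_le (by linarith) (by linarith)
        linarith
    _ = 1 - 1 / ((D : ℝ) + 1) := by
        rw [Finset.sum_Ico_eq_sum_range]
        simp only [Nat.add_sub_cancel]
        have h5 : ∀ n : ℕ, ∑ k ∈ range n, (1 / (((2 + k : ℕ) : ℝ) - 1) - 1 / ((2 + k : ℕ) : ℝ)) =
            1 - 1 / ((n : ℝ) + 1) := by
          intro n
          induction n with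
          | zero => simp
          | succ n ih =>
            rw [Finset.sum_range_succ, ih]
            push_cast
            have e1 : (2 : ℝ) + n - 1 = n + 1 := by ring
            rw [e1]
            ring
        exact h5 D
    _ ≤ 1 := by
        have : (0 : ℝ) ≤ 1 / ((D : ℝ) + 1) := by positivity
        linarith

lemma card_primeFactors_le {D B : ℕ} (hD : D ≠ 0) (h : D ≤ B) :
    D.primeFactors.card ≤ Nat.log 2 B := by
  refine Nat.le_log_of_pow_le (by norm_num) (le_trans ?_ h)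
  calc 2 ^ D.primeFactors.card ≤ ∏ l ∈ D.primeFactors, l :=
        Finset.pow_card_le_prod _ _ _ fun l hl => (Nat.prime_of_mem_primeFactors hl).two_le
    _ ≤ D := Nat.le_of_dvd (Nat.pos_of_ne_zero hD) (Nat.prod_primeFactors_dvd D)

/-- the sum of the reciprocals of the prime divisors with `χ(l) = 1` -/
lemma sum_primeFactors_le {a : ℤ} {C : ℝ} (hC : ∀ y : ℕ, 3 ≤ y →
    |(∑ l ∈ P1 a y, 1 / (l : ℝ)) - 1 / 2 * Real.log (Real.log y)| ≤ C) {D B : ℕ} (h : D ≤ B) :
    ∑ l ∈ D.primeFactors.filter (fun l => chz a l = 1), 1 / (l : ℝ) ≤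
      1 / 2 * Real.log (Real.log (Nat.log 2 B + 3 : ℕ)) + C + 1 := by
  rcases eq_or_ne D 0 with rfl | hD
  · have h1 := abs_le.1 (hC (Nat.log 2 B + 3) (by omega))
    have h2 : 0 ≤ ∑ l ∈ P1 a (Nat.log 2 B + 3), 1 / (l : ℝ) :=
      Finset.sum_nonneg fun l _ => by positivity
    simp only [Nat.primeFactors_zero, Finset.filter_empty, Finset.sum_empty]
    linarith [h1.2]
  set y := Nat.log 2 B + 3 with hy
  have h1 := abs_le.1 (hC y (by omega))
  rw [← Finset.sum_filter_add_sum_filter_not _ (fun l => l ≤ y)]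
  have h2 : ∑ l ∈ (D.primeFactors.filter (fun l => chz a l = 1)).filter (fun l => l ≤ y),
      1 / (l : ℝ) ≤ ∑ l ∈ P1 a y, 1 / (l : ℝ) := by
    refine Finset.sum_le_sum_of_subset_of_nonneg (fun l hl => ?_) fun l _ _ => by positivity
    have h3 := mem_filter.1 hl
    have h4 := mem_filter.1 h3.1
    have h5 := Nat.prime_of_mem_primeFactors h4.1
    exact mem_filter.2 ⟨mem_Icc.2 ⟨h5.pos, h3.2⟩, h5, h4.2⟩
  have h3 : ∑ l ∈ (D.primeFactors.filter (fun l => chz a l = 1)).filter (fun l => ¬ l ≤ y),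
      1 / (l : ℝ) ≤ 1 := by
    calc _ ≤ ∑ l ∈ (D.primeFactors.filter (fun l => chz a l = 1)).filter (fun l => ¬ l ≤ y),
          1 / (y : ℝ) := by
          refine Finset.sum_le_sum fun l hl => ?_
          have h4 := (mem_filter.1 hl).2
          have h5 : (y : ℝ) ≤ l := by exact_mod_cast (by omega : y ≤ l)
          have h6 : (0 : ℝ) < y := by exact_mod_cast (by omega : 0 < y)
          exact one_div_le_one_div_of_le h6 h5
      _ = (((D.primeFactors.filter (fun l => chz a l = 1)).filter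
            (fun l => ¬ l ≤ y)).card : ℝ) * (1 / y) := by simp
      _ ≤ (y : ℝ) * (1 / y) := by
          have h4 : ((D.primeFactors.filter (fun l => chz a l = 1)).filter
              (fun l => ¬ l ≤ y)).card ≤ y := by
            refine (Finset.card_le_card (filter_subset _ _)).trans
              ((Finset.card_le_card (filter_subset _ _)).trans ?_)
            have := card_primeFactors_le hD h
            omega
          gcongr
      _ = 1 := by
          have h6 : (y : ℝ) ≠ 0 := by exact_mod_cast (by omega : y ≠ 0)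
          field_simp
  linarith [h1.2]

/-- **the weight `rp` is negligible** -/
theorem one_div_rp_le_exp {a : ℤ} (ha : a ≠ 0) (hNs : Nsq a) (E B : ℕ) {ζ : ℝ} (hζ : 0 < ζ)
    {δ : ℝ} (hδ : 0 < δ) :
    ∀ᶠ N : ℕ in atTop, ∀ D : ℕ, D ≤ B * (N + 1) ^ 2 →
      1 / rp a D ≤ Real.exp (δ * S0f a E ((N : ℝ) ^ ζ)) := by
  obtain ⟨C, hC0, hC⟩ := mert ha hNs
  obtain ⟨C', hC'0, hC'⟩ := exp_S0_le ha hNs E
  -- the comparison of the sizes
  have hev : ∀ᶠ N : ℕ in atTop, Real.exp (2 + C) * Real.sqrt (Real.log (17 + 6 * Real.log N)) ≤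
      (ζ * Real.log N / C') ^ δ := by
    have h1 : Tendsto (fun N : ℕ => Real.log N) atTop atTop :=
      Real.tendsto_log_atTop.comp tendsto_natCast_atTop_atTop
    have h2 : ∀ᶠ x : ℝ in atTop, Real.exp (2 + C) * Real.sqrt (Real.log (17 + 6 * x)) ≤
        (ζ * x / C') ^ δ := by
      have h3 : Tendsto (fun x : ℝ => 17 + 6 * x) atTop atTop :=
        tendsto_atTop_add_const_left _ _ (Tendsto.const_mul_atTop (by norm_num) tendsto_id)
      -- sqrt (log u) ≤ log u ≤ c u ^ δ
      have h4 : ∀ᶠ u : ℝ in atTop, Real.exp (2 + C) * Real.log u ≤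
          (ζ / (8 * C')) ^ δ * u ^ δ := by
        have h5 := (isLittleO_log_rpow_atTop hδ).bound
          (show 0 < (ζ / (8 * C')) ^ δ / Real.exp (2 + C) by positivity)
        filter_upwards [h5, eventually_ge_atTop 1] with u hu hu1
        rw [Real.norm_eq_abs, Real.norm_eq_abs, abs_of_nonneg (Real.log_nonneg hu1),
          abs_of_nonneg (by positivity)] at hu
        calc Real.exp (2 + C) * Real.log u ≤
            Real.exp (2 + C) * ((ζ / (8 * C')) ^ δ / Real.exp (2 + C) * u ^ δ) := by gcongr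
          _ = _ := by field_simp
      filter_upwards [h3.eventually h4, eventually_ge_atTop (17 : ℝ)] with x hx hx1
      have h6 : Real.sqrt (Real.log (17 + 6 * x)) ≤ Real.log (17 + 6 * x) := by
        have h7 : 1 ≤ Real.log (17 + 6 * x) := by
          rw [Real.le_log_iff_exp_le (by linarith)]
          have := Real.exp_one_lt_d9
          linarith
        rw [Real.sqrt_le_left (by linarith)]
        nlinarith
      calc Real.exp (2 + C) * Real.sqrt (Real.log (17 + 6 * x)) ≤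
          Real.exp (2 + C) * Real.log (17 + 6 * x) := by gcongr
        _ ≤ (ζ / (8 * C')) ^ δ * (17 + 6 * x) ^ δ := hx
        _ = (ζ / (8 * C') * (17 + 6 * x)) ^ δ := by
            rw [Real.mul_rpow (by positivity) (by linarith)]
        _ ≤ (ζ * x / C') ^ δ := by
            refine Real.rpow_le_rpow (by positivity) ?_ hδ.le
            rw [div_mul_eq_mul_div, div_le_div_iff₀ (by positivity) hC'0]
            have : ζ * (17 + 6 * x) ≤ ζ * (8 * x) := by
              apply mul_le_mul_of_nonneg_left _ hζ.le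
              linarith
            nlinarith
    exact h1.eventually h2
  filter_upwards [(tendsto_z hζ).eventually_ge_atTop 9, hev,
    eventually_ge_atTop (10000 + B)] with N hN' hN2 hN3 D hD
  have hN := hC' _ hN'
  have hNpos : (0 : ℝ) < N := by exact_mod_cast (by omega : 0 < N)
  have h1 := one_div_rp_le a D
  have h2 := sum_primeFactors_le hC hD
  refine h1.trans ?_
  set y := Nat.log 2 (B * (N + 1) ^ 2) + 3 with hy
  have hy3 : 3 ≤ y := by omega
  have hy3' : (3 : ℝ) ≤ y := by exact_mod_cast hy3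
  have hlogy : 1 < Real.log y := by
    rw [Real.lt_log_iff_exp_lt (by linarith)]
    have := Real.exp_one_lt_d9
    linarith
  -- size of `y`
  have hlogN : 0 < Real.log N := Real.log_pos (by
    have : (10000 : ℝ) ≤ N := by exact_mod_cast (by omega : 10000 ≤ N)
    linarith)
  have h3 : (y : ℝ) ≤ 17 + 6 * Real.log N := by
    have h4 : (2 : ℝ) ^ (Nat.log 2 (B * (N + 1) ^ 2)) ≤ (N : ℝ) ^ 4 := by
      have h6 : B * (N + 1) ^ 2 ≤ N ^ 4 := by
        calc B * (N + 1) ^ 2 ≤ N * (N + 1) ^ 2 := by gcongr; omega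
          _ ≤ N * (2 * N) ^ 2 := by gcongr; omega
          _ = 4 * N ^ 3 := by ring
          _ ≤ N * N ^ 3 := by gcongr; omega
          _ = N ^ 4 := by ring
      rcases Nat.eq_zero_or_pos (B * (N + 1) ^ 2) with h0 | h0
      · rw [h0]
        have h7 : (1 : ℝ) ≤ N := by exact_mod_cast (by omega : 1 ≤ N)
        simp only [Nat.log_zero_right, pow_zero]
        exact one_le_pow₀ h7
      have h5 : 2 ^ (Nat.log 2 (B * (N + 1) ^ 2)) ≤ B * (N + 1) ^ 2 :=
        Nat.pow_log_le_self 2 h0.ne'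
      exact_mod_cast h5.trans h6
    have h5 : (Nat.log 2 (B * (N + 1) ^ 2) : ℝ) * Real.log 2 ≤ 4 * Real.log N := by
      have h6 := Real.log_le_log (by positivity) h4
      rw [Real.log_pow, Real.log_pow] at h6
      exact_mod_cast h6
    have h6 : (2 / 3 : ℝ) < Real.log 2 := by
      have := Real.log_two_gt_d9
      linarith
    have h7 : (y : ℝ) = (Nat.log 2 (B * (N + 1) ^ 2) : ℝ) + 3 := by
      rw [hy]
      push_cast
      ring
    rw [h7]
    generalize (Nat.log 2 (B * (N + 1) ^ 2)) = n at h5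
    have h8 : (0 : ℝ) ≤ (n : ℝ) := Nat.cast_nonneg _
    have h9 : (n : ℝ) * (2 / 3) ≤ n * Real.log 2 := mul_le_mul_of_nonneg_left h6.le h8
    linarith
  have h4 : Real.exp (1 / 2 * Real.log (Real.log y)) = Real.sqrt (Real.log y) := by
    rw [Real.sqrt_eq_rpow, Real.rpow_def_of_pos (by linarith)]
    congr 1
    ring
  have h5 : Real.sqrt (Real.log y) ≤ Real.sqrt (Real.log (17 + 6 * Real.log N)) :=
    Real.sqrt_le_sqrt (Real.log_le_log (by linarith) h3)
  have h6 : ζ * Real.log N / C' ≤ Real.exp (S0f a E ((N : ℝ) ^ ζ)) := by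
    rw [div_le_iff₀ hC'0]
    have h7 : Real.log ((N : ℝ) ^ ζ) = ζ * Real.log N := Real.log_rpow hNpos ζ
    rw [← h7]
    linarith [hN.2.2]
  calc Real.exp (1 + ∑ l ∈ D.primeFactors.filter (fun l => chz a l = 1), 1 / (l : ℝ))
      ≤ Real.exp ((2 + C) + 1 / 2 * Real.log (Real.log y)) := by
        apply Real.exp_le_exp.2
        linarith
    _ = Real.exp (2 + C) * Real.sqrt (Real.log y) := by rw [Real.exp_add, h4]
    _ ≤ Real.exp (2 + C) * Real.sqrt (Real.log (17 + 6 * Real.log N)) := by gcongr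
    _ ≤ (ζ * Real.log N / C') ^ δ := hN2
    _ ≤ Real.exp (S0f a E ((N : ℝ) ^ ζ)) ^ δ := Real.rpow_le_rpow (by positivity) h6 hδ.le
    _ = Real.exp (δ * S0f a E ((N : ℝ) ^ ζ)) := by
        rw [← Real.exp_mul]
        congr 1
        ring

end

end Pool.Agent.Lib.MP391708.TA.A3
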