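import Pool.Agent.Lib.MP_391708_nt.TA.EQR
import Pool.Agent.Lib.MP_391708_nt.Div

/-!
# Theorem T1a, module E1D: the sum over `x` for fixed `D`, weight `r(x)`
-/

set_option autoImplicit false

namespace Pool.Agent.Lib.MP391708.TA

open Finset Filter Topology
open scoped Classical
open T1 (SDD Dm Locm F1 F2 wgt wgt0)

namespace E1DM

lemma emod_range {μ : ℕ} (hμ : 0 < μ) (x : ℤ) :
    ((x % (μ : ℤ)).toNat : ℤ) = x % μ ∧ (x % (μ : ℤ)).toNat < μ := by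
  have h1 : 0 ≤ x % (μ : ℤ) := Int.emod_nonneg _ (by exact_mod_cast hμ.ne')
  have h2 : x % (μ : ℤ) < μ := Int.emod_lt_of_pos _ (by exact_mod_cast hμ)
  have h3 := Int.toNat_of_nonneg h1
  exact ⟨h3, by omega⟩

lemma natmod_dvd (q x : ℕ) : (q : ℤ) ∣ ((x % q : ℕ) : ℤ) - (x : ℤ) := by
  rw [Int.natCast_mod, dvd_sub_comm]
  exact Int.dvd_self_sub_emod

/-! ## the classes modulo `D W Q` -/

/-- the summand without the condition modulo `m` -/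
noncomputable def F0 (b G : ℤ) (D W : ℕ) (ψ : ℤ → ℝ) (X : ℤ) : ℝ :=
  if ((D * W : ℕ) : ℤ) ∣ b * X - G then ψ ((b * X - G) / (D : ℤ)) else 0

lemma F0_eq {b G : ℤ} {D W Q : ℕ} (hD : 0 < D) (hW : 0 < W) (hQ : 0 < Q) {ψ : ℤ → ℝ}
    (hψ : ∀ u v : ℤ, (Q : ℤ) ∣ u - v → ψ u = ψ v) (X : ℤ) :
    F0 b G D W ψ X = ∑ e ∈ range Q, ψ ((W * e : ℕ) : ℤ) *
      (if ((D * W * Q : ℕ) : ℤ) ∣ b * X - (G + D * ((W * e : ℕ) : ℤ)) then (1 : ℝ) else 0) := by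
  have hD' : (D : ℤ) ≠ 0 := by exact_mod_cast hD.ne'
  have hW' : (W : ℤ) ≠ 0 := by exact_mod_cast hW.ne'
  have hQ' : (Q : ℤ) ≠ 0 := by exact_mod_cast hQ.ne'
  have hdvd : ((D * W : ℕ) : ℤ) ∣ ((D * W * Q : ℕ) : ℤ) := by push_cast; exact dvd_mul_right _ _
  unfold F0
  by_cases h5 : ((D * W : ℕ) : ℤ) ∣ b * X - G
  · rw [if_pos h5]
    obtain ⟨u, hu⟩ := h5
    have key : ∀ e : ℕ, ((D * W * Q : ℕ) : ℤ) ∣ b * X - (G + D * ((W * e : ℕ) : ℤ)) ↔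
        (Q : ℤ) ∣ u - e := by
      intro e
      have e1 : b * X - (G + D * ((W * e : ℕ) : ℤ)) = ((D * W : ℕ) : ℤ) * (u - e) := by
        have : b * X = G + ((D * W : ℕ) : ℤ) * u := by rw [← hu]; ring
        rw [this]; push_cast; ring
      rw [e1, (by push_cast; ring : ((D * W * Q : ℕ) : ℤ) = ((D * W : ℕ) : ℤ) * Q)]
      exact mul_dvd_mul_iff_left (by push_cast; positivity)
    have h6 := emod_range hQ u
    rw [sum_eq_single (u % (Q : ℤ)).toNat]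
    · rw [if_pos ((key _).2 (by rw [h6.1]; exact Int.dvd_self_sub_emod)), mul_one]
      apply hψ
      have e1 : (b * X - G) / (D : ℤ) = W * u := by
        rw [hu]; push_cast
        rw [mul_assoc, Int.mul_ediv_cancel_left _ hD']
      rw [e1]
      push_cast
      rw [← mul_sub]
      apply dvd_mul_of_dvd_right
      have := h6.1
      rw [this]
      exact Int.dvd_self_sub_emod
    · intro e he hne
      rw [if_neg, mul_zero]
      intro h7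
      apply hne
      have h8 := (key e).1 h7
      have h9 : u % Q = (e : ℤ) % Q := Int.emod_eq_emod_iff_emod_sub_eq_zero.2
        (Int.emod_eq_zero_of_dvd h8)
      rw [Int.emod_eq_of_lt (by omega : (0 : ℤ) ≤ e) (by have := mem_range.1 he; omega)] at h9
      omega
    · intro h7
      exact absurd (mem_range.2 h6.2) h7
  · rw [if_neg h5]
    symm
    refine sum_eq_zero fun e _ => ?_
    rw [if_neg, mul_zero]
    intro h7
    apply h5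
    have h8 := hdvd.trans h7
    have e1 : b * X - G = (b * X - (G + D * ((W * e : ℕ) : ℤ))) +
        ((D * W : ℕ) : ℤ) * e := by push_cast; ring
    rw [e1]
    exact dvd_add h8 (dvd_mul_right _ _)

/-! ## the densities -/

lemma dens_congr {a : ℤ} {l j : ℕ} {c c' : ℤ} (h : ((l ^ j : ℕ) : ℤ) ∣ c - c') :
    dens a l j c = dens a l j c' := by
  have h1 : ∀ i ≤ j, (((l ^ i : ℕ) : ℤ) ∣ c ↔ ((l ^ i : ℕ) : ℤ) ∣ c') := by
    intro i hi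
    have h2 : ((l ^ i : ℕ) : ℤ) ∣ c - c' :=
      (by exact_mod_cast pow_dvd_pow l hi : ((l ^ i : ℕ) : ℤ) ∣ ((l ^ j : ℕ) : ℤ)).trans h
    constructor
    · intro h3
      have := dvd_sub h3 h2
      rwa [sub_sub_cancel] at this
    · intro h3
      have := dvd_add h2 h3
      rwa [sub_add_cancel] at this
  unfold dens
  rw [if_congr (h1 j le_rfl) rfl rfl]
  congr 2
  refine sum_congr rfl fun i hi => ?_
  rw [if_congr (h1 i (mem_range.1 hi).le) rfl rfl]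

/-- multiplication by a number prime to `l` -/
lemma dens_mul {a : ℤ} {l : ℕ} (hl : l.Prime) {b : ℕ} (hb : ¬ l ∣ b) (j : ℕ) (c : ℤ) :
    dens a l j (b * c) = dens a l j c := by
  have h1 : ∀ i : ℕ, (((l ^ i : ℕ) : ℤ) ∣ b * c ↔ ((l ^ i : ℕ) : ℤ) ∣ c) := by
    intro i
    have hc : IsCoprime ((l ^ i : ℕ) : ℤ) (b : ℤ) := by
      rw [Nat.isCoprime_iff_coprime]
      exact Nat.Coprime.pow_left _ ((hl.coprime_iff_not_dvd).2 hb)
    exact ⟨fun h => hc.dvd_of_dvd_mul_left h, fun h => dvd_mul_of_dvd_right h _⟩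
  unfold dens
  rw [if_congr (h1 j) rfl rfl]
  congr 2
  refine sum_congr rfl fun i _ => ?_
  rw [if_congr (h1 i) rfl rfl]

lemma omj_congr {a : ℤ} {l j : ℕ} {G d e e' : ℤ} (h : ((l ^ j : ℕ) : ℤ) ∣ e - e') :
    omj a l j G d e = omj a l j G d e' := by
  unfold omj
  split_ifs with h1
  · rfl
  · apply dens_congr
    have : G + d * e - (G + d * e') = d * (e - e') := by ring
    rw [this]
    exact dvd_mul_of_dvd_right h _

/-- the sum over `e` -/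
lemma sum_e {a : ℤ} {W D : ℕ} {S : Finset ℕ} {j : ℕ → ℕ} {G : ℤ} {ψ : ℕ → ℤ → ℤ → ℝ}
    (hS : ∀ l ∈ S, l.Prime ∧ ¬ l ∣ W ∧ Locm (l ^ j l) (ψ l)) :
    ∑ e ∈ range (∏ l ∈ S, l ^ j l), (∏ l ∈ S, ψ l (D : ℤ) ((W * e : ℕ) : ℤ)) *
        ∏ l ∈ S, omj a l (j l) G (D : ℤ) ((W * e : ℕ) : ℤ) =
      ∏ l ∈ S, ((l : ℝ) ^ j l * Bm a l (j l) G (ψ l) (D : ℤ)) := by
  have hprime : ∀ l ∈ S, l.Prime := fun l hl => (hS l hl).1
  simp only [← prod_mul_distrib]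
  have hper : ∀ l ∈ S, ∀ x : ℕ,
      (fun y : ℕ => ψ l (D : ℤ) (y : ℤ) * omj a l (j l) G (D : ℤ) (y : ℤ)) (x % l ^ j l) =
      (fun y : ℕ => ψ l (D : ℤ) (y : ℤ) * omj a l (j l) G (D : ℤ) (y : ℤ)) x := by
    intro l hl x
    have h1 := natmod_dvd (l ^ j l) x
    have h2 : ψ l (D : ℤ) ((x % l ^ j l : ℕ) : ℤ) = ψ l (D : ℤ) (x : ℤ) :=
      (hS l hl).2.2.2 _ _ _ _ (by rw [sub_self]; exact dvd_zero _) h1
    show ψ l (D : ℤ) ((x % l ^ j l : ℕ) : ℤ) * omj a l (j l) G (D : ℤ) ((x % l ^ j l : ℕ) : ℤ) = _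
    rw [h2, omj_congr h1]
  have hmulmod : ∀ l ∈ S, ∀ x : ℕ, (fun e : ℕ => ψ l (D : ℤ) ((W * e : ℕ) : ℤ) *
        omj a l (j l) G (D : ℤ) ((W * e : ℕ) : ℤ)) (x % l ^ j l) =
      (fun e : ℕ => ψ l (D : ℤ) ((W * e : ℕ) : ℤ) *
        omj a l (j l) G (D : ℤ) ((W * e : ℕ) : ℤ)) x := by
    intro l hl x
    have h1 := hper l hl (W * (x % l ^ j l))
    have h2 := hper l hl (W * x)
    simp only at h1 h2 ⊢
    rw [← h1, ← h2]
    have h3 : W * (x % l ^ j l) % l ^ j l = W * x % l ^ j l := by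
      rw [Nat.mul_mod, Nat.mod_mod, ← Nat.mul_mod]
    rw [h3]
  rw [T1.ECRT.crt_prodj S hprime j (fun l e => ψ l (D : ℤ) ((W * e : ℕ) : ℤ) *
        omj a l (j l) G (D : ℤ) ((W * e : ℕ) : ℤ)) hmulmod]
  refine prod_congr rfl fun l hl => ?_
  have hq : 0 < l ^ j l := pow_pos (hprime l hl).pos _
  have hcop : W.Coprime (l ^ j l) := by
    apply Nat.Coprime.pow_right
    rw [Nat.coprime_comm]
    exact ((hprime l hl).coprime_iff_not_dvd).2 (hS l hl).2.1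
  have h1 := T1.ECRT.perm_sum hq hcop 0
    (fun y : ℕ => ψ l (D : ℤ) (y : ℤ) * omj a l (j l) G (D : ℤ) (y : ℤ)) (hper l hl)
  simp only [zero_add] at h1
  rw [h1]
  unfold Bm
  rw [mul_div_cancel₀]
  have : (0 : ℝ) < l := by exact_mod_cast (hprime l hl).pos
  positivity

/-! ## `1 / rp` -/

lemma inv_rp_le (a : ℤ) (D : ℕ) : 1 / rp a D ≤ 2 ^ D.primeFactors.card := by
  rw [div_le_iff₀ (rp_pos a D)]
  unfold rp
  rw [← prod_const, ← prod_mul_distrib]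
  refine le_trans (le_of_eq (by simp : (1 : ℝ) = ∏ l ∈ D.primeFactors, (1 : ℝ))) ?_
  refine prod_le_prod (fun _ _ => zero_le_one) fun l hl => ?_
  have h2 : (2 : ℝ) ≤ l := by exact_mod_cast (Nat.prime_of_mem_primeFactors hl).two_le
  have h3 : ch a l / (l : ℝ) ≤ 1 / 2 := by
    rw [div_le_div_iff₀ (by linarith) (by norm_num)]
    linarith [ch_le a l]
  linarith

lemma two_pow_le_divisors {D : ℕ} (hD : 0 < D) : 2 ^ D.primeFactors.card ≤ D.divisors.card := by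
  rw [Nat.card_divisors hD.ne', ← prod_const]
  refine prod_le_prod (fun _ _ => Nat.zero_le _) fun l hl => ?_
  have h1 := Nat.prime_of_mem_primeFactors hl
  have h2 := h1.factorization_pos_of_dvd hD.ne' (Nat.dvd_of_mem_primeFactors hl)
  omega

lemma inv_rp (a : ℤ) (η : ℝ) (hη : 0 < η) : ∃ C : ℝ, 0 < C ∧ ∀ D : ℕ, 0 < D →
    1 / rp a D ≤ C * (D : ℝ) ^ η := by
  obtain ⟨C, hC, h⟩ := MP_391708_nt.Div.card_divisors_le_rpow η hη
  refine ⟨C, hC, fun D hD => (inv_rp_le a D).trans (le_trans ?_ (h D hD))⟩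
  exact_mod_cast two_pow_le_divisors hD

lemma rp_eq {a : ℤ} {m D : ℕ} (hm : 0 < m) (hD : 0 < D) (h1 : D ∣ m)
    (h2 : ∀ p : ℕ, p.Prime → p ∣ m → p ∣ D) : rp a m = rp a D := by
  unfold rp
  have : m.primeFactors = D.primeFactors := by
    ext p
    rw [Nat.mem_primeFactors, Nat.mem_primeFactors]
    exact ⟨fun h => ⟨h.1, h2 p h.1 h.2.1, hD.ne'⟩, fun h => ⟨h.1, h.2.1.trans h1, hm.ne'⟩⟩
  rw [this]

/-! ## EQR with the extra modulus `m` -/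

lemma eqr_m {a : ℤ} {C : ℝ}
    (hC : ∀ (μ₀ R₁ R₂ c₀ c : ℕ) (S : Finset ℕ) (j : ℕ → ℕ), 0 < μ₀ → 4 * a.natAbs ∣ μ₀ →
      c₀.Coprime μ₀ → chz a c₀ = 1 → (∀ l ∈ S, l.Prime ∧ ¬ l ∣ μ₀) → R₁ ≤ R₂ →
      |∑ x ∈ (Ioc R₁ R₂).filter (fun x : ℕ => x ≡ c₀ [MOD μ₀] ∧ x ≡ c [MOD ∏ l ∈ S, l ^ j l]),
          rr a x - ((R₂ : ℝ) - R₁) * (2 * LL a * rp a μ₀ / μ₀) *
            ∏ l ∈ S, (dens a l (j l) (c : ℤ) / (l : ℝ) ^ j l)| ≤
        C * ((∏ l ∈ S, l ^ j l : ℕ) : ℝ) * Real.sqrt R₂)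
    {μ₀ R₁ R₂ x₀ m κ : ℕ} {S : Finset ℕ} {j : ℕ → ℕ} (hμ : 0 < μ₀) (ha : 4 * a.natAbs ∣ μ₀)
    (hx : x₀.Coprime μ₀) (hchi : chz a x₀ = 1) (hS : ∀ l ∈ S, l.Prime ∧ ¬ l ∣ μ₀) (hR : R₁ ≤ R₂)
    (hm : m = 1 ∨ m.Prime) (hmμ : m.Coprime μ₀) (hmS : m ∉ S) (hκ : x₀ ≡ κ [MOD m]) :
    |∑ x ∈ (Ioc R₁ R₂).filter (fun x : ℕ => x ≡ x₀ [MOD μ₀] ∧
        x ≡ x₀ [MOD (∏ l ∈ S, l ^ j l) * m]), rr a x -
      ((R₂ : ℝ) - R₁) * (2 * LL a * rp a μ₀ / μ₀) *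
        (∏ l ∈ S, (dens a l (j l) (x₀ : ℤ) / (l : ℝ) ^ j l)) * dm a m κ| ≤
      C * ((∏ l ∈ S, l ^ j l : ℕ) : ℝ) * m * Real.sqrt R₂ := by
  rcases hm with hm | hm
  · subst hm
    have h := hC μ₀ R₁ R₂ x₀ x₀ S j hμ ha hx hchi hS hR
    unfold dm
    rw [if_pos rfl, mul_one, mul_one]
    push_cast at h ⊢
    rw [mul_one]
    exact h
  · have hm1 : m ≠ 1 := hm.ne_one
    have hmnd : ¬ m ∣ μ₀ := (hm.coprime_iff_not_dvd).1 hmμ
    have h := hC μ₀ R₁ R₂ x₀ x₀ (insert m S) (Function.update j m 1) hμ ha hx hchi ?_ hR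
    · have e1 : ∏ l ∈ insert m S, l ^ (Function.update j m 1) l = (∏ l ∈ S, l ^ j l) * m := by
        rw [prod_insert hmS, Function.update_self, pow_one, mul_comm]
        congr 1
        refine prod_congr rfl fun l hl => ?_
        rw [Function.update_of_ne (by rintro rfl; exact hmS hl)]
      have e2 : ∏ l ∈ insert m S, (dens a l ((Function.update j m 1) l) (x₀ : ℤ) /
            (l : ℝ) ^ (Function.update j m 1) l) =
          (∏ l ∈ S, (dens a l (j l) (x₀ : ℤ) / (l : ℝ) ^ j l)) * dm a m κ := by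
        rw [prod_insert hmS, Function.update_self, pow_one, mul_comm]
        congr 1
        · refine prod_congr rfl fun l hl => ?_
          rw [Function.update_of_ne (by rintro rfl; exact hmS hl)]
        · unfold dm
          rw [if_neg hm1]
          congr 1
          apply dens_congr
          rw [pow_one]
          exact (Nat.modEq_iff_dvd.1 hκ.symm)
      rw [e1, e2] at h
      have e3 : (((∏ l ∈ S, l ^ j l) * m : ℕ) : ℝ) = ((∏ l ∈ S, l ^ j l : ℕ) : ℝ) * m := by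
        push_cast; ring
      rw [e3, ← mul_assoc, ← mul_assoc] at h
      exact h
    · intro l hl
      rcases mem_insert.1 hl with h1 | h1
      · subst h1; exact ⟨hm, hmnd⟩
      · exact hS l h1

/-! ## one class `e` -/

lemma class_e {b G D W Q m κ e : ℕ} (hpos : 0 < D * W * Q) (hm : 0 < m)
    (hb : b.Coprime (D * W * Q)) (hco : (D * W * Q).Coprime m) :
    ∃ x₀ : ℕ, ((D * W * Q : ℕ) : ℤ) ∣ (b : ℤ) * x₀ - (G + D * ((W * e : ℕ) : ℤ)) ∧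
      x₀ ≡ κ [MOD m] ∧ ∀ x : ℕ,
        ((((D * W * Q : ℕ) : ℤ) ∣ (b : ℤ) * x - (G + D * ((W * e : ℕ) : ℤ)) ∧ x ≡ κ [MOD m]) ↔
          x ≡ x₀ [MOD D * W * Q * m]) := by
  obtain ⟨r, hr⟩ := EQR.inv_class hpos hb (G + D * (W * e))
  have key : ∀ x : ℕ, ((D * W * Q : ℕ) : ℤ) ∣ (b : ℤ) * x - (G + D * ((W * e : ℕ) : ℤ)) ↔
      x ≡ r [MOD D * W * Q] := by
    intro x
    rw [← hr x, Nat.modEq_iff_dvd, dvd_sub_comm]
    push_cast
    rfl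
  obtain ⟨x₀, h1, h2⟩ := Nat.chineseRemainder hco r κ
  refine ⟨x₀, (key x₀).2 h1, h2, fun x => ?_⟩
  rw [key x, ← Nat.modEq_and_modEq_iff_modEq_mul hco]
  constructor
  · rintro ⟨h3, h4⟩
    exact ⟨h3.trans h1.symm, h4.trans h2.symm⟩
  · rintro ⟨h3, h4⟩
    exact ⟨h3.trans h1, h4.trans h2⟩

lemma not_dvd_of_coprime {p u v : ℕ} (hp : p.Prime) (h : u.Coprime v) (h1 : p ∣ u) : ¬ p ∣ v := by
  intro h2
  have h3 := Nat.dvd_gcd h1 h2
  rw [h.gcd_eq_one] at h3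
  exact hp.one_lt.ne' (Nat.dvd_one.1 h3)

lemma coprime_of_primes {u v : ℕ} (h : ∀ p : ℕ, p.Prime → p ∣ u → p ∣ v → False) :
    u.Coprime v := by
  rw [Nat.coprime_iff_gcd_eq_one]
  by_contra hne
  obtain ⟨p, hp, h1⟩ := Nat.exists_prime_and_dvd hne
  exact h p hp (h1.trans (Nat.gcd_dvd_left _ _)) (h1.trans (Nat.gcd_dvd_right _ _))

lemma one_e {a : ℤ} {C : ℝ} (hC0 : 0 < C)
    (hC : ∀ (μ₀ R₁ R₂ c₀ c : ℕ) (S : Finset ℕ) (j : ℕ → ℕ), 0 < μ₀ → 4 * a.natAbs ∣ μ₀ →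
      c₀.Coprime μ₀ → chz a c₀ = 1 → (∀ l ∈ S, l.Prime ∧ ¬ l ∣ μ₀) → R₁ ≤ R₂ →
      |∑ x ∈ (Ioc R₁ R₂).filter (fun x : ℕ => x ≡ c₀ [MOD μ₀] ∧ x ≡ c [MOD ∏ l ∈ S, l ^ j l]),
          rr a x - ((R₂ : ℝ) - R₁) * (2 * LL a * rp a μ₀ / μ₀) *
            ∏ l ∈ S, (dens a l (j l) (c : ℤ) / (l : ℝ) ^ j l)| ≤
        C * ((∏ l ∈ S, l ^ j l : ℕ) : ℝ) * Real.sqrt R₂)
    {b G D W m κ R₁ R₂ : ℕ} {S : Finset ℕ} {j : ℕ → ℕ} (hW : 0 < W) (hD : 0 < D)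
    (haW : 4 * a.natAbs ∣ W) (hWD : W ∣ D) (hS : ∀ l ∈ S, l.Prime ∧ ¬ l ∣ W ∧ ¬ l ∣ b ∧ ¬ l ∣ m)
    (hDb : D.Coprime b) (hDm : D.Coprime m) (hDG : D.Coprime G) (hb1 : chz a b = 1)
    (hG1 : chz a G = 1) (hm : m = 1 ∨ m.Prime) (hR : R₁ ≤ R₂) (e : ℕ) :
    |∑ x ∈ (Ioc R₁ R₂).filter (fun x : ℕ => ((D * W * ∏ l ∈ S, l ^ j l : ℕ) : ℤ) ∣
        (b : ℤ) * x - (G + D * ((W * e : ℕ) : ℤ)) ∧ x ≡ κ [MOD m]), rr a x -
      ((R₂ : ℝ) - R₁) * (2 * LL a * rp a D / ((D * W * ∏ l ∈ S, l ^ j l : ℕ) : ℝ)) *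
        (∏ l ∈ S, omj a l (j l) (G : ℤ) (D : ℤ) ((W * e : ℕ) : ℤ)) * dm a m κ| ≤
      C * ((∏ l ∈ S, l ^ j l : ℕ) : ℝ) * m * Real.sqrt R₂ := by
  set S1 := S.filter (fun l => l ∣ D) with hS1
  set S2 := S.filter (fun l => ¬ l ∣ D) with hS2
  have hprime : ∀ l ∈ S, l.Prime := fun l hl => (hS l hl).1
  have hprime1 : ∀ l ∈ S1, l.Prime := fun l hl => hprime l (mem_filter.1 hl).1
  have hprime2 : ∀ l ∈ S2, l.Prime := fun l hl => hprime l (mem_filter.1 hl).1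
  have hm0 : 0 < m := by
    rcases hm with h | h
    · omega
    · exact h.pos
  set Q := ∏ l ∈ S, l ^ j l with hQ
  have hQpos : 0 < Q := prod_pos fun l hl => pow_pos (hprime l hl).pos _
  set μ := D * W * Q with hμ
  have hμpos : 0 < μ := Nat.mul_pos (Nat.mul_pos hD hW) hQpos
  set μ1 := D * W * ∏ l ∈ S1, l ^ j l with hμ1
  set Q2 := ∏ l ∈ S2, l ^ j l with hQ2
  have hprod : Q = (∏ l ∈ S1, l ^ j l) * Q2 := (prod_filter_mul_prod_filter_not S _ _).symm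
  have hμe : μ = μ1 * Q2 := by rw [hμ, hprod, hμ1]; ring
  have hμ1pos : 0 < μ1 := by
    rw [hμ1]
    exact Nat.mul_pos (Nat.mul_pos hD hW) (prod_pos fun l hl => pow_pos (hprime1 l hl).pos _)
  have hQ2pos : 0 < Q2 := prod_pos fun l hl => pow_pos (hprime2 l hl).pos _
  -- prime divisors
  have hpr : ∀ T : Finset ℕ, (∀ l ∈ T, l.Prime) → ∀ p : ℕ, p.Prime → p ∣ ∏ l ∈ T, l ^ j l → p ∈ T := by
    intro T hT p hp hpd
    obtain ⟨l, hl, h2⟩ := (Prime.dvd_finsetProd_iff hp.prime _).1 hpd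
    have h3 := hp.dvd_of_dvd_pow h2
    rw [(Nat.prime_dvd_prime_iff_eq hp (hT l hl)).1 h3]
    exact hl
  have hp1 : ∀ p : ℕ, p.Prime → p ∣ μ1 → p ∣ D := by
    intro p hp hpd
    rw [hμ1] at hpd
    rcases (Nat.Prime.dvd_mul hp).1 hpd with h | h
    · rcases (Nat.Prime.dvd_mul hp).1 h with h | h
      · exact h
      · exact h.trans hWD
    · exact (mem_filter.1 (hpr S1 hprime1 p hp h)).2
  have hpμ : ∀ p : ℕ, p.Prime → p ∣ μ → p ∣ D ∨ p ∈ S := by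
    intro p hp hpd
    rw [hμ] at hpd
    rcases (Nat.Prime.dvd_mul hp).1 hpd with h | h
    · rcases (Nat.Prime.dvd_mul hp).1 h with h | h
      · exact Or.inl h
      · exact Or.inl (h.trans hWD)
    · exact Or.inr (hpr S hprime p hp h)
  have hbμ : b.Coprime μ := by
    refine coprime_of_primes fun p hp h1 h2 => ?_
    rcases hpμ p hp h2 with h3 | h3
    · exact not_dvd_of_coprime hp hDb h3 h1
    · exact (hS p h3).2.2.1 h1
  have hμm : μ.Coprime m := by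
    refine coprime_of_primes fun p hp h1 h2 => ?_
    rcases hpμ p hp h1 with h3 | h3
    · exact not_dvd_of_coprime hp hDm h3 h2
    · exact (hS p h3).2.2.2 h2
  obtain ⟨x₀, hx1, hx2, hx3⟩ := class_e (G := G) (κ := κ) (e := e) hμpos hm0 hbμ hμm
  -- properties of `x₀`
  have hDμ : (D : ℤ) ∣ ((D * W * Q : ℕ) : ℤ) := by
    push_cast; rw [mul_assoc]; exact dvd_mul_right _ _
  have hcopx : x₀.Coprime μ1 := by
    refine coprime_of_primes fun p hp h1 h2 => ?_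
    have h3 := hp1 p hp h2
    have h3' : (p : ℤ) ∣ (D : ℤ) := by exact_mod_cast h3
    have h4 : (p : ℤ) ∣ (b : ℤ) * x₀ - (G + D * ((W * e : ℕ) : ℤ)) := (h3'.trans hDμ).trans hx1
    have h5 : (p : ℤ) ∣ (b : ℤ) * x₀ := dvd_mul_of_dvd_right (by exact_mod_cast h1) _
    have h6 : (p : ℤ) ∣ (G : ℤ) + D * ((W * e : ℕ) : ℤ) := by
      have := dvd_sub h5 h4
      rwa [sub_sub_cancel] at this
    have h7 : (p : ℤ) ∣ (G : ℤ) := by
      have := dvd_sub h6 (dvd_mul_of_dvd_left h3' (((W * e : ℕ) : ℤ)))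
      rwa [add_sub_cancel_right] at this
    exact not_dvd_of_coprime hp hDG h3 (by exact_mod_cast h7)
  have hchx : chz a x₀ = 1 := by
    have h1 : b * x₀ ≡ G + D * (W * e) [MOD D * W * Q] := by
      rw [Nat.modEq_iff_dvd, dvd_sub_comm]
      push_cast at hx1 ⊢
      exact hx1
    have h2 : b * x₀ ≡ G + D * (W * e) [MOD W] := h1.of_dvd (by
      rw [mul_comm D W, mul_assoc]; exact dvd_mul_right _ _)
    have h3 : G + D * (W * e) ≡ G [MOD W] := by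
      have : G + D * (W * e) = G + W * (D * e) := by ring
      rw [this]
      unfold Nat.ModEq
      rw [Nat.add_mul_mod_self_left]
    have h4 := chz_congr (a := a) haW (h2.trans h3)
    rw [chz_mul, hb1, hG1, one_mul] at h4
    exact h4
  have hmS : m ∉ S2 := by
    intro h
    exact (hS m (mem_filter.1 h).1).2.2.2 dvd_rfl
  have hmμ1 : m.Coprime μ1 := by
    refine coprime_of_primes fun p hp h1 h2 => ?_
    exact not_dvd_of_coprime hp hDm (hp1 p hp h2) h1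
  have hWμ1 : W ∣ μ1 := by
    rw [hμ1, mul_comm D W, mul_assoc]; exact dvd_mul_right _ _
  have h := eqr_m hC (S := S2) (j := j) hμ1pos (haW.trans hWμ1) hcopx hchx
    (fun l hl => ⟨hprime2 l hl, fun h => (mem_filter.1 hl).2 (hp1 l (hprime2 l hl) h)⟩) hR hm hmμ1
    hmS hx2
  -- the sets
  have hcop12 : μ1.Coprime (Q2 * m) := by
    refine coprime_of_primes fun p hp h1 h2 => ?_
    rcases (Nat.Prime.dvd_mul hp).1 h2 with h3 | h3
    · exact (mem_filter.1 (hpr S2 hprime2 p hp h3)).2 (hp1 p hp h1)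
    · exact not_dvd_of_coprime hp hmμ1 h3 h1
  have hset : (Ioc R₁ R₂).filter (fun x : ℕ => ((D * W * Q : ℕ) : ℤ) ∣
        (b : ℤ) * x - (G + D * ((W * e : ℕ) : ℤ)) ∧ x ≡ κ [MOD m]) =
      (Ioc R₁ R₂).filter (fun x : ℕ => x ≡ x₀ [MOD μ1] ∧ x ≡ x₀ [MOD Q2 * m]) := by
    refine filter_congr fun x _ => ?_
    rw [hx3 x, Nat.modEq_and_modEq_iff_modEq_mul hcop12]
    have : D * W * Q * m = μ1 * (Q2 * m) := by rw [← mul_assoc, ← hμe]
    rw [this]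
  -- the densities
  have hdens : ∀ l ∈ S2, dens a l (j l) (x₀ : ℤ) = omj a l (j l) (G : ℤ) (D : ℤ) ((W * e : ℕ) : ℤ) := by
    intro l hl
    unfold omj
    rw [if_neg (by
      intro h
      exact (mem_filter.1 hl).2 (by exact_mod_cast h)),
      ← dens_mul (a := a) (hprime2 l hl) (hS l (mem_filter.1 hl).1).2.2.1]
    apply dens_congr
    have h1 : l ^ j l ∣ D * W * Q :=
      dvd_mul_of_dvd_right (dvd_prod_of_mem (fun i => i ^ j i) (mem_filter.1 hl).1) _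
    exact (by exact_mod_cast h1 : ((l ^ j l : ℕ) : ℤ) ∣ ((D * W * Q : ℕ) : ℤ)).trans hx1
  have e4 : ∏ l ∈ S, omj a l (j l) (G : ℤ) (D : ℤ) ((W * e : ℕ) : ℤ) =
      ∏ l ∈ S2, omj a l (j l) (G : ℤ) (D : ℤ) ((W * e : ℕ) : ℤ) := by
    rw [← prod_filter_mul_prod_filter_not S (fun l => l ∣ D)]
    rw [prod_eq_one (s := S.filter (fun l => l ∣ D)), one_mul]
    intro l hl
    unfold omj
    rw [if_pos (by exact_mod_cast (mem_filter.1 hl).2)]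
  have e5 : ∏ l ∈ S2, (dens a l (j l) (x₀ : ℤ) / (l : ℝ) ^ j l) =
      (∏ l ∈ S, omj a l (j l) (G : ℤ) (D : ℤ) ((W * e : ℕ) : ℤ)) / Q2 := by
    rw [prod_div_distrib, e4, prod_congr rfl hdens, hQ2]
    push_cast
    rfl
  have e6 : rp a μ1 = rp a D := rp_eq hμ1pos hD (by rw [hμ1, mul_assoc]; exact dvd_mul_right _ _) hp1
  rw [hset]
  have e7 : ((R₂ : ℝ) - R₁) * (2 * LL a * rp a μ1 / μ1) *
        (∏ l ∈ S2, (dens a l (j l) (x₀ : ℤ) / (l : ℝ) ^ j l)) * dm a m κ =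
      ((R₂ : ℝ) - R₁) * (2 * LL a * rp a D / ((D * W * Q : ℕ) : ℝ)) *
        (∏ l ∈ S, omj a l (j l) (G : ℤ) (D : ℤ) ((W * e : ℕ) : ℤ)) * dm a m κ := by
    rw [e5, e6]
    have e8 : ((D * W * Q : ℕ) : ℝ) = (μ1 : ℝ) * Q2 := by
      rw [← Nat.cast_mul, ← hμe]
    rw [e8]
    have h8 : (μ1 : ℝ) ≠ 0 := by exact_mod_cast hμ1pos.ne'
    have h9 : (Q2 : ℝ) ≠ 0 := by exact_mod_cast hQ2pos.ne'
    field_simp
  rw [e7] at h
  refine h.trans ?_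
  have h10 : (Q2 : ℝ) ≤ Q := by
    have : Q2 ≤ Q := Nat.le_of_dvd hQpos ⟨_, by rw [hprod, mul_comm]⟩
    exact_mod_cast this
  have h11 : (0 : ℝ) ≤ m := by positivity
  gcongr

end E1DM

open E1DM in
/-- E1D -/
theorem specE1D (hE : SpecEQR) (hL : SpecLMJ) : SpecE1D := by
  intro a ha hN η hη
  obtain ⟨C, hC0, hC⟩ := hE a ha hN
  obtain ⟨C', hC'0, hC'⟩ := inv_rp a η hη
  refine ⟨C * C' + 2 * |LL a|, by positivity, ?_⟩
  intro t N S j ψ hok hN1 hle hS hQN D hD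
  obtain ⟨hW, h4W, hn, hnρ, hb, hb4, hm, hbm, hG, hG4, hWn, hWG, hnG, hA, hL0, hR⟩ := hok
  rw [EX.SD, SDD, mem_filter, mem_Ioc] at hD
  obtain ⟨⟨hA1, hA2⟩, hWD, hDρ, hDG⟩ := hD
  have hD0 : 0 < D := by omega
  obtain ⟨hR12, hR2, hRL⟩ := hR D hA1 hA2
  have hm0 : 0 < t.m := by
    rcases hm with h | h
    · omega
    · exact h.pos
  -- coprimality of `D` and `n`
  have hDn : D.Coprime t.n := by
    have h1 : Nat.gcd D t.n = Nat.gcd t.ρ t.n := Nat.ModEq.gcd_eq hDρ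
    rw [Nat.Coprime, h1, Nat.gcd_comm]
    exact hnρ
  have hbn : ∀ l : ℕ, l.Prime → l ∣ t.b → l ∣ t.n := fun l hl h => hbm l hl (dvd_mul_of_dvd_left h _)
  have hmn : ∀ l : ℕ, l.Prime → l ∣ t.m → l ∣ t.n := fun l hl h => hbm l hl (dvd_mul_of_dvd_right h _)
  have hDb : D.Coprime t.b := coprime_of_primes fun p hp h1 h2 =>
    not_dvd_of_coprime hp hDn h1 (hbn p hp h2)
  have hDm : D.Coprime t.m := coprime_of_primes fun p hp h1 h2 =>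
    not_dvd_of_coprime hp hDn h1 (hmn p hp h2)
  set Q := ∏ l ∈ S, l ^ j l with hQ
  have hprime : ∀ l ∈ S, l.Prime := fun l hl => (hS l hl).1
  have hSW : ∀ l ∈ S, ¬ l ∣ t.W := fun l hl h => (hS l hl).2.1 (dvd_mul_of_dvd_left h _)
  have hSn : ∀ l ∈ S, ¬ l ∣ t.n := fun l hl h => (hS l hl).2.1 (dvd_mul_of_dvd_right h _)
  have hQpos : 0 < Q := prod_pos fun l hl => pow_pos (hprime l hl).pos _
  -- the summand
  set Ψ : ℤ → ℝ := fun v => ∏ l ∈ S, ψ l (D : ℤ) v with hΨ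
  have hΨper : ∀ u v : ℤ, (Q : ℤ) ∣ u - v → Ψ u = Ψ v := by
    intro u v huv
    refine prod_congr rfl fun l hl => (hS l hl).2.2.2.2 _ _ _ _ (by rw [sub_self]; exact dvd_zero _) ?_
    have h1 : l ^ j l ∣ Q := dvd_prod_of_mem (fun i => i ^ j i) hl
    exact (by exact_mod_cast h1 : ((l ^ j l : ℕ) : ℤ) ∣ (Q : ℤ)).trans huv
  have hΨ0 : ∀ v, 0 ≤ Ψ v := fun v => prod_nonneg fun l hl => ((hS l hl).2.2.2.1 _ _).1
  have hΨ1 : ∀ v, Ψ v ≤ 1 := fun v =>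
    prod_le_one (fun l hl => ((hS l hl).2.2.2.1 _ _).1) (fun l hl => ((hS l hl).2.2.2.1 _ _).2)
  set I := Ioc (t.R₁ D) (t.R₂ D) with hI
  have hsum : ∑ x ∈ t.SX D, rr a x * ∏ l ∈ S, ψ l (D : ℤ) (((t.b : ℤ) * x - t.G) / (D : ℤ)) =
      ∑ e ∈ range Q, Ψ ((t.W * e : ℕ) : ℤ) * ∑ x ∈ I.filter (fun x : ℕ =>
        ((D * t.W * Q : ℕ) : ℤ) ∣ (t.b : ℤ) * x - (t.G + D * ((t.W * e : ℕ) : ℤ)) ∧
          x ≡ t.κ [MOD t.m]), rr a x := by
    have h1 : ∑ x ∈ t.SX D, rr a x * ∏ l ∈ S, ψ l (D : ℤ) (((t.b : ℤ) * x - t.G) / (D : ℤ)) =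
        ∑ x ∈ I.filter (fun x : ℕ => x ≡ t.κ [MOD t.m]), rr a x * F0 t.b t.G D t.W Ψ (x : ℤ) := by
      unfold EX.SX
      rw [sum_filter, sum_filter]
      refine sum_congr rfl fun x _ => ?_
      by_cases h2 : ((D * t.W : ℕ) : ℤ) ∣ (t.b : ℤ) * x - t.G
      · by_cases h3 : x ≡ t.κ [MOD t.m]
        · rw [if_pos ⟨h2, h3⟩, if_pos h3]
          unfold F0
          rw [if_pos h2]
        · rw [if_neg (fun h => h3 h.2), if_neg h3]
      · rw [if_neg (fun h => h2 h.1)]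
        unfold F0
        rw [if_neg h2, mul_zero, ite_self]
    rw [h1]
    have h2 : ∀ x : ℕ, rr a x * F0 t.b t.G D t.W Ψ (x : ℤ) = ∑ e ∈ range Q,
        Ψ ((t.W * e : ℕ) : ℤ) * (if ((D * t.W * Q : ℕ) : ℤ) ∣
          (t.b : ℤ) * x - (t.G + D * ((t.W * e : ℕ) : ℤ)) then rr a x else 0) := by
      intro x
      rw [F0_eq hD0 hW hQpos hΨper, mul_sum]
      refine sum_congr rfl fun e _ => ?_
      split_ifs <;> ring
    simp only [h2]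
    rw [sum_comm]
    refine sum_congr rfl fun e _ => ?_
    rw [← mul_sum]
    congr 1
    rw [← sum_filter, filter_filter]
    refine sum_congr (filter_congr fun x _ => ?_) fun _ _ => rfl
    exact and_comm
  rw [hsum]
  have hSall : ∀ l ∈ S, l.Prime ∧ ¬ l ∣ t.W ∧ ¬ l ∣ t.b ∧ ¬ l ∣ t.m := fun l hl =>
    ⟨hprime l hl, hSW l hl, fun h => hSn l hl (hbn l (hprime l hl) h),
      fun h => hSn l hl (hmn l (hprime l hl) h)⟩
  have hone := fun e : ℕ => one_e hC0 hC (κ := t.κ) (j := j) hW hD0 h4W hWD hSall hDb hDm hDG hb4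
    hG4 hm hR12 e
  rw [← hQ] at hone
  set PB := ∏ l ∈ S, Bm a l (j l) t.G (ψ l) (D : ℤ) with hPB
  have hBm : ∀ l ∈ S, 0 ≤ Bm a l (j l) t.G (ψ l) (D : ℤ) ∧ Bm a l (j l) t.G (ψ l) (D : ℤ) ≤ 1 := by
    intro l hl
    exact (hL a l (j l) t.G (hprime l hl) (hS l hl).2.2.1).2.2.2.2.1 (ψ l) D (hS l hl).2.2.2.1
  have hPB0 : 0 ≤ PB := prod_nonneg fun l hl => (hBm l hl).1
  have hPB1 : PB ≤ 1 := prod_le_one (fun l hl => (hBm l hl).1) (fun l hl => (hBm l hl).2)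
  have hdm : 0 ≤ dm a t.m t.κ ∧ dm a t.m t.κ ≤ 1 := by
    unfold dm
    rcases hm with h | h
    · rw [if_pos h]; norm_num
    · rw [if_neg h.ne_one]
      have h1 := (hL a t.m 1 t.G h le_rfl).2.2.2.2.2.2.1 (t.κ : ℤ)
      have h2 : (2 : ℝ) ≤ t.m := by exact_mod_cast h.two_le
      push_cast at h1
      refine ⟨div_nonneg h1.1 (by linarith), ?_⟩
      rw [div_le_one (by linarith)]
      linarith [h1.2]
  have hsE : ∑ e ∈ range Q, Ψ ((t.W * e : ℕ) : ℤ) *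
      ∏ l ∈ S, omj a l (j l) (t.G : ℤ) (D : ℤ) ((t.W * e : ℕ) : ℤ) = Q * PB := by
    have h1 := sum_e (a := a) (W := t.W) (D := D) (j := j) (G := (t.G : ℤ)) (ψ := ψ)
      (fun l hl => ⟨hprime l hl, hSW l hl, (hS l hl).2.2.2⟩)
    rw [← hQ] at h1
    rw [h1, prod_mul_distrib, hQ]
    push_cast
    rfl
  have hDr : (1 : ℝ) ≤ D := by exact_mod_cast hD0
  have hWr : (1 : ℝ) ≤ t.W := by exact_mod_cast hW
  have hQr : (1 : ℝ) ≤ Q := by exact_mod_cast hQpos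
  have hmr : (1 : ℝ) ≤ t.m := by exact_mod_cast hm0
  have hbr : (1 : ℝ) ≤ t.b := by exact_mod_cast hb
  have hAr : (1 : ℝ) ≤ t.A₂ := hDr.trans (by exact_mod_cast hA2)
  have hrp := rp_pos a D
  set T0 := ∑ e ∈ range Q, Ψ ((t.W * e : ℕ) : ℤ) * ∑ x ∈ I.filter (fun x : ℕ =>
        ((D * t.W * Q : ℕ) : ℤ) ∣ (t.b : ℤ) * x - (t.G + D * ((t.W * e : ℕ) : ℤ)) ∧
          x ≡ t.κ [MOD t.m]), rr a x with hT0
  -- the sum over `e`
  have h1 : |T0 - ((t.R₂ D : ℝ) - t.R₁ D) * (2 * LL a * rp a D / (D * t.W)) * PB * dm a t.m t.κ| ≤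
      C * (Q : ℝ) ^ 2 * t.m * Real.sqrt t.R := by
    have e1 : ((t.R₂ D : ℝ) - t.R₁ D) * (2 * LL a * rp a D / (D * t.W)) * PB * dm a t.m t.κ =
        ∑ e ∈ range Q, Ψ ((t.W * e : ℕ) : ℤ) * (((t.R₂ D : ℝ) - t.R₁ D) *
          (2 * LL a * rp a D / ((D * t.W * Q : ℕ) : ℝ)) *
          (∏ l ∈ S, omj a l (j l) (t.G : ℤ) (D : ℤ) ((t.W * e : ℕ) : ℤ)) * dm a t.m t.κ) := by
      have e2 : ∀ e ∈ range Q, Ψ ((t.W * e : ℕ) : ℤ) * (((t.R₂ D : ℝ) - t.R₁ D) *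
          (2 * LL a * rp a D / ((D * t.W * Q : ℕ) : ℝ)) *
          (∏ l ∈ S, omj a l (j l) (t.G : ℤ) (D : ℤ) ((t.W * e : ℕ) : ℤ)) * dm a t.m t.κ) =
          (((t.R₂ D : ℝ) - t.R₁ D) * (2 * LL a * rp a D / ((D * t.W * Q : ℕ) : ℝ)) *
            dm a t.m t.κ) * (Ψ ((t.W * e : ℕ) : ℤ) *
            ∏ l ∈ S, omj a l (j l) (t.G : ℤ) (D : ℤ) ((t.W * e : ℕ) : ℤ)) := fun e _ => by ring
      rw [sum_congr rfl e2, ← mul_sum, hsE]
      push_cast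
      field_simp
    rw [e1, hT0, ← sum_sub_distrib]
    refine (abs_sum_le_sum_abs _ _).trans ?_
    have h2 : ∀ e ∈ range Q, |Ψ ((t.W * e : ℕ) : ℤ) * ∑ x ∈ I.filter (fun x : ℕ =>
        ((D * t.W * Q : ℕ) : ℤ) ∣ (t.b : ℤ) * x - (t.G + D * ((t.W * e : ℕ) : ℤ)) ∧
          x ≡ t.κ [MOD t.m]), rr a x - Ψ ((t.W * e : ℕ) : ℤ) * (((t.R₂ D : ℝ) - t.R₁ D) *
          (2 * LL a * rp a D / ((D * t.W * Q : ℕ) : ℝ)) *
          (∏ l ∈ S, omj a l (j l) (t.G : ℤ) (D : ℤ) ((t.W * e : ℕ) : ℤ)) * dm a t.m t.κ)| ≤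
        C * Q * t.m * Real.sqrt t.R := by
      intro e _
      rw [← mul_sub, abs_mul, abs_of_nonneg (hΨ0 _)]
      have h3 : C * (Q : ℝ) * t.m * Real.sqrt (t.R₂ D) ≤ C * Q * t.m * Real.sqrt t.R := by
        have : Real.sqrt (t.R₂ D) ≤ Real.sqrt t.R := Real.sqrt_le_sqrt (by exact_mod_cast hR2)
        exact mul_le_mul_of_nonneg_left this (by positivity)
      calc _ ≤ 1 * (C * (Q : ℝ) * t.m * Real.sqrt (t.R₂ D)) :=
            mul_le_mul (hΨ1 _) (hone e) (abs_nonneg _) zero_le_one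
        _ ≤ _ := by rw [one_mul]; exact h3
    refine (sum_le_sum h2).trans (le_of_eq ?_)
    rw [sum_const, card_range, nsmul_eq_mul]
    ring
  -- first difference
  have h2 : |(1 / rp a D) * T0 - ((t.R₂ D : ℝ) - t.R₁ D) * (2 * LL a / (D * t.W)) * PB *
      dm a t.m t.κ| ≤ C * C' * N ^ η * (Q : ℝ) ^ 2 * t.m * Real.sqrt t.R := by
    have e1 : (1 / rp a D) * T0 - ((t.R₂ D : ℝ) - t.R₁ D) * (2 * LL a / (D * t.W)) * PB *
        dm a t.m t.κ = (1 / rp a D) * (T0 - ((t.R₂ D : ℝ) - t.R₁ D) *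
          (2 * LL a * rp a D / (D * t.W)) * PB * dm a t.m t.κ) := by
      field_simp
    rw [e1, abs_mul, abs_of_pos (by positivity)]
    have h3 : 1 / rp a D ≤ C' * N ^ η := by
      refine (hC' D hD0).trans ?_
      have h4 : (D : ℝ) ≤ N := le_trans (by exact_mod_cast hA2) hle.2.2.2.2.2.1
      have h5 : (D : ℝ) ^ η ≤ N ^ η := Real.rpow_le_rpow (by positivity) h4 hη.le
      exact mul_le_mul_of_nonneg_left h5 hC'0.le
    calc 1 / rp a D * _ ≤ (C' * N ^ η) * (C * (Q : ℝ) ^ 2 * t.m * Real.sqrt t.R) :=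
          mul_le_mul h3 h1 (abs_nonneg _) (by positivity)
      _ = _ := by ring
  have h3 : |((t.R₂ D : ℝ) - t.R₁ D) * (2 * LL a / (D * t.W)) * PB * dm a t.m t.κ -
      2 * LL a * t.L / (t.b * t.W) * dm a t.m t.κ * PB| ≤ 2 * |LL a| := by
    have e1 : ((t.R₂ D : ℝ) - t.R₁ D) * (2 * LL a / (D * t.W)) * PB * dm a t.m t.κ -
        2 * LL a * t.L / (t.b * t.W) * dm a t.m t.κ * PB =
        2 * LL a * (PB * dm a t.m t.κ / (D * t.W)) * (((t.R₂ D : ℝ) - t.R₁ D) - D * t.L / t.b) := by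
      field_simp
    rw [e1, abs_mul, abs_mul, abs_mul, abs_two]
    have h4 : |PB * dm a t.m t.κ / (D * t.W)| ≤ 1 := by
      rw [abs_of_nonneg (div_nonneg (mul_nonneg hPB0 hdm.1) (by positivity)),
        div_le_one (by positivity)]
      have h5 : PB * dm a t.m t.κ ≤ 1 := mul_le_one₀ hPB1 hdm.1 hdm.2
      have h6 : (1 : ℝ) ≤ D * t.W := one_le_mul_of_one_le_of_one_le hDr hWr
      linarith
    calc 2 * |LL a| * |PB * dm a t.m t.κ / (D * t.W)| * |((t.R₂ D : ℝ) - t.R₁ D) - D * t.L / t.b| ≤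
        2 * |LL a| * 1 * 1 := by gcongr
      _ = _ := by ring
  have h4 := abs_sub_le ((1 / rp a D) * T0)
    (((t.R₂ D : ℝ) - t.R₁ D) * (2 * LL a / (D * t.W)) * PB * dm a t.m t.κ)
    (2 * LL a * t.L / (t.b * t.W) * dm a t.m t.κ * PB)
  refine h4.trans ((add_le_add h2 h3).trans ?_)
  have hNη : (1 : ℝ) ≤ N ^ η := Real.one_le_rpow hN1 hη.le
  have hs := Real.sqrt_nonneg (t.R : ℝ)
  have hM : (1 : ℝ) ≤ N ^ η * (Q : ℝ) ^ 2 * t.m :=
    one_le_mul_of_one_le_of_one_le (one_le_mul_of_one_le_of_one_le hNη (one_le_pow₀ hQr)) hmr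
  have hWA : (1 : ℝ) ≤ t.W * t.A₂ := one_le_mul_of_one_le_of_one_le hWr hAr
  have hMW : (1 : ℝ) ≤ N ^ η * (Q : ℝ) ^ 2 * t.m * (t.W * t.A₂) :=
    one_le_mul_of_one_le_of_one_le hM hWA
  have hLL := abs_nonneg (LL a)
  have h5 : 2 * |LL a| ≤ 2 * |LL a| * (N ^ η * (Q : ℝ) ^ 2 * t.m * (t.W * t.A₂)) :=
    le_mul_of_one_le_right (by positivity) hMW
  have h6 : 0 ≤ C * C' * (N ^ η * (Q : ℝ) ^ 2 * t.m * (t.W * t.A₂)) := by positivity
  have h7 : 0 ≤ 2 * |LL a| * (N ^ η * (Q : ℝ) ^ 2 * t.m * Real.sqrt t.R) := by positivity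
  have e9 : (C * C' + 2 * |LL a|) * N ^ η * (Q : ℝ) ^ 2 * t.m * (Real.sqrt t.R + t.W * t.A₂) =
      C * C' * N ^ η * (Q : ℝ) ^ 2 * t.m * Real.sqrt t.R +
      C * C' * (N ^ η * (Q : ℝ) ^ 2 * t.m * (t.W * t.A₂)) +
      2 * |LL a| * (N ^ η * (Q : ℝ) ^ 2 * t.m * Real.sqrt t.R) +
      2 * |LL a| * (N ^ η * (Q : ℝ) ^ 2 * t.m * (t.W * t.A₂)) := by ring
  rw [e9]
  linarith

end Pool.Agent.Lib.MP391708.TA
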