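import Pool.Agent.Lib.MP_391708_nt.TA.ESpec
import Pool.Agent.Lib.MP_391708_nt.Div

/-!
# Theorem T1a, module E1G: E1 from E1D and E1S
-/

set_option autoImplicit false

namespace Pool.Agent.Lib.MP391708.TA

open Finset
open scoped Classical
open T1 (SDD Dm Locm SpecE1S)

namespace E1GM

lemma mod_dvd (q x : ℕ) : (q : ℤ) ∣ ((x % q : ℕ) : ℤ) - (x : ℤ) := by
  rw [Int.natCast_mod]
  exact ⟨-(x / q : ℤ), by have := Int.emod_add_mul_ediv (x : ℤ) q; linarith⟩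

/-- `dens` depends only on the class modulo `l ^ j` -/
lemma dens_congr {a : ℤ} {l j : ℕ} {c c' : ℤ} (h : ((l ^ j : ℕ) : ℤ) ∣ c - c') :
    dens a l j c = dens a l j c' := by
  have h1 : ∀ i ≤ j, (((l ^ i : ℕ) : ℤ) ∣ c ↔ ((l ^ i : ℕ) : ℤ) ∣ c') := by
    intro i hi
    have h2 : ((l ^ i : ℕ) : ℤ) ∣ c - c' :=
      (Int.natCast_dvd_natCast.2 (pow_dvd_pow l hi)).trans h
    constructor
    · intro h3
      have := dvd_sub h3 h2
      rwa [sub_sub_cancel] at this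
    · intro h3
      have := dvd_add h2 h3
      rwa [sub_add_cancel] at this
  unfold dens
  simp only [h1 j le_rfl]
  congr 2
  refine sum_congr rfl fun i hi => ?_
  simp only [h1 i (mem_range.1 hi).le]

/-- `Bm` depends only on the class of `d` -/
lemma Bm_mod {a : ℤ} {l j : ℕ} (hj : 1 ≤ j) (G : ℤ) {ψ : ℤ → ℤ → ℝ} (hψ : Locm (l ^ j) ψ) (x : ℕ) :
    Bm a l j G ψ ((x % l ^ j : ℕ) : ℤ) = Bm a l j G ψ (x : ℤ) := by
  have h0 := mod_dvd (l ^ j) x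
  set y : ℤ := ((x % l ^ j : ℕ) : ℤ) with hy
  have hl : (l : ℤ) ∣ ((l ^ j : ℕ) : ℤ) := by
    exact_mod_cast dvd_pow_self l (by omega : j ≠ 0)
  have e1 : (l : ℤ) ∣ y ↔ (l : ℤ) ∣ (x : ℤ) := by
    constructor
    · intro h
      have := dvd_sub h (hl.trans h0)
      simpa using this
    · intro h
      have := dvd_add (hl.trans h0) h
      simpa using this
  unfold Bm
  congr 1
  refine sum_congr rfl fun e _ => ?_
  rw [hψ.2 y (x : ℤ) (e : ℤ) (e : ℤ) h0 (by rw [sub_self]; exact dvd_zero _)]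
  congr 1
  unfold omj
  simp only [e1]
  split_ifs with h
  · rfl
  · refine dens_congr ?_
    have : (G + y * (e : ℤ)) - (G + (x : ℤ) * (e : ℤ)) = (y - x) * e := by ring
    rw [this]
    exact dvd_mul_of_dvd_left h0 _

/-- bounds for the density of the extra condition -/
lemma dm_bounds (hl : SpecLMJ) (a : ℤ) {m : ℕ} (hm : m = 1 ∨ m.Prime) (κ : ℕ) :
    0 ≤ dm a m κ ∧ dm a m κ ≤ 1 := by
  unfold dm
  split_ifs with h
  · exact ⟨zero_le_one, le_rfl⟩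
  · have hp : m.Prime := hm.resolve_left h
    have h1 := (hl a m 1 0 hp le_rfl).2.2.2.2.2.2.1 (κ : ℤ)
    have h2 : (2 : ℝ) ≤ m := by exact_mod_cast hp.two_le
    refine ⟨div_nonneg h1.1 (by linarith), ?_⟩
    rw [div_le_one (by linarith)]
    have h3 := h1.2
    push_cast at h3
    linarith

end E1GM

open E1GM in
/-- E1 -/
theorem specE1g (hd : SpecE1D) (hs : SpecE1S) (hl : SpecLMJ) : SpecE1g := by
  intro a ha hNsq η hη
  obtain ⟨C₁, hC₁, H₁⟩ := hd a ha hNsq η hη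
  obtain ⟨C₂, hC₂, H₂⟩ := MP_391708_nt.Div.card_divisors_le_rpow η hη
  refine ⟨C₁ + 8 * |LL a| * C₂, by positivity, ?_⟩
  intro t N S j ψ hok hN hle hS hQN
  have hok' := hok
  obtain ⟨hW, h4W, hn, hnρ, hb, hb4, hm, hbm, hG, hG4, hWn, hWG, hnG, hA, hL0, hR⟩ := hok'
  have hm1 : 1 ≤ t.m := by
    rcases hm with h | h
    · omega
    · exact h.one_le
  set Q := ∏ l ∈ S, l ^ j l with hQ
  have hprime : ∀ l ∈ S, l.Prime := fun l hl => (hS l hl).1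
  have hQpos : 0 < Q := prod_pos fun l hl => pow_pos (hprime l hl).pos _
  set B : ℕ → ℕ → ℝ := fun l x => Bm a l (j l) t.G (ψ l) (x : ℤ) with hB
  have hBm : ∀ l ∈ S, ∀ x, 0 ≤ B l x ∧ B l x ≤ 1 := fun l hl' x =>
    (hl a l (j l) t.G (hprime l hl') (hS l hl').2.2.1).2.2.2.2.1 (ψ l) x
      (hS l hl').2.2.2.1
  have hE := hs t.W t.n t.ρ t.G t.A₁ t.A₂ S j B hW hn hG hWn hWG hnG hA
    (fun l hl' => ⟨hprime l hl', (hS l hl').2.1, (hS l hl').2.2.1, hBm l hl',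
      fun x => Bm_mod (hS l hl').2.2.1 _ (hS l hl').2.2.2 x⟩)
  set c : ℝ := 2 * LL a * t.L / (t.b * t.W) * dm a t.m t.κ with hc
  have hWr : (1 : ℝ) ≤ t.W := by exact_mod_cast hW
  have hnr : (1 : ℝ) ≤ t.n := by exact_mod_cast hn
  have hmr : (1 : ℝ) ≤ t.m := by exact_mod_cast hm1
  have hbr : (1 : ℝ) ≤ t.b := by exact_mod_cast hb
  have hQr : (1 : ℝ) ≤ Q := by exact_mod_cast hQpos
  have hN0 : 0 < N := by linarith
  have hNη : 0 < N ^ η := Real.rpow_pos_of_pos hN0 η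
  obtain ⟨hdm0, hdm1⟩ := dm_bounds hl a hm t.κ
  have hcL : |c| ≤ 2 * |LL a| * t.L := by
    rw [hc, abs_mul, abs_div, abs_mul, abs_mul, abs_of_nonneg hL0, abs_of_nonneg hdm0,
      abs_of_pos (by norm_num : (0 : ℝ) < 2), abs_of_pos (by positivity : (0 : ℝ) < t.b * t.W)]
    have h1 : 2 * |LL a| * t.L / (t.b * t.W) ≤ 2 * |LL a| * t.L :=
      div_le_self (by positivity) (one_le_mul_of_one_le_of_one_le hbr hWr)
    calc 2 * |LL a| * t.L / (t.b * t.W) * dm a t.m t.κ ≤ 2 * |LL a| * t.L / (t.b * t.W) * 1 :=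
          mul_le_mul_of_nonneg_left hdm1 (by positivity)
      _ ≤ 2 * |LL a| * t.L := by rw [mul_one]; exact h1
  have hτ : (t.G.divisors.card : ℝ) ≤ C₂ * N ^ η := by
    refine (H₂ t.G hG).trans ?_
    apply mul_le_mul_of_nonneg_left _ hC₂.le
    exact Real.rpow_le_rpow (Nat.cast_nonneg _) hle.2.2.2.2.1 hη.le
  -- the number of `D`
  have hcard : (t.SD.card : ℝ) ≤ t.A₂ := by
    have : t.SD.card ≤ t.A₂ := by
      unfold EX.SD SDD
      refine (card_filter_le _ _).trans ?_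
      rw [Nat.card_Ioc]
      omega
    exact_mod_cast this
  -- the sums over `x`
  have h1 : |t.S a (fun D D₂ => ∏ l ∈ S, ψ l D D₂) - c * ∑ D ∈ t.SD, ∏ l ∈ S, B l D| ≤
      t.A₂ * (C₁ * N ^ η * (Q : ℝ) ^ 2 * t.m * (Real.sqrt t.R + t.W * t.A₂)) := by
    unfold EX.S
    rw [mul_sum, ← sum_sub_distrib]
    refine (abs_sum_le_sum_abs _ _).trans ?_
    refine (sum_le_sum fun D hD => H₁ t N S j ψ hok hN hle hS hQN D hD).trans ?_
    rw [sum_const, nsmul_eq_mul]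
    exact mul_le_mul_of_nonneg_right hcard (by positivity)
  have h2 : |c * ∑ D ∈ t.SD, ∏ l ∈ S, B l D - t.main a * ∏ l ∈ S, lmj a l (j l) t.G (ψ l)| ≤
      2 * |LL a| * t.L * (4 * (C₂ * N ^ η) * Q) := by
    have e1 : t.main a * ∏ l ∈ S, lmj a l (j l) t.G (ψ l) =
        c * (((t.A₂ : ℝ) - t.A₁) / (t.W * t.n) * (∏ l ∈ t.G.primeFactors, (1 - 1 / (l : ℝ))) *
          ∏ l ∈ S, Dm l (j l) t.G (B l)) := by
      have e2 : ∏ l ∈ S, lmj a l (j l) t.G (ψ l) = ∏ l ∈ S, Dm l (j l) t.G (B l) := rfl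
      rw [e2, EX.main, hc]
      field_simp
    rw [e1, ← mul_sub, abs_mul]
    refine mul_le_mul hcL (hE.trans ?_) (abs_nonneg _) (by positivity)
    exact mul_le_mul_of_nonneg_right (by linarith) (by positivity)
  have h3 : |t.S a (fun D D₂ => ∏ l ∈ S, ψ l D D₂) - t.main a * ∏ l ∈ S, lmj a l (j l) t.G (ψ l)| ≤
      t.A₂ * (C₁ * N ^ η * (Q : ℝ) ^ 2 * t.m * (Real.sqrt t.R + t.W * t.A₂)) +
        2 * |LL a| * t.L * (4 * (C₂ * N ^ η) * Q) := by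
    refine (abs_sub_le _ (c * ∑ D ∈ t.SD, ∏ l ∈ S, B l D) _).trans ?_
    linarith
  refine h3.trans ?_
  have hA20 : (0 : ℝ) ≤ t.A₂ := Nat.cast_nonneg _
  have hsq : 0 ≤ Real.sqrt t.R := Real.sqrt_nonneg _
  have h4 : t.A₂ * (t.m * (Real.sqrt t.R + t.W * t.A₂)) ≤ t.err := by
    unfold EX.err
    have h8 : t.m * (t.A₂ * Real.sqrt t.R) ≤ t.W * (t.m * (t.A₂ * Real.sqrt t.R)) :=
      le_mul_of_one_le_left (by positivity) hWr
    have h9 : 0 ≤ (t.W : ℝ) * t.m * t.L := by positivity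
    calc t.A₂ * (t.m * (Real.sqrt t.R + t.W * t.A₂)) =
        t.m * (t.A₂ * Real.sqrt t.R) + t.W * t.m * (t.A₂ : ℝ) ^ 2 := by ring
      _ ≤ t.W * (t.m * (t.A₂ * Real.sqrt t.R)) + t.W * t.m * (t.A₂ : ℝ) ^ 2 + t.W * t.m * t.L := by
          linarith
      _ = _ := by ring
  have h5 : t.L ≤ t.err := by
    unfold EX.err
    have hWm : (1 : ℝ) ≤ t.W * t.m := one_le_mul_of_one_le_of_one_le hWr hmr
    have : t.L ≤ t.W * t.m * t.L := le_mul_of_one_le_left hL0 hWm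
    have h6 : 0 ≤ (t.W : ℝ) * t.m * (t.A₂ * Real.sqrt t.R) := by positivity
    have h7 : 0 ≤ (t.W : ℝ) * t.m * (t.A₂ : ℝ) ^ 2 := by positivity
    rw [mul_add, mul_add]
    linarith
  have herr : 0 ≤ t.err := hL0.trans h5
  have h6 : (Q : ℝ) ≤ (Q : ℝ) ^ 2 := by
    rw [pow_two]
    exact le_mul_of_one_le_left (by linarith) hQr
  have h7 : t.L * Q ≤ t.err * (Q : ℝ) ^ 2 := mul_le_mul h5 h6 (by positivity) herr
  have a1 : t.A₂ * (C₁ * N ^ η * (Q : ℝ) ^ 2 * t.m * (Real.sqrt t.R + t.W * t.A₂)) ≤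
      C₁ * N ^ η * (Q : ℝ) ^ 2 * t.err := by
    have : t.A₂ * (C₁ * N ^ η * (Q : ℝ) ^ 2 * t.m * (Real.sqrt t.R + t.W * t.A₂)) =
        C₁ * N ^ η * (Q : ℝ) ^ 2 * (t.A₂ * (t.m * (Real.sqrt t.R + t.W * t.A₂))) := by ring
    rw [this]
    exact mul_le_mul_of_nonneg_left h4 (by positivity)
  have a2 : 2 * |LL a| * t.L * (4 * (C₂ * N ^ η) * Q) ≤
      8 * |LL a| * C₂ * N ^ η * (Q : ℝ) ^ 2 * t.err := by
    have : 2 * |LL a| * t.L * (4 * (C₂ * N ^ η) * Q) = 8 * |LL a| * C₂ * N ^ η * (t.L * Q) := by ring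
    rw [this]
    have : 8 * |LL a| * C₂ * N ^ η * (Q : ℝ) ^ 2 * t.err =
        8 * |LL a| * C₂ * N ^ η * (t.err * (Q : ℝ) ^ 2) := by ring
    rw [this]
    exact mul_le_mul_of_nonneg_left h7 (by positivity)
  calc _ ≤ _ := add_le_add a1 a2
    _ = _ := by ring

end Pool.Agent.Lib.MP391708.TA
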