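import Pool.Agent.Lib.MP_391708_nt.TA.ESpec
import Pool.Agent.Lib.MP_391708_nt.T1.EBD

/-!
# Theorem T1a, group E, module EBD: the `x` with a bad prime `≥ z`
-/

set_option autoImplicit false

namespace Pool.Agent.Lib.MP391708.TA

open Finset Filter Topology
open scoped Classical
open T1 (SDD)
open T1.EBD (card_class count_le)

noncomputable section

namespace EBD

lemma ch_le (a : ℤ) (n : ℕ) : ch a n ≤ 1 := by
  unfold ch
  rcases chz_trichotomy a n with h | h | h <;> rw [h] <;> norm_num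

lemma rr_le (a : ℤ) (x : ℕ) : rr a x ≤ (x.divisors.card : ℝ) := by
  unfold rr
  calc ∑ d ∈ x.divisors, ch a d ≤ ∑ d ∈ x.divisors, (1 : ℝ) := sum_le_sum fun d _ => ch_le a d
    _ = _ := by rw [sum_const, nsmul_eq_mul, mul_one]

lemma rp_lower (a : ℤ) (D : ℕ) (hD : 0 < D) : 0 < rp a D ∧ 1 / rp a D ≤ (D.divisors.card : ℝ) := by
  have h1 : ∀ l ∈ D.primeFactors, (1 / 2 : ℝ) ≤ 1 - ch a l / l := by
    intro l hl
    have hlp : l.Prime := Nat.prime_of_mem_primeFactors hl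
    have hl2 : (2 : ℝ) ≤ l := by exact_mod_cast hlp.two_le
    have hch := ch_le a l
    have : ch a l / l ≤ 1 / 2 := by
      rw [div_le_iff₀ (by linarith)]
      linarith
    linarith
  have h2 : (1 / 2 : ℝ) ^ D.primeFactors.card ≤ rp a D := by
    unfold rp
    rw [← prod_const]
    exact prod_le_prod (fun _ _ => by norm_num) h1
  have h3 : (2 : ℝ) ^ D.primeFactors.card ≤ D.divisors.card := by
    have : 2 ^ D.primeFactors.card ≤ D.divisors.card := by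
      rw [Nat.card_divisors hD.ne', ← prod_const]
      refine prod_le_prod' fun l hl => ?_
      have hlp : l.Prime := Nat.prime_of_mem_primeFactors hl
      have := hlp.factorization_pos_of_dvd hD.ne' (Nat.dvd_of_mem_primeFactors hl)
      omega
    exact_mod_cast this
  have h4 : (0 : ℝ) < (1 / 2 : ℝ) ^ D.primeFactors.card := by positivity
  refine ⟨h4.trans_le h2, ?_⟩
  calc 1 / rp a D ≤ 1 / (1 / 2 : ℝ) ^ D.primeFactors.card := one_div_le_one_div_of_le h4 h2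
    _ = (2 : ℝ) ^ D.primeFactors.card := by rw [one_div, ← inv_pow]; norm_num
    _ ≤ _ := h3

end EBD

open EBD

theorem specEBD : SpecEBD := by
  intro a _ _ η hη
  obtain ⟨C₁, hC₁, hdiv⟩ := Pool.Agent.Lib.MP_391708_nt.Div.card_divisors_le_rpow (η / 3) (by positivity)
  refine ⟨3 * C₁ ^ 3, by positivity, ?_⟩
  intro t N z hok hz hN hle _ hA₁
  obtain ⟨hW, -, hn, -, -, -, -, -, hG, -, -, hWG, -, hAA, -, hR⟩ := hok
  obtain ⟨-, -, -, -, hGN, hAN, hRN⟩ := hle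
  have hz0 : 0 < z := by linarith
  have hN0 : 0 < N := by linarith
  have hT : ∀ x : ℕ, 0 < x → (x : ℝ) ≤ N → (x.divisors.card : ℝ) ≤ C₁ * N ^ (η / 3) := by
    intro x hx hxN
    refine (hdiv x hx).trans ?_
    gcongr
  have hT0 : 0 ≤ C₁ * N ^ (η / 3) := by positivity
  have hG1 : (1 : ℝ) ≤ t.G.divisors.card := by
    have : 0 < t.G.divisors.card := card_pos.2 ⟨1, Nat.one_mem_divisors.2 hG.ne'⟩
    exact_mod_cast this
  -- the members of `SD`
  have hSD : ∀ D ∈ t.SD, t.A₁ < D ∧ D ≤ t.A₂ ∧ D ≡ t.ρ [MOD t.n] ∧ D.Coprime t.G := by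
    intro D hD
    unfold EX.SD SDD at hD
    rw [mem_filter, mem_Ioc] at hD
    exact ⟨hD.1.1, hD.1.2, hD.2.2.1, hD.2.2.2⟩
  -- fixed `D`
  have key : ∀ D ∈ t.SD, ∑ x ∈ (t.SX D).filter (fun x : ℕ => ∃ l : ℕ, l.Prime ∧ z ≤ (l : ℝ) ∧
      (l ^ 2 ∣ x ∨ (l ∣ x ∧ l ∣ t.G))), rr a x ≤
      (C₁ * N ^ (η / 3)) * (C₁ * N ^ (η / 3)) * (3 * (t.R / z) * (1 / D) + (Real.sqrt t.R + 1)) := by
    intro D hD
    obtain ⟨hD1, hD2, -, hDG⟩ := hSD D hD
    have hD0 : 0 < D := by omega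
    have hR2 : t.R₂ D ≤ t.R := (hR D hD1 hD2).2.1
    -- the values
    obtain ⟨X, hX⟩ : ∃ X : Finset ℕ, X = (Icc 1 t.R).filter (fun x : ℕ => ((D * t.W : ℕ) : ℤ) ∣ (t.b : ℤ) * (x : ℤ) - t.G ∧
      ∃ l : ℕ, l.Prime ∧ z ≤ (l : ℝ) ∧ (l ^ 2 ∣ x ∨ (l ∣ x ∧ l ∣ t.G))) := ⟨_, rfl⟩
    have hKc : ∑ x ∈ (t.SX D).filter (fun x : ℕ => ∃ l : ℕ, l.Prime ∧ z ≤ (l : ℝ) ∧
      (l ^ 2 ∣ x ∨ (l ∣ x ∧ l ∣ t.G))), rr a x ≤ (C₁ * N ^ (η / 3)) * X.card := by
      have h1 : (t.SX D).filter (fun x : ℕ => ∃ l : ℕ, l.Prime ∧ z ≤ (l : ℝ) ∧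
          (l ^ 2 ∣ x ∨ (l ∣ x ∧ l ∣ t.G))) ⊆ X := by
        intro x hx
        rw [mem_filter, EX.SX, mem_filter, mem_Ioc] at hx
        obtain ⟨⟨⟨h1, h2⟩, h3, -⟩, h4⟩ := hx
        rw [hX, mem_filter, mem_Icc]
        exact ⟨⟨by omega, h2.trans hR2⟩, h3, h4⟩
      calc _ ≤ ∑ x ∈ (t.SX D).filter (fun x : ℕ => ∃ l : ℕ, l.Prime ∧ z ≤ (l : ℝ) ∧
          (l ^ 2 ∣ x ∨ (l ∣ x ∧ l ∣ t.G))), (C₁ * N ^ (η / 3)) := by
            refine sum_le_sum fun x hx => ?_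
            have hx' := h1 hx
            rw [hX, mem_filter, mem_Icc] at hx'
            have hxN : (x : ℝ) ≤ N := by
              have : (x : ℝ) ≤ t.R := by exact_mod_cast hx'.1.2
              linarith
            exact (rr_le a x).trans (hT x hx'.1.1 hxN)
        _ ≤ ∑ x ∈ X, (C₁ * N ^ (η / 3)) :=
            sum_le_sum_of_subset_of_nonneg h1 fun _ _ _ => hT0
        _ = _ := by rw [sum_const, nsmul_eq_mul, mul_comm]
    -- the number of values
    have hDW : 0 < D * t.W := Nat.mul_pos hD0 hW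
    have hDWG : Nat.Coprime (D * t.W) t.G := Nat.Coprime.mul_left hDG hWG
    have hDle : ∀ e : ℕ, 0 < e → (t.R : ℝ) / (((D * t.W : ℕ) : ℝ) * e) ≤ t.R / (D * e) := by
      intro e he
      have hW1 : (1 : ℝ) ≤ t.W := by exact_mod_cast hW
      have he0 : (0 : ℝ) < e := by exact_mod_cast he
      have hD0' : (0 : ℝ) < D := by exact_mod_cast hD0
      apply div_le_div_of_nonneg_left (by positivity) (by positivity)
      push_cast
      nlinarith [mul_pos hD0' he0]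
    obtain ⟨L₁, hL₁⟩ : ∃ L₁ : Finset ℕ, L₁ = (Ioo (⌈z⌉₊ - 1) (Nat.sqrt t.R + 1)).filter Nat.Prime :=
      ⟨_, rfl⟩
    obtain ⟨L₂, hL₂⟩ : ∃ L₂ : Finset ℕ, L₂ = (t.G.primeFactors).filter (fun l : ℕ => z ≤ (l : ℝ)) := ⟨_, rfl⟩
    have hceil : 2 ≤ ⌈z⌉₊ := by
      have : (2 : ℝ) ≤ ⌈z⌉₊ := hz.trans (Nat.le_ceil z)
      exact_mod_cast this
    have hXsub : X ⊆ (L₁.biUnion fun l => X.filter (fun x => l ^ 2 ∣ x)) ∪
        (L₂.biUnion fun l => X.filter (fun x => l ∣ x)) := by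
      intro x hx
      have hx' := hx
      rw [hX, mem_filter, mem_Icc] at hx'
      obtain ⟨⟨hx1, hx2⟩, -, l, hl, hzl, hll⟩ := hx'
      rw [mem_union, mem_biUnion, mem_biUnion]
      rcases hll with h | ⟨h, h'⟩
      · left
        refine ⟨l, ?_, mem_filter.2 ⟨hx, h⟩⟩
        rw [hL₁, mem_filter, mem_Ioo]
        have h1 : ⌈z⌉₊ ≤ l := Nat.ceil_le.2 hzl
        have h2 : l ^ 2 ≤ t.R := (Nat.le_of_dvd hx1 h).trans hx2
        have h3 : l ≤ Nat.sqrt t.R := Nat.le_sqrt'.2 h2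
        exact ⟨⟨by omega, by omega⟩, hl⟩
      · right
        refine ⟨l, ?_, mem_filter.2 ⟨hx, h⟩⟩
        rw [hL₂, mem_filter, Nat.mem_primeFactors]
        exact ⟨⟨hl, h', hG.ne'⟩, hzl⟩
    have hsum1 : ∑ l ∈ L₁, ((X.filter (fun x => l ^ 2 ∣ x)).card : ℝ) ≤
        2 * (t.R / z) * (1 / D) + Real.sqrt t.R := by
      have h1 : ∀ l ∈ L₁, ((X.filter (fun x => l ^ 2 ∣ x)).card : ℝ) ≤
          t.R / D * ((l : ℝ) ^ 2)⁻¹ + 1 := by
        intro l hl
        rw [hL₁, mem_filter] at hl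
        have hl0 : 0 < l ^ 2 := pow_pos hl.2.pos 2
        have h2 := count_le (b := t.b) (R := t.R) hDW hl0 hDWG (X.filter (fun x => l ^ 2 ∣ x))
          (fun x hx => by
            rw [mem_filter, hX, mem_filter, mem_Icc] at hx
            exact ⟨hx.1.1.1, hx.1.1.2, hx.1.2.1, hx.2⟩)
        have h3 := hDle (l ^ 2) hl0
        have h4 : (t.R : ℝ) / (D * ((l ^ 2 : ℕ) : ℝ)) = t.R / D * ((l : ℝ) ^ 2)⁻¹ := by
          push_cast
          rw [← div_div, div_eq_mul_inv (t.R / (D : ℝ))]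
        linarith
      refine (sum_le_sum h1).trans ?_
      rw [sum_add_distrib, ← mul_sum, sum_const, nsmul_eq_mul, mul_one]
      have h2 : ∑ l ∈ L₁, ((l : ℝ) ^ 2)⁻¹ ≤ 2 / z := by
        calc ∑ l ∈ L₁, ((l : ℝ) ^ 2)⁻¹ ≤ ∑ l ∈ Ioo (⌈z⌉₊ - 1) (Nat.sqrt t.R + 1), ((l : ℝ) ^ 2)⁻¹ := by
              rw [hL₁]
              exact sum_le_sum_of_subset_of_nonneg (filter_subset _ _) fun _ _ _ => by positivity
          _ ≤ 2 / (((⌈z⌉₊ - 1 : ℕ) : ℝ) + 1) := sum_Ioo_inv_sq_le _ _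
          _ ≤ 2 / z := by
              apply div_le_div_of_nonneg_left (by norm_num) hz0
              have : ((⌈z⌉₊ - 1 : ℕ) : ℝ) + 1 = ⌈z⌉₊ := by
                rw [Nat.cast_sub (by omega)]
                push_cast
                ring
              rw [this]
              exact Nat.le_ceil z
      have h3 : (L₁.card : ℝ) ≤ Real.sqrt t.R := by
        have h4 : L₁.card ≤ Nat.sqrt t.R := by
          rw [hL₁]
          refine (card_filter_le _ _).trans ?_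
          rw [Nat.card_Ioo]
          omega
        calc (L₁.card : ℝ) ≤ (Nat.sqrt t.R : ℝ) := by exact_mod_cast h4
          _ ≤ Real.sqrt t.R := Real.nat_sqrt_le_real_sqrt
      have h4 : (t.R : ℝ) / D * ∑ l ∈ L₁, ((l : ℝ) ^ 2)⁻¹ ≤ t.R / D * (2 / z) :=
        mul_le_mul_of_nonneg_left h2 (by positivity)
      have h5 : (t.R : ℝ) / D * (2 / z) = 2 * (t.R / z) * (1 / D) := by ring
      linarith
    have hsum2 : ∑ l ∈ L₂, ((X.filter (fun x => l ∣ x)).card : ℝ) ≤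
        t.G.divisors.card * ((t.R / z) * (1 / D) + 1) := by
      have h1 : ∀ l ∈ L₂, ((X.filter (fun x => l ∣ x)).card : ℝ) ≤ (t.R / z) * (1 / D) + 1 := by
        intro l hl
        rw [hL₂, mem_filter] at hl
        have hlp : l.Prime := Nat.prime_of_mem_primeFactors hl.1
        have h2 := count_le (b := t.b) (R := t.R) hDW hlp.pos hDWG (X.filter (fun x => l ∣ x))
          (fun x hx => by
            rw [mem_filter, hX, mem_filter, mem_Icc] at hx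
            exact ⟨hx.1.1.1, hx.1.1.2, hx.1.2.1, hx.2⟩)
        have h3 := hDle l hlp.pos
        have hD0' : (0 : ℝ) < D := by exact_mod_cast hD0
        have h4 : (t.R : ℝ) / (D * l) ≤ t.R / (D * z) :=
          div_le_div_of_nonneg_left (by positivity) (by positivity) (by nlinarith [hl.2])
        have h5 : (t.R : ℝ) / (D * z) = (t.R / z) * (1 / D) := by
          field_simp
        linarith
      have h2 : (L₂.card : ℝ) ≤ t.G.divisors.card := by
        have : L₂.card ≤ t.G.divisors.card := by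
          rw [hL₂]
          refine (card_filter_le _ _).trans (card_le_card fun l hl => ?_)
          rw [Nat.mem_divisors]
          exact ⟨Nat.dvd_of_mem_primeFactors hl, hG.ne'⟩
        exact_mod_cast this
      have h3 : (0 : ℝ) ≤ (t.R / z) * (1 / D) + 1 := by positivity
      calc ∑ l ∈ L₂, ((X.filter (fun x => l ∣ x)).card : ℝ) ≤ L₂.card • ((t.R / z) * (1 / (D : ℝ)) + 1) :=
            sum_le_card_nsmul _ _ _ h1
        _ = L₂.card * ((t.R / z) * (1 / D) + 1) := by rw [nsmul_eq_mul]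
        _ ≤ _ := mul_le_mul_of_nonneg_right h2 h3
    have hXc : (X.card : ℝ) ≤ (C₁ * N ^ (η / 3)) * (3 * (t.R / z) * (1 / D) + (Real.sqrt t.R + 1)) := by
      have h1 : (X.card : ℝ) ≤ ∑ l ∈ L₁, ((X.filter (fun x => l ^ 2 ∣ x)).card : ℝ) +
          ∑ l ∈ L₂, ((X.filter (fun x => l ∣ x)).card : ℝ) := by
        have h2 := (card_le_card hXsub).trans (card_union_le _ _)
        have h3 := h2.trans (Nat.add_le_add card_biUnion_le card_biUnion_le)
        exact_mod_cast h3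
      have h4 : (0 : ℝ) ≤ (t.R / z) * (1 / D) := by positivity
      have h5 : (0 : ℝ) ≤ Real.sqrt t.R := Real.sqrt_nonneg _
      have h6 : (t.G.divisors.card : ℝ) ≤ C₁ * N ^ (η / 3) := hT t.G hG hGN
      have h7 : (X.card : ℝ) ≤ t.G.divisors.card * (3 * (t.R / z) * (1 / D) + (Real.sqrt t.R + 1)) := by
        nlinarith [mul_nonneg (sub_nonneg.2 hG1) h4, mul_nonneg (sub_nonneg.2 hG1) h5]
      exact h7.trans (mul_le_mul_of_nonneg_right h6 (by positivity))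
    calc _ ≤ (C₁ * N ^ (η / 3)) * X.card := hKc
      _ ≤ (C₁ * N ^ (η / 3)) *
          ((C₁ * N ^ (η / 3)) * (3 * (t.R / z) * (1 / D) + (Real.sqrt t.R + 1))) :=
          mul_le_mul_of_nonneg_left hXc (by positivity)
      _ = _ := by ring
  -- the sum over `D`
  have hterm : ∀ D ∈ t.SD, (1 / rp a D) * ∑ x ∈ (t.SX D).filter (fun x : ℕ => ∃ l : ℕ, l.Prime ∧
      z ≤ (l : ℝ) ∧ (l ^ 2 ∣ x ∨ (l ∣ x ∧ l ∣ t.G))), rr a x ≤
      (C₁ * N ^ (η / 3)) ^ 3 * (3 * (t.R / z) * (1 / t.A₁) + (Real.sqrt t.R + 1)) := by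
    intro D hD
    obtain ⟨hD1, hD2, -, -⟩ := hSD D hD
    have hD0 : 0 < D := by omega
    obtain ⟨hr0, hr1⟩ := rp_lower a D hD0
    have hDN : (D : ℝ) ≤ N := by
      have : (D : ℝ) ≤ t.A₂ := by exact_mod_cast hD2
      linarith
    have h1 : 1 / rp a D ≤ C₁ * N ^ (η / 3) := hr1.trans (hT D hD0 hDN)
    have h2 := key D hD
    have hA0 : (0 : ℝ) < t.A₁ := by exact_mod_cast hA₁
    have h3 : (1 : ℝ) / D ≤ 1 / t.A₁ := by
      apply one_div_le_one_div_of_le hA0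
      exact_mod_cast hD1.le
    have h4 : (0 : ℝ) ≤ t.R / z := by positivity
    calc _ ≤ (1 / rp a D) * ((C₁ * N ^ (η / 3)) * (C₁ * N ^ (η / 3)) *
          (3 * (t.R / z) * (1 / D) + (Real.sqrt t.R + 1))) :=
          mul_le_mul_of_nonneg_left h2 (by positivity)
      _ ≤ (C₁ * N ^ (η / 3)) * ((C₁ * N ^ (η / 3)) * (C₁ * N ^ (η / 3)) *
          (3 * (t.R / z) * (1 / D) + (Real.sqrt t.R + 1))) :=
          mul_le_mul_of_nonneg_right h1 (by positivity)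
      _ = (C₁ * N ^ (η / 3)) ^ 3 * (3 * (t.R / z) * (1 / D) + (Real.sqrt t.R + 1)) := by ring
      _ ≤ _ := by
          apply mul_le_mul_of_nonneg_left _ (by positivity)
          have := mul_le_mul_of_nonneg_left h3 (show (0 : ℝ) ≤ 3 * (t.R / z) by positivity)
          linarith
  have hcard1 : (t.SD.card : ℝ) ≤ ((t.A₂ : ℝ) - t.A₁) / t.n + 1 :=
    card_class t.SD t.A₁ t.A₂ t.n hn hAA (fun D hD => ⟨(hSD D hD).1, (hSD D hD).2.1⟩)
      (fun D hD D' hD' => (hSD D hD).2.2.1.trans (hSD D' hD').2.2.1.symm)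
  have hcard2 : (t.SD.card : ℝ) ≤ t.A₂ := by
    have : t.SD.card ≤ t.A₂ := by
      unfold EX.SD SDD
      refine (card_filter_le _ _).trans ?_
      rw [Nat.card_Ioc]
      omega
    exact_mod_cast this
  have hA0 : (0 : ℝ) < t.A₁ := by exact_mod_cast hA₁
  have hpow : (C₁ * N ^ (η / 3)) ^ 3 = C₁ ^ 3 * N ^ η := by
    rw [mul_pow, ← Real.rpow_natCast (N ^ (η / 3)) 3, ← Real.rpow_mul hN0.le]
    congr 2
    push_cast
    ring
  refine (sum_le_card_nsmul _ _ _ hterm).trans ?_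
  rw [nsmul_eq_mul, hpow]
  have h1 : (t.SD.card : ℝ) * (3 * (t.R / z) * (1 / t.A₁) + (Real.sqrt t.R + 1)) ≤
      3 * (t.R / z * ((((t.A₂ : ℝ) - t.A₁) / t.n + 1) / t.A₁)) + t.A₂ * (Real.sqrt t.R + 1) := by
    have h2 : (t.SD.card : ℝ) * (3 * (t.R / z) * (1 / t.A₁)) ≤
        (((t.A₂ : ℝ) - t.A₁) / t.n + 1) * (3 * (t.R / z) * (1 / t.A₁)) :=
      mul_le_mul_of_nonneg_right hcard1 (by positivity)
    have h3 : (t.SD.card : ℝ) * (Real.sqrt t.R + 1) ≤ t.A₂ * (Real.sqrt t.R + 1) :=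
      mul_le_mul_of_nonneg_right hcard2 (by positivity)
    have h4 : (((t.A₂ : ℝ) - t.A₁) / t.n + 1) * (3 * (t.R / z) * (1 / t.A₁)) =
        3 * (t.R / z * ((((t.A₂ : ℝ) - t.A₁) / t.n + 1) / t.A₁)) := by ring
    linarith
  have h5 : (0 : ℝ) ≤ t.A₂ * (Real.sqrt t.R + 1) := by positivity
  calc (t.SD.card : ℝ) * ((C₁ ^ 3 * N ^ η) * (3 * (t.R / z) * (1 / t.A₁) + (Real.sqrt t.R + 1)))
      = (C₁ ^ 3 * N ^ η) * ((t.SD.card : ℝ) * (3 * (t.R / z) * (1 / t.A₁) + (Real.sqrt t.R + 1))) := by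
        ring
    _ ≤ (C₁ ^ 3 * N ^ η) * (3 * (t.R / z * ((((t.A₂ : ℝ) - t.A₁) / t.n + 1) / t.A₁)) +
        t.A₂ * (Real.sqrt t.R + 1)) := mul_le_mul_of_nonneg_left h1 (by positivity)
    _ ≤ (C₁ ^ 3 * N ^ η) * (3 * (t.R / z * ((((t.A₂ : ℝ) - t.A₁) / t.n + 1) / t.A₁)) +
        3 * (t.A₂ * (Real.sqrt t.R + 1))) := by
        apply mul_le_mul_of_nonneg_left _ (by positivity)
        linarith
    _ = _ := by ring

end

end Pool.Agent.Lib.MP391708.TA
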