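import Pool.Agent.Lib.MP_391708_nt.TA.ESpec
import Pool.Agent.Lib.MP_391708_nt.Div

/-!
# Theorem T1a, group E, module RRB: properties of `r(x) = ∑_{d ∣ x} χ(d)`
-/

set_option autoImplicit false

namespace Pool.Agent.Lib.MP391708.TA

open Finset Filter Topology
open scoped Classical

noncomputable section

namespace RRB

open ArithmeticFunction ArithmeticFunction.zeta

/-- `χ` as an arithmetic function -/
def chA (a : ℤ) : ArithmeticFunction ℝ := ⟨fun n => ch a n, ch_zero a⟩

lemma chA_apply (a : ℤ) (n : ℕ) : chA a n = ch a n := rfl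

lemma chA_mult (a : ℤ) : (chA a).IsMultiplicative := by
  refine ⟨?_, ?_⟩
  · rw [chA_apply]; exact ch_one a
  · intro m n _
    simp only [chA_apply]
    exact ch_mul a m n

lemma rr_eq (a : ℤ) (x : ℕ) : rr a x = (chA a * (ζ : ArithmeticFunction ℝ)) x := by
  rw [ArithmeticFunction.coe_mul_zeta_apply]
  rfl

lemma rr_mul (a : ℤ) (x y : ℕ) (h : x.Coprime y) : rr a (x * y) = rr a x * rr a y := by
  rw [rr_eq, rr_eq, rr_eq]
  exact ((chA_mult a).mul (isMultiplicative_zeta.natCast)).map_mul_of_coprime h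

lemma ch_pow (a : ℤ) (l k : ℕ) : ch a (l ^ k) = ch a l ^ k := by
  unfold ch; rw [chz_pow]; push_cast; ring

lemma rr_prime_pow (a : ℤ) (l k : ℕ) (hl : l.Prime) :
    rr a (l ^ k) = ∑ i ∈ range (k + 1), ch a l ^ i := by
  unfold rr
  rw [Nat.divisors_prime_pow hl, sum_map]
  refine sum_congr rfl fun i _ => ?_
  simp only [Function.Embedding.coeFn_mk]
  exact ch_pow a l i

lemma sum_geo_nonneg (a : ℤ) (l k : ℕ) : 0 ≤ ∑ i ∈ range k, ch a l ^ i := by
  have h0 : ch a l = 0 ∨ ch a l = 1 ∨ ch a l = -1 := by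
    unfold ch
    rcases chz_trichotomy a l with h | h | h <;> rw [h] <;> norm_num
  rcases h0 with h | h | h
  · rw [h]; exact sum_nonneg fun i _ => by positivity
  · rw [h]; exact sum_nonneg fun i _ => by positivity
  · rw [h, neg_one_geom_sum]
    split_ifs <;> norm_num

lemma rr_one (a : ℤ) : rr a 1 = 1 := by
  unfold rr
  rw [Nat.divisors_one, sum_singleton, ch_one]

lemma rr_nonneg (a : ℤ) (x : ℕ) : 0 ≤ rr a x := by
  induction x using Nat.recOnPosPrimePosCoprime with
  | zero => unfold rr; simp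
  | one => rw [rr_one]; norm_num
  | prime_pow p n hp hn => rw [rr_prime_pow a p n hp]; exact sum_geo_nonneg a p _
  | coprime m n _ _ hc h1 h2 => rw [rr_mul a m n hc]; exact mul_nonneg h1 h2

lemma rr_le_card (a : ℤ) (x : ℕ) : rr a x ≤ (x.divisors.card : ℝ) := by
  unfold rr
  calc ∑ d ∈ x.divisors, ch a d ≤ ∑ d ∈ x.divisors, (1 : ℝ) := sum_le_sum fun d _ => ch_le a d
    _ = _ := by rw [sum_const, nsmul_eq_mul, mul_one]

lemma ch_one_of (a : ℤ) (d : ℕ) (hd : d ≠ 0) (h : ∀ l : ℕ, l.Prime → l ∣ d → chz a l = 1) :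
    ch a d = 1 := by
  have h1 : chz a d = 1 := by
    induction d using Nat.recOnMul with
    | zero => exact absurd rfl hd
    | one => exact chz_one a
    | prime p hp => exact h p hp dvd_rfl
    | mul m n hm hn =>
      have hm0 : m ≠ 0 := left_ne_zero_of_mul hd
      have hn0 : n ≠ 0 := right_ne_zero_of_mul hd
      rw [chz_mul, hm hm0 (fun l hl hd => h l hl (hd.mul_right n)),
        hn hn0 (fun l hl hd => h l hl (hd.mul_left m)), one_mul]
  unfold ch
  rw [h1]
  norm_num

end RRB

open RRB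

theorem specRRB : SpecRRB := by
  intro a _
  refine ⟨fun x => ⟨rr_nonneg a x, rr_le_card a x⟩, ?_, ?_, rr_mul a, ?_⟩
  · intro x hx hsq h
    have h1 : rr a x = (x.divisors.card : ℝ) := by
      unfold rr
      rw [card_eq_sum_ones, Nat.cast_sum]
      refine sum_congr rfl fun d hd => ?_
      rw [Nat.mem_divisors] at hd
      rw [Nat.cast_one]
      exact ch_one_of a d (ne_zero_of_dvd_ne_zero hd.2 hd.1)
        (fun l hl hld => h l hl (hld.trans hd.1))
    rw [h1, Nat.card_divisors hx.ne']
    push_cast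
    rw [← prod_const]
    refine prod_congr rfl fun l hl => ?_
    have hlp : l.Prime := Nat.prime_of_mem_primeFactors hl
    have h2 := hlp.factorization_pos_of_dvd hx.ne' (Nat.dvd_of_mem_primeFactors hl)
    have h3 := hsq.natFactorization_le_one l
    have h4 : x.factorization l = 1 := by omega
    rw [h4]
    norm_num
  · intro x l hx hl hch hlx hlx2
    obtain ⟨y, rfl⟩ := hlx
    have hly : ¬ l ∣ y := by
      intro h
      apply hlx2
      rw [pow_two]
      exact Nat.mul_dvd_mul_left l h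
    have hc : l.Coprime y := (Nat.Prime.coprime_iff_not_dvd hl).2 hly
    rw [rr_mul a l y hc]
    have h1 : rr a l = 0 := by
      have h2 := rr_prime_pow a l 1 hl
      rw [pow_one] at h2
      rw [h2, sum_range_succ, sum_range_one]
      have h3 : ch a l = -1 := by unfold ch; rw [hch]; norm_num
      rw [h3]
      norm_num
    rw [h1, zero_mul]
  · intro η hη
    obtain ⟨C, hC, h⟩ := Pool.Agent.Lib.MP_391708_nt.Div.card_divisors_le_rpow η hη
    exact ⟨C, hC, fun x hx => (rr_le_card a x).trans (h x hx)⟩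

end

end Pool.Agent.Lib.MP391708.TA
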