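import Pool.Agent.Lib.MP_391708_nt.TA.ESpecU
import Pool.Agent.Lib.MP_391708_nt.TA.RRB
import Pool.Agent.Lib.MP_391708_nt.TF.ISm
import Pool.Agent.Lib.MP_391708_nt.T1.EDU

/-!
# Theorem T1a, group E, module EDU: decomposition of the PHU sum
-/

set_option autoImplicit false

namespace Pool.Agent.Lib.MP391708.TA

open TF (Aa aa)

variable [Aa]

namespace EDU

open Finset
open scoped Classical
open T1 (F1 F2 wgt SQ)
open T1.EDU (F1_eq F2_eq D2_mul sum_le_of_inj wgt_nonneg)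

noncomputable section

variable {p : T4.Prm} {N : ℕ}

/-! ## the tilt as a product of local functions -/

lemma tilt_eq {M G P Q : ℕ} {s : ℤ} (hs : s * s = 1) (bT bR : ℝ) {t : ℤ × ℕ} (hX : 0 < t.2)
    (hd : t.1 ∣ (t.2 : ℤ) - G) :
    TF.tilt p N bT bR (M, G, P, Q, t) =
      wU p N (s * M) G P Q (TF.sm p N t.2) bT bR (s * t.1) (s * T4.D2 (M, G, P, Q, t)) := by
  have hσM : (s * (M : ℤ)) ^ 2 + aa = (M : ℤ) ^ 2 + aa := by
    linear_combination (M : ℤ) ^ 2 * hs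
  have hXe : (G : ℤ) + s * t.1 * (s * T4.D2 (M, G, P, Q, t)) = t.2 := by
    have h1 := D2_mul (M := M) (P := P) (Q := Q) hd
    linear_combination h1 + t.1 * T4.D2 (M, G, P, Q, t) * hs
  have hMd : ∀ l : ℕ, (l : ℤ) ∣ (s * (M : ℤ)) ^ 2 + aa ↔ l ∣ M ^ 2 + aa := by
    intro l
    rw [hσM]
    exact_mod_cast Iff.rfl
  unfold TF.tilt wU
  refine prod_congr ?_ ?_
  · refine filter_congr fun l hl => ?_
    change ¬ l ∣ (M ^ 2 + aa) * t.2 ↔ _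
    rw [hMd, TF.I.dvd_sm_iff hX.ne' hl, (TF.I.prime_of_mem_PP hl).dvd_mul]
    tauto
  · intro l hl
    obtain ⟨hl1, hl2, hl3⟩ := mem_filter.1 hl
    have hlX : ¬ l ∣ t.2 := by rwa [← TF.I.dvd_sm_iff hX.ne' hl1]
    rw [F1_eq hs, F2_eq hs, wgt, if_neg (show ¬ (l : ℤ) ∣ G + s * t.1 *
      (s * T4.D2 (M, G, P, Q, t)) by rw [hXe]; exact_mod_cast hlX)]

/-! ## `2 ^ ω = r` -/

lemma dn_eq {X : ℕ} (hX : 0 < X) (hsq : Squarefree X)
    (h4 : ∀ l : ℕ, l.Prime → l ∣ X → TF.spl l) :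
    T4.dn (X / TF.sm p N X) = (TF.sm p N X : ℝ) / X * rr (aa : ℤ) (X / TF.sm p N X) := by
  set b := TF.sm p N X with hb
  have hbX : b ∣ X := TF.I.sm_dvd hX.ne'
  have hb0 : 0 < b := TF.I.sm_pos X
  have hY : b * (X / b) = X := Nat.mul_div_cancel' hbX
  have hY0 : 0 < X / b := Nat.div_pos (Nat.le_of_dvd hX hbX) hb0
  have hYX : X / b ∣ X := ⟨b, by rw [mul_comm]; exact hY.symm⟩
  have haa : ((aa : ℕ) : ℤ) ≠ 0 := by exact_mod_cast (TF.aa_pos).ne'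
  have h1 := (specRRB (aa : ℤ) haa).2.1 (X / b) hY0 (hsq.squarefree_of_dvd hYX)
    (fun l hl hd => h4 l hl (hd.trans hYX))
  rw [h1]
  unfold T4.dn T4.wn
  have h3 : (X : ℝ) = b * ((X / b : ℕ) : ℝ) := by exact_mod_cast hY.symm
  have hb1 : (b : ℝ) ≠ 0 := by exact_mod_cast hb0.ne'
  have hY1 : ((X / b : ℕ) : ℝ) ≠ 0 := by exact_mod_cast hY0.ne'
  rw [h3]
  field_simp

/-! ## assembly -/

lemma wU_nonneg (M : ℤ) (G P Q n : ℕ) {bT bR : ℝ} (hT : 0 ≤ bT) (hR : 0 ≤ bR) (d e : ℤ) :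
    0 ≤ wU p N M G P Q n bT bR d e :=
  prod_nonneg fun l _ => wgt_nonneg l M G P Q hT hR d e

/-- the summation set of `UU` for given `D` -/
def KU (p : T4.Prm) (M : ℕ) (s : ℤ) (G P Q n : ℕ) (c : ℤ → ℤ → ℤ → Prop) (D : ℕ) :
    Finset ℕ :=
  (Ioc 0 ⌊(D : ℝ) * LU M G P / n⌋₊).filter (fun x : ℕ =>
    ((D * T4.W0 p : ℕ) : ℤ) ∣ (n : ℤ) * x - G ∧
    c (F1 (s * M) G P Q D) (F2 (s * M) G P Q (((n : ℤ) * x - G) / D)) ((n : ℤ) * x))

lemma UU_eq (M : ℕ) (s : ℤ) (G P Q n : ℕ) (bT bR : ℝ) (c : ℤ → ℤ → ℤ → Prop) :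
    UU p N M s G P Q n bT bR c =
      ∑ D ∈ DD (T4.W0 p) n (s * M) G P Q ((M - 1) / (3 * P)) (10 * M / P), (1 / rp (aa : ℤ) D) *
        ∑ x ∈ KU p M s G P Q n c D, rr (aa : ℤ) x *
          wU p N (s * M) G P Q n bT bR D (((n : ℤ) * x - G) / D) := rfl

lemma om_eq {X : ℕ} (hX : 0 < X) : TF.om p N X = (TF.sm p N X).primeFactors.card := by
  unfold TF.om
  congr 1
  ext l
  rw [mem_filter, Nat.mem_primeFactors]
  constructor
  · rintro ⟨h1, h2⟩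
    exact ⟨TF.I.prime_of_mem_PP h1, (TF.I.dvd_sm_iff hX.ne' h1).2 h2, (TF.I.sm_pos X).ne'⟩
  · rintro ⟨h1, h2, -⟩
    exact TF.I.mem_PP_of_dvd_sm h1 h2

attribute [local irreducible] T4.dbox

lemma D_ne_zero {M G P Q : ℕ} {t : ℤ × ℕ} (ht : t ∈ TF.S2 p N M G P Q) : t.1 ≠ 0 := by
  obtain ⟨-, ⟨hD0, -⟩, -⟩ := mem_filter.1 ht
  exact hD0

lemma sum_split (M G P Q : ℕ) (c : ℤ → ℤ → ℤ → Prop) (f : ℤ × ℕ → ℝ) :
    ∑ t ∈ (TF.S2 p N M G P Q).filter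
        (fun t => c (T4.F1 (M, G, P, Q, t)) (T4.F2 (M, G, P, Q, t)) (t.2 : ℤ)), f t =
      ∑ t ∈ ((TF.S2 p N M G P Q).filter
        (fun t => c (T4.F1 (M, G, P, Q, t)) (T4.F2 (M, G, P, Q, t)) (t.2 : ℤ))).filter
        (fun t => 0 < 1 * t.1), f t +
      ∑ t ∈ ((TF.S2 p N M G P Q).filter
        (fun t => c (T4.F1 (M, G, P, Q, t)) (T4.F2 (M, G, P, Q, t)) (t.2 : ℤ))).filter
        (fun t => 0 < -1 * t.1), f t := by
  rw [← sum_filter_add_sum_filter_not ((TF.S2 p N M G P Q).filter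
        (fun t => c (T4.F1 (M, G, P, Q, t)) (T4.F2 (M, G, P, Q, t)) (t.2 : ℤ)))
        (fun t => 0 < 1 * t.1)]
  congr 1
  refine sum_congr (filter_congr fun t ht => ?_) fun _ _ => rfl
  have h4 : t.1 ≠ 0 := D_ne_zero (mem_filter.1 ht).1
  omega

/-- the numbers `n` -/
def NS (p : T4.Prm) (N G : ℕ) : Finset ℕ :=
  (SQ (TF.PP p N) (T4.zz p N ^ (4 * p.K))).filter (fun n => n.Coprime G)

lemma mem_facts {M G P Q : ℕ} {c : ℤ → ℤ → ℤ → Prop} (hM : 0 < M) (hP : 0 < P)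
    {s : ℤ} (hs : s * s = 1) {t : ℤ × ℕ} (ht : t ∈ TF.S2 p N M G P Q)
    (hc : c (T4.F1 (M, G, P, Q, t)) (T4.F2 (M, G, P, Q, t)) (t.2 : ℤ)) (hpos : 0 < s * t.1)
    (hF : (TF.sm p N t.2 : ℤ) ∣ T4.F1 (M, G, P, Q, t)) :
    0 < t.2 ∧ (t.1.natAbs : ℤ) = s * t.1 ∧ TF.sm p N t.2 ∈ NS p N G ∧
    t.1.natAbs ∈ DD (T4.W0 p) (TF.sm p N t.2) (s * M) G P Q ((M - 1) / (3 * P)) (10 * M / P) ∧
    TF.sm p N t.2 * (t.2 / TF.sm p N t.2) = t.2 ∧
    ((TF.sm p N t.2 : ℤ) * ((t.2 / TF.sm p N t.2 : ℕ) : ℤ) - G) / (t.1.natAbs : ℤ) =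
      s * T4.D2 (M, G, P, Q, t) ∧
    t.2 / TF.sm p N t.2 ∈ KU p M s G P Q (TF.sm p N t.2) c t.1.natAbs := by
  obtain ⟨-, ⟨hD0, hdvd, hW1, hW2, hXW, hXsq, hX4, hGX, hDG⟩, h1, h2, -, h4, -, h6, h7⟩ :=
    mem_filter.1 ht
  have hX : 0 < t.2 := hXsq.ne_zero.bot_lt
  set X := t.2 with hXdef
  set n := TF.sm p N X with hn
  have hn0 : 0 < n := TF.I.sm_pos X
  have hnX : n ∣ X := TF.I.sm_dvd hX.ne'
  have habs : (t.1.natAbs : ℤ) = s * t.1 := by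
    rcases mul_self_eq_one_iff.1 hs with h | h
    · rw [h] at hpos ⊢; omega
    · rw [h] at hpos ⊢; omega
  have habs' : |t.1| = s * t.1 := by rw [← habs]; exact Int.abs_eq_natAbs _
  have hDpos : 0 < t.1.natAbs := Int.natAbs_pos.2 hD0
  have hnG : n.Coprime G := (hGX.symm.coprime_dvd_left hnX)
  have hnSQ : n ∈ SQ (TF.PP p N) (T4.zz p N ^ (4 * p.K)) := by
    unfold SQ
    refine mem_filter.2 ⟨mem_Icc.2 ⟨hn0, Nat.le_floor h7⟩, hXsq.squarefree_of_dvd hnX, ?_⟩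
    intro l hl hd
    exact (TF.I.mem_PP_of_dvd_sm hl hd).1
  have hDn : t.1.natAbs.Coprime n := by
    refine Nat.coprime_of_dvd fun q hq hq1 hq2 => ?_
    have e1 : (q : ℤ) ∣ t.1 := Int.natCast_dvd.2 hq1
    have e2 : (q : ℤ) ∣ (X : ℤ) := by exact_mod_cast hq2.trans hnX
    have e3 : (q : ℤ) ∣ (G : ℤ) := by
      have := (e1.trans hdvd)
      have e4 := dvd_sub e2 this
      simpa using e4
    have e5 : q ∣ G := by exact_mod_cast e3
    exact hq.one_lt.ne' (Nat.eq_one_of_dvd_coprimes hGX e5 (hq2.trans hnX))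
  have hDG' : t.1.natAbs.Coprime G := by
    have := hDG
    rw [Int.isCoprime_iff_gcd_eq_one, Int.gcd] at this
    simpa using this
  have hF1 : F1 (s * M) G P Q (t.1.natAbs : ℤ) = T4.F1 (M, G, P, Q, t) := by
    rw [habs]; exact (F1_eq hs M G P Q t).symm
  have hY : n * (X / n) = X := Nat.mul_div_cancel' hnX
  have hYZ : (n : ℤ) * ((X / n : ℕ) : ℤ) = X := by exact_mod_cast hY
  have hY0 : 0 < X / n := Nat.div_pos (Nat.le_of_dvd hX hnX) hn0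
  have hdiv : ((n : ℤ) * ((X / n : ℕ) : ℤ) - G) / (t.1.natAbs : ℤ) =
      s * T4.D2 (M, G, P, Q, t) := by
    rw [hYZ, habs]
    have e1 := D2_mul (M := M) (P := P) (Q := Q) hdvd
    have e2 : ((X : ℤ) - G) = s * t.1 * (s * T4.D2 (M, G, P, Q, t)) := by
      linear_combination -e1 - t.1 * T4.D2 (M, G, P, Q, t) * hs
    rw [e2]
    exact Int.mul_ediv_cancel_left _ hpos.ne'
  refine ⟨hX, habs, mem_filter.2 ⟨hnSQ, hnG⟩, ?_, hY, hdiv, ?_⟩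
  · unfold DD
    refine mem_filter.2 ⟨mem_Ioc.2 ⟨?_, ?_⟩, ?_, hDG', hDn, ?_⟩
    · rw [Nat.div_lt_iff_lt_mul (by positivity)]
      have : (M : ℤ) ≤ 3 * ((t.1.natAbs : ℤ) * P) := by rw [habs, ← habs']; exact h1
      have h8 : M ≤ 3 * (t.1.natAbs * P) := by exact_mod_cast this
      have h9 : t.1.natAbs * (3 * P) = 3 * (t.1.natAbs * P) := by ring
      omega
    · rw [Nat.le_div_iff_mul_le hP]
      have : (t.1.natAbs : ℤ) * P ≤ 10 * (M : ℤ) := by rw [habs, ← habs']; exact h2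
      exact_mod_cast this
    · exact Int.natCast_dvd.1 hW1
    · rw [hF1]; exact hF
  · unfold KU
    refine mem_filter.2 ⟨mem_Ioc.2 ⟨hY0, ?_⟩, ?_, ?_⟩
    · have hMr : (0 : ℝ) < M := by exact_mod_cast hM
      have hnr : (0 : ℝ) < n := by exact_mod_cast hn0
      have e2 : ((X / n : ℕ) : ℝ) ≤ (t.1.natAbs : ℝ) * LU M G P / n := by
        rw [le_div_iff₀ hnr]
        have e3 : (n : ℝ) * ((X / n : ℕ) : ℝ) ≤ 100 * G := by
          have : n * (X / n) ≤ 100 * G := by rw [hY]; exact h4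
          exact_mod_cast this
        have e4 : (M : ℝ) ≤ 3 * ((t.1.natAbs : ℝ) * P) := by
          have : (M : ℤ) ≤ 3 * ((t.1.natAbs : ℤ) * P) := by rw [habs, ← habs']; exact h1
          exact_mod_cast this
        have e5 : (t.1.natAbs : ℝ) * LU M G P = 100 * G * (3 * (t.1.natAbs * P) / M) := by
          unfold LU; ring
        rw [e5]
        have e6 : 1 ≤ 3 * ((t.1.natAbs : ℝ) * P) / M := by rwa [le_div_iff₀ hMr, one_mul]
        have e7 : (0 : ℝ) ≤ 100 * G := by positivity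
        nlinarith
      exact Nat.le_floor e2
    · rw [hYZ]
      have e1 := D2_mul (M := M) (P := P) (Q := Q) hdvd
      rw [Nat.cast_mul, habs]
      obtain ⟨u, hu⟩ := hW2
      rw [hu] at e1
      refine ⟨s * u, ?_⟩
      linear_combination -e1 - t.1 * T4.W0 p * u * hs
    · rw [hdiv, hF1, hYZ, ← F2_eq hs]
      exact hc

/-- the summand -/
def Ph (p : T4.Prm) (N M : ℕ) (s : ℤ) (G P Q : ℕ) (al bT bR : ℝ) (n D x : ℕ) : ℝ :=
  100 / G * (al ^ n.primeFactors.card * n * ((1 / rp (aa : ℤ) D) * (rr (aa : ℤ) x *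
    wU p N (s * M) G P Q n bT bR D (((n : ℤ) * x - G) / D))))

lemma rr_nonneg (x : ℕ) : 0 ≤ rr (aa : ℤ) x := by
  have haa : ((aa : ℕ) : ℤ) ≠ 0 := by exact_mod_cast (TF.aa_pos).ne'
  exact ((specRRB (aa : ℤ) haa).1 x).1

lemma Ph_nonneg (M : ℕ) (s : ℤ) (G P Q : ℕ) {al bT bR : ℝ} (hal : 0 ≤ al) (hT : 0 ≤ bT)
    (hR : 0 ≤ bR) (n D x : ℕ) : 0 ≤ Ph p N M s G P Q al bT bR n D x := by
  unfold Ph
  have h1 := rp_pos (aa : ℤ) D
  have h2 := wU_nonneg (p := p) (N := N) (s * M) G P Q n hT hR (D : ℤ) (((n : ℤ) * x - G) / D)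
  have h3 := rr_nonneg x
  positivity

lemma vh_le {M G P Q : ℕ} {al bT bR : ℝ} {c : ℤ → ℤ → ℤ → Prop} (hM : 0 < M) (hG : 0 < G)
    (hP : 0 < P) (hal : 0 ≤ al) (hT : 0 ≤ bT) (hR : 0 ≤ bR)
    {s : ℤ} (hs : s * s = 1) {t : ℤ × ℕ} (ht : t ∈ TF.S2 p N M G P Q)
    (hc : c (T4.F1 (M, G, P, Q, t)) (T4.F2 (M, G, P, Q, t)) (t.2 : ℤ)) (hpos : 0 < s * t.1)
    (hF : (TF.sm p N t.2 : ℤ) ∣ T4.F1 (M, G, P, Q, t)) :
    TF.vh p N al bT bR (M, G, P, Q, t) ≤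
      Ph p N M s G P Q al bT bR (TF.sm p N t.2) t.1.natAbs (t.2 / TF.sm p N t.2) := by
  obtain ⟨hX, habs, -, -, hY, hdiv, -⟩ := mem_facts hM hP hs ht hc hpos hF
  obtain ⟨-, ⟨hD0, hdvd, hW1, hW2, hXW, hXsq, hX4, hGX, hDG⟩, h1, h2, -, h4, h5, h6, h7⟩ :=
    mem_filter.1 ht
  have htilt := tilt_eq (p := p) (N := N) (P := P) (Q := Q) (M := M) hs bT bR hX hdvd
  have hom := om_eq (p := p) (N := N) hX
  have hdn := dn_eq (p := p) (N := N) hX hXsq hX4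
  set X := t.2 with hXdef
  set n := TF.sm p N X with hn
  have hn0 : 0 < n := TF.I.sm_pos X
  have hvh : TF.vh p N al bT bR (M, G, P, Q, t) =
      1 / rp (aa : ℤ) t.1.natAbs * al ^ n.primeFactors.card *
      ((n : ℝ) / X * rr (aa : ℤ) (X / n)) * TF.tilt p N bT bR (M, G, P, Q, t) := by
    unfold TF.vh
    change 1 / TF.rp t.1.natAbs * al ^ TF.om p N X * T4.dn (X / n) *
      (if (n : ℤ) ∣ T4.F1 (M, G, P, Q, t) then 1 else 0) * _ = _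
    rw [if_pos hF, hom, hdn, mul_one]
    rfl
  rw [hvh]
  have hrp := rp_pos (aa : ℤ) t.1.natAbs
  have htn : 0 ≤ TF.tilt p N bT bR (M, G, P, Q, t) := by
    rw [htilt]; exact wU_nonneg _ _ _ _ _ hT hR _ _
  have hrr := rr_nonneg (X / n)
  have hXr : (0 : ℝ) < X := by exact_mod_cast hX
  have hGr : (0 : ℝ) < G := by exact_mod_cast hG
  have hle : (n : ℝ) / X ≤ 100 / G * n := by
    rw [div_le_iff₀ hXr]
    have h9 : (G : ℝ) ≤ 100 * X := by exact_mod_cast h5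
    have h10 : 100 / (G : ℝ) * n * X = n * (100 * X / G) := by ring
    rw [h10]
    have h11 : 1 ≤ 100 * (X : ℝ) / G := by rwa [le_div_iff₀ hGr, one_mul]
    have h12 : (0 : ℝ) ≤ n := Nat.cast_nonneg _
    nlinarith
  have hPh : Ph p N M s G P Q al bT bR n t.1.natAbs (X / n) =
      1 / rp (aa : ℤ) t.1.natAbs * al ^ n.primeFactors.card *
        (100 / G * n * rr (aa : ℤ) (X / n)) * TF.tilt p N bT bR (M, G, P, Q, t) := by
    unfold Ph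
    rw [hdiv, habs, ← htilt]
    ring
  rw [hPh]
  refine mul_le_mul_of_nonneg_right (mul_le_mul_of_nonneg_left ?_ (by positivity)) htn
  exact mul_le_mul_of_nonneg_right hle hrr

/-- one sign of `D` -/
lemma sum_sign {M G P Q : ℕ} {al bT bR : ℝ} {c : ℤ → ℤ → ℤ → Prop} (hM : 0 < M) (hG : 0 < G)
    (hP : 0 < P) (hal : 0 ≤ al) (hT : 0 ≤ bT) (hR : 0 ≤ bR) {s : ℤ} (hs : s * s = 1) :
    ∑ t ∈ ((TF.S2 p N M G P Q).filter
        (fun t => c (T4.F1 (M, G, P, Q, t)) (T4.F2 (M, G, P, Q, t)) (t.2 : ℤ))).filter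
        (fun t => 0 < s * t.1), TF.vh p N al bT bR (M, G, P, Q, t) ≤
      100 / G * ∑ n ∈ NS p N G, al ^ n.primeFactors.card * n * UU p N M s G P Q n bT bR c := by
  set T := ((TF.S2 p N M G P Q).filter
        (fun t => c (T4.F1 (M, G, P, Q, t)) (T4.F2 (M, G, P, Q, t)) (t.2 : ℤ))).filter
        (fun t => 0 < s * t.1) with hTdef
  set T' := T.filter (fun t => (TF.sm p N t.2 : ℤ) ∣ T4.F1 (M, G, P, Q, t)) with hT'
  have hmem : ∀ t ∈ T', t ∈ TF.S2 p N M G P Q ∧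
      c (T4.F1 (M, G, P, Q, t)) (T4.F2 (M, G, P, Q, t)) (t.2 : ℤ) ∧ 0 < s * t.1 ∧
      (TF.sm p N t.2 : ℤ) ∣ T4.F1 (M, G, P, Q, t) := by
    intro t ht
    obtain ⟨h1, h2⟩ := mem_filter.1 ht
    obtain ⟨h3, h4⟩ := mem_filter.1 h1
    obtain ⟨h5, h6⟩ := mem_filter.1 h3
    exact ⟨h5, h6, h4, h2⟩
  have h1 : ∑ t ∈ T, TF.vh p N al bT bR (M, G, P, Q, t) =
      ∑ t ∈ T', TF.vh p N al bT bR (M, G, P, Q, t) := by
    symm
    refine sum_subset (filter_subset _ _) fun t ht ht' => ?_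
    have h2 : ¬ (TF.sm p N t.2 : ℤ) ∣ T4.F1 (M, G, P, Q, t) := fun h => ht' (mem_filter.2 ⟨ht, h⟩)
    unfold TF.vh
    change 1 / TF.rp t.1.natAbs * al ^ TF.om p N t.2 * T4.dn (t.2 / TF.sm p N t.2) *
      (if (TF.sm p N t.2 : ℤ) ∣ T4.F1 (M, G, P, Q, t) then 1 else 0) * _ = _
    rw [if_neg h2, mul_zero, zero_mul]
  have h2 : 100 / (G : ℝ) * ∑ n ∈ NS p N G,
      al ^ n.primeFactors.card * n * UU p N M s G P Q n bT bR c =
      ∑ x ∈ (NS p N G).sigma (fun n => (DD (T4.W0 p) n (s * M) G P Q ((M - 1) / (3 * P))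
        (10 * M / P)).sigma (fun D => KU p M s G P Q n c D)),
        Ph p N M s G P Q al bT bR x.1 x.2.1 x.2.2 := by
    rw [sum_sigma, mul_sum]
    refine sum_congr rfl fun n _ => ?_
    rw [sum_sigma, UU_eq, mul_sum, mul_sum]
    refine sum_congr rfl fun D _ => ?_
    rw [mul_sum, mul_sum, mul_sum]
    refine sum_congr rfl fun k _ => ?_
    unfold Ph
    ring
  rw [h1, h2]
  refine (sum_le_sum fun t ht => vh_le (al := al) (bT := bT) (bR := bR) (c := c) hM hG hP hal hT hR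
    hs (hmem t ht).1 (hmem t ht).2.1 (hmem t ht).2.2.1 (hmem t ht).2.2.2).trans ?_
  refine sum_le_of_inj (fun t => ⟨TF.sm p N t.2, ⟨t.1.natAbs, t.2 / TF.sm p N t.2⟩⟩) _ _ ?_ ?_ ?_ ?_
  · intro t ht
    obtain ⟨hm1, hm2, hm3, hm4⟩ := hmem t ht
    obtain ⟨hX, habs, hn, hD, hY, hdiv, hk'⟩ := mem_facts hM hP hs hm1 hm2 hm3 hm4
    exact mem_sigma.2 ⟨hn, mem_sigma.2 ⟨hD, hk'⟩⟩
  · intro t ht t' ht' he
    rw [Finset.mem_coe] at ht ht'
    obtain ⟨hm1, hm2, hm3, hm4⟩ := hmem t ht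
    obtain ⟨hm1', hm2', hm3', hm4'⟩ := hmem t' ht'
    obtain ⟨-, ha, -, -, hY, -, -⟩ := mem_facts hM hP hs hm1 hm2 hm3 hm4
    obtain ⟨-, ha', -, -, hY', -, -⟩ := mem_facts hM hP hs hm1' hm2' hm3' hm4'
    simp only [Sigma.mk.injEq, heq_eq_eq] at he
    obtain ⟨e1, e2, e3⟩ := he
    have h3 : t.2 = t'.2 := by rw [← hY, ← hY', e1, ← e3, e1]
    have h4 : t.1 = t'.1 := by
      have h5 : s * t.1 = s * t'.1 := by rw [← ha, ← ha', e2]
      linear_combination s * h5 - (t.1 - t'.1) * hs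
    exact Prod.ext h4 h3
  · intro x _
    exact le_rfl
  · intro x _
    exact Ph_nonneg _ _ _ _ _ hal hT hR _ _ _

end

end EDU

open scoped Classical in
/-- **EDU** -/
theorem specEDU : SpecEDU := by
  intro p N M G P Q al bT bR c _ _ _ _ hM hG hP _ hal _ hT _ hR _
  have h1 := EDU.sum_sign (p := p) (N := N) (Q := Q) (c := c) hM hG hP hal hT hR
    (s := 1) (by norm_num)
  have h2 := EDU.sum_sign (p := p) (N := N) (Q := Q) (c := c) hM hG hP hal hT hR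
    (s := -1) (by norm_num)
  have h3 : 100 / (G : ℝ) * ∑ n ∈ (T1.SQ (TF.PP p N) (T4.zz p N ^ (4 * p.K))).filter
      (fun n => n.Coprime G), al ^ n.primeFactors.card * n *
        (UU p N M 1 G P Q n bT bR c + UU p N M (-1) G P Q n bT bR c) =
      100 / (G : ℝ) * ∑ n ∈ EDU.NS p N G,
        al ^ n.primeFactors.card * n * UU p N M 1 G P Q n bT bR c +
      100 / (G : ℝ) * ∑ n ∈ EDU.NS p N G,
        al ^ n.primeFactors.card * n * UU p N M (-1) G P Q n bT bR c := by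
    rw [← mul_add, ← Finset.sum_add_distrib]
    congr 1
    exact Finset.sum_congr rfl fun n _ => by ring
  rw [h3]
  refine le_trans (le_of_eq ?_) (add_le_add h1 h2)
  exact EDU.sum_split M G P Q c _

end Pool.Agent.Lib.MP391708.TA
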