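import Pool.Agent.Lib.MP_391708_nt.TA.LMJ
import Pool.Agent.Lib.MP_391708_nt.T1.ELM

/-!
# Theorem T1a, module ELM: local means
-/

set_option autoImplicit false
set_option linter.unusedSectionVars false

namespace Pool.Agent.Lib.MP391708.TA

open Finset
open scoped Classical
open T1 (SDD Dm Locm F1 F2 wgt wgt0)
open T1.ELMM (sum_range_zmod dvd_iff dvd_val w dvd_w w_cases sum_w sum_one card_ne f1 dvd_F1 F2_eq
  dvd_F2 two_ne u u_cases u_at_zero u_excl wgt_val wgt_bounds card_w)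

noncomputable section

namespace ELMM

variable {l : ℕ} [hl : Fact l.Prime]

lemma om_val {a : ℤ} {G : ℕ} (x y : ZMod l) :
    omj a l 1 G (x.val : ℤ) (y.val : ℤ) =
      if x = 0 then 1 else (1 - ch a l / l) + ch a l * w G x y := by
  unfold omj
  by_cases hx : x = 0
  · rw [if_pos ((dvd_val x).2 hx), if_pos hx]
  · rw [if_neg (fun h => hx ((dvd_val x).1 h)), if_neg hx, LMJM.dens_one]
    unfold w
    by_cases h : (G : ZMod l) + x * y = 0
    · rw [if_pos h, if_pos ((dvd_w G x y).2 h)]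
      ring
    · rw [if_neg h, if_neg (fun h' => h ((dvd_w G x y).1 h'))]
      ring

lemma om_bound {a : ℤ} {G : ℕ} (x y : ZMod l) :
    0 ≤ omj a l 1 G (x.val : ℤ) (y.val : ℤ) ∧ omj a l 1 G (x.val : ℤ) (y.val : ℤ) ≤ 2 := by
  unfold omj
  split_ifs
  · norm_num
  · have := LMJM.dens_bounds a hl.out (le_refl 1) ((G : ℤ) + (x.val : ℤ) * (y.val : ℤ))
    rw [show (((1 : ℕ) : ℝ) + 1) = 2 by norm_num] at this
    exact this

/-- the sum over the admissible classes -/
def Sm (a : ℤ) (l : ℕ) [Fact l.Prime] (G : ℕ) (ψ : ℤ → ℤ → ℝ) : ℝ :=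
  ∑ x : ZMod l, ∑ y : ZMod l, ψ (x.val : ℤ) (y.val : ℤ) * omj a l 1 G (x.val : ℤ) (y.val : ℤ)

def Sm' (a : ℤ) (l : ℕ) [Fact l.Prime] (G : ℕ) (ψ : ℤ → ℤ → ℝ) : ℝ :=
  ∑ x ∈ (univ : Finset (ZMod l)).filter (fun x => x ≠ 0), ∑ y : ZMod l,
    ψ (x.val : ℤ) (y.val : ℤ) * omj a l 1 G (x.val : ℤ) (y.val : ℤ)

lemma lm_unit {a : ℤ} {G : ℕ} (hG : ¬ l ∣ G) (ψ : ℤ → ℤ → ℝ) :
    lm a l G ψ = Sm a l G ψ / (l : ℝ) ^ 2 := by
  unfold lm Sm
  rw [if_neg (by rwa [Int.natCast_dvd_natCast])]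
  congr 1
  rw [sum_range_zmod (l := l) (fun d => ∑ e ∈ range l, ψ (d : ℤ) (e : ℤ) * omj a l 1 G (d : ℤ) (e : ℤ))]
  refine Finset.sum_congr rfl fun x _ => ?_
  rw [sum_range_zmod (l := l) (fun e => ψ (x.val : ℤ) (e : ℤ) * omj a l 1 G (x.val : ℤ) (e : ℤ))]

lemma lm_zero {a : ℤ} {G : ℕ} (hG : l ∣ G) (ψ : ℤ → ℤ → ℝ) :
    lm a l G ψ = Sm' a l G ψ / ((l : ℝ) * (l - 1)) := by
  unfold lm Sm'
  rw [if_pos (by rwa [Int.natCast_dvd_natCast])]
  congr 1
  rw [Finset.sum_filter, Finset.sum_filter,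
    sum_range_zmod (l := l) (fun d => if d ≠ 0 then
      ∑ e ∈ range l, ψ (d : ℤ) (e : ℤ) * omj a l 1 G (d : ℤ) (e : ℤ) else 0)]
  refine Finset.sum_congr rfl fun x _ => ?_
  have : x.val ≠ 0 ↔ x ≠ 0 := by rw [Ne, Ne, ZMod.val_eq_zero]
  simp only [this]
  split_ifs
  · rw [sum_range_zmod (l := l) (fun e => ψ (x.val : ℤ) (e : ℤ) * omj a l 1 G (x.val : ℤ) (e : ℤ))]
  · rfl

/-- the row sum of the density -/
lemma row {a : ℤ} {G : ℕ} (x : ZMod l) :
    ∑ y : ZMod l, omj a l 1 G (x.val : ℤ) (y.val : ℤ) = l := by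
  have hl0 : (l : ℝ) ≠ 0 := by exact_mod_cast hl.out.ne_zero
  by_cases hx : x = 0
  · rw [Finset.sum_congr rfl (fun y _ => by rw [om_val, if_pos hx]), sum_one]
  · rw [Finset.sum_congr rfl (fun y _ => by rw [om_val, if_neg hx]), Finset.sum_add_distrib,
      ← Finset.mul_sum]
    have h1 : ∑ y : ZMod l, w G x y = 1 := by
      have := sum_w (G := G) hx (fun _ => (1 : ℝ))
      simpa using this
    rw [h1, Finset.sum_const, card_univ, ZMod.card, nsmul_eq_mul]
    field_simp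
    ring

lemma Sm_const {a : ℤ} {G : ℕ} (c : ℝ) : Sm a l G (fun _ _ => c) = c * (l : ℝ) ^ 2 := by
  unfold Sm
  rw [Finset.sum_congr rfl (fun x _ => by rw [← Finset.mul_sum, row]), Finset.sum_const,
    card_univ, ZMod.card, nsmul_eq_mul]
  ring

lemma Sm'_const {a : ℤ} {G : ℕ} (c : ℝ) :
    Sm' a l G (fun _ _ => c) = c * (l * (l - 1)) := by
  unfold Sm'
  rw [Finset.sum_congr rfl (fun x _ => by rw [← Finset.mul_sum, row]), Finset.sum_const,
    nsmul_eq_mul, card_ne]
  ring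

lemma lm_const {a : ℤ} {G : ℕ} (c : ℝ) : lm a l G (fun _ _ => c) = c := by
  have h1 : (1 : ℝ) < l := by exact_mod_cast hl.out.one_lt
  by_cases hG : l ∣ G
  · rw [lm_zero hG, Sm'_const, mul_div_assoc, div_self, mul_one]
    have : (0 : ℝ) < l * (l - 1) := mul_pos (by linarith) (by linarith)
    exact this.ne'
  · rw [lm_unit hG, Sm_const, mul_div_assoc, div_self, mul_one]
    positivity

lemma lm_mono {a : ℤ} {G : ℕ} {ψ φ : ℤ → ℤ → ℝ}
    (h : ∀ x y : ZMod l, ψ (x.val : ℤ) (y.val : ℤ) ≤ φ (x.val : ℤ) (y.val : ℤ)) :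
    lm a l G ψ ≤ lm a l G φ := by
  have h1 : (1 : ℝ) < l := by exact_mod_cast hl.out.one_lt
  by_cases hG : l ∣ G
  · rw [lm_zero hG, lm_zero hG]
    refine div_le_div_of_nonneg_right ?_ (mul_nonneg (by linarith) (by linarith))
    refine Finset.sum_le_sum fun x _ => Finset.sum_le_sum fun y _ => ?_
    exact mul_le_mul_of_nonneg_right (h x y) (om_bound x y).1
  · rw [lm_unit hG, lm_unit hG]
    refine div_le_div_of_nonneg_right ?_ (by positivity)
    refine Finset.sum_le_sum fun x _ => Finset.sum_le_sum fun y _ => ?_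
    exact mul_le_mul_of_nonneg_right (h x y) (om_bound x y).1

lemma lm_add {a : ℤ} {G : ℕ} (ψ φ : ℤ → ℤ → ℝ) :
    lm a l G (fun d e => ψ d e + φ d e) = lm a l G ψ + lm a l G φ := by
  by_cases hG : l ∣ G
  · rw [lm_zero hG, lm_zero hG, lm_zero hG, ← add_div]
    congr 1
    unfold Sm'
    rw [← Finset.sum_add_distrib]
    refine Finset.sum_congr rfl fun x _ => ?_
    rw [← Finset.sum_add_distrib]
    refine Finset.sum_congr rfl fun y _ => ?_
    ring
  · rw [lm_unit hG, lm_unit hG, lm_unit hG, ← add_div]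
    congr 1
    unfold Sm
    rw [← Finset.sum_add_distrib]
    refine Finset.sum_congr rfl fun x _ => ?_
    rw [← Finset.sum_add_distrib]
    refine Finset.sum_congr rfl fun y _ => ?_
    ring

lemma lm_one_sub {a : ℤ} {G : ℕ} (ψ : ℤ → ℤ → ℝ) :
    1 - lm a l G ψ = lm a l G (fun d e => 1 - ψ d e) := by
  have h1 := lm_const (l := l) (a := a) (G := G) 1
  have h2 := lm_add (l := l) (a := a) (G := G) ψ (fun d e => 1 - ψ d e)
  have h3 : lm a l G (fun d e => ψ d e + (1 - ψ d e)) = lm a l G (fun _ _ => 1) := by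
    congr 1
    funext d e
    ring
  linarith

/-- a crude upper bound -/
lemma lm_le_card {a : ℤ} {G : ℕ} (hl2 : 3 ≤ l) (T : Finset (ZMod l × ZMod l))
    {ψ : ℤ → ℤ → ℝ} (h0 : ∀ x y : ZMod l, 0 ≤ ψ (x.val : ℤ) (y.val : ℤ) ∧ ψ (x.val : ℤ) (y.val : ℤ) ≤ 1)
    (h : ∀ x y : ZMod l, (l ∣ G → x ≠ 0) → (x, y) ∉ T → ψ (x.val : ℤ) (y.val : ℤ) = 0) :
    lm a l G ψ ≤ 2 * T.card / ((l : ℝ) * (l - 1)) := by
  have h1 : (1 : ℝ) < l := by exact_mod_cast hl.out.one_lt
  have key : ∀ x y : ZMod l, (l ∣ G → x ≠ 0) →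
      ψ (x.val : ℤ) (y.val : ℤ) * omj a l 1 G (x.val : ℤ) (y.val : ℤ) ≤
        if (x, y) ∈ T then 2 else 0 := by
    intro x y hx
    have ho := om_bound (a := a) (G := G) x y
    split_ifs with hT
    · calc ψ (x.val : ℤ) (y.val : ℤ) * omj a l 1 G (x.val : ℤ) (y.val : ℤ)
          ≤ 1 * 2 := mul_le_mul (h0 x y).2 ho.2 ho.1 (by norm_num)
        _ = 2 := by norm_num
    · rw [h x y hx hT, zero_mul]
  have tot : ∑ x : ZMod l, ∑ y : ZMod l, (if (x, y) ∈ T then (2 : ℝ) else 0) = 2 * T.card := by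
    rw [← Finset.sum_product' (s := univ) (t := univ) (f := fun x y => if (x, y) ∈ T then (2 : ℝ) else 0)]
    rw [← Finset.sum_filter, Finset.sum_const, nsmul_eq_mul, mul_comm]
    congr 2
    congr 1
    ext p
    simp
  by_cases hG : l ∣ G
  · rw [lm_zero hG]
    refine div_le_div_of_nonneg_right ?_ (mul_nonneg (by linarith) (by linarith))
    rw [← tot]
    unfold Sm'
    refine le_trans (Finset.sum_le_sum fun x hx => Finset.sum_le_sum fun y _ =>
      key x y (fun _ => (mem_filter.1 hx).2)) ?_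
    refine Finset.sum_le_sum_of_subset_of_nonneg (Finset.filter_subset _ _) ?_
    intro x _ _
    refine Finset.sum_nonneg fun y _ => ?_
    split_ifs <;> norm_num
  · rw [lm_unit hG]
    have e1 : Sm a l G ψ ≤ 2 * T.card := by
      rw [← tot]
      exact Finset.sum_le_sum fun x _ => Finset.sum_le_sum fun y _ => key x y (fun hh => absurd hh hG)
    have hc : (0 : ℝ) ≤ 2 * T.card := by positivity
    calc Sm a l G ψ / (l : ℝ) ^ 2 ≤ 2 * T.card / (l : ℝ) ^ 2 :=
          div_le_div_of_nonneg_right e1 (by positivity)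
      _ ≤ 2 * T.card / ((l : ℝ) * (l - 1)) := by
          refine div_le_div_of_nonneg_left hc (mul_pos (by linarith) (by linarith)) ?_
          nlinarith

/-! ## roots -/

lemma prod_zmod {a M : ℤ} {G P Q : ℕ} (h : (G : ℤ) * P * Q = M ^ 2 + a) :
    (G : ZMod l) * P * Q = (M : ZMod l) ^ 2 + a := by
  have := congrArg (Int.cast : ℤ → ZMod l) h
  push_cast at this
  exact this

lemma a_ne {a : ℤ} (h : ¬ (l : ℤ) ∣ a) : (a : ZMod l) ≠ 0 := fun h' => h ((dvd_iff a).2 h')

lemma sq_iff {a : ℤ} (h2 : l ≠ 2) (hla : ¬ (l : ℤ) ∣ a) :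
    chz a l = 1 ↔ ∃ i : ZMod l, -(a : ZMod l) = i * i := by
  rw [chz_prime_one hl.out h2 hla]
  constructor
  · rintro ⟨s, hs⟩
    rw [dvd_iff] at hs
    push_cast at hs
    exact ⟨s, by linear_combination -hs⟩
  · rintro ⟨i, hi⟩
    refine ⟨(i.val : ℤ), ?_⟩
    rw [dvd_iff]
    push_cast
    rw [ZMod.natCast_zmod_val]
    linear_combination -hi

lemma roots_le {a M : ℤ} {G P Q : ℕ} (h3 : 3 ≤ l) (hla : (a : ZMod l) ≠ 0)
    (h : (G : ℤ) * P * Q = M ^ 2 + a) :
    ((univ : Finset (ZMod l)).filter (fun x => f1 l M G P Q x = 0)).card ≤ 2 := by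
  have h2 := two_ne (l := l) h3
  have hp := prod_zmod (l := l) h
  by_contra hc
  push Not at hc
  obtain ⟨x, y, z, ha, hb, hc', hab, hac, hbc⟩ := (Finset.two_lt_card_iff).1 hc
  simp only [mem_filter, mem_univ, true_and] at ha hb hc'
  unfold f1 at ha hb hc'
  have e1 : (P : ZMod l) * (x + y) = 2 * (M : ZMod l) := by
    have : (x - y) * ((P : ZMod l) * (x + y) - 2 * (M : ZMod l)) = 0 := by
      linear_combination ha - hb
    rcases mul_eq_zero.1 this with h' | h'
    · exact absurd (sub_eq_zero.1 h') hab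
    · exact sub_eq_zero.1 h'
  have e2 : (P : ZMod l) * (x + z) = 2 * (M : ZMod l) := by
    have : (x - z) * ((P : ZMod l) * (x + z) - 2 * (M : ZMod l)) = 0 := by
      linear_combination ha - hc'
    rcases mul_eq_zero.1 this with h' | h'
    · exact absurd (sub_eq_zero.1 h') hac
    · exact sub_eq_zero.1 h'
  have e3 : (P : ZMod l) * (y - z) = 0 := by linear_combination e1 - e2
  rcases mul_eq_zero.1 e3 with h' | h'
  · rw [h', zero_mul] at e1
    rcases mul_eq_zero.1 e1.symm with h'' | h''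
    · exact h2 h''
    · rw [h', h''] at hp
      exact hla (by linear_combination -hp)
  · exact hbc (sub_eq_zero.1 h')

lemma sum_u_two {a M : ℤ} {G P Q : ℕ} (h3 : 3 ≤ l) (hla : (a : ZMod l) ≠ 0)
    (h : (G : ℤ) * P * Q = M ^ 2 + a)
    (hP : (P : ZMod l) ≠ 0) (h4 : ∃ i : ZMod l, -(a : ZMod l) = i * i) :
    ∑ x : ZMod l, u l M G P Q x = 2 := by
  have h2 := two_ne (l := l) h3
  have hp := prod_zmod (l := l) h
  obtain ⟨i, hi⟩ := h4
  have hi0 : i ≠ 0 := by
    intro h0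
    rw [h0, mul_zero] at hi
    exact hla (neg_eq_zero.1 hi)
  have hne : ((M : ZMod l) + i) / P ≠ ((M : ZMod l) - i) / P := by
    intro h0
    rw [div_left_inj' hP] at h0
    have : 2 * i = 0 := by linear_combination h0
    rcases mul_eq_zero.1 this with h' | h'
    · exact h2 h'
    · exact hi0 h'
  have hset : (univ : Finset (ZMod l)).filter (fun x => f1 l M G P Q x = 0) =
      {((M : ZMod l) + i) / P, ((M : ZMod l) - i) / P} := by
    ext x
    simp only [mem_filter, mem_univ, true_and, mem_insert, mem_singleton]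
    have key : (P : ZMod l) * f1 l M G P Q x =
        ((P : ZMod l) * x - (M + i)) * ((P : ZMod l) * x - (M - i)) := by
      unfold f1
      linear_combination hp - hi
    constructor
    · intro hx
      rw [hx, mul_zero] at key
      rcases mul_eq_zero.1 key.symm with h' | h'
      · left
        rw [eq_div_iff hP]
        linear_combination h'
      · right
        rw [eq_div_iff hP]
        linear_combination h'
    · intro hx
      have : (P : ZMod l) * f1 l M G P Q x = 0 := by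
        rw [key]
        rcases hx with rfl | rfl
        · have : (P : ZMod l) * ((M + i) / P) - (M + i) = 0 := by field_simp; ring
          rw [this, zero_mul]
        · have : (P : ZMod l) * ((M - i) / P) - (M - i) = 0 := by field_simp; ring
          rw [this, mul_zero]
      exact (mul_eq_zero.1 this).resolve_left hP
  unfold u
  rw [← Finset.sum_filter, hset, Finset.sum_const, Finset.card_pair hne]
  norm_num

lemma u_zero_of_three {a M : ℤ} {G P Q : ℕ} (h : (G : ℤ) * P * Q = M ^ 2 + a)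
    (h4 : ¬ ∃ i : ZMod l, -(a : ZMod l) = i * i) (x : ZMod l) : u l M G P Q x = 0 := by
  have hp := prod_zmod (l := l) h
  unfold u
  rw [if_neg]
  intro hx
  apply h4
  refine ⟨(P : ZMod l) * x - M, ?_⟩
  unfold f1 at hx
  linear_combination (-(P : ZMod l)) * hx + hp

/-- the row sums of the weight -/
lemma row_wgt {a M : ℤ} {G P Q : ℕ} (hG : (G : ZMod l) ≠ 0) (bT bR V : ℝ)
    (hV : ∑ y : ZMod l, u l (-M) G Q P y = V) (x : ZMod l) :
    ∑ y : ZMod l, wgt l M G P Q bT bR (x.val : ℤ) (y.val : ℤ) * omj a l 1 G (x.val : ℤ) (y.val : ℤ) =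
      (1 - (1 - bT) * u l M G P Q x) * (if x = 0 then l - (1 - bR) * V else
        (1 - ch a l / l) * (l - 1 - (1 - bR) * V + (1 - bR) * u l M G P Q x)) := by
  have e0 : ∀ y : ZMod l, w G x y * (1 - w G x y) = 0 := by
    intro y
    rcases w_cases G x y with h | h <;> rw [h] <;> norm_num
  have hs : ∑ y : ZMod l, (1 - w G x y) * (1 - (1 - bR) * u l (-M) G Q P y) =
      (l - (1 - bR) * V) - (∑ y : ZMod l, w G x y) +
        (1 - bR) * ∑ y : ZMod l, w G x y * u l (-M) G Q P y := by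
    have : ∀ y : ZMod l, (1 - w G x y) * (1 - (1 - bR) * u l (-M) G Q P y) =
        1 - (1 - bR) * u l (-M) G Q P y - w G x y + (1 - bR) * (w G x y * u l (-M) G Q P y) := by
      intro y; ring
    rw [Finset.sum_congr rfl (fun y _ => this y), Finset.sum_add_distrib, Finset.sum_sub_distrib,
      Finset.sum_sub_distrib, ← Finset.mul_sum, ← Finset.mul_sum, sum_one, hV]
  by_cases hx : x = 0
  · have hw0 : ∀ y : ZMod l, w G x y = 0 := by
      intro y
      unfold w
      rw [hx, zero_mul, add_zero, if_neg hG]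
    rw [if_pos hx]
    have : ∀ y : ZMod l, wgt l M G P Q bT bR (x.val : ℤ) (y.val : ℤ) *
        omj a l 1 G (x.val : ℤ) (y.val : ℤ) = (1 - (1 - bT) * u l M G P Q x) *
          ((1 - w G x y) * (1 - (1 - bR) * u l (-M) G Q P y)) := by
      intro y
      rw [wgt_val, om_val, if_pos hx]; ring
    rw [Finset.sum_congr rfl (fun y _ => this y), ← Finset.mul_sum, hs]
    simp only [hw0, zero_mul, Finset.sum_const_zero]
    ring
  · rw [if_neg hx]
    have : ∀ y : ZMod l, wgt l M G P Q bT bR (x.val : ℤ) (y.val : ℤ) *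
        omj a l 1 G (x.val : ℤ) (y.val : ℤ) = (1 - (1 - bT) * u l M G P Q x) * (1 - ch a l / l) *
          ((1 - w G x y) * (1 - (1 - bR) * u l (-M) G Q P y)) := by
      intro y
      rw [wgt_val, om_val, if_neg hx]
      linear_combination ((1 - (1 - bT) * u l M G P Q x) * (1 - (1 - bR) * u l (-M) G Q P y) *
        ch a l) * e0 y
    rw [Finset.sum_congr rfl (fun y _ => this y), ← Finset.mul_sum, hs, sum_w hx, u_excl hG hx]
    have h1 : ∑ y : ZMod l, w G x y = 1 := by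
      have := sum_w (G := G) hx (fun _ => (1 : ℝ))
      simpa using this
    rw [h1]
    ring

/-- the total of the weight -/
lemma Sm_wgt {a M : ℤ} {G P Q : ℕ} (hG : (G : ZMod l) ≠ 0)
    (hQ : (Q : ZMod l) ≠ 0) (bT bR V : ℝ)
    (hV : ∑ y : ZMod l, u l (-M) G Q P y = V) (hU : ∑ x : ZMod l, u l M G P Q x = V) :
    Sm a l G (wgt l M G P Q bT bR) = (l - (1 - bR) * V) + (1 - ch a l / l) *
      ((l - 1) * (l - 1 - (1 - bR) * V) +
        V * ((1 - bR) - (1 - bT) * (l - 1 - (1 - bR) * V) - (1 - bT) * (1 - bR))) := by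
  unfold Sm
  rw [Finset.sum_congr rfl (fun x _ => row_wgt hG bT bR V hV x)]
  rw [← Finset.add_sum_erase univ _ (mem_univ (0 : ZMod l))]
  rw [if_pos rfl, u_at_zero hG hQ]
  have h0 : ∑ x ∈ (univ : Finset (ZMod l)).erase 0, u l M G P Q x = V := by
    rw [← hU, ← Finset.add_sum_erase univ _ (mem_univ (0 : ZMod l)), u_at_zero hG hQ, zero_add]
  have hc : (((univ : Finset (ZMod l)).erase 0).card : ℝ) = l - 1 := by
    rw [← card_ne (l := l), Finset.filter_ne']
  have e : ∀ x ∈ (univ : Finset (ZMod l)).erase 0,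
      (1 - (1 - bT) * u l M G P Q x) * (if x = 0 then l - (1 - bR) * V else
        (1 - ch a l / l) * (l - 1 - (1 - bR) * V + (1 - bR) * u l M G P Q x)) =
      (1 - ch a l / l) * (l - 1 - (1 - bR) * V) + (1 - ch a l / l) *
        ((1 - bR) - (1 - bT) * (l - 1 - (1 - bR) * V) - (1 - bT) * (1 - bR)) * u l M G P Q x := by
    intro x hx
    rw [if_neg (Finset.ne_of_mem_erase hx)]
    rcases u_cases M G P Q x with h | h <;> rw [h] <;> ring
  rw [Finset.sum_congr rfl e, Finset.sum_add_distrib, Finset.sum_const, ← Finset.mul_sum, h0,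
    nsmul_eq_mul, hc]
  ring

lemma lm_bounds {a : ℤ} {G : ℕ} {ψ : ℤ → ℤ → ℝ}
    (h : ∀ x y : ZMod l, 0 ≤ ψ (x.val : ℤ) (y.val : ℤ) ∧ ψ (x.val : ℤ) (y.val : ℤ) ≤ 1) :
    0 ≤ lm a l G ψ ∧ lm a l G ψ ≤ 1 := by
  constructor
  · have := lm_mono (l := l) (a := a) (G := G) (ψ := fun _ _ => (0 : ℝ)) (φ := ψ) (fun x y => (h x y).1)
    rwa [lm_const] at this
  · have := lm_mono (l := l) (a := a) (G := G) (ψ := ψ) (φ := fun _ _ => (1 : ℝ)) (fun x y => (h x y).2)
    rwa [lm_const] at this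

/-- the final bound from a counting set -/
lemma fin_bound {a : ℤ} {G : ℕ} (hl1 : 100 < l) (T : Finset (ZMod l × ZMod l))
    {ψ : ℤ → ℤ → ℝ} {n : ℝ} (hn : (T.card : ℝ) ≤ n)
    (h0 : ∀ x y : ZMod l, 0 ≤ ψ (x.val : ℤ) (y.val : ℤ) ∧ ψ (x.val : ℤ) (y.val : ℤ) ≤ 1)
    (h : ∀ x y : ZMod l, (l ∣ G → x ≠ 0) → (x, y) ∉ T → ψ (x.val : ℤ) (y.val : ℤ) = 0) :
    lm a l G ψ ≤ (5 / 2) * n / (l : ℝ) ^ 2 := by
  have hl' : (100 : ℝ) < l := by exact_mod_cast hl1
  refine le_trans (lm_le_card (by omega) T h0 h) ?_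
  have hn0 : (0 : ℝ) ≤ n := le_trans (by positivity) hn
  rw [div_le_div_iff₀ (mul_pos (by linarith) (by linarith)) (by positivity)]
  have e1 : 2 * (T.card : ℝ) * (l : ℝ) ^ 2 ≤ 2 * n * (l : ℝ) ^ 2 := by gcongr
  refine le_trans e1 ?_
  have : 5 / 2 * n * ((l : ℝ) * (l - 1)) - 2 * n * (l : ℝ) ^ 2 = n * l * (1 / 2 * l - 5 / 2) := by
    ring
  have h2 : 0 ≤ n * l * (1 / 2 * l - 5 / 2) :=
    mul_nonneg (mul_nonneg hn0 (by linarith)) (by linarith)
  linarith

end ELMM

open ELMM in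
theorem specELM : SpecELM := by
  intro a l M G P Q bT bR hlp hl1 hla hGPQ hT0 hT1 hR0 hR1
  have : Fact l.Prime := ⟨hlp⟩
  have hl' : (100 : ℝ) < l := by exact_mod_cast hl1
  have hl0 : (0 : ℝ) < l := by linarith
  have hp := prod_zmod (l := l) hGPQ
  have ha0 := a_ne (l := l) hla
  have hl2 : l ≠ 2 := by omega
  have hGPQ' : (G : ℤ) * Q * P = (-M) ^ 2 + a := by rw [neg_sq, ← hGPQ]; ring
  have hcard : Fintype.card (ZMod l) = l := ZMod.card l
  have hMz : (l : ℤ) ∣ M ^ 2 + a ↔ (M : ZMod l) ^ 2 + a = 0 := by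
    rw [dvd_iff]; push_cast; rfl
  have hunit : ¬ (l : ℤ) ∣ M ^ 2 + a →
      (G : ZMod l) ≠ 0 ∧ (P : ZMod l) ≠ 0 ∧ (Q : ZMod l) ≠ 0 := by
    intro h
    rw [hMz, ← hp] at h
    refine ⟨?_, ?_, ?_⟩ <;> intro h0 <;> rw [h0] at h <;> simp at h
  have hGd : (G : ZMod l) ≠ 0 → ¬ l ∣ G := by
    intro h h'
    exact h ((ZMod.natCast_eq_zero_iff G l).2 h')
  refine ⟨lm_const, ?_, ?_, ?_, ?_, ?_⟩
  · -- `χ(l) = 1`
    intro hM h4
    obtain ⟨hG, hP, hQ⟩ := hunit hM
    have hch : ch a l = 1 := by unfold ch; rw [h4]; norm_num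
    have h4' := (sq_iff hl2 hla).1 h4
    rw [lm_unit (hGd hG), Sm_wgt hG hQ bT bR 2 (sum_u_two (by omega) ha0 hGPQ' hQ h4')
      (sum_u_two (by omega) ha0 hGPQ hP h4'), hch]
    have e : 1 - ((l : ℝ) - (1 - bR) * 2 + (1 - 1 / (l : ℝ)) * (((l : ℝ) - 1) * (l - 1 - (1 - bR) * 2)
        + 2 * (1 - bR - (1 - bT) * (l - 1 - (1 - bR) * 2) - (1 - bT) * (1 - bR)))) / (l : ℝ) ^ 2
        - (6 - 2 * bT - 2 * bR) / l =
        ((-3 - 4 * (1 - bR) - 4 * (1 - bT) - 2 * (1 - bT) * (1 - bR)) + (1 + 4 * (1 - bR) +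
          2 * (1 - bT) + 2 * (1 - bT) * (1 - bR)) * (1 / l) + 0) / (l : ℝ) ^ 2 := by
      field_simp
      ring
    rw [e, abs_div, abs_of_pos (show (0 : ℝ) < (l : ℝ) ^ 2 by positivity)]
    refine div_le_div_of_nonneg_right ?_ (by positivity)
    have i1 : (1 : ℝ) / l ≤ 1 := by rw [div_le_one hl0]; linarith
    have i0 : (0 : ℝ) ≤ 1 / l := by positivity
    have a1 : 0 ≤ 1 - bR := by linarith
    have a2 : 0 ≤ 1 - bT := by linarith
    have a3 : 0 ≤ (1 - bT) * (1 - bR) := mul_nonneg a2 a1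
    have a4 : (1 - bT) * (1 - bR) ≤ 1 := mul_le_one₀ (by linarith) a1 (by linarith)
    have a5 : (1 + 4 * (1 - bR) + 2 * (1 - bT) + 2 * (1 - bT) * (1 - bR)) * (1 / (l : ℝ)) ≤
        (1 + 4 * (1 - bR) + 2 * (1 - bT) + 2 * (1 - bT) * (1 - bR)) * 1 :=
      mul_le_mul_of_nonneg_left i1 (by nlinarith)
    have a6 : 0 ≤ (1 + 4 * (1 - bR) + 2 * (1 - bT) + 2 * (1 - bT) * (1 - bR)) * (1 / (l : ℝ)) :=
      mul_nonneg (by nlinarith) i0
    rw [abs_le]
    constructor <;> nlinarith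
  · -- `χ(l) = -1`
    intro h4
    have h4' : ¬ ∃ i : ZMod l, -(a : ZMod l) = i * i := by
      rw [← sq_iff hl2 hla, h4]
      norm_num
    have hM : ¬ (l : ℤ) ∣ M ^ 2 + a := by
      intro h
      rw [hMz] at h
      exact h4' ⟨M, by linear_combination -h⟩
    obtain ⟨hG, hP, hQ⟩ := hunit hM
    have hch : ch a l = -1 := by
      unfold ch; rw [h4]; norm_num
    have z1 : ∑ y : ZMod l, u l (-M) G Q P y = 0 :=
      Finset.sum_eq_zero fun y _ => u_zero_of_three hGPQ' h4' y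
    have z2 : ∑ y : ZMod l, u l M G P Q y = 0 :=
      Finset.sum_eq_zero fun y _ => u_zero_of_three hGPQ h4' y
    rw [lm_unit (hGd hG), Sm_wgt hG hQ bT bR 0 z1 z2, hch]
    have e : 1 - ((l : ℝ) - (1 - bR) * 0 + (1 - -1 / (l : ℝ)) * (((l : ℝ) - 1) * (l - 1 - (1 - bR) * 0)
        + 0 * (1 - bR - (1 - bT) * (l - 1 - (1 - bR) * 0) - (1 - bT) * (1 - bR)))) / (l : ℝ) ^ 2
        = (1 - 1 / l) / (l : ℝ) ^ 2 := by
      field_simp
      ring
    rw [e]
    have i1 : (1 : ℝ) / l ≤ 1 := by rw [div_le_one hl0]; linarith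
    have i0 : (0 : ℝ) ≤ 1 / l := by positivity
    constructor
    · refine div_le_div_of_nonneg_right ?_ (by positivity)
      linarith
    · exact div_nonneg (by linarith) (by positivity)
  · -- `l ∣ M² + a`
    intro hM
    have hb1 : ∀ x y : ZMod l, 0 ≤ 1 - wgt0 l G Q (x.val : ℤ) (y.val : ℤ) ∧
        1 - wgt0 l G Q (x.val : ℤ) (y.val : ℤ) ≤ 1 := by
      intro x y
      unfold wgt0
      split_ifs <;> norm_num
    rw [lm_one_sub]
    refine ⟨(lm_bounds hb1).1, ?_⟩
    set T : Finset (ZMod l × ZMod l) :=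
      (univ : Finset (ZMod l × ZMod l)).filter (fun p => p.1 ≠ 0 ∧ (G : ZMod l) + p.1 * p.2 = 0) ∪
      (univ : Finset (ZMod l)).image (fun y => ((0 : ZMod l), y)) with hTdef
    have hTc : (T.card : ℝ) ≤ 2 * l := by
      have h1 : T.card ≤ l + l := by
        refine le_trans (Finset.card_union_le _ _) ?_
        refine add_le_add (card_w) ?_
        refine le_trans Finset.card_image_le ?_
        rw [card_univ, hcard]
      have : (T.card : ℝ) ≤ ((l + l : ℕ) : ℝ) := by exact_mod_cast h1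
      push_cast at this
      linarith
    refine le_trans (fin_bound hl1 T hTc hb1 ?_) ?_
    · intro x y _ hxy
      unfold wgt0
      rw [if_neg, sub_self]
      rintro (h | ⟨h, _⟩)
      · apply hxy
        rw [hTdef, mem_union]
        by_cases hx : x = 0
        · right
          rw [hx]
          exact mem_image_of_mem _ (mem_univ y)
        · left
          rw [mem_filter]
          exact ⟨mem_univ _, hx, (dvd_w G x y).1 h⟩
      · apply hxy
        rw [hTdef, mem_union]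
        right
        rw [(dvd_val x).1 h]
        exact mem_image_of_mem _ (mem_univ y)
    · rw [div_le_div_iff₀ (by positivity) hl0]
      have : 5 / 2 * (2 * (l : ℝ)) * l = 5 * (l : ℝ) ^ 2 := by ring
      rw [this]
      nlinarith [sq_nonneg (l : ℝ)]
  · -- special primes
    intro hM
    obtain ⟨hG, hP, hQ⟩ := hunit hM
    have hfin : ∀ (T : Finset (ZMod l × ZMod l)) (ψ : ℤ → ℤ → ℝ), T.card ≤ 2 * l →
        (∀ x y : ZMod l, 0 ≤ ψ (x.val : ℤ) (y.val : ℤ) ∧ ψ (x.val : ℤ) (y.val : ℤ) ≤ 1) →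
        (∀ x y : ZMod l, (x, y) ∉ T → ψ (x.val : ℤ) (y.val : ℤ) = 0) → lm a l G ψ ≤ 10 / l := by
      intro T ψ hc h0 h
      have hc' : (T.card : ℝ) ≤ 2 * l := by exact_mod_cast hc
      refine le_trans (fin_bound hl1 T hc' h0 (fun x y _ => h x y)) ?_
      rw [div_le_div_iff₀ (by positivity) hl0]
      have : 5 / 2 * (2 * (l : ℝ)) * l = 5 * (l : ℝ) ^ 2 := by ring
      rw [this]
      nlinarith [sq_nonneg (l : ℝ)]
    have hr1 := roots_le (l := l) (by omega) ha0 hGPQ
    have hr2 := roots_le (l := l) (by omega) ha0 hGPQ'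
    refine ⟨?_, ?_, ?_, ?_, ?_, ?_⟩
    · refine hfin (((univ : Finset (ZMod l)).filter (fun x => f1 l M G P Q x = 0)) ×ˢ univ) _ ?_ ?_ ?_
      · rw [Finset.card_product, card_univ, hcard]
        exact Nat.mul_le_mul_right l hr1
      · intro x y; split_ifs <;> norm_num
      · intro x y h
        rw [if_neg]
        intro h'
        apply h
        rw [mem_product, mem_filter]
        exact ⟨⟨mem_univ _, (dvd_F1 M G P Q x).1 h'⟩, mem_univ _⟩
    · refine hfin (univ ×ˢ ((univ : Finset (ZMod l)).filter (fun x => f1 l (-M) G Q P x = 0))) _ ?_ ?_ ?_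
      · rw [Finset.card_product, card_univ, hcard, mul_comm]
        exact Nat.mul_le_mul_right l hr2
      · intro x y; split_ifs <;> norm_num
      · intro x y h
        rw [if_neg]
        intro h'
        apply h
        rw [mem_product, mem_filter]
        exact ⟨mem_univ _, ⟨mem_univ _, (dvd_F2 M G P Q y).1 h'⟩⟩
    · refine hfin ({(0 : ZMod l)} ×ˢ univ) _ ?_ ?_ ?_
      · rw [Finset.card_product, card_univ, hcard, card_singleton]
        omega
      · intro x y; split_ifs <;> norm_num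
      · intro x y h
        rw [if_neg]
        intro h'
        apply h
        rw [mem_product, mem_singleton]
        exact ⟨(dvd_val x).1 h', mem_univ _⟩
    · refine hfin (univ ×ˢ {(0 : ZMod l)}) _ ?_ ?_ ?_
      · rw [Finset.card_product, card_univ, hcard, card_singleton]
        omega
      · intro x y; split_ifs <;> norm_num
      · intro x y h
        rw [if_neg]
        intro h'
        apply h
        rw [mem_product, mem_singleton]
        exact ⟨mem_univ _, (dvd_val y).1 h'⟩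
    · refine hfin ((univ : Finset (ZMod l × ZMod l)).filter
        (fun p => p.1 ≠ 0 ∧ (G : ZMod l) + p.1 * p.2 = 0)) _ ?_ ?_ ?_
      · refine le_trans (card_w) (by omega)
      · intro x y; split_ifs <;> norm_num
      · intro x y h
        rw [if_neg]
        intro h'
        apply h
        rw [mem_filter]
        have h'' := (dvd_w G x y).1 h'
        refine ⟨mem_univ _, ?_, h''⟩
        rintro rfl
        rw [zero_mul, add_zero] at h''
        exact hG h''
    · set T := ((univ : Finset (ZMod l)).filter (fun x => f1 l M G P Q x = 0)) ×ˢ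
        ((univ : Finset (ZMod l)).filter (fun x => f1 l (-M) G Q P x = 0)) with hTdef
      have hTc : (T.card : ℝ) ≤ 4 := by
        have : T.card ≤ 2 * 2 := by
          rw [hTdef, Finset.card_product]
          exact Nat.mul_le_mul hr1 hr2
        exact_mod_cast this
      refine le_trans (fin_bound hl1 T hTc ?_ ?_) ?_
      · intro x y; split_ifs <;> norm_num
      · intro x y _ h
        rw [if_neg]
        intro h'
        apply h
        rw [hTdef, mem_product, mem_filter, mem_filter]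
        exact ⟨⟨mem_univ _, (dvd_F1 M G P Q x).1 h'.1⟩, ⟨mem_univ _, (dvd_F2 M G P Q y).1 h'.2.1⟩⟩
      · refine div_le_div_of_nonneg_right ?_ (by positivity)
        norm_num
  · intro ψ hψ
    exact lm_bounds (fun x y => hψ.1 _ _)

end

end Pool.Agent.Lib.MP391708.TA
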