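import Pool.Agent.Lib.MP_391708_nt.TA.ESpec

/-!
# Theorem T1a, module EQR: equidistribution of `r(x) = ∑_{d ∣ x} χ(d)` in residue classes
-/

set_option autoImplicit false

namespace Pool.Agent.Lib.MP391708.TA

open Finset Filter Topology

namespace EQR

/-! ## Abel summation -/

lemma abel {f g : ℕ → ℝ} {P : ℝ} (hP : ∀ n, |∑ i ∈ range n, f i| ≤ P) {m : ℕ}
    (h0 : ∀ i, m ≤ i → 0 ≤ g i) (h1 : ∀ i, m ≤ i → g (i + 1) ≤ g i) (n : ℕ) :
    |∑ i ∈ Ico m n, f i * g i| ≤ 2 * P * g m := by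
  have hP0 : 0 ≤ P := by simpa using hP 0
  have key : ∀ k : ℕ, |∑ i ∈ Ico m (m + k + 1), f i * g i -
      (∑ i ∈ range (m + k + 1), f i) * g (m + k)| ≤ P * (2 * g m - g (m + k)) := by
    intro k
    induction k with
    | zero =>
      simp only [Nat.add_zero]
      rw [sum_range_succ, Nat.Ico_succ_singleton, sum_singleton]
      have e : f m * g m - (∑ i ∈ range m, f i + f m) * g m = -((∑ i ∈ range m, f i) * g m) := by
        ring
      rw [e, abs_neg, abs_mul, abs_of_nonneg (h0 m le_rfl)]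
      have := mul_le_mul_of_nonneg_right (hP m) (h0 m le_rfl)
      linarith
    | succ k ih =>
      have e : ∑ i ∈ Ico m (m + (k + 1) + 1), f i * g i -
          (∑ i ∈ range (m + (k + 1) + 1), f i) * g (m + (k + 1)) =
          (∑ i ∈ Ico m (m + k + 1), f i * g i - (∑ i ∈ range (m + k + 1), f i) * g (m + k)) +
          (∑ i ∈ range (m + k + 1), f i) * (g (m + k) - g (m + k + 1)) := by
        rw [show m + (k + 1) + 1 = (m + k + 1) + 1 by ring, show m + (k + 1) = m + k + 1 by ring,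
          sum_Ico_succ_top (by omega), sum_range_succ]
        ring
      rw [e]
      have h3 : 0 ≤ g (m + k) - g (m + k + 1) := by linarith [h1 (m + k) (by omega)]
      have h2 : |(∑ i ∈ range (m + k + 1), f i) * (g (m + k) - g (m + k + 1))| ≤
          P * (g (m + k) - g (m + k + 1)) := by
        rw [abs_mul, abs_of_nonneg h3]
        exact mul_le_mul_of_nonneg_right (hP _) h3
      have h4 := abs_add_le (∑ i ∈ Ico m (m + k + 1), f i * g i -
        (∑ i ∈ range (m + k + 1), f i) * g (m + k))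
        ((∑ i ∈ range (m + k + 1), f i) * (g (m + k) - g (m + k + 1)))
      rw [show m + (k + 1) = m + k + 1 by ring]
      nlinarith [h4, h2, ih]
  rcases Nat.lt_or_ge m n with h | h
  · obtain ⟨k, rfl⟩ : ∃ k, n = m + k + 1 := ⟨n - m - 1, by omega⟩
    have h2 := key k
    have h3 : |(∑ i ∈ range (m + k + 1), f i) * g (m + k)| ≤ P * g (m + k) := by
      rw [abs_mul, abs_of_nonneg (h0 (m + k) (by omega))]
      exact mul_le_mul_of_nonneg_right (hP _) (h0 (m + k) (by omega))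
    have h4 := abs_add_le (∑ i ∈ Ico m (m + k + 1), f i * g i -
        (∑ i ∈ range (m + k + 1), f i) * g (m + k)) ((∑ i ∈ range (m + k + 1), f i) * g (m + k))
    rw [sub_add_cancel] at h4
    nlinarith
  · rw [Ico_eq_empty (by omega), sum_empty, abs_zero]
    exact mul_nonneg (by linarith) (h0 m le_rfl)

/-- the partial sums of `h(i)/i` tend to `K` -/
def HasK (h : ℕ → ℝ) (K : ℝ) : Prop :=
  Tendsto (fun n : ℕ => ∑ i ∈ range n, h i / (i : ℝ)) atTop (𝓝 K)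

lemma lim {f : ℕ → ℝ} {P : ℝ} (hP : ∀ n, |∑ i ∈ range n, f i| ≤ P) :
    ∃ K : ℝ, HasK f K ∧ ∀ n : ℕ, 0 < n → |∑ i ∈ range n, f i / (i : ℝ) - K| ≤ 2 * P / n := by
  have hP0 : 0 ≤ P := by simpa using hP 0
  have h1 : ∀ n m : ℕ, 0 < n → n ≤ m →
      |∑ i ∈ range m, f i / (i : ℝ) - ∑ i ∈ range n, f i / (i : ℝ)| ≤ 2 * P / n := by
    intro n m hn hnm
    rw [← sum_Ico_eq_sub _ hnm]
    have h2 := abel (g := fun i : ℕ => 1 / (i : ℝ)) hP (m := n) (fun i _ => by positivity)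
      (fun i hi => by
        have : (0 : ℝ) < i := by exact_mod_cast lt_of_lt_of_le hn hi
        push_cast
        exact one_div_le_one_div_of_le this (by linarith)) m
    have e : ∑ i ∈ Ico n m, f i / (i : ℝ) = ∑ i ∈ Ico n m, f i * (1 / (i : ℝ)) :=
      sum_congr rfl fun i _ => by rw [mul_one_div]
    rw [e]
    refine h2.trans (le_of_eq ?_)
    rw [mul_one_div]
  have h3 : CauchySeq (fun n : ℕ => ∑ i ∈ range n, f i / (i : ℝ)) := by
    refine cauchySeq_of_le_tendsto_0 (fun N : ℕ => 4 * P * (1 / ((N : ℝ) + 1)) + 4 * P * (1 / ((N : ℝ) + 1))) ?_ ?_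
    · intro n m N hn hm
      rcases Nat.eq_zero_or_pos N with hN | hN
      · subst hN
        have h4 : ∀ k : ℕ, |∑ i ∈ range k, f i / (i : ℝ)| ≤ 2 * P := by
          intro k
          rcases Nat.eq_zero_or_pos k with hk | hk
          · subst hk; simp; linarith
          · have := h1 1 k one_pos hk
            simpa using this
        rw [Real.dist_eq]
        have h5 := abs_sub (∑ i ∈ range n, f i / (i : ℝ)) (∑ i ∈ range m, f i / (i : ℝ))
        have h6 := h4 n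
        have h7 := h4 m
        norm_num
        linarith
      · have hN1 : (1 : ℝ) ≤ N := by exact_mod_cast hN
        have h4 := h1 N n hN hn
        have h5 := h1 N m hN hm
        have h6 : 2 * P / (N : ℝ) ≤ 4 * P * (1 / ((N : ℝ) + 1)) := by
          rw [mul_one_div, div_le_div_iff₀ (by linarith) (by linarith)]
          nlinarith [mul_nonneg hP0 (by linarith : (0:ℝ) ≤ (N : ℝ) - 1)]
        rw [Real.dist_eq]
        have h7 := abs_sub_le (∑ i ∈ range n, f i / (i : ℝ)) (∑ i ∈ range N, f i / (i : ℝ))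
          (∑ i ∈ range m, f i / (i : ℝ))
        rw [abs_sub_comm (∑ i ∈ range N, f i / (i : ℝ)) (∑ i ∈ range m, f i / (i : ℝ))] at h7
        linarith
    · have h4 := (tendsto_one_div_add_atTop_nhds_zero_nat (𝕜 := ℝ)).const_mul (4 * P)
      have h5 := h4.add h4
      simpa using h5
  obtain ⟨K, hK⟩ := cauchySeq_tendsto_of_complete h3
  refine ⟨K, hK, fun n hn => ?_⟩
  rw [abs_sub_comm]
  refine le_of_tendsto ((hK.sub_const _).abs) ?_
  filter_upwards [eventually_ge_atTop n] with m hm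
  exact h1 n m hn hm

/-! ## the hyperbola -/

lemma hyp (F : ℕ → ℕ → ℝ) (X : ℕ) :
    ∑ x ∈ Ioc 0 X, ∑ d ∈ x.divisors, F d (x / d) =
      ∑ d ∈ Ioc 0 (Nat.sqrt X), ∑ e ∈ Ioc 0 (X / d), F d e +
      ∑ e ∈ Ioc 0 (Nat.sqrt X), ∑ d ∈ Ioc 0 (X / e), F d e -
      ∑ d ∈ Ioc 0 (Nat.sqrt X), ∑ e ∈ Ioc 0 (Nat.sqrt X), F d e := by
  set s := Nat.sqrt X with hs
  have hsX : s ≤ X := Nat.sqrt_le_self X
  have hs2 : s * s ≤ X := Nat.sqrt_le X
  have hs3 : X < (s + 1) * (s + 1) := Nat.lt_succ_sqrt X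
  have e0 : ∑ x ∈ Ioc 0 X, ∑ d ∈ x.divisors, F d (x / d) =
      ∑ d ∈ Ioc 0 X, ∑ e ∈ Ioc 0 X, (if d * e ≤ X then F d e else 0) := by
    rw [← sum_product' (Ioc 0 X) (Ioc 0 X) (fun d e => if d * e ≤ X then F d e else 0),
      ← sum_filter (fun p : ℕ × ℕ => p.1 * p.2 ≤ X) (fun p : ℕ × ℕ => F p.1 p.2), sum_sigma']
    refine sum_nbij' (fun p => (p.2, p.1 / p.2)) (fun p => ⟨p.1 * p.2, p.1⟩) ?_ ?_ ?_ ?_ ?_
    · rintro ⟨x, d⟩ h
      simp only [mem_sigma, mem_Ioc, Nat.mem_divisors] at h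
      obtain ⟨⟨hx0, hx⟩, hd, -⟩ := h
      have hd0 : 0 < d := Nat.pos_of_dvd_of_pos hd hx0
      simp only [mem_filter, mem_product, mem_Ioc]
      refine ⟨⟨⟨hd0, (Nat.le_of_dvd hx0 hd).trans hx⟩, Nat.div_pos (Nat.le_of_dvd hx0 hd) hd0,
        (Nat.div_le_self _ _).trans hx⟩, ?_⟩
      rw [Nat.mul_div_cancel' hd]
      exact hx
    · rintro ⟨d, e⟩ h
      simp only [mem_filter, mem_product, mem_Ioc] at h
      simp only [mem_sigma, mem_Ioc, Nat.mem_divisors]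
      have h3 : 0 < d * e := Nat.mul_pos h.1.1.1 h.1.2.1
      exact ⟨⟨h3, h.2⟩, dvd_mul_right d e, h3.ne'⟩
    · rintro ⟨x, d⟩ h
      simp only [mem_sigma, mem_Ioc, Nat.mem_divisors] at h
      obtain ⟨⟨hx0, hx⟩, hd, -⟩ := h
      simp only [Nat.mul_div_cancel' hd]
    · rintro ⟨d, e⟩ h
      simp only [mem_filter, mem_product, mem_Ioc] at h
      simp only [Nat.mul_div_cancel_left e h.1.1.1]
    · rintro ⟨x, d⟩ _
      rfl
  have e1 : ∑ d ∈ Ioc 0 s, ∑ e ∈ Ioc 0 (X / d), F d e =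
      ∑ d ∈ Ioc 0 X, ∑ e ∈ Ioc 0 X, (if d ≤ s ∧ d * e ≤ X then F d e else 0) := by
    have e2 : Ioc 0 s = (Ioc 0 X).filter (fun d => d ≤ s) := by
      ext d; simp only [mem_filter, mem_Ioc]; omega
    rw [e2, sum_filter]
    refine sum_congr rfl fun d hd => ?_
    rw [mem_Ioc] at hd
    by_cases hds : d ≤ s
    · rw [if_pos hds]
      have e3 : Ioc 0 (X / d) = (Ioc 0 X).filter (fun e => d * e ≤ X) := by
        ext e
        simp only [mem_filter, mem_Ioc]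
        rw [Nat.le_div_iff_mul_le hd.1, mul_comm e d]
        constructor
        · rintro ⟨h1, h2⟩
          exact ⟨⟨h1, (Nat.le_mul_of_pos_left e hd.1).trans h2⟩, h2⟩
        · rintro ⟨⟨h1, _⟩, h2⟩
          exact ⟨h1, h2⟩
      rw [e3, sum_filter]
      refine sum_congr rfl fun e _ => ?_
      simp only [hds, true_and]
    · rw [if_neg hds]
      symm
      refine sum_eq_zero fun e _ => ?_
      rw [if_neg (fun h => hds h.1)]
  have e2 : ∑ e ∈ Ioc 0 s, ∑ d ∈ Ioc 0 (X / e), F d e =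
      ∑ d ∈ Ioc 0 X, ∑ e ∈ Ioc 0 X, (if e ≤ s ∧ d * e ≤ X then F d e else 0) := by
    rw [sum_comm (s := Ioc 0 X) (t := Ioc 0 X)]
    have e2 : Ioc 0 s = (Ioc 0 X).filter (fun d => d ≤ s) := by
      ext d; simp only [mem_filter, mem_Ioc]; omega
    rw [e2, sum_filter]
    refine sum_congr rfl fun d hd => ?_
    rw [mem_Ioc] at hd
    by_cases hds : d ≤ s
    · rw [if_pos hds]
      have e3 : Ioc 0 (X / d) = (Ioc 0 X).filter (fun e => e * d ≤ X) := by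
        ext e
        simp only [mem_filter, mem_Ioc]
        rw [Nat.le_div_iff_mul_le hd.1]
        constructor
        · rintro ⟨h1, h2⟩
          exact ⟨⟨h1, (Nat.le_mul_of_pos_right e hd.1).trans h2⟩, h2⟩
        · rintro ⟨⟨h1, _⟩, h2⟩
          exact ⟨h1, h2⟩
      rw [e3, sum_filter]
      refine sum_congr rfl fun e _ => ?_
      simp only [hds, true_and]
    · rw [if_neg hds]
      symm
      refine sum_eq_zero fun e _ => ?_
      rw [if_neg (fun h => hds h.1)]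
  have e3 : ∑ d ∈ Ioc 0 s, ∑ e ∈ Ioc 0 s, F d e =
      ∑ d ∈ Ioc 0 X, ∑ e ∈ Ioc 0 X, (if d ≤ s ∧ e ≤ s then F d e else 0) := by
    have e2 : Ioc 0 s = (Ioc 0 X).filter (fun d => d ≤ s) := by
      ext d; simp only [mem_filter, mem_Ioc]; omega
    rw [e2, sum_filter]
    refine sum_congr rfl fun d hd => ?_
    by_cases hds : d ≤ s
    · rw [if_pos hds, sum_filter]
      refine sum_congr rfl fun e _ => ?_
      simp only [hds, true_and]
    · rw [if_neg hds]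
      symm
      refine sum_eq_zero fun e _ => ?_
      rw [if_neg (fun h => hds h.1)]
  rw [e0, e1, e2, e3, ← sum_add_distrib, ← sum_sub_distrib]
  refine sum_congr rfl fun d _ => ?_
  rw [← sum_add_distrib, ← sum_sub_distrib]
  refine sum_congr rfl fun e _ => ?_
  by_cases h1 : d ≤ s <;> by_cases h2 : e ≤ s
  · have h3 : d * e ≤ X := (Nat.mul_le_mul h1 h2).trans hs2
    simp [h1, h2, h3]
  · by_cases h3 : d * e ≤ X <;> simp [h1, h2, h3]
  · by_cases h3 : d * e ≤ X <;> simp [h1, h2, h3]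
  · have h3 : ¬ d * e ≤ X := by
      intro h3
      have h4 : (s + 1) * (s + 1) ≤ d * e := Nat.mul_le_mul (by omega) (by omega)
      omega
    simp [h1, h2, h3]

/-! ## limits of `∑ h(i)/i` -/

lemma hasK_LL (a : ℤ) {P : ℝ} (hP : ∀ n, |∑ i ∈ range n, ch a i| ≤ P) : HasK (ch a) (LL a) := by
  obtain ⟨K, hK, -⟩ := lim hP
  have : LL a = K := hK.limUnder_eq
  rw [this]
  exact hK

lemma HasK.add {h₁ h₂ : ℕ → ℝ} {K₁ K₂ : ℝ} (e₁ : HasK h₁ K₁) (e₂ : HasK h₂ K₂) :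
    HasK (fun d => h₁ d + h₂ d) (K₁ + K₂) := by
  have h := Tendsto.add e₁ e₂
  refine h.congr fun n => ?_
  rw [← sum_add_distrib]
  refine sum_congr rfl fun i _ => ?_
  rw [add_div]

lemma HasK.const_mul {h : ℕ → ℝ} {K : ℝ} (e : HasK h K) (c : ℝ) :
    HasK (fun d => c * h d) (c * K) := by
  have h1 := Tendsto.const_mul c e
  refine h1.congr fun n => ?_
  rw [mul_sum]
  refine sum_congr rfl fun i _ => ?_
  rw [mul_div_assoc]

/-- the terms divisible by `m` -/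
lemma HasK.dvd {h : ℕ → ℝ} {K : ℝ} (e : HasK h K) {m : ℕ} (hm : 0 < m) {χ : ℝ}
    (hχ : ∀ d, h (m * d) = χ * h d) : HasK (fun d => if m ∣ d then h d else 0) (χ / m * K) := by
  have hN : Tendsto (fun n : ℕ => (n + m - 1) / m) atTop atTop := by
    refine tendsto_atTop_mono (fun n => ?_) (Nat.tendsto_div_const_atTop hm.ne')
    exact Nat.div_le_div_right (by omega)
  have h1 := Tendsto.const_mul (χ / m) (e.comp hN)
  refine h1.congr fun n => ?_
  simp only [Function.comp]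
  rw [mul_sum]
  have e2 : ∑ i ∈ range n, (if m ∣ i then h i else 0) / (i : ℝ) =
      ∑ i ∈ (range n).filter (fun i => m ∣ i), h i / (i : ℝ) := by
    rw [sum_filter]
    refine sum_congr rfl fun i _ => ?_
    split_ifs <;> simp
  rw [e2]
  refine sum_nbij' (fun i => m * i) (fun i => i / m) ?_ ?_ ?_ ?_ ?_
  · intro i hi
    rw [mem_range] at hi
    rw [mem_filter, mem_range]
    refine ⟨?_, dvd_mul_right _ _⟩
    have h3 : i + 1 ≤ (n + m - 1) / m := hi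
    rw [Nat.le_div_iff_mul_le hm] at h3
    have h4 : (i + 1) * m = m * i + m := by ring
    omega
  · intro i hi
    rw [mem_filter, mem_range] at hi
    obtain ⟨h3, k, rfl⟩ := hi
    rw [mem_range, Nat.mul_div_cancel_left k hm]
    have h4 : k + 1 ≤ (n + m - 1) / m := by
      rw [Nat.le_div_iff_mul_le hm]
      have h4 : (k + 1) * m = m * k + m := by ring
      omega
    exact h4
  · intro i _
    exact Nat.mul_div_cancel_left i hm
  · intro i hi
    rw [mem_filter] at hi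
    exact Nat.mul_div_cancel' hi.2
  · intro i _
    rw [hχ i]
    push_cast
    rw [mul_div_mul_comm]

/-- one prime -/
lemma HasK.prime {h : ℕ → ℝ} {K : ℝ} (e : HasK h K) {l : ℕ} (hl : l.Prime) {χ : ℝ}
    (hχ : ∀ d, h (l * d) = χ * h d) (w : ℕ → ℝ) (j : ℕ) :
    HasK (fun d => w (Nat.gcd d (l ^ j)) * h d)
      (((1 - χ / l) * ∑ i ∈ range j, (χ / l) ^ i * w (l ^ i) + (χ / l) ^ j * w (l ^ j)) * K) := by
  have hχj : ∀ j : ℕ, ∀ d, h (l ^ j * d) = χ ^ j * h d := by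
    intro j
    induction j with
    | zero => intro d; simp
    | succ j ih => intro d; rw [pow_succ, mul_assoc, ih, hχ]; ring
  induction j with
  | zero =>
    have h1 := e.const_mul (w 1)
    simpa using h1
  | succ j ih =>
    have h1 := ih.add ((e.dvd (pow_pos hl.pos (j + 1)) (hχj (j + 1))).const_mul
      (w (l ^ (j + 1)) - w (l ^ j)))
    have e1 : (fun d => w (Nat.gcd d (l ^ (j + 1))) * h d) =
        fun d => w (Nat.gcd d (l ^ j)) * h d +
          (w (l ^ (j + 1)) - w (l ^ j)) * (if l ^ (j + 1) ∣ d then h d else 0) := by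
      funext d
      by_cases hd : l ^ (j + 1) ∣ d
      · rw [if_pos hd, Nat.gcd_eq_right hd, Nat.gcd_eq_right ((pow_dvd_pow l (Nat.le_succ j)).trans hd)]
        ring
      · rw [if_neg hd, mul_zero, add_zero]
        have h3 : Nat.gcd d (l ^ (j + 1)) = Nat.gcd d (l ^ j) := by
          obtain ⟨k, hk, hk2⟩ := (Nat.dvd_prime_pow hl).1 (Nat.gcd_dvd_right d (l ^ (j + 1)))
          have hk3 : k ≤ j := by
            by_contra h4
            have h5 : k = j + 1 := by omega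
            rw [h5] at hk2
            exact hd (hk2 ▸ Nat.gcd_dvd_left d (l ^ (j + 1)))
          apply Nat.dvd_antisymm
          · exact Nat.dvd_gcd (Nat.gcd_dvd_left _ _) (hk2 ▸ pow_dvd_pow l hk3)
          · exact Nat.dvd_gcd (Nat.gcd_dvd_left _ _)
              ((Nat.gcd_dvd_right _ _).trans (pow_dvd_pow l (Nat.le_succ j)))
        rw [h3]
    rw [e1]
    convert h1 using 1
    rw [sum_range_succ]
    have hl0 : (l : ℝ) ≠ 0 := by exact_mod_cast hl.ne_zero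
    push_cast
    rw [div_pow, div_pow, pow_succ]
    field_simp
    ring

/-- a finite set of primes -/
lemma HasK.prod {h : ℕ → ℝ} {K : ℝ} (e : HasK h K) (a : ℤ) (S : Finset ℕ) (hS : ∀ l ∈ S, l.Prime)
    (hχ : ∀ l ∈ S, ∀ d, h (l * d) = ch a l * h d) (w : ℕ → ℕ → ℝ) (j : ℕ → ℕ) :
    HasK (fun d => (∏ l ∈ S, w l (Nat.gcd d (l ^ j l))) * h d)
      ((∏ l ∈ S, ((1 - ch a l / l) * ∑ i ∈ range (j l), (ch a l / l) ^ i * w l (l ^ i) +
        (ch a l / l) ^ j l * w l (l ^ j l))) * K) := by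
  induction S using Finset.induction_on with
  | empty => simpa using e
  | insert p S hp ih =>
    have ih1 := ih (fun l hl => hS l (mem_insert_of_mem hl)) (fun l hl => hχ l (mem_insert_of_mem hl))
    have hpp := hS p (mem_insert_self _ _)
    have h2 : ∀ d, (∏ l ∈ S, w l (Nat.gcd (p * d) (l ^ j l))) * h (p * d) =
        ch a p * ((∏ l ∈ S, w l (Nat.gcd d (l ^ j l))) * h d) := by
      intro d
      rw [hχ p (mem_insert_self _ _)]
      have : ∏ l ∈ S, w l (Nat.gcd (p * d) (l ^ j l)) = ∏ l ∈ S, w l (Nat.gcd d (l ^ j l)) := by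
        refine prod_congr rfl fun l hl => ?_
        have hne : p ≠ l := by rintro rfl; exact hp hl
        have hc : Nat.Coprime p (l ^ j l) :=
          Nat.Coprime.pow_right _ ((Nat.coprime_primes hpp (hS l (mem_insert_of_mem hl))).2 hne)
        rw [Nat.Coprime.gcd_mul_left_cancel _ hc]
      rw [this]
      ring
    have h3 := ih1.prime hpp h2 (w p) (j p)
    simp only [prod_insert hp]
    convert h3 using 1
    · funext d; ring
    · ring

/-! ## counting in classes -/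

lemma count_class (Y M v : ℕ) (hM : 0 < M) :
    |(((Ioc 0 Y).filter (fun u => u ≡ v [MOD M])).card : ℝ) - (Y : ℝ) / M| ≤ 1 := by
  have h := Nat.Ioc_filter_modEq_card 0 Y hM v
  have hM' : (0 : ℝ) < M := by exact_mod_cast hM
  have h1 : (((Y : ℚ) - (v : ℚ)) / (M : ℚ)) = ((((0 : ℕ) : ℚ) - v) / M) + (Y : ℚ) / M := by
    push_cast
    ring
  rw [h1] at h
  set α : ℚ := (((0 : ℕ) : ℚ) - v) / M
  set β : ℚ := (Y : ℚ) / M with hβdef
  have hβ : 0 ≤ β := by positivity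
  have hf1 : (⌊α + β⌋ : ℚ) ≤ α + β := Int.floor_le _
  have hf2 : α + β < (⌊α + β⌋ : ℚ) + 1 := Int.lt_floor_add_one _
  have hf3 : (⌊α⌋ : ℚ) ≤ α := Int.floor_le _
  have hf4 : α < (⌊α⌋ : ℚ) + 1 := Int.lt_floor_add_one _
  have hmono : ⌊α⌋ ≤ ⌊α + β⌋ := Int.floor_le_floor (by linarith)
  rw [max_eq_left (by omega)] at h
  have h2 : (((((Ioc 0 Y).filter (fun u => u ≡ v [MOD M])).card : ℤ) : ℚ)
      = (⌊α + β⌋ : ℚ) - (⌊α⌋ : ℚ)) := by
    rw [h]; push_cast; ring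
  push_cast at h2
  have hq1 : ((((Ioc 0 Y).filter (fun u => u ≡ v [MOD M])).card : ℚ)) ≤ β + 1 := by
    rw [h2]; linarith
  have hq2 : β - 1 ≤ ((((Ioc 0 Y).filter (fun u => u ≡ v [MOD M])).card : ℚ)) := by
    rw [h2]; linarith
  have hr1 : (((((Ioc 0 Y).filter (fun u => u ≡ v [MOD M])).card : ℚ)) : ℝ) ≤ ((β + 1 : ℚ) : ℝ) := by
    exact_mod_cast hq1
  have hr2 : ((β - 1 : ℚ) : ℝ) ≤ (((((Ioc 0 Y).filter (fun u => u ≡ v [MOD M])).card : ℚ)) : ℝ) := by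
    exact_mod_cast hq2
  have e : ((β : ℚ) : ℝ) = (Y : ℝ) / M := by rw [hβdef]; push_cast; ring
  push_cast at hr1 hr2
  rw [e] at hr1 hr2
  rw [abs_le]
  constructor <;> linarith

lemma inv_class {d n : ℕ} (hn : 0 < n) (hd : d.Coprime n) (c : ℕ) :
    ∃ r : ℕ, ∀ e : ℕ, d * e ≡ c [MOD n] ↔ e ≡ r [MOD n] := by
  have : NeZero n := ⟨hn.ne'⟩
  have h1 : (d : ZMod n) * (d : ZMod n)⁻¹ = 1 := ZMod.coe_mul_inv_eq_one d hd
  refine ⟨((c : ZMod n) * (d : ZMod n)⁻¹).val, fun e => ?_⟩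
  rw [← ZMod.natCast_eq_natCast_iff, ← ZMod.natCast_eq_natCast_iff, ZMod.natCast_zmod_val]
  push_cast
  constructor
  · intro h
    rw [← h]
    linear_combination (-(e : ZMod n)) * h1
  · intro h
    rw [h]
    linear_combination (c : ZMod n) * h1

lemma class_iff {μ₀ Q d c₀ c : ℕ} (hμ : 0 < μ₀) (hQ : 0 < Q) (hco : μ₀.Coprime Q)
    (hd : d.Coprime μ₀) (hg : Nat.gcd d Q ∣ c) :
    ∃ r : ℕ, ∀ e : ℕ, (d * e ≡ c₀ [MOD μ₀] ∧ d * e ≡ c [MOD Q]) ↔
      e ≡ r [MOD μ₀ * (Q / Nat.gcd d Q)] := by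
  have hg0 : 0 < Nat.gcd d Q := Nat.gcd_pos_of_pos_right _ hQ
  obtain ⟨d', hd'⟩ := Nat.gcd_dvd_left d Q
  obtain ⟨Q', hQ'⟩ := Nat.gcd_dvd_right d Q
  obtain ⟨c', hc'⟩ := hg
  have hQ'0 : 0 < Q' := by
    rcases Nat.eq_zero_or_pos Q' with h | h
    · rw [h, mul_zero] at hQ'; omega
    · exact h
  have hcop : Nat.Coprime d' Q' := by
    have h1 := Nat.coprime_div_gcd_div_gcd hg0
    rw [Nat.div_eq_of_eq_mul_right hg0 hd', Nat.div_eq_of_eq_mul_right hg0 hQ'] at h1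
    exact h1
  obtain ⟨r₁, h₁⟩ := inv_class hμ hd c₀
  obtain ⟨r₂, h₂⟩ := inv_class hQ'0 hcop c'
  have hQd : Q / Nat.gcd d Q = Q' := Nat.div_eq_of_eq_mul_right hg0 hQ'
  have hco' : μ₀.Coprime Q' := Nat.Coprime.coprime_dvd_right ⟨_, by rw [mul_comm]; exact hQ'⟩ hco
  obtain ⟨r, hr₁, hr₂⟩ := Nat.chineseRemainder hco' r₁ r₂
  refine ⟨r, fun e => ?_⟩
  rw [hQd, ← Nat.modEq_and_modEq_iff_modEq_mul hco', h₁ e]
  have h3 : d * e ≡ c [MOD Q] ↔ e ≡ r₂ [MOD Q'] := by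
    rw [← h₂ e]
    have e1 : d * e = Nat.gcd d Q * (d' * e) := by
      conv_lhs => rw [hd']
      ring
    rw [e1, hc']
    conv_lhs => rw [hQ']
    have hgg : Nat.gcd d (Nat.gcd d Q * Q') = Nat.gcd d Q := by rw [← hQ']
    rw [hgg]
    exact Nat.ModEq.mul_left_cancel_iff' hg0.ne'
  rw [h3]
  constructor
  · rintro ⟨h4, h5⟩
    exact ⟨h4.trans hr₁.symm, h5.trans hr₂.symm⟩
  · rintro ⟨h4, h5⟩
    exact ⟨h4.trans hr₁, h5.trans hr₂⟩

/-- the number of classes `e` modulo `Q` with `d e ≡ c` -/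
noncomputable def tt (Q c d : ℕ) : ℝ := if Nat.gcd d Q ∣ c then (Nat.gcd d Q : ℝ) else 0

/-- the function of `d` -/
noncomputable def ff (a : ℤ) (μ₀ Q c d : ℕ) : ℝ :=
  if d.Coprime μ₀ then ch a d * tt Q c d else 0

lemma tt_nonneg (Q c d : ℕ) : 0 ≤ tt Q c d := by unfold tt; split_ifs <;> positivity

lemma tt_le {Q : ℕ} (hQ : 0 < Q) (c d : ℕ) : tt Q c d ≤ Q := by
  unfold tt
  split_ifs
  · exact_mod_cast Nat.gcd_le_right _ hQ
  · positivity

lemma ff_abs {Q : ℕ} (hQ : 0 < Q) (a : ℤ) (μ₀ c d : ℕ) : |ff a μ₀ Q c d| ≤ Q := by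
  unfold ff
  split_ifs
  · rw [abs_mul, abs_of_nonneg (tt_nonneg Q c d)]
    have h1 := ch_abs_le a d
    have h2 := tt_le hQ c d
    have h3 := tt_nonneg Q c d
    nlinarith [abs_nonneg (ch a d)]
  · rw [abs_zero]; positivity

lemma ff_zero (a : ℤ) (μ₀ Q c : ℕ) : ff a μ₀ Q c 0 = 0 := by
  unfold ff; rw [ch_zero]; split_ifs <;> simp

lemma count_ff {a : ℤ} {μ₀ Q c₀ c : ℕ} (hμ : 0 < μ₀) (hQ : 0 < Q) (hco : μ₀.Coprime Q)
    (hc₀ : c₀.Coprime μ₀) (d Y : ℕ) :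
    |ch a d * (((Ioc 0 Y).filter (fun e => d * e ≡ c₀ [MOD μ₀] ∧ d * e ≡ c [MOD Q])).card : ℝ) -
      ff a μ₀ Q c d * (Y / ((μ₀ * Q : ℕ) : ℝ))| ≤ 1 := by
  by_cases hd : d.Coprime μ₀
  · by_cases hg : Nat.gcd d Q ∣ c
    · obtain ⟨r, hr⟩ := class_iff (c₀ := c₀) hμ hQ hco hd hg
      have hg0 : 0 < Nat.gcd d Q := Nat.gcd_pos_of_pos_right _ hQ
      have e1 : (Ioc 0 Y).filter (fun e => d * e ≡ c₀ [MOD μ₀] ∧ d * e ≡ c [MOD Q]) =
          (Ioc 0 Y).filter (fun e => e ≡ r [MOD μ₀ * (Q / Nat.gcd d Q)]) :=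
        filter_congr fun e _ => hr e
      have hm : 0 < μ₀ * (Q / Nat.gcd d Q) :=
        Nat.mul_pos hμ (Nat.div_pos (Nat.gcd_le_right _ hQ) hg0)
      have h1 := count_class Y (μ₀ * (Q / Nat.gcd d Q)) r hm
      rw [e1]
      have e2 : (Y : ℝ) / ((μ₀ * (Q / Nat.gcd d Q) : ℕ) : ℝ) =
          (Nat.gcd d Q : ℝ) * (Y / ((μ₀ * Q : ℕ) : ℝ)) := by
        rw [Nat.cast_mul, Nat.cast_div (Nat.gcd_dvd_right _ _) (by exact_mod_cast hg0.ne'),
          Nat.cast_mul]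
        have h3 : (μ₀ : ℝ) ≠ 0 := by exact_mod_cast hμ.ne'
        have h4 : (Q : ℝ) ≠ 0 := by exact_mod_cast hQ.ne'
        have h5 : ((Nat.gcd d Q : ℕ) : ℝ) ≠ 0 := by exact_mod_cast hg0.ne'
        field_simp
      rw [e2] at h1
      unfold ff tt
      rw [if_pos hd, if_pos hg, mul_assoc, ← mul_sub, abs_mul]
      have h3 := ch_abs_le a d
      nlinarith [abs_nonneg (ch a d), abs_nonneg ((((Ioc 0 Y).filter
        (fun e => e ≡ r [MOD μ₀ * (Q / Nat.gcd d Q)])).card : ℝ) -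
          (Nat.gcd d Q : ℝ) * (Y / ((μ₀ * Q : ℕ) : ℝ)))]
    · have e1 : (Ioc 0 Y).filter (fun e => d * e ≡ c₀ [MOD μ₀] ∧ d * e ≡ c [MOD Q]) = ∅ := by
        rw [filter_eq_empty_iff]
        rintro e _ ⟨-, h2⟩
        apply hg
        have h3 : d * e ≡ c [MOD Nat.gcd d Q] := h2.of_dvd (Nat.gcd_dvd_right _ _)
        have h4 : Nat.gcd d Q ∣ d * e := (Nat.gcd_dvd_left d Q).mul_right e
        exact (Nat.ModEq.dvd_iff h3 dvd_rfl).1 h4
      rw [e1, card_empty]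
      unfold ff tt
      rw [if_pos hd, if_neg hg]
      simp
  · have e1 : (Ioc 0 Y).filter (fun e => d * e ≡ c₀ [MOD μ₀] ∧ d * e ≡ c [MOD Q]) = ∅ := by
      rw [filter_eq_empty_iff]
      rintro e _ ⟨h1, -⟩
      apply hd
      have h2 : Nat.gcd (d * e) μ₀ = Nat.gcd c₀ μ₀ := Nat.ModEq.gcd_eq h1
      have h3 : Nat.Coprime (d * e) μ₀ := by
        unfold Nat.Coprime; rw [h2]; exact hc₀
      exact Nat.Coprime.coprime_mul_right h3
    rw [e1, card_empty]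
    unfold ff
    rw [if_neg hd]
    simp

/-! ## partial sums of `ff` -/

lemma exists_neg {a : ℤ} (ha : a ≠ 0) (hN : Nsq a) {q : ℕ} (h : 0 < q) :
    ∃ k : ℕ, k.Coprime q ∧ ch a k = -1 := by
  obtain ⟨n, hn⟩ := hN
  have hk0 : n ≠ 0 := by rintro rfl; rw [chz_zero] at hn; norm_num at hn
  have hkc : n.Coprime (4 * a.natAbs) := by
    have h1 : n.Coprime (2 * a.natAbs) := by
      by_contra h
      rw [(chz_eq_zero_iff hk0).2 h] at hn
      norm_num at hn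
    rw [show 4 * a.natAbs = 2 * (2 * a.natAbs) by ring]
    exact Nat.Coprime.mul_right (Nat.Coprime.coprime_mul_right_right h1) h1
  have hq : 4 * a.natAbs ≠ 0 := by have := Int.natAbs_pos.2 ha; omega
  obtain ⟨p, hp, hpp, hpm⟩ := Nat.forall_exists_prime_gt_and_modEq (max q 1) hq hkc
  refine ⟨p, ?_, ?_⟩
  · refine (Nat.Prime.coprime_iff_not_dvd hpp).2 (fun h2 => ?_)
    have := Nat.le_of_dvd h h2
    omega
  · rw [ch_congr dvd_rfl hpm]
    unfold ch; rw [hn]; norm_num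

lemma ff_mod {a : ℤ} {μ₀ Q : ℕ} (hμa : 4 * a.natAbs ∣ μ₀) (c d : ℕ) :
    ff a μ₀ Q c (d % (μ₀ * Q)) = ff a μ₀ Q c d := by
  have h1 : Nat.gcd (d % (μ₀ * Q)) Q = Nat.gcd d Q :=
    Nat.ModEq.gcd_eq ((Nat.mod_modEq d (μ₀ * Q)).of_dvd (dvd_mul_left _ _))
  have h2 : Nat.gcd (d % (μ₀ * Q)) μ₀ = Nat.gcd d μ₀ :=
    Nat.ModEq.gcd_eq ((Nat.mod_modEq d (μ₀ * Q)).of_dvd (dvd_mul_right _ _))
  have h3 : ch a (d % (μ₀ * Q)) = ch a d :=
    ch_congr hμa ((Nat.mod_modEq d (μ₀ * Q)).of_dvd (dvd_mul_right _ _))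
  unfold ff tt Nat.Coprime
  simp only [h1, h2, h3]

lemma ff_period {a : ℤ} (ha : a ≠ 0) (hN : Nsq a) {μ₀ Q : ℕ} (hμ : 0 < μ₀) (hQ : 0 < Q)
    (hμa : 4 * a.natAbs ∣ μ₀) (c : ℕ) : ∑ d ∈ range (μ₀ * Q), ff a μ₀ Q c d = 0 := by
  obtain ⟨k, hk, hk1⟩ := exists_neg ha hN (Nat.mul_pos hμ hQ)
  have hkμ : k.Coprime μ₀ := Nat.Coprime.coprime_mul_right_right hk
  have hkQ : k.Coprime Q := Nat.Coprime.coprime_mul_left_right hk
  have h1 : ∑ n ∈ range (μ₀ * Q), ff a μ₀ Q c (k * n) = ∑ n ∈ range (μ₀ * Q), ff a μ₀ Q c n := by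
    have h2 := T1.ECRT.perm_sum (Nat.mul_pos hμ hQ) hk 0 (fun n => ff a μ₀ Q c n)
      (fun x => ff_mod hμa c x)
    simpa only [zero_add] using h2
  have h3 : ∑ n ∈ range (μ₀ * Q), ff a μ₀ Q c (k * n) = - ∑ n ∈ range (μ₀ * Q), ff a μ₀ Q c n := by
    rw [← sum_neg_distrib]
    refine sum_congr rfl fun n _ => ?_
    unfold ff tt
    rw [Nat.Coprime.gcd_mul_left_cancel n hkQ, ch_mul, hk1]
    have h4 : (k * n).Coprime μ₀ ↔ n.Coprime μ₀ := by
      unfold Nat.Coprime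
      rw [Nat.Coprime.gcd_mul_left_cancel n hkμ]
    by_cases h5 : n.Coprime μ₀
    · rw [if_pos (h4.2 h5), if_pos h5]; ring
    · rw [if_neg (fun h => h5 (h4.1 h)), if_neg h5]; ring
  linarith

lemma ff_partial {a : ℤ} (ha : a ≠ 0) (hN : Nsq a) {μ₀ Q : ℕ} (hμ : 0 < μ₀) (hQ : 0 < Q)
    (hμa : 4 * a.natAbs ∣ μ₀) (c n : ℕ) :
    |∑ d ∈ range n, ff a μ₀ Q c d| ≤ ((μ₀ * Q : ℕ) : ℝ) * Q := by
  set q := μ₀ * Q with hq
  have hq0 : 0 < q := Nat.mul_pos hμ hQ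
  have e1 : n = q * (n / q) + n % q := (Nat.div_add_mod n q).symm
  have e2 : ∑ d ∈ range n, ff a μ₀ Q c d = ∑ d ∈ range (n % q), ff a μ₀ Q c (q * (n / q) + d) := by
    conv_lhs => rw [e1]
    rw [sum_range_add, T1.ECRT.per_sum (fun d => ff a μ₀ Q c d) (fun x => ff_mod hμa c x),
      ff_period ha hN hμ hQ hμa c, mul_zero, zero_add]
  rw [e2]
  refine (abs_sum_le_sum_abs _ _).trans ?_
  refine (sum_le_sum fun d _ => ff_abs hQ a μ₀ c _).trans ?_
  rw [sum_const, card_range, nsmul_eq_mul]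
  have h3 : ((n % q : ℕ) : ℝ) ≤ q := by exact_mod_cast (Nat.mod_lt n hq0).le
  exact mul_le_mul_of_nonneg_right h3 (by positivity)

/-! ## the value of the limit -/

lemma ch_partial {a : ℤ} (ha : a ≠ 0) (hN : Nsq a) (n : ℕ) :
    |∑ d ∈ range n, ch a d| ≤ 4 * a.natAbs := by
  set q := 4 * a.natAbs with hq
  have hq0 : 0 < q := by have := Int.natAbs_pos.2 ha; omega
  have e1 : n = q * (n / q) + n % q := (Nat.div_add_mod n q).symm
  have e2 : ∑ d ∈ range n, ch a d = ∑ d ∈ range (n % q), ch a (q * (n / q) + d) := by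
    conv_lhs => rw [e1]
    rw [sum_range_add, T1.ECRT.per_sum (fun d => ch a d)
      (fun x => ch_congr dvd_rfl (Nat.mod_modEq _ _)), sum_period ha hN, mul_zero, zero_add]
  rw [e2]
  refine (abs_sum_le_sum_abs _ _).trans ?_
  refine (sum_le_sum fun d _ => ch_abs_le a _).trans ?_
  rw [sum_const, card_range, nsmul_eq_mul, mul_one]
  have h3 : ((n % q : ℕ) : ℝ) ≤ q := by exact_mod_cast (Nat.mod_lt n hq0).le
  refine h3.trans (le_of_eq ?_)
  rw [hq]; push_cast; ring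

lemma coprime_prodj {l : ℕ} {S : Finset ℕ} {j : ℕ → ℕ} (hl : l.Prime) (hS : ∀ p ∈ S, p.Prime)
    (h : l ∉ S) (n : ℕ) : Nat.Coprime (l ^ n) (∏ p ∈ S, p ^ j p) := by
  refine Nat.Coprime.prod_right fun p hp => ?_
  have hne : l ≠ p := by rintro rfl; exact h hp
  exact Nat.Coprime.pow _ _ ((Nat.coprime_primes hl (hS p hp)).2 hne)

lemma tt_prod {S : Finset ℕ} (hS : ∀ p ∈ S, p.Prime) (j : ℕ → ℕ) (c d : ℕ) :
    tt (∏ l ∈ S, l ^ j l) c d = ∏ l ∈ S, tt (l ^ j l) c d := by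
  induction S using Finset.induction_on with
  | empty => simp [tt]
  | insert p S hp ih =>
    have hc := coprime_prodj (j := j) (hS p (mem_insert_self _ _))
      (fun l hl => hS l (mem_insert_of_mem hl)) hp (j p)
    rw [prod_insert hp, prod_insert hp, ← ih (fun l hl => hS l (mem_insert_of_mem hl))]
    unfold tt
    rw [Nat.Coprime.gcd_mul d hc]
    have hgc : Nat.Coprime (Nat.gcd d (p ^ j p)) (Nat.gcd d (∏ l ∈ S, l ^ j l)) :=
      Nat.Coprime.coprime_dvd_left (Nat.gcd_dvd_right _ _)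
        (Nat.Coprime.coprime_dvd_right (Nat.gcd_dvd_right _ _) hc)
    by_cases h1 : Nat.gcd d (p ^ j p) ∣ c
    · by_cases h2 : Nat.gcd d (∏ l ∈ S, l ^ j l) ∣ c
      · rw [if_pos (hgc.mul_dvd_of_dvd_of_dvd h1 h2), if_pos h1, if_pos h2]
        push_cast; ring
      · rw [if_neg (fun h => h2 ((dvd_mul_left _ _).trans h)), if_neg h2, mul_zero]
    · rw [if_neg (fun h => h1 ((dvd_mul_right _ _).trans h)), if_neg h1, zero_mul]

lemma dens_eq (a : ℤ) {l : ℕ} (hl : l.Prime) (j c : ℕ) :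
    (1 - ch a l / l) * ∑ i ∈ range j, (ch a l / l) ^ i *
        (if l ^ i ∣ c then ((l ^ i : ℕ) : ℝ) else 0) +
      (ch a l / l) ^ j * (if l ^ j ∣ c then ((l ^ j : ℕ) : ℝ) else 0) = dens a l j (c : ℤ) := by
  have hl0 : (l : ℝ) ≠ 0 := by exact_mod_cast hl.ne_zero
  have h1 : ∀ i : ℕ, (ch a l / l) ^ i * (if l ^ i ∣ c then ((l ^ i : ℕ) : ℝ) else 0) =
      (if ((l ^ i : ℕ) : ℤ) ∣ (c : ℤ) then ch a l ^ i else 0) := by
    intro i
    by_cases h : l ^ i ∣ c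
    · rw [if_pos h, if_pos (by exact_mod_cast h), div_pow]
      push_cast
      field_simp
    · rw [if_neg h, if_neg (fun h2 => h (by exact_mod_cast h2)), mul_zero]
  unfold dens
  simp only [h1]

lemma hasK_ff {a : ℤ} (ha : a ≠ 0) (hN : Nsq a) {μ₀ : ℕ} (hμ : 0 < μ₀) (c : ℕ) (S : Finset ℕ)
    (j : ℕ → ℕ) (hS : ∀ l ∈ S, l.Prime ∧ ¬ l ∣ μ₀) :
    HasK (ff a μ₀ (∏ l ∈ S, l ^ j l) c)
      (LL a * rp a μ₀ * ∏ l ∈ S, dens a l (j l) (c : ℤ)) := by
  have h0 := hasK_LL a (ch_partial ha hN)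
  have h1 := h0.prod a S (fun l hl => (hS l hl).1) (fun l _ d => ch_mul a l d)
    (fun _ g => if g ∣ c then (g : ℝ) else 0) j
  have e1 : ∏ l ∈ S, ((1 - ch a l / l) * ∑ i ∈ range (j l), (ch a l / l) ^ i *
        (if l ^ i ∣ c then ((l ^ i : ℕ) : ℝ) else 0) +
      (ch a l / l) ^ j l * (if l ^ j l ∣ c then ((l ^ j l : ℕ) : ℝ) else 0)) =
      ∏ l ∈ S, dens a l (j l) (c : ℤ) :=
    prod_congr rfl fun l hl => dens_eq a (hS l hl).1 (j l) c
  rw [e1] at h1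
  have h2 := h1.prod a μ₀.primeFactors (fun l hl => Nat.prime_of_mem_primeFactors hl) ?_
    (fun _ g => if g = 1 then (1 : ℝ) else 0) (fun _ => 1)
  · have e2 : ∏ l ∈ μ₀.primeFactors, ((1 - ch a l / l) * ∑ i ∈ range 1, (ch a l / l) ^ i *
          (if l ^ i = 1 then (1 : ℝ) else 0) + (ch a l / l) ^ 1 * (if l ^ 1 = 1 then (1 : ℝ) else 0)) =
        rp a μ₀ := by
      unfold rp
      refine prod_congr rfl fun l hl => ?_
      have hl1 : l ≠ 1 := (Nat.prime_of_mem_primeFactors hl).one_lt.ne'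
      simp [hl1]
    rw [e2] at h2
    have e3 : ff a μ₀ (∏ l ∈ S, l ^ j l) c = fun d =>
        (∏ l ∈ μ₀.primeFactors, (if Nat.gcd d (l ^ 1) = 1 then (1 : ℝ) else 0)) *
          ((∏ l ∈ S, (if Nat.gcd d (l ^ j l) ∣ c then ((Nat.gcd d (l ^ j l) : ℕ) : ℝ) else 0)) *
            ch a d) := by
      funext d
      have h3 : ∏ l ∈ S, (if Nat.gcd d (l ^ j l) ∣ c then ((Nat.gcd d (l ^ j l) : ℕ) : ℝ) else 0) =
          tt (∏ l ∈ S, l ^ j l) c d := by
        rw [tt_prod (fun l hl => (hS l hl).1)]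
        rfl
      rw [h3]
      unfold ff
      by_cases hd : d.Coprime μ₀
      · have h4 : ∏ l ∈ μ₀.primeFactors, (if Nat.gcd d (l ^ 1) = 1 then (1 : ℝ) else 0) = 1 := by
          refine prod_eq_one fun l hl => ?_
          rw [if_pos]
          rw [pow_one]
          exact Nat.Coprime.coprime_dvd_right (Nat.dvd_of_mem_primeFactors hl) hd
        rw [if_pos hd, h4, one_mul, mul_comm]
      · rw [if_neg hd]
        obtain ⟨p, hp, hp1, hp2⟩ := Nat.Prime.not_coprime_iff_dvd.1 hd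
        rw [prod_eq_zero (Nat.mem_primeFactors.2 ⟨hp, hp2, hμ.ne'⟩), zero_mul]
        rw [if_neg]
        rw [pow_one, Nat.gcd_eq_right hp1]
        exact hp.one_lt.ne'
    rw [e3]
    convert h2 using 1
    ring
  · intro p hp d
    have hpp := Nat.prime_of_mem_primeFactors hp
    rw [ch_mul]
    have : ∏ l ∈ S, (if Nat.gcd (p * d) (l ^ j l) ∣ c then ((Nat.gcd (p * d) (l ^ j l) : ℕ) : ℝ) else 0)
        = ∏ l ∈ S, (if Nat.gcd d (l ^ j l) ∣ c then ((Nat.gcd d (l ^ j l) : ℕ) : ℝ) else 0) := by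
      refine prod_congr rfl fun l hl => ?_
      have hne : p ≠ l := by
        rintro rfl
        exact (hS p hl).2 (Nat.dvd_of_mem_primeFactors hp)
      have hc : Nat.Coprime p (l ^ j l) :=
        Nat.Coprime.pow_right _ ((Nat.coprime_primes hpp (hS l hl).1).2 hne)
      rw [Nat.Coprime.gcd_mul_left_cancel _ hc]
    rw [this]
    ring

/-! ## the main estimate -/

lemma total {a : ℤ} (ha : a ≠ 0) (hN : Nsq a) {μ₀ : ℕ} (hμ : 0 < μ₀) (hμa : 4 * a.natAbs ∣ μ₀)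
    {c₀ : ℕ} (hc₀ : c₀.Coprime μ₀) (hχ : chz a c₀ = 1) (c : ℕ) (S : Finset ℕ) (j : ℕ → ℕ)
    (hS : ∀ l ∈ S, l.Prime ∧ ¬ l ∣ μ₀) (X : ℕ) :
    |∑ x ∈ (Ioc 0 X).filter (fun x : ℕ => x ≡ c₀ [MOD μ₀] ∧ x ≡ c [MOD ∏ l ∈ S, l ^ j l]), rr a x
      - (X : ℝ) * (2 * LL a * rp a μ₀ / μ₀) * ∏ l ∈ S, (dens a l (j l) (c : ℤ) / (l : ℝ) ^ j l)| ≤
    10 * ((∏ l ∈ S, l ^ j l : ℕ) : ℝ) * Real.sqrt X := by
  set Q := ∏ l ∈ S, l ^ j l with hQdef
  have hQ : 0 < Q := prod_pos fun l hl => pow_pos (hS l hl).1.pos _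
  have hco : μ₀.Coprime Q := by
    refine Nat.Coprime.prod_right fun l hl => Nat.Coprime.pow_right _ ?_
    exact ((Nat.Prime.coprime_iff_not_dvd (hS l hl).1).2 (hS l hl).2).symm
  set q := μ₀ * Q with hq
  have hq0 : 0 < q := Nat.mul_pos hμ hQ
  have hqR : (0 : ℝ) < q := by exact_mod_cast hq0
  have hμR : (0 : ℝ) < μ₀ := by exact_mod_cast hμ
  have hQR : (1 : ℝ) ≤ Q := by exact_mod_cast hQ
  set K := LL a * rp a μ₀ * ∏ l ∈ S, dens a l (j l) (c : ℤ) with hK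
  have hKK : HasK (ff a μ₀ Q c) K := hasK_ff ha hN hμ c S j hS
  have hlim : ∀ n : ℕ, 0 < n → |∑ i ∈ range n, ff a μ₀ Q c i / (i : ℝ) - K| ≤
      2 * ((q : ℝ) * Q) / n := by
    obtain ⟨K', hK', h⟩ := lim (f := ff a μ₀ Q c) (P := (q : ℝ) * Q)
      (fun n => ff_partial ha hN hμ hQ hμa c n)
    have : K' = K := tendsto_nhds_unique hK' hKK
    rw [this] at h
    exact h
  -- rewrite the main term
  have emain : (X : ℝ) * (2 * LL a * rp a μ₀ / μ₀) *
      ∏ l ∈ S, (dens a l (j l) (c : ℤ) / (l : ℝ) ^ j l) = 2 * (X * K / q) := by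
    rw [prod_div_distrib, hK, hq, hQdef]
    push_cast
    have h1 : (∏ l ∈ S, (l : ℝ) ^ j l) ≠ 0 := by
      have : ((∏ l ∈ S, l ^ j l : ℕ) : ℝ) ≠ 0 := by
        rw [← hQdef]; exact_mod_cast hQ.ne'
      push_cast at this
      exact this
    field_simp
  rw [emain]
  set F : ℕ → ℕ → ℝ := fun d e => if d * e ≡ c₀ [MOD μ₀] ∧ d * e ≡ c [MOD Q] then ch a d else 0
    with hF
  have e0 : ∑ x ∈ (Ioc 0 X).filter (fun x : ℕ => x ≡ c₀ [MOD μ₀] ∧ x ≡ c [MOD Q]), rr a x =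
      ∑ x ∈ Ioc 0 X, ∑ d ∈ x.divisors, F d (x / d) := by
    rw [sum_filter]
    refine sum_congr rfl fun x _ => ?_
    unfold rr
    by_cases h : x ≡ c₀ [MOD μ₀] ∧ x ≡ c [MOD Q]
    · rw [if_pos h]
      refine sum_congr rfl fun d hd => ?_
      have h2 : d * (x / d) = x := Nat.mul_div_cancel' (Nat.dvd_of_mem_divisors hd)
      simp only [hF, h2, if_pos h]
    · rw [if_neg h]
      symm
      refine sum_eq_zero fun d hd => ?_
      have h2 : d * (x / d) = x := Nat.mul_div_cancel' (Nat.dvd_of_mem_divisors hd)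
      simp only [hF, h2, if_neg h]
  have hsym : ∀ d e, F d e = F e d := by
    intro d e
    simp only [hF]
    rw [mul_comm e d]
    by_cases h : d * e ≡ c₀ [MOD μ₀] ∧ d * e ≡ c [MOD Q]
    · rw [if_pos h, if_pos h]
      have h1 : chz a (d * e) = 1 := by rw [chz_congr hμa h.1]; exact hχ
      rw [chz_mul] at h1
      unfold ch
      rcases chz_trichotomy a d with h2 | h2 | h2 <;> rcases chz_trichotomy a e with h3 | h3 | h3 <;>
        rw [h2, h3] at h1 ⊢ <;> norm_num at h1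
    · rw [if_neg h, if_neg h]
  set s := Nat.sqrt X with hs
  have hsR : (s : ℝ) ≤ Real.sqrt X := by
    rw [Real.le_sqrt (by positivity) (by positivity), sq]
    exact_mod_cast Nat.sqrt_le X
  have hsR2 : Real.sqrt X < s + 1 := by
    rw [Real.sqrt_lt' (by positivity), sq]
    exact_mod_cast Nat.lt_succ_sqrt X
  set A := ∑ d ∈ Ioc 0 s, ∑ e ∈ Ioc 0 (X / d), F d e with hA
  set B := ∑ d ∈ Ioc 0 s, ∑ e ∈ Ioc 0 s, F d e with hB
  have e1 : ∑ x ∈ Ioc 0 X, ∑ d ∈ x.divisors, F d (x / d) = 2 * A - B := by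
    rw [hyp F X]
    have : ∑ e ∈ Ioc 0 (Nat.sqrt X), ∑ d ∈ Ioc 0 (X / e), F d e = A := by
      rw [hA]
      refine sum_congr rfl fun e _ => sum_congr rfl fun d _ => hsym d e
    rw [this]
    ring
  have hFsum : ∀ d Y : ℕ, ∑ e ∈ Ioc 0 Y, F d e = ch a d *
      (((Ioc 0 Y).filter (fun e => d * e ≡ c₀ [MOD μ₀] ∧ d * e ≡ c [MOD Q])).card : ℝ) := by
    intro d Y
    simp only [hF]
    rw [← sum_filter, sum_const, nsmul_eq_mul, mul_comm]
  have hcnt := fun d Y : ℕ => count_ff (a := a) (c := c) hμ hQ hco hc₀ d Y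
  -- the sum over `d ≤ s`
  have hrange : ∀ g : ℕ → ℝ, g 0 = 0 → ∑ d ∈ Ioc 0 s, g d = ∑ i ∈ range (s + 1), g i := by
    intro g hg
    rw [range_eq_Ico, sum_eq_sum_Ico_succ_bot (by omega), hg, zero_add]
    refine sum_congr ?_ fun _ _ => rfl
    ext i; simp only [mem_Ioc, mem_Ico]; omega
  have hA1 : |A - X * K / q| ≤ 2 * s + 2 * Q * Real.sqrt X := by
    have h1 : |A - ∑ d ∈ Ioc 0 s, X / (q : ℝ) * (ff a μ₀ Q c d / d)| ≤ 2 * s := by
      rw [hA, ← sum_sub_distrib]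
      refine (abs_sum_le_sum_abs _ _).trans ?_
      have h2 : ∀ d ∈ Ioc 0 s, |∑ e ∈ Ioc 0 (X / d), F d e - X / (q : ℝ) * (ff a μ₀ Q c d / d)| ≤ 2 := by
        intro d hd
        rw [mem_Ioc] at hd
        have hd0 : (0 : ℝ) < d := by exact_mod_cast hd.1
        rw [hFsum]
        have h3 := hcnt d (X / d)
        have h4 : |ff a μ₀ Q c d * (((X / d : ℕ) : ℝ) / q) - X / (q : ℝ) * (ff a μ₀ Q c d / d)| ≤ 1 := by
          have e5 : ff a μ₀ Q c d * (((X / d : ℕ) : ℝ) / q) - X / (q : ℝ) * (ff a μ₀ Q c d / d) =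
              - (ff a μ₀ Q c d * (((X : ℝ) / d - ((X / d : ℕ) : ℝ)) / q)) := by
            field_simp
            ring
          have h5 : 0 ≤ (X : ℝ) / d - ((X / d : ℕ) : ℝ) := sub_nonneg.2 Nat.cast_div_le
          have h6 : (X : ℝ) / d - ((X / d : ℕ) : ℝ) ≤ 1 := by
            have h7 : (X : ℝ) < ((X / d : ℕ) + 1) * d := by
              have := Nat.lt_div_mul_add (a := X) hd.1
              have h8 : X < (X / d + 1) * d := by
                rw [add_mul, one_mul]; exact this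
              exact_mod_cast h8
            have h8 : (X : ℝ) / d < (X / d : ℕ) + 1 := by rw [div_lt_iff₀ hd0]; exact h7
            linarith
          rw [e5, abs_neg, abs_mul, abs_of_nonneg (by positivity : 0 ≤ ((X : ℝ) / d - ((X / d : ℕ) : ℝ)) / q)]
          have h7 := ff_abs hQ a μ₀ c d
          have h8 : ((X : ℝ) / d - ((X / d : ℕ) : ℝ)) / q ≤ 1 / q := by gcongr
          have h9 : (Q : ℝ) * (1 / q) ≤ 1 := by
            rw [mul_one_div, div_le_one hqR]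
            have : Q ≤ q := Nat.le_mul_of_pos_left Q hμ
            exact_mod_cast this
          calc |ff a μ₀ Q c d| * (((X : ℝ) / d - ((X / d : ℕ) : ℝ)) / q)
              ≤ (Q : ℝ) * (1 / q) := mul_le_mul h7 h8 (by positivity) (by positivity)
            _ ≤ 1 := h9
        have h5 := abs_sub_le (ch a d * (((Ioc 0 (X / d)).filter (fun e => d * e ≡ c₀ [MOD μ₀] ∧
          d * e ≡ c [MOD Q])).card : ℝ)) (ff a μ₀ Q c d * (((X / d : ℕ) : ℝ) / q))
          (X / (q : ℝ) * (ff a μ₀ Q c d / d))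
        linarith
      refine (sum_le_sum h2).trans ?_
      rw [sum_const, Nat.card_Ioc, nsmul_eq_mul, Nat.sub_zero, mul_comm]
    have h2 : |∑ d ∈ Ioc 0 s, X / (q : ℝ) * (ff a μ₀ Q c d / d) - X * K / q| ≤
        2 * Q * Real.sqrt X := by
      rw [← mul_sum, hrange (fun d => ff a μ₀ Q c d / (d : ℝ)) (by simp)]
      have e3 : X / (q : ℝ) * ∑ i ∈ range (s + 1), ff a μ₀ Q c i / (i : ℝ) - X * K / q =
          X / (q : ℝ) * (∑ i ∈ range (s + 1), ff a μ₀ Q c i / (i : ℝ) - K) := by ring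
      rw [e3, abs_mul, abs_of_nonneg (by positivity : 0 ≤ (X : ℝ) / q)]
      have h3 := hlim (s + 1) (Nat.succ_pos s)
      calc (X : ℝ) / q * |∑ i ∈ range (s + 1), ff a μ₀ Q c i / (i : ℝ) - K|
          ≤ (X : ℝ) / q * (2 * ((q : ℝ) * Q) / ((s + 1 : ℕ) : ℝ)) :=
            mul_le_mul_of_nonneg_left h3 (by positivity)
        _ = 2 * Q * (X / ((s : ℝ) + 1)) := by push_cast; field_simp
        _ ≤ 2 * Q * Real.sqrt X := by
          refine mul_le_mul_of_nonneg_left ?_ (by positivity)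
          rw [div_le_iff₀ (by positivity)]
          have h4 : (X : ℝ) = Real.sqrt X * Real.sqrt X := (Real.mul_self_sqrt (by positivity)).symm
          have h5 := Real.sqrt_nonneg (X : ℝ)
          nlinarith
    have h3 := abs_sub_le A (∑ d ∈ Ioc 0 s, X / (q : ℝ) * (ff a μ₀ Q c d / d)) (X * K / q)
    linarith
  have hB1 : |B| ≤ s + s * Q := by
    have h1 : |B - ∑ d ∈ Ioc 0 s, (s : ℝ) / q * ff a μ₀ Q c d| ≤ s := by
      rw [hB, ← sum_sub_distrib]
      refine (abs_sum_le_sum_abs _ _).trans ?_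
      have h2 : ∀ d ∈ Ioc 0 s, |∑ e ∈ Ioc 0 s, F d e - (s : ℝ) / q * ff a μ₀ Q c d| ≤ 1 := by
        intro d _
        rw [hFsum]
        have h3 := hcnt d s
        rw [mul_comm (ff a μ₀ Q c d)] at h3
        exact h3
      refine (sum_le_sum h2).trans ?_
      rw [sum_const, Nat.card_Ioc, nsmul_eq_mul, Nat.sub_zero, mul_one]
    have h2 : |∑ d ∈ Ioc 0 s, (s : ℝ) / q * ff a μ₀ Q c d| ≤ s * Q := by
      rw [← mul_sum, hrange (fun d => ff a μ₀ Q c d) (ff_zero a μ₀ Q c), abs_mul,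
        abs_of_nonneg (by positivity : 0 ≤ (s : ℝ) / q)]
      have h3 := ff_partial ha hN hμ hQ hμa c (s + 1)
      calc (s : ℝ) / q * |∑ d ∈ range (s + 1), ff a μ₀ Q c d| ≤ (s : ℝ) / q * ((q : ℝ) * Q) :=
            mul_le_mul_of_nonneg_left h3 (by positivity)
        _ = s * Q := by field_simp
    have h3 := abs_add_le (B - ∑ d ∈ Ioc 0 s, (s : ℝ) / q * ff a μ₀ Q c d)
      (∑ d ∈ Ioc 0 s, (s : ℝ) / q * ff a μ₀ Q c d)
    rw [sub_add_cancel] at h3
    linarith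
  rw [e0, e1]
  have e2 : 2 * A - B - 2 * (X * K / q) = 2 * (A - X * K / q) - B := by ring
  rw [e2]
  have h1 := abs_sub (2 * (A - X * K / q)) B
  rw [abs_mul, abs_two] at h1
  have h2 : (s : ℝ) ≤ Q * Real.sqrt X := by
    have := Real.sqrt_nonneg (X : ℝ)
    nlinarith
  have h3 : (s : ℝ) * Q ≤ Q * Real.sqrt X := by nlinarith
  have h4 : 10 * (Q : ℝ) * Real.sqrt X = 10 * (Q * Real.sqrt X) := by ring
  rw [h4]
  nlinarith

end EQR

/-- **EQR** -/
theorem specEQR : SpecEQR := by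
  intro a ha hN
  refine ⟨20, by norm_num, ?_⟩
  intro μ₀ R₁ R₂ c₀ c S j hμ hμa hc₀ hχ hS hR
  have h1 := EQR.total ha hN hμ hμa hc₀ hχ c S j hS R₁
  have h2 := EQR.total ha hN hμ hμa hc₀ hχ c S j hS R₂
  set Q := ∏ l ∈ S, l ^ j l with hQdef
  set T := (2 * LL a * rp a μ₀ / μ₀) with hT
  set Pi' := ∏ l ∈ S, (dens a l (j l) (c : ℤ) / (l : ℝ) ^ j l) with hPi
  have e : (Ioc 0 R₂).filter (fun x : ℕ => x ≡ c₀ [MOD μ₀] ∧ x ≡ c [MOD Q]) =
      (Ioc 0 R₁).filter (fun x : ℕ => x ≡ c₀ [MOD μ₀] ∧ x ≡ c [MOD Q]) ∪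
      (Ioc R₁ R₂).filter (fun x : ℕ => x ≡ c₀ [MOD μ₀] ∧ x ≡ c [MOD Q]) := by
    rw [← filter_union, Ioc_union_Ioc_eq_Ioc (Nat.zero_le _) hR]
  have hd : Disjoint ((Ioc 0 R₁).filter (fun x : ℕ => x ≡ c₀ [MOD μ₀] ∧ x ≡ c [MOD Q]))
      ((Ioc R₁ R₂).filter (fun x : ℕ => x ≡ c₀ [MOD μ₀] ∧ x ≡ c [MOD Q])) := by
    refine disjoint_filter_filter ?_
    rw [disjoint_left]
    intro x hx hx2
    rw [mem_Ioc] at hx hx2
    omega
  rw [e, sum_union hd] at h2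
  have hsq : Real.sqrt R₁ ≤ Real.sqrt R₂ := Real.sqrt_le_sqrt (by exact_mod_cast hR)
  have hQ0 : (0 : ℝ) ≤ Q := by positivity
  have h3 : 10 * (Q : ℝ) * Real.sqrt R₁ ≤ 10 * (Q : ℝ) * Real.sqrt R₂ := by gcongr
  rw [abs_le] at h1 h2 ⊢
  constructor <;> nlinarith [h1.1, h1.2, h2.1, h2.2]

/-- the parts of LLX without positivity -/
theorem llx_weak (a : ℤ) (ha : a ≠ 0) (hN : Nsq a) :
    (∀ N : ℕ, |∑ n ∈ range N, ch a n| ≤ 4 * a.natAbs) ∧
    ∀ n : ℕ, 0 < n → |∑ i ∈ range n, ch a i / (i : ℝ) - LL a| ≤ 8 * a.natAbs / n := by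
  refine ⟨EQR.ch_partial ha hN, fun n hn => ?_⟩
  obtain ⟨K, hK, h⟩ := EQR.lim (EQR.ch_partial ha hN)
  have h1 : LL a = K := hK.limUnder_eq
  rw [h1]
  have h2 := h n hn
  have e : 2 * (4 * (a.natAbs : ℝ)) / n = 8 * a.natAbs / n := by ring
  rw [e] at h2
  exact h2

end Pool.Agent.Lib.MP391708.TA
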