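import Pool.Agent.Lib.MP_391708_nt.TA.Chi
import Pool.Agent.Lib.MP_391708_nt.T1.ESX

/-!
# Theorem T1a, modules ESN and ESX: the sum over the smooth part

`T1.ESN`, `T1.ESX` with the character `χ = χ_{-4b}` for `χ_{-4}`.
-/

set_option autoImplicit false

namespace Pool.Agent.Lib.MP391708.TA

open Finset
open scoped Classical
open T1 (SQ)
open T1.ESN hiding V F

noncomputable section

/-- primes with `χ(l) = 1` in `(E, z)` -/
def PPs (b : ℤ) (E : ℕ) (z : ℝ) : Finset ℕ := (QPA.PB z).filter (fun l => E < l ∧ chz b l = 1)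

lemma chz_big {b : ℤ} {E l : ℕ} (hb : b ≠ 0) (hE : 2 * b.natAbs ≤ E) (hl : l.Prime) (h : E < l) :
    chz b l = 1 ∨ chz b l = -1 := by
  have hb' : 0 < b.natAbs := Int.natAbs_pos.2 hb
  exact chz_sq hl.ne_zero (Nat.coprime_of_lt_prime (by omega) (by omega) hl)

/-- ESN: the sum over the smooth part.  `w l = 1 - (local mean)`, `P1` = the primes of `M² + b` in
`(E, z)`. -/
def SpecESN : Prop := ∃ C : ℝ, 0 < C ∧ ∀ (b : ℤ) (E : ℕ) (z K α τ : ℝ) (w : ℕ → ℝ) (P1 : Finset ℕ),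
  b ≠ 0 → 2 * b.natAbs ≤ E → 1000 ≤ E → 2 ≤ z → 1 ≤ K → 0 ≤ α → α ≤ 1 → 0 ≤ τ → τ ≤ 6 →
  (∀ l ∈ P1, l.Prime ∧ E < l ∧ (l : ℝ) < z) →
  (∀ l : ℕ, l.Prime → E < l → (l : ℝ) < z → 0 ≤ w l ∧ (l ∉ P1 → chz b l = 1 →
      |w l - τ / l| ≤ 100 / (l : ℝ) ^ 2) ∧ (l ∉ P1 → chz b l = -1 → w l ≤ 2 / (l : ℝ) ^ 2) ∧
      (l ∈ P1 → w l ≤ 10 / l)) →
  let PE := (QPA.PB z).filter (fun l => E < l)
  let T := ∑ n ∈ SQ (PPs b E z \ P1) (z ^ K), (2 * α) ^ n.primeFactors.card / (n : ℝ) *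
      ∏ l ∈ PE.filter (fun l => ¬ l ∣ n), (1 - w l)
  let V := ∏ l ∈ PPs b E z, (1 - (τ - 2 * α) / (l : ℝ))
  T ≤ (1 + C / E) * Real.exp (C * ∑ l ∈ P1, 1 / (l : ℝ)) * V ∧
  (1 - C / E - C * Real.exp (-K / 2) - C * ∑ l ∈ P1, 1 / (l : ℝ)) * V ≤ T ∧
  -- a special prime
  (∀ l₀ : ℕ, l₀.Prime → ∑ n ∈ (SQ (PPs b E z \ P1) (z ^ K)).filter (fun n => l₀ ∣ n),
      (2 * α) ^ n.primeFactors.card / (n : ℝ) * ∏ l ∈ PE.filter (fun l => ¬ l ∣ n), (1 - w l) ≤
    C / l₀ * Real.exp (C * ∑ l ∈ P1, 1 / (l : ℝ)) * V) ∧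
  -- extra factor `∑_{l ∣ n} 1/l`
  ∑ n ∈ SQ (PPs b E z \ P1) (z ^ K), (∑ l ∈ n.primeFactors, 1 / (l : ℝ)) *
      ((2 * α) ^ n.primeFactors.card / (n : ℝ) * ∏ l ∈ PE.filter (fun l => ¬ l ∣ n), (1 - w l)) ≤
    C / E * Real.exp (C * ∑ l ∈ P1, 1 / (l : ℝ)) * V

/-- ESX: ESN with primes of `M² + b` allowed in `n`, and no weights at `P1` and at the primes with
`χ(l) = -1`; upper bounds only. -/
def SpecESX : Prop := ∃ C : ℝ, 0 < C ∧ ∀ (b : ℤ) (E : ℕ) (z K α τ : ℝ) (w : ℕ → ℝ) (P1 : Finset ℕ),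
  1000 ≤ E → 2 ≤ z → 1 ≤ K → 0 ≤ α → α ≤ 1 → 0 ≤ τ → τ ≤ 6 →
  (∀ l ∈ P1, l.Prime ∧ E < l ∧ (l : ℝ) < z) →
  (∀ l ∈ PPs b E z, l ∉ P1 → 0 ≤ w l ∧ w l ≤ 1 ∧ |w l - τ / l| ≤ 100 / (l : ℝ) ^ 2) →
  let V := ∏ l ∈ PPs b E z, (1 - (τ - 2 * α) / (l : ℝ))
  ∑ n ∈ SQ (PPs b E z) (z ^ K), (2 * α) ^ n.primeFactors.card / (n : ℝ) *
      ∏ l ∈ (PPs b E z).filter (fun l => ¬ l ∣ n ∧ l ∉ P1), (1 - w l) ≤
    C * Real.exp (C * ∑ l ∈ P1, 1 / (l : ℝ)) * V ∧
  ∀ l₀ : ℕ, l₀.Prime → ∑ n ∈ (SQ (PPs b E z) (z ^ K)).filter (fun n => l₀ ∣ n),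
      (2 * α) ^ n.primeFactors.card / (n : ℝ) *
      ∏ l ∈ (PPs b E z).filter (fun l => ¬ l ∣ n ∧ l ∉ P1), (1 - w l) ≤
    C / l₀ * Real.exp (C * ∑ l ∈ P1, 1 / (l : ℝ)) * V

theorem specESN : SpecESN := by
  have hX : 0 < Real.exp 51 := Real.exp_pos _
  refine ⟨1000 + 6 * Real.exp 51, by positivity, ?_⟩
  intro b E z K α τ a P1 hb hbE hE hz hK hα0 hα1 hτ0 hτ6 hP1 ha
  intro PE T V'
  have hE' : (1000 : ℝ) ≤ E := by exact_mod_cast hE
  have hPE : ∀ l ∈ PE, l.Prime ∧ E < l ∧ (l : ℝ) < z := by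
    intro l hl
    rw [mem_filter, QPA.PB, mem_filter, mem_range, Nat.lt_ceil] at hl
    exact ⟨hl.1.2, hl.2, hl.1.1⟩
  have hsub : PPs b E z ⊆ PE := by
    intro l hl
    rw [PPs, mem_filter] at hl
    exact mem_filter.2 ⟨hl.1, hl.2.1⟩
  have h1 : ∀ l ∈ PE, l ∉ P1 → chz b l = 1 ∨ chz b l = -1 := by
    intro l hl _
    have := hPE l hl
    exact chz_big hb hbE this.1 this.2.1
  have hy : Hy E z (2 * α) τ a PE (PPs b E z) P1 := by
    refine ⟨hE, hz, by linarith, by linarith, hτ0, hτ6, hPE, hsub, ?_, ?_, ?_⟩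
    · intro l hl
      have h2 := hPE l hl
      have h3 := ha l h2.1 h2.2.1 h2.2.2
      refine ⟨h3.1, ?_⟩
      have h5 : (1000 : ℝ) ≤ l := by
        have : (E : ℝ) ≤ l := by exact_mod_cast h2.2.1.le
        linarith
      have hl0 : (0 : ℝ) < l := by linarith
      have h6 : 100 / (l : ℝ) ^ 2 ≤ 1 / l := by
        rw [div_le_div_iff₀ (by positivity) hl0]
        nlinarith
      by_cases hl1 : l ∈ P1
      · exact h3.2.2.2 hl1
      · rcases h1 l hl hl1 with h4 | h4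
        · have h7 := abs_le.1 (h3.2.1 hl1 h4)
          have h8 : τ / (l : ℝ) ≤ 6 / l := div_le_div_of_nonneg_right hτ6 hl0.le
          have h9 : 10 / (l : ℝ) = 6 / l + 4 * (1 / l) := by ring
          have h10 : 0 ≤ 1 / (l : ℝ) := by positivity
          linarith [h7.2]
        · have h7 := h3.2.2.1 hl1 h4
          have h8 : 2 / (l : ℝ) ^ 2 = 2 / 100 * (100 / (l : ℝ) ^ 2) := by ring
          have h9 : 10 / (l : ℝ) = 10 * (1 / l) := by ring
          have h10 : 0 ≤ 1 / (l : ℝ) := by positivity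
          linarith
    · intro l hl
      rw [mem_sdiff] at hl
      have h2 := hPE l (hsub hl.1)
      exact (ha l h2.1 h2.2.1 h2.2.2).2.1 hl.2 (mem_filter.1 hl.1).2.2
    · intro l hl
      rw [mem_sdiff] at hl
      have h2 := hPE l hl.1
      have h3 := ha l h2.1 h2.2.1 h2.2.2
      by_cases hl1 : l ∈ P1
      · rw [if_pos hl1]
        have := h3.2.2.2 hl1
        have h5 : 0 ≤ 2 / (l : ℝ) ^ 2 := by positivity
        linarith
      · rw [if_neg hl1, add_zero]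
        apply h3.2.2.1 hl1
        rcases h1 l hl.1 hl1 with h4 | h4
        · exfalso
          apply hl.2
          rw [mem_sdiff, PPs, mem_filter]
          exact ⟨⟨(mem_filter.1 hl.1).1, h2.2.1, h4⟩, hl1⟩
        · exact h4
  have hPr : ∀ l ∈ PPs b E z \ P1, l.Prime := fun l hl => (hPE l (hy.sub' hl)).1
  have hz0 : 0 ≤ z ^ K := Real.rpow_nonneg (by linarith) _
  have hPEp : ∀ l ∈ PE, l.Prime := fun l hl => (hPE l hl).1
  have hT : T = ∑ S ∈ (PPs b E z \ P1).powerset.filter (fun S => ((∏ l ∈ S, l : ℕ) : ℝ) ≤ z ^ K),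
      W PE a (2 * α) S := by
    have := sum_SQ (PPs b E z \ P1) hPr (z ^ K) hz0 (fun n => (2 * α) ^ n.primeFactors.card / (n : ℝ) *
      ∏ l ∈ PE.filter (fun l => ¬ l ∣ n), (1 - a l))
    refine this.trans (sum_congr rfl fun S hS => ?_)
    exact term_eq PE a (2 * α) hPEp fun l hl => hPr l (mem_powerset.1 (mem_filter.1 hS).1 hl)
  have hV' : V' = T1.ESN.V (2 * α) τ (PPs b E z) := rfl
  obtain ⟨m1, m2⟩ := hy.main (1000 + 6 * Real.exp 51) (by linarith)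
  refine ⟨?_, ?_, ?_, ?_⟩
  · rw [hT, hV']
    refine le_trans ?_ m1
    rw [← sum_one PE _ hy.sub']
    exact sum_le_sum_of_subset_of_nonneg (filter_subset _ _) fun S _ _ => hy.W0 S
  · rw [hT, hV']
    exact hy.lower K
  · intro l₀ hl₀
    have hl0 : (0 : ℝ) < l₀ := by exact_mod_cast hl₀.pos
    rw [sum_filter]
    have := sum_SQ (PPs b E z \ P1) hPr (z ^ K) hz0 (fun n => if l₀ ∣ n then
      (2 * α) ^ n.primeFactors.card / (n : ℝ) * ∏ l ∈ PE.filter (fun l => ¬ l ∣ n), (1 - a l) else 0)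
    rw [this, hV']
    calc _ ≤ ∑ S ∈ (PPs b E z \ P1).powerset, if l₀ ∈ S then W PE a (2 * α) S else 0 := by
          rw [sum_filter]
          refine sum_le_sum fun S hS => ?_
          have hS' : ∀ l ∈ S, l.Prime := fun l hl => hPr l (mem_powerset.1 hS hl)
          have hW := hy.W0 S
          by_cases h2 : ((∏ l ∈ S, l : ℕ) : ℝ) ≤ z ^ K
          · rw [if_pos h2]
            by_cases h3 : l₀ ∈ S
            · rw [if_pos h3, if_pos ((dvd_prod_iff hS' hl₀).2 h3)]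
              exact (term_eq PE a (2 * α) hPEp hS').le
            · rw [if_neg h3, if_neg (fun h4 => h3 ((dvd_prod_iff hS' hl₀).1 h4))]
          · rw [if_neg h2]
            split_ifs <;> first | exact hW | exact le_rfl
      _ ≤ 4 / l₀ * T1.ESN.F PE (PPs b E z \ P1) a (2 * α) := by
          rw [← sum_filter]
          exact hy.spec' l₀
      _ = (4 * T1.ESN.F PE (PPs b E z \ P1) a (2 * α)) / l₀ := by ring
      _ ≤ ((1000 + 6 * Real.exp 51) * Real.exp ((1000 + 6 * Real.exp 51) * ∑ l ∈ P1, 1 / (l : ℝ)) *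
          T1.ESN.V (2 * α) τ (PPs b E z)) / l₀ := div_le_div_of_nonneg_right m2 hl0.le
      _ = _ := by ring
  · have := sum_SQ (PPs b E z \ P1) hPr (z ^ K) hz0 (fun n => (∑ l ∈ n.primeFactors, 1 / (l : ℝ)) *
      ((2 * α) ^ n.primeFactors.card / (n : ℝ) * ∏ l ∈ PE.filter (fun l => ¬ l ∣ n), (1 - a l)))
    rw [this, hV']
    calc _ = ∑ S ∈ (PPs b E z \ P1).powerset.filter (fun S => ((∏ l ∈ S, l : ℕ) : ℝ) ≤ z ^ K),
          (∑ l ∈ S, 1 / (l : ℝ)) * W PE a (2 * α) S := by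
          refine sum_congr rfl fun S hS => ?_
          have hS' : ∀ l ∈ S, l.Prime := fun l hl => hPr l (mem_powerset.1 (mem_filter.1 hS).1 hl)
          show (∑ l ∈ (∏ l ∈ S, l).primeFactors, 1 / (l : ℝ)) * _ = _
          rw [term_eq PE a (2 * α) hPEp hS', prod_pf hS']
      _ ≤ 4 / E * T1.ESN.F PE (PPs b E z \ P1) a (2 * α) := hy.extra _ (filter_subset _ _)
      _ = (4 * T1.ESN.F PE (PPs b E z \ P1) a (2 * α)) / E := by ring
      _ ≤ ((1000 + 6 * Real.exp 51) * Real.exp ((1000 + 6 * Real.exp 51) * ∑ l ∈ P1, 1 / (l : ℝ)) *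
          T1.ESN.V (2 * α) τ (PPs b E z)) / E := div_le_div_of_nonneg_right m2 (by linarith)
      _ = _ := by ring

theorem specESX : SpecESX := by
  refine ⟨1000, by norm_num, ?_⟩
  intro b E z K α τ a P1 hE hz hK hα0 hα1 hτ0 hτ6 hP1 ha V'
  have hE' : (1000 : ℝ) ≤ E := by exact_mod_cast hE
  have hPP : ∀ l ∈ PPs b E z, l.Prime ∧ E < l ∧ (l : ℝ) < z := by
    intro l hl
    rw [PPs, mem_filter, QPA.PB, mem_filter, mem_range, Nat.lt_ceil] at hl
    exact ⟨hl.1.2, hl.2.1, hl.1.1⟩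
  have hy : Hy E z (2 * α) τ (T1.ESXM.am a P1) (PPs b E z) (PPs b E z) P1 := by
    refine ⟨hE, hz, by linarith, by linarith, hτ0, hτ6, hPP, subset_rfl, ?_, ?_, ?_⟩
    · intro l hl
      have h2 := hPP l hl
      have h5 : (1000 : ℝ) ≤ l := by
        have : (E : ℝ) ≤ l := by exact_mod_cast h2.2.1.le
        linarith
      have hl0 : (0 : ℝ) < l := by linarith
      have h6 : 100 / (l : ℝ) ^ 2 ≤ 1 / l := by
        rw [div_le_div_iff₀ (by positivity) hl0]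
        nlinarith
      have h10 : 0 ≤ 1 / (l : ℝ) := by positivity
      by_cases hl1 : l ∈ P1
      · rw [T1.ESXM.am, if_pos hl1]
        exact ⟨le_rfl, by positivity⟩
      · rw [T1.ESXM.am, if_neg hl1]
        have h3 := ha l hl hl1
        have h7 := abs_le.1 h3.2.2
        have h8 : τ / (l : ℝ) ≤ 6 / l := div_le_div_of_nonneg_right hτ6 hl0.le
        have h9 : 10 / (l : ℝ) = 6 / l + 4 * (1 / l) := by ring
        exact ⟨h3.1, by linarith [h7.2]⟩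
    · intro l hl
      rw [mem_sdiff] at hl
      rw [T1.ESXM.am, if_neg hl.2]
      exact (ha l hl.1 hl.2).2.2
    · intro l hl
      rw [mem_sdiff, mem_sdiff] at hl
      have hl1 : l ∈ P1 := by
        by_contra h
        exact hl.2 ⟨hl.1, h⟩
      rw [T1.ESXM.am, if_pos hl1, if_pos hl1]
      positivity
  have hPr : ∀ l ∈ PPs b E z, l.Prime := fun l hl => (hPP l hl).1
  have hz0 : 0 ≤ z ^ K := Real.rpow_nonneg (by linarith) _
  have h0 : ∀ l ∈ PPs b E z ∩ P1, T1.ESXM.am a P1 l = 0 := fun l hl => by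
    rw [T1.ESXM.am, if_pos (mem_inter.1 hl).2]
  have hfull := T1.ESXM.full hy h0
  have hV' : V' = T1.ESN.V (2 * α) τ (PPs b E z) := rfl
  have hF0 : 0 ≤ T1.ESN.F (PPs b E z) (PPs b E z) (T1.ESXM.am a P1) (2 * α) := by
    apply mul_nonneg
    · exact prod_nonneg fun l hl => by linarith [hy.a2 hl]
    · exact prod_nonneg fun l hl => by linarith [hy.a1 (mem_sdiff.1 hl).1]
  constructor
  · have := sum_SQ (PPs b E z) hPr (z ^ K) hz0 (fun n => (2 * α) ^ n.primeFactors.card / (n : ℝ) *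
      ∏ l ∈ (PPs b E z).filter (fun l => ¬ l ∣ n ∧ l ∉ P1), (1 - a l))
    rw [this, hV']
    calc _ = ∑ S ∈ (PPs b E z).powerset.filter (fun S => ((∏ l ∈ S, l : ℕ) : ℝ) ≤ z ^ K),
          W (PPs b E z) (T1.ESXM.am a P1) (2 * α) S := by
          refine sum_congr rfl fun S hS => ?_
          exact T1.ESXM.term_eq' (PPs b E z) P1 a (2 * α) hPr
            fun l hl => hPr l (mem_powerset.1 (mem_filter.1 hS).1 hl)
      _ ≤ ∑ S ∈ (PPs b E z).powerset, W (PPs b E z) (T1.ESXM.am a P1) (2 * α) S :=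
          sum_le_sum_of_subset_of_nonneg (filter_subset _ _) fun S _ _ => hy.W0 S
      _ = T1.ESN.F (PPs b E z) (PPs b E z) (T1.ESXM.am a P1) (2 * α) := sum_one _ _ subset_rfl _ _
      _ ≤ 4 * T1.ESN.F (PPs b E z) (PPs b E z) (T1.ESXM.am a P1) (2 * α) := by linarith
      _ ≤ _ := hfull
  · intro l₀ hl₀
    have hl0 : (0 : ℝ) < l₀ := by exact_mod_cast hl₀.pos
    rw [sum_filter]
    have := sum_SQ (PPs b E z) hPr (z ^ K) hz0 (fun n => if l₀ ∣ n then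
      (2 * α) ^ n.primeFactors.card / (n : ℝ) *
        ∏ l ∈ (PPs b E z).filter (fun l => ¬ l ∣ n ∧ l ∉ P1), (1 - a l) else 0)
    rw [this, hV']
    calc _ ≤ ∑ S ∈ (PPs b E z).powerset, if l₀ ∈ S then W (PPs b E z) (T1.ESXM.am a P1) (2 * α) S else 0 := by
          rw [sum_filter]
          refine sum_le_sum fun S hS => ?_
          have hS' : ∀ l ∈ S, l.Prime := fun l hl => hPr l (mem_powerset.1 hS hl)
          have hW := hy.W0 S
          by_cases h2 : ((∏ l ∈ S, l : ℕ) : ℝ) ≤ z ^ K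
          · rw [if_pos h2]
            by_cases h3 : l₀ ∈ S
            · rw [if_pos h3, if_pos ((dvd_prod_iff hS' hl₀).2 h3)]
              exact (T1.ESXM.term_eq' (PPs b E z) P1 a (2 * α) hPr hS').le
            · rw [if_neg h3, if_neg (fun h4 => h3 ((dvd_prod_iff hS' hl₀).1 h4))]
          · rw [if_neg h2]
            split_ifs <;> first | exact hW | exact le_rfl
      _ ≤ 4 / l₀ * T1.ESN.F (PPs b E z) (PPs b E z) (T1.ESXM.am a P1) (2 * α) := by
          rw [← sum_filter]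
          exact T1.ESXM.spec_gen _ _ subset_rfl _ _ (by linarith) (fun l hl => by linarith [hy.a1 hl])
            (fun l hl => hy.a2 hl) l₀
      _ = (4 * T1.ESN.F (PPs b E z) (PPs b E z) (T1.ESXM.am a P1) (2 * α)) / l₀ := by ring
      _ ≤ (1000 * Real.exp (1000 * ∑ l ∈ P1, 1 / (l : ℝ)) *
          T1.ESN.V (2 * α) τ (PPs b E z)) / l₀ := div_le_div_of_nonneg_right hfull hl0.le
      _ = _ := by ring

end

end Pool.Agent.Lib.MP391708.TA
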