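import Pool.Agent.Lib.MP_391708_nt.TA.Chi
import Pool.Agent.Lib.MP_391708_nt.T1.ESpecB

/-!
# Theorem T1a (`n² + a`), group E: sums over `(D, x)`, `X = b x = G + D D₂`, with weight `r(x)`

The sum over lattice points `k ∈ ℤ²`, `x = N(k)` of T1 is replaced by the sum over `x` with the weight
`rr a x = ∑_{d ∣ x} χ(d)`, `χ = χ_{-4a}`.  `a : ℤ` is any integer with `a ≠ 0`, `Nsq a` (all `a ≥ 1`).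
Reused from T1 without change: `SDD`, `Dm`, `Locm`, `SpecE1S` (`specE1S`), `F1`, `F2`, `wgt`, `wgt0`,
`crt_prodj`, `perm_sum`, `flw`.
-/

set_option autoImplicit false

namespace Pool.Agent.Lib.MP391708.TA

open Finset Filter Topology
open scoped Classical
open T1 (SDD Dm Locm F1 F2 wgt wgt0)

noncomputable section

/-! ## local densities -/

/-- density of the class `c` modulo `l ^ j` for the weight `r`, relative to `1 / l ^ j`: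
`(1 - χ/l) ∑_{i < j, l^i ∣ c} χ^i + [l^j ∣ c] χ^j`, `χ = χ(l)` -/
def dens (a : ℤ) (l j : ℕ) (c : ℤ) : ℝ :=
  (1 - ch a l / l) * ∑ i ∈ range j, (if ((l ^ i : ℕ) : ℤ) ∣ c then ch a l ^ i else 0) +
    (if ((l ^ j : ℕ) : ℤ) ∣ c then ch a l ^ j else 0)

/-- the same for the class `(d, e)` of `(D, D₂)`, `b x = G + D D₂` -/
def omj (a : ℤ) (l j : ℕ) (G d e : ℤ) : ℝ := if (l : ℤ) ∣ d then 1 else dens a l j (G + d * e)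

/-- mean over `D₂` for given `D` -/
def Bm (a : ℤ) (l j : ℕ) (G : ℤ) (ψ : ℤ → ℤ → ℝ) (d : ℤ) : ℝ :=
  (∑ e ∈ range (l ^ j), ψ d (e : ℤ) * omj a l j G d (e : ℤ)) / (l : ℝ) ^ j

/-- the local mean -/
def lmj (a : ℤ) (l j G : ℕ) (ψ : ℤ → ℤ → ℝ) : ℝ := Dm l j G (fun d => Bm a l j G ψ (d : ℤ))

/-- local mean modulo `l` (`(D, G) = 1`, so the classes `l ∣ d` are excluded if `l ∣ G`) -/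
def lm (a : ℤ) (l : ℕ) (G : ℤ) (ψ : ℤ → ℤ → ℝ) : ℝ :=
  if (l : ℤ) ∣ G then (∑ d ∈ (range l).filter (fun d => d ≠ 0), ∑ e ∈ range l,
      ψ (d : ℤ) (e : ℤ) * omj a l 1 G (d : ℤ) (e : ℤ)) / ((l : ℝ) * (l - 1))
  else (∑ d ∈ range l, ∑ e ∈ range l, ψ (d : ℤ) (e : ℤ) * omj a l 1 G (d : ℤ) (e : ℤ)) / (l : ℝ) ^ 2

/-- density of the extra condition `x ≡ κ mod m`, `m = 1` or `m` prime -/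
def dm (a : ℤ) (m κ : ℕ) : ℝ := if m = 1 then 1 else dens a m 1 (κ : ℤ) / m

/-! ## the data -/

/-- the data of a sum over `(D, x)` -/
structure EX where
  W : ℕ
  n : ℕ
  ρ : ℕ
  b : ℕ
  m : ℕ
  κ : ℕ
  G : ℕ
  A₁ : ℕ
  A₂ : ℕ
  R : ℕ
  R₁ : ℕ → ℕ
  R₂ : ℕ → ℕ
  L : ℝ

/-- the hypotheses on the data -/
def EX.Ok (a : ℤ) (t : EX) : Prop :=
  0 < t.W ∧ 4 * a.natAbs ∣ t.W ∧ 0 < t.n ∧ t.n.Coprime t.ρ ∧ 0 < t.b ∧ chz a t.b = 1 ∧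
  (t.m = 1 ∨ t.m.Prime) ∧ (∀ l : ℕ, l.Prime → l ∣ t.b * t.m → l ∣ t.n) ∧ 0 < t.G ∧ chz a t.G = 1 ∧
  t.W.Coprime t.n ∧ t.W.Coprime t.G ∧ t.n.Coprime t.G ∧ t.A₁ ≤ t.A₂ ∧ 0 ≤ t.L ∧
  ∀ D : ℕ, t.A₁ < D → D ≤ t.A₂ → t.R₁ D ≤ t.R₂ D ∧ t.R₂ D ≤ t.R ∧
    |((t.R₂ D : ℝ) - t.R₁ D) - D * t.L / t.b| ≤ 1

/-- the values of `D` -/
def EX.SD (t : EX) : Finset ℕ := SDD t.W t.n t.ρ t.G t.A₁ t.A₂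

/-- the values of `x` for given `D` -/
def EX.SX (t : EX) (D : ℕ) : Finset ℕ :=
  (Ioc (t.R₁ D) (t.R₂ D)).filter (fun x : ℕ => ((D * t.W : ℕ) : ℤ) ∣ (t.b : ℤ) * x - t.G ∧
    x ≡ t.κ [MOD t.m])

/-- the sum over `(D, x)` of `r(x) F D D₂ / rp(D)` -/
def EX.S (a : ℤ) (t : EX) (F : ℤ → ℤ → ℝ) : ℝ :=
  ∑ D ∈ t.SD, (1 / rp a D) * ∑ x ∈ t.SX D, rr a x * F (D : ℤ) (((t.b : ℤ) * x - t.G) / (D : ℤ))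

/-- the main term -/
def EX.main (a : ℤ) (t : EX) : ℝ :=
  2 * LL a * ((t.A₂ : ℝ) - t.A₁) * t.L / ((t.W : ℝ) ^ 2 * t.n * t.b) * dm a t.m t.κ *
    ∏ l ∈ t.G.primeFactors, (1 - 1 / (l : ℝ))

/-- the error term -/
def EX.err (t : EX) : ℝ := (t.W : ℝ) * t.m * (t.A₂ * Real.sqrt t.R + (t.A₂ : ℝ) ^ 2 + t.L)

/-- all data are at most `N` -/
def EX.Le (t : EX) (N : ℝ) : Prop :=
  (t.W : ℝ) ≤ N ∧ (t.n : ℝ) ≤ N ∧ (t.b : ℝ) ≤ N ∧ (t.m : ℝ) ≤ N ∧ (t.G : ℝ) ≤ N ∧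
    (t.A₂ : ℝ) ≤ N ∧ (t.R : ℝ) ≤ N

/-! ## RRB: properties of `r` -/

/-- RRB.  (3): the local factor of `r` at `l` is `1` for odd exponent `0`, else `0`; (5) divisor bound -/
def SpecRRB : Prop := ∀ a : ℤ, a ≠ 0 →
  (∀ x : ℕ, 0 ≤ rr a x ∧ rr a x ≤ (x.divisors.card : ℝ)) ∧
  (∀ x : ℕ, 0 < x → Squarefree x → (∀ l : ℕ, l.Prime → l ∣ x → chz a l = 1) →
    rr a x = 2 ^ x.primeFactors.card) ∧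
  (∀ (x l : ℕ), 0 < x → l.Prime → chz a l = -1 → l ∣ x → ¬ l ^ 2 ∣ x → rr a x = 0) ∧
  (∀ x y : ℕ, x.Coprime y → rr a (x * y) = rr a x * rr a y) ∧
  ∀ η : ℝ, 0 < η → ∃ C : ℝ, 0 < C ∧ ∀ x : ℕ, 0 < x → rr a x ≤ C * (x : ℝ) ^ η

/-! ## LLX: `L(1, χ)` -/

/-- LLX: convergence and positivity (`∑_{x ≤ X} r(x)/√x = 2 L √X + O(1)` and `r(m²) ≥ 1`) -/
def SpecLLX : Prop := ∀ a : ℤ, a ≠ 0 → Nsq a → 0 < LL a ∧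
  (∀ N : ℕ, |∑ n ∈ range N, ch a n| ≤ 4 * a.natAbs) ∧
  ∀ n : ℕ, 0 < n → |∑ i ∈ range n, ch a i / (i : ℝ) - LL a| ≤ 8 * a.natAbs / n

/-! ## EQR: equidistribution of `r` -/

/-- EQR: `4 |a| ∣ μ₀`, `c₀` prime to `μ₀` with `χ(c₀) = 1`, and a class `c` modulo `∏_{l ∈ S} l ^ j l`,
prime to `μ₀`.  Dirichlet hyperbola: `x = d e`; the parts `d ≤ √R₂` and `e ≤ √R₂` are equal because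
`χ(d) = χ(e)`; `#{e mod l^j : d e ≡ c} = l^i [l^i ∣ c]`, `l^i = (d, l^j)`; for `f` with
`f (l d) = χ(l) f d` and `∑ f(d)/d = K`: `∑_{v_l(d) = i} f(d)/d = (χ(l)/l)^i (1 - χ(l)/l) K`. -/
def SpecEQR : Prop := ∀ a : ℤ, a ≠ 0 → Nsq a → ∃ C : ℝ, 0 < C ∧
  ∀ (μ₀ R₁ R₂ c₀ c : ℕ) (S : Finset ℕ) (j : ℕ → ℕ), 0 < μ₀ → 4 * a.natAbs ∣ μ₀ →
  c₀.Coprime μ₀ → chz a c₀ = 1 → (∀ l ∈ S, l.Prime ∧ ¬ l ∣ μ₀) → R₁ ≤ R₂ →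
  |∑ x ∈ (Ioc R₁ R₂).filter (fun x : ℕ => x ≡ c₀ [MOD μ₀] ∧ x ≡ c [MOD ∏ l ∈ S, l ^ j l]), rr a x
      - ((R₂ : ℝ) - R₁) * (2 * LL a * rp a μ₀ / μ₀) * ∏ l ∈ S, (dens a l (j l) (c : ℤ) / (l : ℝ) ^ j l)| ≤
    C * ((∏ l ∈ S, l ^ j l : ℕ) : ℝ) * Real.sqrt R₂

/-! ## E1 -/

/-- E1D (fixed `D`).  From EQR: the class of `x` modulo `D W` is `c₀ = G / b`, the classes modulo
`D W Q` are `(G + D W e) / b`, `e mod Q`; for `l ∈ S`, `l ∣ D` the modulus `l ^ j l` goes into `μ₀`. -/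
def SpecE1D : Prop := ∀ a : ℤ, a ≠ 0 → Nsq a → ∀ η : ℝ, 0 < η → ∃ C : ℝ, 0 < C ∧
  ∀ (t : EX) (N : ℝ) (S : Finset ℕ) (j : ℕ → ℕ) (ψ : ℕ → ℤ → ℤ → ℝ), t.Ok a → 1 ≤ N → t.Le N →
  (∀ l ∈ S, l.Prime ∧ ¬ l ∣ t.W * t.n ∧ 1 ≤ j l ∧ Locm (l ^ j l) (ψ l)) →
  ((∏ l ∈ S, l ^ j l : ℕ) : ℝ) ≤ N → ∀ D ∈ t.SD,
  |(1 / rp a D) * ∑ x ∈ t.SX D, rr a x * ∏ l ∈ S, ψ l (D : ℤ) (((t.b : ℤ) * x - t.G) / (D : ℤ))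
      - 2 * LL a * t.L / (t.b * t.W) * dm a t.m t.κ *
        ∏ l ∈ S, Bm a l (j l) t.G (ψ l) (D : ℤ)| ≤
    C * N ^ η * ((∏ l ∈ S, l ^ j l : ℕ) : ℝ) ^ 2 * t.m * (Real.sqrt t.R + t.W * t.A₂)

/-- E1 (from E1D, `T1.SpecE1S`, and `0 ≤ Bm ≤ 1`) -/
def SpecE1g : Prop := ∀ a : ℤ, a ≠ 0 → Nsq a → ∀ η : ℝ, 0 < η → ∃ C : ℝ, 0 < C ∧
  ∀ (t : EX) (N : ℝ) (S : Finset ℕ) (j : ℕ → ℕ) (ψ : ℕ → ℤ → ℤ → ℝ), t.Ok a → 1 ≤ N → t.Le N →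
  (∀ l ∈ S, l.Prime ∧ ¬ l ∣ t.W * t.n ∧ 1 ≤ j l ∧ Locm (l ^ j l) (ψ l)) →
  ((∏ l ∈ S, l ^ j l : ℕ) : ℝ) ≤ N →
  |t.S a (fun D D₂ => ∏ l ∈ S, ψ l D D₂) - t.main a * ∏ l ∈ S, lmj a l (j l) t.G (ψ l)| ≤
    C * N ^ η * ((∏ l ∈ S, l ^ j l : ℕ) : ℝ) ^ 2 * t.err

/-- LMJ: properties of the local mean: total mass one, monotone, linear, values in `[0,1]`. -/
def SpecLMJ : Prop := ∀ (a : ℤ) (l j G : ℕ), l.Prime → 1 ≤ j →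
  (∀ c : ℝ, lmj a l j G (fun _ _ => c) = c) ∧
  (∀ ψ φ : ℤ → ℤ → ℝ, lmj a l j G (fun d e => ψ d e + φ d e) = lmj a l j G ψ + lmj a l j G φ) ∧
  (∀ (c : ℝ) (ψ : ℤ → ℤ → ℝ), lmj a l j G (fun d e => c * ψ d e) = c * lmj a l j G ψ) ∧
  (∀ ψ φ : ℤ → ℤ → ℝ, (∀ d e, ψ d e ≤ φ d e) → lmj a l j G ψ ≤ lmj a l j G φ) ∧
  (∀ (ψ : ℤ → ℤ → ℝ) (d : ℤ), (∀ d e, 0 ≤ ψ d e ∧ ψ d e ≤ 1) →
    0 ≤ Bm a l j G ψ d ∧ Bm a l j G ψ d ≤ 1) ∧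
  (∀ ψ : ℤ → ℤ → ℝ, lmj a l 1 G ψ = lm a l G ψ) ∧
  (∀ c : ℤ, 0 ≤ dens a l j c ∧ dens a l j c ≤ j + 1) ∧
  (∀ c : ℤ, dens a l 1 c = if (l : ℤ) ∣ c then 1 + ch a l * (1 - 1 / (l : ℝ)) else 1 - ch a l / l) ∧
  -- the special prime modulo `l²`
  (∀ (M : ℤ) (P Q : ℕ), chz a l = 1 → (G : ℤ) * P * Q = M ^ 2 + a → ¬ (l : ℤ) ∣ M ^ 2 + a →
    lmj a l 2 G (fun _ e => if (l : ℤ) ^ 2 ∣ F2 M G P Q e then 1 else 0) ≤ 10 / (l : ℝ) ^ 2)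

/-- ELM: local means -/
def SpecELM : Prop := ∀ (a : ℤ) (l : ℕ) (M : ℤ) (G P Q : ℕ) (bT bR : ℝ), l.Prime → 100 < l →
  ¬ (l : ℤ) ∣ a → (G : ℤ) * P * Q = M ^ 2 + a → 0 ≤ bT → bT ≤ 1 → 0 ≤ bR → bR ≤ 1 →
  -- total mass one
  (∀ c : ℝ, lm a l G (fun _ _ => c) = c) ∧
  -- `l ∤ M² + a`, `χ(l) = 1`
  (¬ (l : ℤ) ∣ M ^ 2 + a → chz a l = 1 →
    |1 - lm a l G (wgt l M G P Q bT bR) - (6 - 2 * bT - 2 * bR) / l| ≤ 100 / (l : ℝ) ^ 2) ∧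
  -- `χ(l) = -1`
  (chz a l = -1 → 1 - lm a l G (wgt l M G P Q bT bR) ≤ 2 / (l : ℝ) ^ 2 ∧
    0 ≤ 1 - lm a l G (wgt l M G P Q bT bR)) ∧
  -- `l ∣ M² + a`
  ((l : ℤ) ∣ M ^ 2 + a → 0 ≤ 1 - lm a l G (wgt0 l G Q) ∧ 1 - lm a l G (wgt0 l G Q) ≤ 10 / l) ∧
  -- special primes
  (¬ (l : ℤ) ∣ M ^ 2 + a →
    lm a l G (fun d _ => if (l : ℤ) ∣ F1 M G P Q d then 1 else 0) ≤ 10 / l ∧
    lm a l G (fun _ e => if (l : ℤ) ∣ F2 M G P Q e then 1 else 0) ≤ 10 / l ∧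
    lm a l G (fun d _ => if (l : ℤ) ∣ d then 1 else 0) ≤ 10 / l ∧
    lm a l G (fun _ e => if (l : ℤ) ∣ e then 1 else 0) ≤ 10 / l ∧
    lm a l G (fun d e => if (l : ℤ) ∣ G + d * e then 1 else 0) ≤ 10 / l ∧
    lm a l G (fun d e => if (l : ℤ) ∣ F1 M G P Q d ∧ (l : ℤ) ∣ F2 M G P Q e ∧ ¬ (l : ℤ) ∣ G + d * e
      then 1 else 0) ≤ 10 / (l : ℝ) ^ 2) ∧
  (∀ ψ : ℤ → ℤ → ℝ, Locm l ψ → 0 ≤ lm a l G ψ ∧ lm a l G ψ ≤ 1)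

/-! ## E2 (from E1, LMJ and `T1.flw`) -/

/-- `S` special primes with arbitrary local functions modulo `l ^ j l`, `P` a set of primes `< z` with
`1 - ψ_l` of mean at most `κ/l` and `2/3`. -/
def SpecE2g : Prop := ∀ a : ℤ, a ≠ 0 → Nsq a → ∀ κ : ℕ, ∃ C₀ : ℝ, 0 < C₀ ∧
  ∀ (η : ℝ) (A : ℕ), 0 < η → ∃ C : ℝ, 0 < C ∧
  ∀ (t : EX) (N z : ℝ) (S P : Finset ℕ) (j : ℕ → ℕ) (ψ : ℕ → ℤ → ℤ → ℝ),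
  t.Ok a → 2 ≤ z → z ^ (8 * A + 16) * ((∏ l ∈ S, l ^ j l : ℕ) : ℝ) ≤ N → t.Le N →
  (∀ l ∈ S, l.Prime ∧ ¬ l ∣ t.W * t.n ∧ 1 ≤ j l ∧ Locm (l ^ j l) (ψ l)) →
  (∀ l ∈ P, l.Prime ∧ (l : ℝ) < z ∧ ¬ l ∣ t.W * t.n ∧ l ∉ S ∧ Locm l (ψ l) ∧
    1 - lm a l t.G (ψ l) ≤ κ / (l : ℝ) ∧ 1 - lm a l t.G (ψ l) ≤ 2 / 3) →
  |t.S a (fun D D₂ => (∏ l ∈ S, ψ l D D₂) * ∏ l ∈ P, ψ l D D₂)
      - t.main a * (∏ l ∈ S, lmj a l (j l) t.G (ψ l)) * ∏ l ∈ P, lm a l t.G (ψ l)| ≤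
    C₀ * Real.exp (-(A : ℝ)) * (t.main a * (∏ l ∈ S, lmj a l (j l) t.G (ψ l)) *
        ∏ l ∈ P, lm a l t.G (ψ l)) +
      C * N ^ η * z ^ (3 * (8 * A + 16) + 1) * ((∏ l ∈ S, l ^ j l : ℕ) : ℝ) ^ 2 * t.err

/-! ## auxiliary modules -/

/-- EBD: the `x` with a bad prime `≥ z` (from `r(x) ≤ C x^η`; simpler than in T1) -/
def SpecEBD : Prop := ∀ a : ℤ, a ≠ 0 → Nsq a → ∀ η : ℝ, 0 < η → ∃ C : ℝ, 0 < C ∧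
  ∀ (t : EX) (N z : ℝ), t.Ok a → 2 ≤ z → 1 ≤ N → t.Le N → t.m = 1 → 0 < t.A₁ →
  ∑ D ∈ t.SD, (1 / rp a D) * ∑ x ∈ (t.SX D).filter (fun x : ℕ => ∃ l : ℕ, l.Prime ∧ z ≤ (l : ℝ) ∧
      (l ^ 2 ∣ x ∨ (l ∣ x ∧ l ∣ t.G))), rr a x ≤
    C * N ^ η * (t.R / z * ((((t.A₂ : ℝ) - t.A₁) / t.n + 1) / t.A₁) +
      t.A₂ * (Real.sqrt t.R + 1))

/-- the roots of `F₁` modulo `n` -/
def Rt (n : ℕ) (M : ℤ) (G P Q : ℕ) : Finset ℕ :=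
  (range n).filter (fun ρ : ℕ => n.Coprime ρ ∧ (n : ℤ) ∣ F1 M G P Q (ρ : ℤ))

/-- the values of `D` -/
def DD (W n : ℕ) (M : ℤ) (G P Q A₁ A₂ : ℕ) : Finset ℕ :=
  (Ioc A₁ A₂).filter (fun D : ℕ => W ∣ D ∧ D.Coprime G ∧ D.Coprime n ∧
    (n : ℤ) ∣ F1 M G P Q (D : ℤ))

/-- RTS: roots of `F₁` (`(2 P d - 2 M)² ≡ -4 a` modulo `n` at a root `d`) -/
def SpecRTS : Prop :=
  (∀ (W n G P Q A₁ A₂ : ℕ) (M : ℤ) (g : ℕ → ℝ), 0 < n →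
    ∑ D ∈ DD W n M G P Q A₁ A₂, g D = ∑ ρ ∈ Rt n M G P Q, ∑ D ∈ SDD W n ρ G A₁ A₂, g D) ∧
  (∀ (a : ℤ) (n G P Q : ℕ) (M : ℤ), (G : ℤ) * P * Q = M ^ 2 + a → n.Coprime (2 * a.natAbs) →
    (Rt n M G P Q).card ≤ 2 ^ n.primeFactors.card) ∧
  (∀ (a : ℤ) (n G P Q : ℕ) (M : ℤ), (G : ℤ) * P * Q = M ^ 2 + a → 0 < n →
    (∀ l : ℕ, l.Prime → l ∣ n → chz a l = 1 ∧ ¬ (l : ℤ) ∣ M ^ 2 + a) →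
    (Rt n M G P Q).card = 2 ^ n.primeFactors.card)

end

end Pool.Agent.Lib.MP391708.TA
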