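import Pool.Agent.Lib.MP_391708_nt.TA.ESpec
import Pool.Agent.Lib.MP_391708_nt.TF.Spec

/-!
# Theorem T1a, group E, second half: PHU (a-form of the PHU part of `T1/ESpecC.lean`)

Owner helper49.  `z = zz p N`, `W = W0 p`.  The sum over `k ∈ ℤ²`, `x = N(k)`, is the sum over `x` with
the weight `rr aa x` (no factor `4`); the class of `k` modulo `m` is a class of `x` modulo `m` with the
density `dm aa m κ`.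
-/

set_option autoImplicit false

namespace Pool.Agent.Lib.MP391708.TA

open Finset Filter Topology
open scoped Classical
open T1 (F1 F2 wgt wgt0 Locm SQ)
open T4 (Prm Good zz W0)
open TF (PP sm Adm S1 S2 vh kp kpU S0 Aa aa)

noncomputable section

variable [Aa]

def LU (M G P : ℕ) : ℝ := 300 * G * P / M

/-- the data for PHU: `n'` = modulus for `D`, `n` = smooth part of `X`, `x ≡ κ mod m` -/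
def tU (p : Prm) (M G P n' ρ n m κ : ℕ) : EX :=
  ⟨W0 p, n', ρ, n, m, κ, G, (M - 1) / (3 * P), 10 * M / P, 3000 * G, fun _ => 0,
    fun D => ⌊(D : ℝ) * LU M G P / n⌋₊, LU M G P⟩

/-- the local weights -/
def wU (p : Prm) (N : ℕ) (M : ℤ) (G P Q n : ℕ) (bT bR : ℝ) (D D₂ : ℤ) : ℝ :=
  ∏ l ∈ (PP p N).filter (fun l : ℕ => ¬ l ∣ n ∧ ¬ (l : ℤ) ∣ M ^ 2 + aa), wgt l M G P Q bT bR D D₂

/-- the sum for given smooth part `n` of `X` and sign `s` of `D`, with a condition `c F₁ F₂ X` -/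
def UU (p : Prm) (N M : ℕ) (s : ℤ) (G P Q n : ℕ) (bT bR : ℝ) (c : ℤ → ℤ → ℤ → Prop) : ℝ :=
  ∑ D ∈ DD (W0 p) n (s * M) G P Q ((M - 1) / (3 * P)) (10 * M / P), (1 / rp (aa : ℤ) D) *
    ∑ x ∈ (Ioc 0 ⌊(D : ℝ) * LU M G P / n⌋₊).filter (fun x : ℕ =>
        ((D * W0 p : ℕ) : ℤ) ∣ (n : ℤ) * x - G ∧
        c (F1 (s * M) G P Q D) (F2 (s * M) G P Q (((n : ℤ) * x - G) / D)) ((n : ℤ) * x)),
      rr (aa : ℤ) x * wU p N (s * M) G P Q n bT bR D (((n : ℤ) * x - G) / D)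

/-- EDU: the decomposition of the sum over `S2`.  `s = sign D`, `n = sm X`, `x = X/n`,
`rr x = 2^ω(x)`, `1/X ≤ 100/G`. -/
def SpecEDU : Prop := ∀ (p : Prm) (N M G P Q : ℕ) (al bT bR : ℝ) (c : ℤ → ℤ → ℤ → Prop),
  4 * aa ∣ W0 p → (∀ l : ℕ, l.Prime → (l ≤ p.E ↔ l ∣ W0 p)) → 2 ≤ zz p N → Adm p N M G P Q →
  0 < M → 0 < G → 0 < P → 0 < Q →
  0 ≤ al → al ≤ 1 → 0 ≤ bT → bT ≤ 1 → 0 ≤ bR → bR ≤ 1 →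
  ∑ t ∈ (S2 p N M G P Q).filter
      (fun t => c (T4.F1 (M, G, P, Q, t)) (T4.F2 (M, G, P, Q, t)) (t.2 : ℤ)),
      vh p N al bT bR (M, G, P, Q, t) ≤
    100 / G * ∑ n ∈ (SQ (PP p N) (zz p N ^ (4 * p.K))).filter (fun n => n.Coprime G),
      al ^ n.primeFactors.card * n *
        (UU p N M 1 G P Q n bT bR c + UU p N M (-1) G P Q n bT bR c)

/-- EUG (from E2g with `κ = 10`, `A = 0`, `η = ζ/3`, `N³` for `N`; ELM, ERR): general upper bound -/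
def SpecEUG : Prop := ∃ C : ℝ, 0 < C ∧ Good (fun p => ∀ᶠ N : ℕ in atTop,
  ∀ (M G P Q : ℕ) (s : ℤ) (bT bR : ℝ) (n n' ρ m κ : ℕ) (S : Finset ℕ) (j : ℕ → ℕ)
    (ψ : ℕ → ℤ → ℤ → ℝ), Adm p N M G P Q → (s = 1 ∨ s = -1) → 0 ≤ bT → bT ≤ 1 → 0 ≤ bR →
  bR ≤ 1 → n ∈ SQ (PP p N) (zz p N ^ (4 * p.K)) → n ∣ n' → 0 < n' →
  (n' : ℝ) ≤ zz p N ^ (4 * p.K + 2) → (∀ l : ℕ, l.Prime → l ∣ n' → l ∈ PP p N ∧ ¬ l ∣ G) →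
  n'.Coprime ρ → (m = 1 ∨ m.Prime) → (m : ℝ) ≤ zz p N → (∀ l : ℕ, l.Prime → l ∣ m → l ∣ n') →
  S.card ≤ 1 →
  (∀ l ∈ S, l ∈ PP p N ∧ ¬ l ∣ n' ∧ 1 ≤ j l ∧ j l ≤ 2 ∧ Locm (l ^ j l) (ψ l)) →
  (tU p M G P n' ρ n m κ).S aa (fun D D₂ => (∏ l ∈ S, ψ l D D₂) *
      ∏ l ∈ (PP p N).filter (fun l : ℕ => ¬ l ∣ n' ∧ ¬ (l : ℤ) ∣ (M : ℤ) ^ 2 + aa ∧ l ∉ S),
        wgt l (s * M) G P Q bT bR D D₂) ≤
    C * (G / ((W0 p : ℝ) ^ 2 * n' * n)) * dm aa m κ * (∏ l ∈ S, lmj aa l (j l) G (ψ l)) *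
      ∏ l ∈ (PP p N).filter (fun l : ℕ => ¬ l ∣ n' ∧ ¬ (l : ℤ) ∣ (M : ℤ) ^ 2 + aa ∧ l ∉ S),
        lm aa l G (wgt l (s * M) G P Q bT bR) + G / zz p N ^ (20 * p.K + 20))

/-- the local means for given `n` -/
def VU (p : Prm) (N M : ℕ) (s : ℤ) (G P Q n : ℕ) (bT bR : ℝ) : ℝ :=
  ∏ l ∈ (PP p N).filter (fun l : ℕ => ¬ l ∣ n ∧ ¬ (l : ℤ) ∣ (M : ℤ) ^ 2 + aa),
    lm aa l G (wgt l (s * M) G P Q bT bR)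

/-- the cases of PHU: for given `n`, under the hypothesis `H (PP p N) M n q`, the sum with the
condition `c q F₁ F₂ X` has the density `f q` -/
def EUC (c : ℕ → ℤ → ℤ → ℤ → Prop) (H : Finset ℕ → ℕ → ℕ → ℕ → Prop) (f : ℕ → ℝ) : Prop :=
  ∃ C : ℝ, 0 < C ∧ Good (fun p => ∀ᶠ N : ℕ in atTop,
  ∀ (M G P Q : ℕ) (s : ℤ) (bT bR : ℝ) (n q : ℕ), Adm p N M G P Q → (s = 1 ∨ s = -1) → 0 ≤ bT →
  bT ≤ 1 → 0 ≤ bR → bR ≤ 1 → n ∈ SQ (PP p N) (zz p N ^ (4 * p.K)) → n.Coprime G →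
  H (PP p N) M n q →
  UU p N M s G P Q n bT bR (c q) ≤ 2 ^ n.primeFactors.card *
    (C * f q * (G / ((W0 p : ℝ) ^ 2 * (n : ℝ) ^ 2)) * VU p N M s G P Q n bT bR +
      G / zz p N ^ (20 * p.K + 10)))

/-- case 0: no condition: `n' = n`, `S = ∅` -/
def SpecEUC0 : Prop := EUC (fun _ _ _ _ => True) (fun _ _ _ _ => True) (fun _ => 1)

/-- case B, `q ∤ n`: `q ∣ X F₁ F₂`; `S = {q}`, `j = 1`; also for `q ∣ M² + a` -/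
def SpecEUCB : Prop := EUC (fun q f₁ f₂ x => (q : ℤ) ∣ x * f₁ * f₂)
  (fun PP _ n q => q ∈ PP ∧ ¬ q ∣ n) (fun q => 1 / (q : ℝ))

/-- case A1, `q ∤ n`: `q² ∣ F₁`; `n' = n q²`, roots modulo `n q²` -/
def SpecEUCA : Prop := EUC (fun q f₁ _ _ => (q : ℤ) ^ 2 ∣ f₁)
  (fun PP M n q => q ∈ PP ∧ ¬ q ∣ n ∧ ¬ q ∣ M ^ 2 + aa) (fun q => 1 / (q : ℝ) ^ 2)

/-- case A1, `q ∣ n`: `q² ∣ F₁`; `n' = n q`, roots modulo `n q` -/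
def SpecEUCA' : Prop := EUC (fun q f₁ _ _ => (q : ℤ) ^ 2 ∣ f₁)
  (fun PP M n q => q ∈ PP ∧ q ∣ n ∧ ¬ q ∣ M ^ 2 + aa) (fun q => 1 / (q : ℝ))

/-- case A2, `q ∤ n`: `q² ∣ F₂`; `S = {q}`, `j = 2` -/
def SpecEUCD : Prop := EUC (fun q _ f₂ _ => (q : ℤ) ^ 2 ∣ f₂)
  (fun PP M n q => q ∈ PP ∧ ¬ q ∣ n ∧ ¬ q ∣ M ^ 2 + aa) (fun q => 1 / (q : ℝ) ^ 2)

/-- case A2, `q ∣ n`: `q² ∣ F₂`; `n' = n q`, all `q` lifts `ρ` of each root modulo `n`, `m = q`, the one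
class `κ` of `x` modulo `q` with `q² ∣ F₂((n κ - G)/ρ)`; `dm aa q κ ≤ 2/q`; total `q · 2/(q · q) = 2/q` -/
def SpecEUCD' : Prop := EUC (fun q _ f₂ _ => (q : ℤ) ^ 2 ∣ f₂)
  (fun PP M n q => q ∈ PP ∧ q ∣ n ∧ ¬ q ∣ M ^ 2 + aa) (fun q => 1 / (q : ℝ))

/-- case A3, `q ∤ n`: `q ∤ X`, `q ∣ F₁`, `q ∣ F₂`; `S = {q}`, `j = 1` -/
def SpecEUCF : Prop := EUC (fun q f₁ f₂ x => ¬ (q : ℤ) ∣ x ∧ (q : ℤ) ∣ f₁ ∧ (q : ℤ) ∣ f₂)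
  (fun PP M n q => q ∈ PP ∧ ¬ q ∣ n ∧ ¬ q ∣ M ^ 2 + aa) (fun q => 1 / (q : ℝ) ^ 2)

end

end Pool.Agent.Lib.MP391708.TA
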