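import Pool.Agent.Lib.MP_391708_nt.TA.ESpec
import Pool.Agent.Lib.MP_391708_nt.T1.LMJ

/-!
# Theorem T1a, module LMJ: local means modulo prime powers
-/

set_option autoImplicit false
set_option linter.unusedSectionVars false

namespace Pool.Agent.Lib.MP391708.TA

open Finset
open scoped Classical
open T1 (SDD Dm Locm F1 F2 wgt wgt0)
open T1.LMJM (coprime_pow card_not_dvd Dm_const Dm_add Dm_smul Dm_mono sum_one_class)

noncomputable section

namespace LMJM

lemma ch_cases (a : ℤ) (l : ℕ) : ch a l = 0 ∨ ch a l = 1 ∨ ch a l = -1 := by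
  unfold ch
  rcases chz_trichotomy a l with h | h | h <;> rw [h] <;> simp

/-- the number of classes divisible by `l ^ i` -/
lemma sum_dvd {l : ℕ} (hl : l.Prime) {i j : ℕ} (hij : i ≤ j) {d : ℤ} (hd : ¬ (l : ℤ) ∣ d) (G : ℤ) :
    ∑ e ∈ range (l ^ j), (if ((l ^ i : ℕ) : ℤ) ∣ G + d * (e : ℤ) then (1 : ℝ) else 0) =
      (l : ℝ) ^ (j - i) := by
  have hli : 0 < l ^ i := pow_pos hl.pos i
  have h1 : ∀ e : ℕ, (if ((l ^ i : ℕ) : ℤ) ∣ G + d * (e : ℤ) then (1 : ℝ) else 0) =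
      (if ((l ^ i : ℕ) : ℤ) ∣ -G - d * (e : ℤ) then (1 : ℝ) else 0) := by
    intro e
    have : -G - d * (e : ℤ) = -(G + d * (e : ℤ)) := by ring
    simp only [this, dvd_neg]
  have hper : ∀ e : ℕ, (if ((l ^ i : ℕ) : ℤ) ∣ -G - d * (((e % l ^ i : ℕ) : ℕ) : ℤ) then (1 : ℝ) else 0)
      = (if ((l ^ i : ℕ) : ℤ) ∣ -G - d * (e : ℤ) then (1 : ℝ) else 0) := by
    intro e
    have hmod : ((l ^ i : ℕ) : ℤ) ∣ (e : ℤ) - ((e % l ^ i : ℕ) : ℤ) := by
      rw [Int.natCast_mod]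
      exact Int.dvd_self_sub_emod
    have h2 : ((l ^ i : ℕ) : ℤ) ∣ -G - d * (((e % l ^ i : ℕ) : ℕ) : ℤ) ↔
        ((l ^ i : ℕ) : ℤ) ∣ -G - d * (e : ℤ) := by
      have h3 : -G - d * (((e % l ^ i : ℕ) : ℕ) : ℤ) =
          (-G - d * (e : ℤ)) + d * ((e : ℤ) - ((e % l ^ i : ℕ) : ℤ)) := by ring
      rw [h3]
      exact (dvd_add_left (dvd_mul_of_dvd_right hmod d))
    simp only [h2]
  have hsplit : ∀ (k : ℕ), ∑ e ∈ range (l ^ i * k),
      (if ((l ^ i : ℕ) : ℤ) ∣ -G - d * (e : ℤ) then (1 : ℝ) else 0) = k := by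
    intro k
    induction k with
    | zero => simp
    | succ k ih =>
      rw [Nat.mul_succ, Finset.sum_range_add, ih]
      have : ∀ e ∈ range (l ^ i), (if ((l ^ i : ℕ) : ℤ) ∣ -G - d * ((l ^ i * k + e : ℕ) : ℤ)
          then (1 : ℝ) else 0) = (if ((l ^ i : ℕ) : ℤ) ∣ -G - d * (e : ℤ) then (1 : ℝ) else 0) := by
        intro e he
        rw [← hper (l ^ i * k + e), Nat.mul_add_mod, ← hper e]
      rw [Finset.sum_congr rfl this, sum_one_class hli (coprime_pow hl hd i)]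
      push_cast
      ring
  rw [Finset.sum_congr rfl (fun e _ => h1 e)]
  have hj : l ^ j = l ^ i * l ^ (j - i) := by rw [← pow_add]; congr 1; omega
  rw [hj, hsplit]
  push_cast
  rfl

/-- total mass of the density -/
lemma sum_dens (a : ℤ) {l : ℕ} (hl : l.Prime) (j : ℕ) {d : ℤ} (hd : ¬ (l : ℤ) ∣ d) (G : ℤ) :
    ∑ e ∈ range (l ^ j), dens a l j (G + d * (e : ℤ)) = (l : ℝ) ^ j := by
  have hl0 : (l : ℝ) ≠ 0 := by exact_mod_cast hl.ne_zero
  unfold dens
  rw [Finset.sum_add_distrib, ← Finset.mul_sum, Finset.sum_comm]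
  have h1 : ∀ i ∈ range j, ∑ e ∈ range (l ^ j),
      (if ((l ^ i : ℕ) : ℤ) ∣ G + d * (e : ℤ) then ch a l ^ i else 0) =
      ch a l ^ i * (l : ℝ) ^ (j - i) := by
    intro i hi
    rw [← sum_dvd hl (mem_range.1 hi).le hd G, Finset.mul_sum]
    refine sum_congr rfl fun e _ => ?_
    split_ifs <;> ring
  have h2 : ∑ e ∈ range (l ^ j), (if ((l ^ j : ℕ) : ℤ) ∣ G + d * (e : ℤ) then ch a l ^ j else 0) =
      ch a l ^ j := by
    have := sum_dvd hl (le_refl j) hd G
    rw [Nat.sub_self, pow_zero] at this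
    calc ∑ e ∈ range (l ^ j), (if ((l ^ j : ℕ) : ℤ) ∣ G + d * (e : ℤ) then ch a l ^ j else 0)
        = ch a l ^ j * ∑ e ∈ range (l ^ j),
          (if ((l ^ j : ℕ) : ℤ) ∣ G + d * (e : ℤ) then (1 : ℝ) else 0) := by
          rw [Finset.mul_sum]
          refine sum_congr rfl fun e _ => ?_
          split_ifs <;> ring
      _ = ch a l ^ j := by rw [this, mul_one]
  rw [Finset.sum_congr rfl h1, h2]
  have h3 : ∀ m : ℕ, m ≤ j → (1 - ch a l / l) * ∑ i ∈ range m, ch a l ^ i * (l : ℝ) ^ (j - i) +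
      ch a l ^ m * (l : ℝ) ^ (j - m) = (l : ℝ) ^ j := by
    intro m
    induction m with
    | zero => intro _; simp
    | succ m ih =>
      intro hm
      have ihm := ih (by omega)
      have e1 : (l : ℝ) ^ (j - m) = (l : ℝ) ^ (j - (m + 1)) * l := by
        rw [← pow_succ]; congr 1; omega
      rw [Finset.sum_range_succ, mul_add]
      rw [e1] at ihm ⊢
      rw [pow_succ]
      have e2 : (1 - ch a l / l) * (ch a l ^ m * ((l : ℝ) ^ (j - (m + 1)) * l)) =
          ch a l ^ m * ((l : ℝ) ^ (j - (m + 1)) * l) - ch a l ^ m * ch a l * (l : ℝ) ^ (j - (m + 1)) := by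
        field_simp
      rw [e2]
      linarith
  have h4 := h3 j le_rfl
  rw [Nat.sub_self, pow_zero, mul_one] at h4
  exact h4

/-- the alternating partial sums -/
lemma alt_sum (l : ℕ) (c : ℤ) (j : ℕ) :
    ((∑ i ∈ range j, (if ((l ^ i : ℕ) : ℤ) ∣ c then (-1 : ℝ) ^ i else 0)) = 0 ∨
      (∑ i ∈ range j, (if ((l ^ i : ℕ) : ℤ) ∣ c then (-1 : ℝ) ^ i else 0)) = 1) ∧
    (((l ^ j : ℕ) : ℤ) ∣ c →
      (∑ i ∈ range j, (if ((l ^ i : ℕ) : ℤ) ∣ c then (-1 : ℝ) ^ i else 0)) = (1 - (-1) ^ j) / 2) := by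
  induction j with
  | zero => simp
  | succ j ih =>
    rw [Finset.sum_range_succ]
    by_cases h : ((l ^ j : ℕ) : ℤ) ∣ c
    · rw [if_pos h, ih.2 h]
      refine ⟨?_, fun _ => by rw [pow_succ]; ring⟩
      rcases neg_one_pow_eq_or ℝ j with h' | h' <;> rw [h'] <;> norm_num
    · rw [if_neg h, add_zero]
      refine ⟨ih.1, fun h' => absurd ?_ h⟩
      refine dvd_trans ?_ h'
      exact_mod_cast pow_dvd_pow l (Nat.le_succ j)

/-- bounds for the density -/
lemma dens_bounds (a : ℤ) {l : ℕ} (hl : l.Prime) {j : ℕ} (hj : 1 ≤ j) (c : ℤ) :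
    0 ≤ dens a l j c ∧ dens a l j c ≤ j + 1 := by
  have h2 : (2 : ℝ) ≤ l := by exact_mod_cast hl.two_le
  have hj' : (1 : ℝ) ≤ j := by exact_mod_cast hj
  have i0 : (0 : ℝ) < 1 / l := by positivity
  have i1 : (1 : ℝ) / l ≤ 1 / 2 := one_div_le_one_div_of_le (by norm_num) h2
  unfold dens
  rcases ch_cases a l with h | h | h <;> rw [h]
  · have e1 : ∑ i ∈ range j, (if ((l ^ i : ℕ) : ℤ) ∣ c then (0 : ℝ) ^ i else 0) = 1 := by
      rw [Finset.sum_eq_single 0]
      · simp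
      · intro i _ hi
        rw [zero_pow hi]; simp
      · intro h0
        exact absurd (mem_range.2 (by omega)) h0
    have e2 : (if ((l ^ j : ℕ) : ℤ) ∣ c then (0 : ℝ) ^ j else 0) = 0 := by
      rw [zero_pow (by omega)]; simp
    rw [e1, e2]
    constructor
    · norm_num
    · linarith [show (1 - 0 / (l : ℝ)) * 1 + 0 = 1 by simp]
  · have s0 : 0 ≤ ∑ i ∈ range j, (if ((l ^ i : ℕ) : ℤ) ∣ c then (1 : ℝ) ^ i else 0) :=
      Finset.sum_nonneg fun i _ => by split_ifs <;> simp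
    have s1 : ∑ i ∈ range j, (if ((l ^ i : ℕ) : ℤ) ∣ c then (1 : ℝ) ^ i else 0) ≤ j := by
      calc ∑ i ∈ range j, (if ((l ^ i : ℕ) : ℤ) ∣ c then (1 : ℝ) ^ i else 0)
          ≤ ∑ i ∈ range j, (1 : ℝ) := Finset.sum_le_sum fun i _ => by split_ifs <;> simp
        _ = j := by simp
    have t0 : (0 : ℝ) ≤ if ((l ^ j : ℕ) : ℤ) ∣ c then (1 : ℝ) ^ j else 0 := by split_ifs <;> simp
    have t1 : (if ((l ^ j : ℕ) : ℤ) ∣ c then (1 : ℝ) ^ j else 0) ≤ 1 := by split_ifs <;> simp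
    have u0 : (0 : ℝ) ≤ 1 - 1 / l := by linarith
    constructor
    · exact add_nonneg (mul_nonneg u0 s0) t0
    · have : (1 - 1 / (l : ℝ)) * ∑ i ∈ range j, (if ((l ^ i : ℕ) : ℤ) ∣ c then (1 : ℝ) ^ i else 0)
          ≤ 1 * j := mul_le_mul (by linarith) s1 s0 (by norm_num)
      linarith
  · obtain ⟨h3, h4⟩ := alt_sum l c j
    have e1 : (1 : ℝ) - -1 / l = 1 + 1 / l := by ring
    rw [e1]
    by_cases h5 : ((l ^ j : ℕ) : ℤ) ∣ c
    · rw [h4 h5, if_pos h5]
      rcases neg_one_pow_eq_or ℝ j with h' | h' <;> rw [h']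
      · constructor
        · norm_num
        · have : (1 + 1 / (l : ℝ)) * ((1 - 1) / 2) + 1 = 1 := by ring
          rw [this]; linarith
      · have : (1 + 1 / (l : ℝ)) * ((1 - -1) / 2) + -1 = 1 / l := by ring
        rw [this]
        constructor
        · exact i0.le
        · linarith
    · rw [if_neg h5, add_zero]
      rcases h3 with h' | h' <;> rw [h']
      · constructor
        · norm_num
        · rw [mul_zero]; linarith
      · rw [mul_one]
        constructor <;> linarith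

/-- the density modulo `l` -/
lemma dens_one (a : ℤ) {l : ℕ} (c : ℤ) :
    dens a l 1 c = if (l : ℤ) ∣ c then 1 + ch a l * (1 - 1 / (l : ℝ)) else 1 - ch a l / l := by
  unfold dens
  rw [Finset.sum_range_one]
  simp only [pow_zero, pow_one, Nat.cast_one, one_dvd, if_true]
  split_ifs <;> ring

variable {l j : ℕ}

lemma omj_nonneg (a : ℤ) (hl : l.Prime) (hj : 1 ≤ j) (G d e : ℤ) : 0 ≤ omj a l j G d e := by
  unfold omj
  split_ifs
  · norm_num
  · exact (dens_bounds a hl hj _).1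

lemma row_omj (a : ℤ) (hl : l.Prime) (G d : ℤ) :
    ∑ e ∈ range (l ^ j), omj a l j G d (e : ℤ) = (l : ℝ) ^ j := by
  unfold omj
  by_cases hd : (l : ℤ) ∣ d
  · simp only [if_pos hd, sum_const, card_range, nsmul_eq_mul, mul_one]
    push_cast
    rfl
  · simp only [if_neg hd]
    exact sum_dens a hl j hd G

lemma Bm_const (a : ℤ) (hl : l.Prime) (G d : ℤ) (c : ℝ) : Bm a l j G (fun _ _ => c) d = c := by
  have hl0 : (l : ℝ) ^ j ≠ 0 := by
    have := hl.pos
    positivity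
  unfold Bm
  rw [← Finset.mul_sum, row_omj a hl, mul_div_assoc, div_self hl0, mul_one]

lemma Bm_add (a : ℤ) (G d : ℤ) (ψ φ : ℤ → ℤ → ℝ) :
    Bm a l j G (fun d e => ψ d e + φ d e) d = Bm a l j G ψ d + Bm a l j G φ d := by
  unfold Bm
  rw [← add_div, ← Finset.sum_add_distrib]
  congr 1
  refine sum_congr rfl fun e _ => ?_
  ring

lemma Bm_smul (a : ℤ) (G d : ℤ) (c : ℝ) (ψ : ℤ → ℤ → ℝ) :
    Bm a l j G (fun d e => c * ψ d e) d = c * Bm a l j G ψ d := by
  unfold Bm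
  rw [← mul_div_assoc, Finset.mul_sum]
  congr 1
  refine sum_congr rfl fun e _ => ?_
  ring

lemma Bm_mono (a : ℤ) (hl : l.Prime) (hj : 1 ≤ j) (G d : ℤ) {ψ φ : ℤ → ℤ → ℝ}
    (h : ∀ e, ψ d e ≤ φ d e) : Bm a l j G ψ d ≤ Bm a l j G φ d := by
  unfold Bm
  refine div_le_div_of_nonneg_right ?_ (by positivity)
  exact Finset.sum_le_sum fun e _ =>
    mul_le_mul_of_nonneg_right (h _) (omj_nonneg a hl hj _ _ _)

lemma lmj_one (a : ℤ) (hl : l.Prime) (G : ℕ) (ψ : ℤ → ℤ → ℝ) : lmj a l 1 G ψ = lm a l G ψ := by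
  have h1 : (1 : ℝ) < l := by exact_mod_cast hl.one_lt
  have hl0 : (l : ℝ) ≠ 0 := by positivity
  have hl1 : (l : ℝ) - 1 ≠ 0 := by linarith
  have hB : ∀ d : ℕ, Bm a l 1 G ψ (d : ℤ) =
      (∑ e ∈ range l, ψ (d : ℤ) (e : ℤ) * omj a l 1 G (d : ℤ) (e : ℤ)) / (l : ℝ) := by
    intro d
    unfold Bm
    simp only [pow_one]
  unfold lmj Dm lm
  by_cases h : l ∣ G
  · rw [if_pos h, if_pos (Int.natCast_dvd_natCast.2 h)]
    simp only [pow_one, hB]
    have hf : (range l).filter (fun d => ¬ l ∣ d) = (range l).filter (fun d => d ≠ 0) := by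
      refine filter_congr fun d hd => ?_
      rw [mem_range] at hd
      constructor
      · intro h h0
        exact h (h0 ▸ dvd_zero _)
      · intro h0 h
        exact h0 (Nat.eq_zero_of_dvd_of_lt h hd)
    rw [hf, ← Finset.sum_div, div_div]
    congr 1
    field_simp
  · rw [if_neg h, if_neg (fun h' => h (Int.natCast_dvd_natCast.1 h'))]
    simp only [pow_one, hB]
    rw [← Finset.sum_div, div_div]
    congr 1
    ring

/-- at most two roots of `F₂` modulo `l²` -/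
lemma roots_sq {a : ℤ} (hl : l.Prime) (h2 : l ≠ 2) (hla : ¬ (l : ℤ) ∣ a) {M : ℤ} {G P Q : ℕ}
    (h : (G : ℤ) * P * Q = M ^ 2 + a) (hQ : ¬ (l : ℤ) ∣ (Q : ℤ)) :
    ((range (l ^ 2)).filter (fun e : ℕ => (l : ℤ) ^ 2 ∣ F2 M G P Q (e : ℤ))).card ≤ 2 := by
  have hp := Nat.prime_iff_prime_int.1 hl
  have hdl : (l : ℤ) ∣ (l : ℤ) ^ 2 := dvd_pow_self _ (by norm_num)
  have key : ∀ x y : ℕ, x < l ^ 2 → y < l ^ 2 → x ≠ y → (l : ℤ) ^ 2 ∣ F2 M G P Q (x : ℤ) →
      (l : ℤ) ^ 2 ∣ F2 M G P Q (y : ℤ) → (l : ℤ) ^ 2 ∣ (Q : ℤ) * (x + y) + 2 * M := by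
    intro x y hx hy hxy hfx hfy
    have d1 := dvd_sub hfx hfy
    have e1 : F2 M G P Q (x : ℤ) - F2 M G P Q (y : ℤ) =
        ((x : ℤ) - y) * ((Q : ℤ) * (x + y) + 2 * M) := by unfold F2; ring
    rw [e1] at d1
    by_cases hd : (l : ℤ) ∣ (x : ℤ) - y
    · exfalso
      have c2 : ¬ (l : ℤ) ∣ (Q : ℤ) * (x + y) + 2 * M := by
        intro h3
        have h4 : (l : ℤ) ∣ 2 * ((Q : ℤ) * x + M) := by
          have := dvd_add h3 (dvd_mul_of_dvd_right hd (Q : ℤ))
          rwa [show (Q : ℤ) * (x + y) + 2 * M + Q * ((x : ℤ) - y) = 2 * ((Q : ℤ) * x + M) by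
            ring] at this
        have h5 : (l : ℤ) ∣ (Q : ℤ) * x + M := by
          rcases hp.dvd_or_dvd h4 with h5 | h5
          · have : l ∣ 2 := by exact_mod_cast h5
            exact absurd ((Nat.prime_dvd_prime_iff_eq hl Nat.prime_two).1 this) h2
          · exact h5
        have h6 : (l : ℤ) ∣ (Q : ℤ) * F2 M G P Q (x : ℤ) :=
          dvd_mul_of_dvd_right (dvd_trans hdl hfx) _
        have h7 : (l : ℤ) ∣ ((Q : ℤ) * x + M) * ((Q : ℤ) * x + M) := dvd_mul_of_dvd_left h5 _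
        have h8 := dvd_sub h6 h7
        have e2 : (Q : ℤ) * F2 M G P Q (x : ℤ) - ((Q : ℤ) * x + M) * ((Q : ℤ) * x + M) = a := by
          unfold F2
          linear_combination h
        rw [e2] at h8
        exact hla h8
      have c3 : IsCoprime ((l : ℤ) ^ 2) ((Q : ℤ) * (x + y) + 2 * M) := by
        have := coprime_pow hl c2 2
        push_cast at this
        exact this
      have c4 := c3.dvd_of_dvd_mul_right d1
      have : ((l ^ 2 : ℕ) : ℤ) ∣ (x : ℤ) - y := by push_cast; exact c4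
      have c5 := Int.eq_zero_of_abs_lt_dvd this (by rw [abs_lt]; constructor <;> omega)
      omega
    · have c3 : IsCoprime ((l : ℤ) ^ 2) ((x : ℤ) - y) := by
        have := coprime_pow hl hd 2
        push_cast at this
        exact this
      exact c3.dvd_of_dvd_mul_left d1
  by_contra hc
  push Not at hc
  obtain ⟨x, y, z, hx, hy, hz, hxy, hxz, hyz⟩ := (Finset.two_lt_card_iff).1 hc
  simp only [mem_filter, mem_range] at hx hy hz
  have e1 := key x y hx.1 hy.1 hxy hx.2 hy.2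
  have e2 := key x z hx.1 hz.1 hxz hx.2 hz.2
  have e3 := dvd_sub e1 e2
  rw [show (Q : ℤ) * (x + y) + 2 * M - ((Q : ℤ) * (x + z) + 2 * M) = (Q : ℤ) * ((y : ℤ) - z) by
    ring] at e3
  have c3 : IsCoprime ((l : ℤ) ^ 2) (Q : ℤ) := by
    have := coprime_pow hl hQ 2
    push_cast at this
    exact this
  have c4 := c3.dvd_of_dvd_mul_left e3
  have : ((l ^ 2 : ℕ) : ℤ) ∣ (y : ℤ) - z := by push_cast; exact c4
  have c5 := Int.eq_zero_of_abs_lt_dvd this (by rw [abs_lt]; constructor <;> omega)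
  omega

end LMJM

open LMJM in
theorem specLMJ : SpecLMJ := by
  intro a l j G hl hj
  refine ⟨?_, ?_, ?_, ?_, ?_, ?_, ?_, ?_, ?_⟩
  · intro c
    unfold lmj
    simp only [Bm_const a hl]
    exact Dm_const hl hj G c
  · intro ψ φ
    unfold lmj
    simp only [Bm_add]
    exact Dm_add G _ _
  · intro c ψ
    unfold lmj
    simp only [Bm_smul]
    exact Dm_smul G c _
  · intro ψ φ h
    exact Dm_mono hl G (fun d => Bm_mono a hl hj _ _ (fun e => h _ _))
  · intro ψ d h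
    constructor
    · have := Bm_mono a hl hj G d (ψ := fun _ _ => (0 : ℝ)) (φ := ψ) (fun e => (h d e).1)
      rwa [Bm_const a hl] at this
    · have := Bm_mono a hl hj G d (ψ := ψ) (φ := fun _ _ => (1 : ℝ)) (fun e => (h d e).2)
      rwa [Bm_const a hl] at this
  · intro ψ
    exact lmj_one a hl G ψ
  · intro c
    exact dens_bounds a hl hj c
  · intro c
    exact dens_one a c
  · intro M P Q hch hGPQ hM
    have h2 : l ≠ 2 := by
      rintro rfl
      rw [chz_even (by norm_num)] at hch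
      norm_num at hch
    have hla : ¬ (l : ℤ) ∣ a := by
      intro h
      have h' : l ∣ 2 * a.natAbs := dvd_mul_of_dvd_right (Int.natCast_dvd.1 h) _
      rw [chz_dvd hl h'] at hch
      norm_num at hch
    have h3 : (2 : ℝ) ≤ l := by exact_mod_cast hl.two_le
    have hQ : ¬ (l : ℤ) ∣ (Q : ℤ) := by
      intro h
      apply hM
      rw [← hGPQ]
      exact dvd_mul_of_dvd_right h _
    have hom : ∀ d e : ℤ, omj a l 2 G d e ≤ 3 := by
      intro d e
      unfold omj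
      split_ifs
      · norm_num
      · have := (dens_bounds a hl (by norm_num : 1 ≤ 2) (G + d * e)).2
        norm_num at this
        exact this
    have hB : ∀ d : ℕ, Bm a l 2 G (fun _ e => if (l : ℤ) ^ 2 ∣ F2 M G P Q e then 1 else 0) (d : ℤ)
        ≤ 10 / (l : ℝ) ^ 2 := by
      intro d
      unfold Bm
      refine div_le_div_of_nonneg_right ?_ (by positivity)
      have : ∑ e ∈ range (l ^ 2), (if (l : ℤ) ^ 2 ∣ F2 M G P Q (e : ℤ) then (1 : ℝ) else 0) *
          omj a l 2 G (d : ℤ) (e : ℤ) ≤ ∑ e ∈ range (l ^ 2),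
            (if (l : ℤ) ^ 2 ∣ F2 M G P Q (e : ℤ) then (3 : ℝ) else 0) := by
        refine Finset.sum_le_sum fun e _ => ?_
        split_ifs
        · rw [one_mul]; exact hom _ _
        · rw [zero_mul]
      refine le_trans this ?_
      rw [← Finset.sum_filter, sum_const, nsmul_eq_mul]
      have h6 := roots_sq hl h2 hla hGPQ hQ
      have h7 : (((range (l ^ 2)).filter (fun e : ℕ => (l : ℤ) ^ 2 ∣ F2 M G P Q (e : ℤ))).card : ℝ)
          ≤ 2 := by exact_mod_cast h6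
      linarith
    unfold lmj
    refine le_trans (Dm_mono hl G hB) ?_
    rw [Dm_const hl (by norm_num) G]

end

end Pool.Agent.Lib.MP391708.TA
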