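import Pool.Agent.Lib.MP_391708_nt.TA.ESpec
import Mathlib.Data.ZMod.QuotientRing

/-!
# Theorem T1a, module RTS: roots of `F₁`, `G P Q = M² + a`
-/

set_option autoImplicit false

namespace Pool.Agent.Lib.MP391708.TA

open Finset
open scoped Classical
open T1 (SDD F1)

noncomputable section

namespace RTS

/-! ## residue classes -/

lemma F1_sub (M : ℤ) (G P Q : ℕ) (d e : ℤ) :
    F1 M G P Q d - F1 M G P Q e = (d - e) * (P * (d + e) - 2 * M) := by
  unfold F1; ring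

lemma F1_congr {n : ℤ} {M : ℤ} {G P Q : ℕ} {d e : ℤ} (h : n ∣ d - e) :
    n ∣ F1 M G P Q d ↔ n ∣ F1 M G P Q e := by
  have h1 : n ∣ F1 M G P Q d - F1 M G P Q e := by
    rw [F1_sub]; exact Dvd.dvd.mul_right h _
  constructor
  · intro h2
    have := dvd_sub h2 h1
    rwa [sub_sub_cancel] at this
  · intro h2
    have := dvd_add h1 h2
    rwa [sub_add_cancel] at this

lemma dvd_sub_mod (n D : ℕ) : (n : ℤ) ∣ (D : ℤ) - ((D % n : ℕ) : ℤ) := by
  have h := Nat.div_add_mod D n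
  refine ⟨(D / n : ℕ), ?_⟩
  have : ((n * (D / n) + D % n : ℕ) : ℤ) = (D : ℤ) := by rw [h]
  push_cast at this ⊢
  linarith

lemma cop_mod (n D : ℕ) : n.Coprime (D % n) ↔ n.Coprime D := by
  rw [Nat.coprime_comm, Nat.Coprime, ← Nat.gcd_rec]

/-- the decomposition into residue classes -/
theorem sum_DD (W n G P Q A₁ A₂ : ℕ) (M : ℤ) (g : ℕ → ℝ) (hn : 0 < n) :
    ∑ D ∈ DD W n M G P Q A₁ A₂, g D =
      ∑ ρ ∈ Rt n M G P Q, ∑ D ∈ SDD W n ρ G A₁ A₂, g D := by
  have hmap : ∀ D ∈ DD W n M G P Q A₁ A₂, D % n ∈ Rt n M G P Q := by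
    intro D hD
    unfold DD at hD
    rw [mem_filter] at hD
    unfold Rt
    rw [mem_filter, mem_range]
    refine ⟨Nat.mod_lt _ hn, ?_, (F1_congr (dvd_sub_mod n D)).1 hD.2.2.2.2⟩
    exact (cop_mod n D).2 (Nat.coprime_comm.1 hD.2.2.2.1)
  rw [← sum_fiberwise_of_maps_to hmap]
  refine sum_congr rfl fun ρ hρ => ?_
  unfold Rt at hρ
  rw [mem_filter, mem_range] at hρ
  refine sum_congr ?_ fun _ _ => rfl
  ext D
  unfold DD SDD
  simp only [mem_filter, mem_Ioc]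
  constructor
  · rintro ⟨⟨h1, h2, h3, h4, h5⟩, h6⟩
    refine ⟨h1, h2, ?_, h3⟩
    rw [Nat.ModEq, h6, Nat.mod_eq_of_lt hρ.1]
  · rintro ⟨h1, h2, h3, h4⟩
    have h5 : D % n = ρ := by
      rw [Nat.ModEq, Nat.mod_eq_of_lt hρ.1] at h3; exact h3
    refine ⟨⟨h1, h2, h4, ?_, ?_⟩, h5⟩
    · have h6 := hρ.2.1
      rw [← h5, cop_mod] at h6
      exact Nat.coprime_comm.1 h6
    · refine (F1_congr (dvd_sub_mod n D)).2 ?_
      rw [h5]; exact hρ.2.2

/-! ## upper bound -/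

/-- prime powers: at most two roots -/
lemma card_prime_pow {l : ℕ} (hl : l.Prime) (h2 : l ≠ 2) (j : ℕ) {a M : ℤ} {G P Q : ℕ}
    (hla : ¬ (l : ℤ) ∣ a) (h : (G : ℤ) * P * Q = M ^ 2 + a) : (Rt (l ^ j) M G P Q).card ≤ 2 := by
  by_contra hc
  push Not at hc
  obtain ⟨x, ha, b, hb, c, hc', hab, hac, hbc⟩ := two_lt_card.1 hc
  unfold Rt at ha hb hc'
  rw [mem_filter, mem_range] at ha hb hc'
  have hlZ : Prime (l : ℤ) := Nat.prime_iff_prime_int.1 hl
  have hl2 : ¬ (l : ℤ) ∣ 2 := by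
    intro h6
    have h7 : l ∣ 2 := by exact_mod_cast h6
    exact h2 ((Nat.prime_dvd_prime_iff_eq hl Nat.prime_two).1 h7)
  have hj : j ≠ 0 := by
    rintro rfl
    rw [pow_zero] at ha hb
    omega
  have hlj : (l : ℤ) ∣ ((l ^ j : ℕ) : ℤ) := by
    push_cast
    exact dvd_pow_self _ hj
  -- two different roots
  have key : ∀ d e : ℕ, d < l ^ j → e < l ^ j → ((l ^ j : ℕ) : ℤ) ∣ F1 M G P Q d →
      ((l ^ j : ℕ) : ℤ) ∣ F1 M G P Q e → d ≠ e →
      ((l ^ j : ℕ) : ℤ) ∣ P * ((d : ℤ) + e) - 2 * M := by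
    intro d e hd he h3 h4 hne
    have h5 : ((l ^ j : ℕ) : ℤ) ∣ ((d : ℤ) - e) * (P * ((d : ℤ) + e) - 2 * M) := by
      rw [← F1_sub]; exact dvd_sub h3 h4
    by_cases h6 : (l : ℤ) ∣ (d : ℤ) - e
    · -- then `l` does not divide the second factor
      have h7 : ¬ (l : ℤ) ∣ P * ((d : ℤ) + e) - 2 * M := by
        intro h7
        have h8 : (l : ℤ) ∣ 2 * P * d - 2 * M := by
          have := dvd_add h7 (Dvd.dvd.mul_left h6 (P : ℤ))
          have h9 : P * ((d : ℤ) + e) - 2 * M + P * ((d : ℤ) - e) = 2 * P * d - 2 * M := by ring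
          rwa [h9] at this
        have h9 : (l : ℤ) ∣ 2 * 2 * a := by
          obtain ⟨x, hx⟩ := h8
          obtain ⟨y, hy⟩ := hlj.trans h3
          unfold F1 at hy
          refine ⟨4 * P * y - x * (2 * P * d - 2 * M), ?_⟩
          linear_combination (4 * (P : ℤ)) * hy - (2 * P * (d : ℤ) - 2 * M) * hx - 4 * h
        rcases hlZ.dvd_or_dvd h9 with h10 | h10
        · rcases hlZ.dvd_or_dvd h10 with h11 | h11 <;> exact hl2 h11
        · exact hla h10
      exfalso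
      have h8 : ((l ^ j : ℕ) : ℤ) ∣ (d : ℤ) - e := by
        refine (IsCoprime.dvd_of_dvd_mul_right ?_ h5)
        push_cast
        exact IsCoprime.pow_left ((Prime.coprime_iff_not_dvd hlZ).2 h7)
      apply hne
      have h9 : |(d : ℤ) - e| < ((l ^ j : ℕ) : ℤ) := by rw [abs_lt]; omega
      have h10 : (d : ℤ) - e = 0 := Int.eq_zero_of_abs_lt_dvd h8 h9
      omega
    · refine (IsCoprime.dvd_of_dvd_mul_left ?_ h5)
      push_cast
      exact IsCoprime.pow_left ((Prime.coprime_iff_not_dvd hlZ).2 h6)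
  have h1 := key x b ha.1 hb.1 ha.2.2 hb.2.2 hab
  have h3 := key x c ha.1 hc'.1 ha.2.2 hc'.2.2 hac
  by_cases hP : (l : ℤ) ∣ (P : ℤ)
  · -- `l ∣ 2 M`
    have h4 : (l : ℤ) ∣ 2 * M := by
      have h5 := hlj.trans h1
      have h6 := dvd_sub (Dvd.dvd.mul_right hP ((x : ℤ) + b)) h5
      rwa [sub_sub_cancel] at h6
    have h5 : (l : ℤ) ∣ M := by
      rcases hlZ.dvd_or_dvd h4 with h6 | h6
      · exact absurd h6 hl2
      · exact h6
    have h6 : (l : ℤ) ∣ M ^ 2 + a := by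
      rw [← h]
      exact Dvd.dvd.mul_right (Dvd.dvd.mul_left hP _) _
    have h7 : (l : ℤ) ∣ a := by
      have := dvd_sub h6 (dvd_pow h5 two_ne_zero)
      rwa [add_sub_cancel_left] at this
    exact hla h7
  · have h4 : ((l ^ j : ℕ) : ℤ) ∣ (P : ℤ) * ((b : ℤ) - c) := by
      have h5 := dvd_sub h1 h3
      have h6 : P * ((x : ℤ) + b) - 2 * M - (P * ((x : ℤ) + c) - 2 * M) = P * ((b : ℤ) - c) := by
        ring
      rwa [h6] at h5
    have h5 : ((l ^ j : ℕ) : ℤ) ∣ (b : ℤ) - c := by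
      refine (IsCoprime.dvd_of_dvd_mul_left ?_ h4)
      push_cast
      exact IsCoprime.pow_left ((Prime.coprime_iff_not_dvd hlZ).2 hP)
    have h6 : |(b : ℤ) - c| < ((l ^ j : ℕ) : ℤ) := by rw [abs_lt]; omega
    have h7 : (b : ℤ) - c = 0 := Int.eq_zero_of_abs_lt_dvd h5 h6
    omega

/-- at most `2 ^ ω(n)` roots modulo an `n` prime to `2 a` -/
lemma card_le {a M : ℤ} {G P Q : ℕ} (h : (G : ℤ) * P * Q = M ^ 2 + a) (n : ℕ) :
    n.Coprime (2 * a.natAbs) → (Rt n M G P Q).card ≤ 2 ^ n.primeFactors.card := by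
  induction n using Nat.recOnPosPrimePosCoprime with
  | zero =>
    intro h0
    rw [Nat.coprime_zero_left] at h0
    omega
  | one =>
    intro _
    simp [Rt]
  | prime_pow l j hl hj =>
    intro ho
    have hcop : l.Coprime (2 * a.natAbs) := Nat.Coprime.coprime_dvd_left (dvd_pow_self l hj.ne') ho
    have h2 : l ≠ 2 := by
      rintro rfl
      have := Nat.Coprime.coprime_dvd_right (Dvd.intro a.natAbs rfl : 2 ∣ 2 * a.natAbs) hcop
      exact absurd this (by decide)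
    have hla : ¬ (l : ℤ) ∣ a := by
      intro hd
      have h3 : l ∣ a.natAbs := Int.natCast_dvd.1 hd
      have h4 := Nat.Coprime.coprime_dvd_right (Dvd.intro_left 2 rfl : a.natAbs ∣ 2 * a.natAbs) hcop
      have h5 := Nat.Coprime.eq_one_of_dvd h4 h3
      exact hl.one_lt.ne' h5
    rw [Nat.primeFactors_prime_pow hj.ne' hl, card_singleton, pow_one]
    exact card_prime_pow hl h2 j hla h
  | coprime x b ha hb hab iha ihb =>
    intro ho
    have hoa := Nat.Coprime.coprime_dvd_left (Dvd.intro b rfl : x ∣ x * b) ho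
    have hob := Nat.Coprime.coprime_dvd_left (Dvd.intro_left x rfl : b ∣ x * b) ho
    rw [hab.primeFactors_mul, card_union_of_disjoint hab.disjoint_primeFactors, pow_add]
    refine le_trans ?_ (Nat.mul_le_mul (iha hoa) (ihb hob))
    rw [← card_product]
    refine card_le_card_of_injOn (fun ρ => (ρ % x, ρ % b)) ?_ ?_
    · intro ρ hρ
      rw [mem_coe] at hρ
      unfold Rt at hρ
      rw [mem_filter, mem_range] at hρ
      rw [mem_coe, mem_product]
      have haux : ∀ c : ℕ, 0 < c → c ∣ x * b → ρ % c ∈ Rt c M G P Q := by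
        intro c hc hd
        unfold Rt
        rw [mem_filter, mem_range]
        refine ⟨Nat.mod_lt _ hc, ?_, ?_⟩
        · exact (cop_mod c ρ).2 (Nat.Coprime.coprime_dvd_left hd hρ.2.1)
        · refine (F1_congr (dvd_sub_mod c ρ)).1 ?_
          exact (Int.natCast_dvd_natCast.2 hd).trans hρ.2.2
      exact ⟨haux x (by omega) (Dvd.intro _ rfl), haux b (by omega) (Dvd.intro_left _ rfl)⟩
    · intro ρ hρ ρ' hρ' heq
      rw [mem_coe] at hρ hρ'
      unfold Rt at hρ hρ'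
      rw [mem_filter, mem_range] at hρ hρ'
      have h1 := congrArg Prod.fst heq
      have h2 := congrArg Prod.snd heq
      have h3 : ρ ≡ ρ' [MOD x * b] := (Nat.modEq_and_modEq_iff_modEq_mul hab).1 ⟨h1, h2⟩
      rw [Nat.ModEq, Nat.mod_eq_of_lt hρ.1, Nat.mod_eq_of_lt hρ'.1] at h3
      exact h3

/-! ## the exact number -/

/-- the number of square roots of `-a` modulo `n` -/
def Z (a : ℤ) (n : ℕ) : ℕ := Nat.card {y : ZMod n // y ^ 2 + (a : ZMod n) = 0}

lemma Z_one (a : ℤ) : Z a 1 = 1 := by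
  rw [Z]
  have : Unique {y : ZMod 1 // y ^ 2 + (a : ZMod 1) = 0} :=
    { default := ⟨0, Subsingleton.elim _ _⟩
      uniq := fun a => Subtype.ext (Subsingleton.elim _ _) }
  exact Nat.card_unique

lemma Z_mul (t : ℤ) {a b : ℕ} (h : a.Coprime b) : Z t (a * b) = Z t a * Z t b := by
  rw [Z, Z, Z, ← Nat.card_prod]
  refine Nat.card_congr ?_
  let e := ZMod.chineseRemainder h
  have h1 : ∀ x : ZMod (a * b), (e (x ^ 2 + (t : ZMod (a * b)))).1 = (e x).1 ^ 2 + (t : ZMod a) := by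
    intro x
    rw [map_add, map_pow, map_intCast]
    rfl
  have h2 : ∀ x : ZMod (a * b), (e (x ^ 2 + (t : ZMod (a * b)))).2 = (e x).2 ^ 2 + (t : ZMod b) := by
    intro x
    rw [map_add, map_pow, map_intCast]
    rfl
  refine
    { toFun := fun y => (⟨(e y.1).1, ?_⟩, ⟨(e y.1).2, ?_⟩)
      invFun := fun y => ⟨e.symm (y.1.1, y.2.1), ?_⟩
      left_inv := ?_
      right_inv := ?_ }
  · rw [← h1, y.2, map_zero]
    rfl
  · rw [← h2, y.2, map_zero]
    rfl
  · apply e.injective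
    refine Prod.ext ?_ ?_
    · rw [h1, e.apply_symm_apply, y.1.2, map_zero]
      rfl
    · rw [h2, e.apply_symm_apply, y.2.2, map_zero]
      rfl
  · intro y
    apply Subtype.ext
    show e.symm ((e y.1).1, (e y.1).2) = y.1
    rw [Prod.mk.eta, e.symm_apply_apply]
  · intro y
    refine Prod.ext (Subtype.ext ?_) (Subtype.ext ?_)
    · show (e (e.symm (y.1.1, y.2.1))).1 = y.1.1
      rw [e.apply_symm_apply]
    · show (e (e.symm (y.1.1, y.2.1))).2 = y.2.1
      rw [e.apply_symm_apply]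

/-- a prime with `χ(l) = 1` -/
lemma facts {a : ℤ} {l : ℕ} (hl : l.Prime) (h1 : chz a l = 1) :
    l ≠ 2 ∧ ¬ (l : ℤ) ∣ a ∧ IsSquare (((-a : ℤ)) : ZMod l) := by
  have := Fact.mk hl
  have hodd : l % 2 = 1 := by
    rcases Nat.mod_two_eq_zero_or_one l with h | h
    · rw [chz_even h] at h1
      exact absurd h1 (by norm_num)
    · exact h
  rw [chz_odd hodd, ← jacobiSym.legendreSym.to_jacobiSym] at h1
  have h2 : (((-a : ℤ)) : ZMod l) ≠ 0 := by
    intro h
    rw [(legendreSym.eq_zero_iff l (-a)).2 h] at h1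
    exact absurd h1 (by norm_num)
  refine ⟨by rintro rfl; omega, ?_, (legendreSym.eq_one_iff l h2).1 h1⟩
  intro hd
  apply h2
  rw [ZMod.intCast_zmod_eq_zero_iff_dvd]
  exact (dvd_neg).2 hd

lemma not_dvd_two_mul {a : ℤ} {l : ℕ} (hl : l.Prime) (h2 : l ≠ 2) (hla : ¬ (l : ℤ) ∣ a) {y : ℤ}
    (hy : (l : ℤ) ∣ y ^ 2 + a) : ¬ (l : ℤ) ∣ 2 * y := by
  have hpp : Prime (l : ℤ) := Nat.prime_iff_prime_int.mp hl
  intro h
  rcases hpp.dvd_or_dvd h with h | h
  · have h5 : l ∣ 2 := by exact_mod_cast h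
    exact h2 ((Nat.prime_dvd_prime_iff_eq hl Nat.prime_two).1 h5)
  · apply hla
    obtain ⟨d, hd⟩ := h
    obtain ⟨e, he⟩ := hy
    exact ⟨e - d * y, by linear_combination he - y * hd⟩

lemma exists_root {a : ℤ} {l : ℕ} (hl : l.Prime) (h1 : chz a l = 1) (j : ℕ) :
    ∃ y : ℤ, ((l ^ j : ℕ) : ℤ) ∣ y ^ 2 + a := by
  have := Fact.mk hl
  obtain ⟨h2, hla, hsq⟩ := facts hl h1
  induction j with
  | zero => exact ⟨0, by simp⟩
  | succ j ih =>
    rcases Nat.eq_zero_or_pos j with rfl | hj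
    · obtain ⟨r, hr⟩ := hsq
      obtain ⟨y, rfl⟩ := ZMod.intCast_surjective r
      refine ⟨y, ?_⟩
      rw [zero_add, pow_one, ← ZMod.intCast_zmod_eq_zero_iff_dvd]
      push_cast at hr ⊢
      rw [pow_two, ← hr]
      ring
    · obtain ⟨y, c, hc⟩ := ih
      have hpp : Prime (l : ℤ) := Nat.prime_iff_prime_int.mp hl
      have hlj : (l : ℤ) ∣ ((l ^ j : ℕ) : ℤ) := by
        rw [Nat.cast_pow]
        exact dvd_pow_self _ hj.ne'
      have h2 : IsCoprime (2 * y) (l : ℤ) :=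
        (hpp.coprime_iff_not_dvd.mpr
          (not_dvd_two_mul hl h2 hla (hlj.trans ⟨c, hc⟩))).symm
      obtain ⟨u, v, huv⟩ := h2
      refine ⟨y - u * c * (l ^ j : ℕ), ?_⟩
      obtain ⟨i, rfl⟩ : ∃ i, j = i + 1 := ⟨j - 1, by omega⟩
      refine ⟨c * v + u ^ 2 * c ^ 2 * (l ^ i : ℕ), ?_⟩
      push_cast at hc ⊢
      rw [pow_succ (l : ℤ) i] at hc
      rw [pow_succ (l : ℤ) (i + 1), pow_succ (l : ℤ) i]
      linear_combination hc - c * ((l : ℤ) ^ i * l) * huv

lemma Z_prime_pow {a : ℤ} {l : ℕ} (hl : l.Prime) (h1 : chz a l = 1) {j : ℕ} (hj : 0 < j) :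
    Z a (l ^ j) = 2 := by
  have := Fact.mk hl
  obtain ⟨h2, hla, -⟩ := facts hl h1
  have hn0 : l ^ j ≠ 0 := pow_ne_zero j hl.ne_zero
  have : NeZero (l ^ j) := ⟨hn0⟩
  have hpp : Prime (l : ℤ) := Nat.prime_iff_prime_int.mp hl
  obtain ⟨y, hy⟩ := exists_root hl h1 j
  have hlj : (l : ℤ) ∣ ((l ^ j : ℕ) : ℤ) := by
    rw [Nat.cast_pow]
    exact dvd_pow_self _ hj.ne'
  have h2y : ¬ (l : ℤ) ∣ 2 * y := not_dvd_two_mul hl h2 hla (hlj.trans hy)
  have hy0 : ((y : ZMod (l ^ j)) ^ 2 + (a : ZMod (l ^ j)) = 0) := by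
    have := (ZMod.intCast_zmod_eq_zero_iff_dvd (y ^ 2 + a) (l ^ j)).mpr hy
    push_cast at this
    exact this
  have hset : {x : ZMod (l ^ j) | x ^ 2 + (a : ZMod (l ^ j)) = 0} =
      (({(y : ZMod (l ^ j)), -(y : ZMod (l ^ j))} : Finset (ZMod (l ^ j))) : Set _) := by
    ext x
    simp only [Set.mem_setOf_eq, coe_insert, coe_singleton, Set.mem_insert_iff,
      Set.mem_singleton_iff]
    constructor
    · intro hx
      obtain ⟨w, rfl⟩ := ZMod.intCast_surjective x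
      have h8 : ((l ^ j : ℕ) : ℤ) ∣ w ^ 2 + a := by
        rw [← ZMod.intCast_zmod_eq_zero_iff_dvd]
        push_cast
        exact hx
      have h9 : ((l : ℤ) ^ j) ∣ (w - y) * (w + y) := by
        rw [Nat.cast_pow] at h8 hy
        obtain ⟨c, hc⟩ := h8
        obtain ⟨d, hd⟩ := hy
        exact ⟨c - d, by linear_combination hc - hd⟩
      have h10 : IsCoprime ((l : ℤ) ^ j) (w - y) ∨ IsCoprime ((l : ℤ) ^ j) (w + y) := by
        by_cases h11 : (l : ℤ) ∣ w - y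
        · right
          refine IsCoprime.pow_left (hpp.coprime_iff_not_dvd.mpr ?_)
          intro h12
          apply h2y
          obtain ⟨c, hc⟩ := h12
          obtain ⟨d, hd⟩ := h11
          exact ⟨c - d, by linear_combination hc - hd⟩
        · left
          exact IsCoprime.pow_left (hpp.coprime_iff_not_dvd.mpr h11)
      rcases h10 with h10 | h10
      · right
        have h13 := h10.dvd_of_dvd_mul_left h9
        rw [← sub_eq_zero, sub_neg_eq_add]
        have := (ZMod.intCast_zmod_eq_zero_iff_dvd (w + y) (l ^ j)).mpr (by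
          rw [Nat.cast_pow]; exact h13)
        push_cast at this
        exact this
      · left
        have h13 := h10.dvd_of_dvd_mul_right h9
        rw [← sub_eq_zero]
        have := (ZMod.intCast_zmod_eq_zero_iff_dvd (w - y) (l ^ j)).mpr (by
          rw [Nat.cast_pow]; exact h13)
        push_cast at this
        exact this
    · rintro (rfl | rfl)
      · exact hy0
      · rw [neg_sq]; exact hy0
  have hne : (y : ZMod (l ^ j)) ≠ -(y : ZMod (l ^ j)) := by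
    intro h
    apply h2y
    refine hlj.trans ?_
    rw [← ZMod.intCast_zmod_eq_zero_iff_dvd]
    push_cast
    linear_combination h
  have : Z a (l ^ j) = Nat.card ({x : ZMod (l ^ j) | x ^ 2 + (a : ZMod (l ^ j)) = 0} : Set _) := rfl
  rw [this, hset, Nat.card_eq_card_finite_toFinset (Finset.finite_toSet _)]
  rw [Finset.finite_toSet_toFinset, card_insert_of_notMem (by
    rw [mem_singleton]; exact hne), card_singleton]

lemma Z_eq (a : ℤ) (n : ℕ) : 0 < n → (∀ l : ℕ, l.Prime → l ∣ n → chz a l = 1) →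
    Z a n = 2 ^ n.primeFactors.card := by
  induction n using Nat.recOnPosPrimePosCoprime with
  | prime_pow l j hl hj =>
    intro _ h
    rw [Z_prime_pow hl (h l hl (dvd_pow_self l hj.ne')) hj, Nat.primeFactors_prime_pow hj.ne' hl,
      card_singleton, pow_one]
  | zero => intro h; omega
  | one => intro _ _; rw [Z_one]; simp
  | coprime x b ha hb hab iha ihb =>
    intro _ h
    rw [Z_mul a hab, iha (by omega) (fun l hl hd => h l hl (hd.mul_right b)),
      ihb (by omega) (fun l hl hd => h l hl (hd.mul_left x)), hab.primeFactors_mul,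
      card_union_of_disjoint hab.disjoint_primeFactors, pow_add]

/-- the roots of `F₁` and the square roots of `-a` -/
lemma card_F1 {a M : ℤ} {G P Q n : ℕ} (h : (G : ℤ) * P * Q = M ^ 2 + a) (hn : 0 < n)
    (hP : n.Coprime P) :
    ((range n).filter (fun ρ : ℕ => (n : ℤ) ∣ F1 M G P Q (ρ : ℤ))).card = Z a n := by
  have : NeZero n := ⟨hn.ne'⟩
  have hPu : IsUnit (P : ZMod n) := (ZMod.isUnit_iff_coprime P n).mpr hP.symm
  obtain ⟨u, hu⟩ := hPu
  have hPi : (P : ZMod n) * ((u⁻¹ : (ZMod n)ˣ) : ZMod n) = 1 := by rw [← hu]; simp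
  have h2 := congrArg (Int.cast : ℤ → ZMod n) h
  push_cast at h2
  rw [Z, Nat.card_eq_fintype_card, Fintype.card_subtype]
  refine card_bij' (fun ρ _ => (P : ZMod n) * (ρ : ZMod n) - (M : ZMod n))
    (fun y _ => (((u⁻¹ : (ZMod n)ˣ) : ZMod n) * (y + (M : ZMod n)) : ZMod n).val) ?_ ?_ ?_ ?_
  · intro ρ hρ
    rw [mem_filter] at hρ
    rw [mem_filter]
    refine ⟨mem_univ _, ?_⟩
    have h1 := (ZMod.intCast_zmod_eq_zero_iff_dvd _ n).mpr hρ.2
    rw [F1] at h1
    push_cast at h1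
    linear_combination (P : ZMod n) * h1 - h2
  · intro y hy
    rw [mem_filter] at hy
    rw [mem_filter, mem_range]
    refine ⟨ZMod.val_lt _, ?_⟩
    rw [← ZMod.intCast_zmod_eq_zero_iff_dvd, F1]
    push_cast
    rw [ZMod.natCast_zmod_val]
    set w := ((u⁻¹ : (ZMod n)ˣ) : ZMod n) with hw
    have h3 : (P : ZMod n) * (w * (y + M)) = y + M := by rw [← mul_assoc, hPi, one_mul]
    have h4 : (P : ZMod n) * ((P : ZMod n) * (w * (y + M)) ^ 2 - 2 * M * (w * (y + M)) +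
        G * Q) = 0 := by
      linear_combination ((P : ZMod n) * (w * (y + M)) + (y + M) - 2 * M) * h3 + h2 + hy.2
    calc _ = ((P : ZMod n) * w) * ((P : ZMod n) * (w * (y + M)) ^ 2 - 2 * M * (w * (y + M)) +
        G * Q) := by rw [hPi, one_mul]
      _ = w * ((P : ZMod n) * ((P : ZMod n) * (w * (y + M)) ^ 2 - 2 * M * (w * (y + M)) +
        G * Q)) := by ring
      _ = 0 := by rw [h4, mul_zero]
  · intro ρ hρ
    rw [mem_filter, mem_range] at hρ
    have h3 : ((u⁻¹ : (ZMod n)ˣ) : ZMod n) * ((P : ZMod n) * (ρ : ZMod n) - (M : ZMod n) +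
        (M : ZMod n)) = ρ := by
      rw [sub_add_cancel, ← mul_assoc, mul_comm (((u⁻¹ : (ZMod n)ˣ) : ZMod n)), hPi, one_mul]
    show ((((u⁻¹ : (ZMod n)ˣ) : ZMod n) * ((P : ZMod n) * (ρ : ZMod n) - (M : ZMod n) +
        (M : ZMod n)) : ZMod n)).val = ρ
    rw [h3, ZMod.val_natCast, Nat.mod_eq_of_lt hρ.1]
  · intro y hy
    show (P : ZMod n) * (((((u⁻¹ : (ZMod n)ˣ) : ZMod n) * (y + (M : ZMod n)) : ZMod n).val : ℕ) :
      ZMod n) - (M : ZMod n) = y
    rw [ZMod.natCast_zmod_val, ← mul_assoc, hPi, one_mul, add_sub_cancel_right]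

lemma coprime_of_root {a M : ℤ} {G P Q n : ℕ} (h : (G : ℤ) * P * Q = M ^ 2 + a)
    (hl : ∀ l : ℕ, l.Prime → l ∣ n → ¬ (l : ℤ) ∣ M ^ 2 + a) {ρ : ℕ}
    (hρ : (n : ℤ) ∣ F1 M G P Q (ρ : ℤ)) : n.Coprime ρ := by
  rw [Nat.coprime_iff_gcd_eq_one]
  by_contra hne
  obtain ⟨l, hlp, hld⟩ := Nat.exists_prime_and_dvd hne
  have h1 : l ∣ n := hld.trans (Nat.gcd_dvd_left _ _)
  have h2 : (l : ℤ) ∣ ρ := by exact_mod_cast hld.trans (Nat.gcd_dvd_right _ _)
  have h3 : (l : ℤ) ∣ n := by exact_mod_cast h1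
  apply hl l hlp h1
  obtain ⟨c, hc⟩ := h3.trans hρ
  obtain ⟨d, hd⟩ := h2
  rw [F1] at hc
  refine ⟨P * c - P * P * d * ρ + 2 * P * M * d, ?_⟩
  linear_combination -h + (P : ℤ) * hc + (-(P : ℤ) * P * ρ + 2 * P * M) * hd

lemma coprime_P {a M : ℤ} {G P Q n : ℕ} (h : (G : ℤ) * P * Q = M ^ 2 + a)
    (hl : ∀ l : ℕ, l.Prime → l ∣ n → ¬ (l : ℤ) ∣ M ^ 2 + a) : n.Coprime P := by
  rw [Nat.coprime_iff_gcd_eq_one]
  by_contra hne
  obtain ⟨l, hlp, hld⟩ := Nat.exists_prime_and_dvd hne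
  have h1 : l ∣ n := hld.trans (Nat.gcd_dvd_left _ _)
  have h2 : (l : ℤ) ∣ P := by exact_mod_cast hld.trans (Nat.gcd_dvd_right _ _)
  apply hl l hlp h1
  rw [← h]
  exact Dvd.dvd.mul_right (Dvd.dvd.mul_left h2 _) _

end RTS

theorem specRTS : SpecRTS := by
  refine ⟨fun W n G P Q A₁ A₂ M g hn => RTS.sum_DD W n G P Q A₁ A₂ M g hn,
    fun a n G P Q M h ho => RTS.card_le h n ho, ?_⟩
  intro a n G P Q M h hn hl
  rw [← RTS.Z_eq a n hn fun l h1 h2 => (hl l h1 h2).1,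
    ← RTS.card_F1 h hn (RTS.coprime_P h fun l h1 h2 => (hl l h1 h2).2)]
  unfold Rt
  congr 1
  ext ρ
  simp only [mem_filter]
  constructor
  · rintro ⟨h2, h3, h4⟩; exact ⟨h2, h4⟩
  · rintro ⟨h2, h4⟩
    exact ⟨h2, RTS.coprime_of_root h (fun l h1 h2 => (hl l h1 h2).2) h4, h4⟩

end

end Pool.Agent.Lib.MP391708.TA
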