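import Pool.Agent.Lib.MP_391708_nt.TA.EqfC
import Pool.Agent.Lib.MP_391708_nt.T1.EquidT

/-!
# Equidistribution of unimodular pairs in residue classes, for a binary quadratic form

`equidF`: general regions in the plane of `v`, forms of any signature. `equid_form`: the region
`T₁(F(v)) < B_F(v, w) ≤ T₂(F(v))`, positive definite forms.
-/

set_option autoImplicit false

namespace Pool.Agent.Lib.MP391708.TA

namespace Eqf

open Finset Filter Topology
open Pool.Agent.Lib.MP391708.Eqd Pool.Agent.Lib.MP391708.T1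
open Pool.Agent.Lib.MP391708.T1.Equ (RC rr cross_of_mem exists_rr rr_neg res_mem_sl sl_card_pos)
open scoped Classical

variable {A B C : ℤ} {L X S : ℝ} {T₁ T₂ : ℝ → ℝ → ℝ}

/-- the number of pairs in a class: the main term does not depend on the class -/
lemma class_count (hbox : SpecBoxQ) (hmean : SpecMeanQ) (hpwr : SpecPwr) : ∃ K : ℝ, 0 < K ∧
    ∀ L : ℝ, 1 ≤ L → ∀ A B C : ℤ, |(A : ℝ)| ≤ L → |(B : ℝ)| ≤ L → |(C : ℝ)| ≤ L →
    ∀ y X : ℝ, 12 * (16 * L ^ 3) ^ 2 ≤ y → y ^ 10 ≤ L * X → ∀ T₁ T₂ : ℝ → ℝ → ℝ,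
    BdF A B C L X (y ^ 5) T₁ T₂ → ∀ M : ℕ, 4 * L ^ 5 * (X + 1) ≤ M →
    ∀ (q : ℕ) [NeZero q], ∀ r ∈ sl q,
    |((cl A B C M T₁ T₂ q r).card : ℝ) - zq q / (q : ℝ) ^ 3 *
      (mf A B C T₁ T₂ (16 * L ^ 3) y + mf A B C (rf T₁) (rf T₂) (16 * L ^ 3) y)| ≤
      K * (16 * L ^ 3) ^ 8 * (q : ℝ) ^ 4 * X / y := by
  obtain ⟨K, hK, h⟩ := pos_main hbox hmean hpwr
  refine ⟨2 * K, by positivity, ?_⟩
  intro L hL A B C hA hB hC y X hy hX T₁ T₂ hT M hM q hq0 r hr
  have hq : 0 < q := Nat.pos_of_ne_zero hq0.out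
  obtain ⟨a0, c0, b0, k0, rfl, hdv⟩ := exists_rr hr
  have hL3 : 1 ≤ L ^ 3 := one_le_pow₀ hL
  have hL32 : 1 ≤ (L ^ 3) ^ 2 := one_le_pow₀ hL3
  have hy1 : 1 ≤ y := by nlinarith
  have hy5 : 1 ≤ y ^ 5 := one_le_pow₀ hy1
  have hyy : y ≤ y ^ 5 := by
    calc y = y ^ 1 := (pow_one y).symm
      _ ≤ y ^ 5 := pow_le_pow_right₀ hy1 (by norm_num)
  have hSL : L ^ 2 < (y ^ 5) ^ 2 := by
    have e1 : L < y ^ 5 := by
      have e2 : L ≤ L ^ 3 := by
        calc L = L ^ 1 := (pow_one L).symm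
          _ ≤ L ^ 3 := pow_le_pow_right₀ hL (by norm_num)
      nlinarith
    exact pow_lt_pow_left₀ e1 (by linarith) (by norm_num)
  have hX' : (y ^ 5) ^ 2 ≤ L * X := by
    calc (y ^ 5) ^ 2 = y ^ 10 := by ring
      _ ≤ _ := hX
  have h1 := h L hL A B C hA hB hC y X hy hX T₁ T₂ hT M
    (fun x hc hr => reg_mem hL hy5 hX' hA hB hC hT hM x hc hr) q hq a0 c0 b0 k0 hdv
  have h2 := h L hL A B C hA hB hC y X hy hX (rf T₁) (rf T₂) (bd_rf hT) M
    (fun x hc hr => reg_mem hL hy5 hX' hA hB hC (bd_rf hT) hM x hc hr) q hq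
    (-a0) (-c0) (-b0) (-k0) (by
    have : -b0 * -c0 - (1 + -a0 * -k0) = b0 * c0 - (1 + a0 * k0) := by ring
    rw [this]; exact hdv)
  rw [← rr_neg] at h2
  rw [card_split hL hSL hC hT]
  push_cast
  rw [abs_le] at h1 h2 ⊢
  have e' : 2 * K * (16 * L ^ 3) ^ 8 * (q : ℝ) ^ 4 * X / y =
      K * (16 * L ^ 3) ^ 8 * (q : ℝ) ^ 4 * X / y + K * (16 * L ^ 3) ^ 8 * (q : ℝ) ^ 4 * X / y := by
    ring
  rw [e', mul_add]
  constructor
  · linarith [h1.1, h2.1]
  · linarith [h1.2, h2.2]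

lemma total_eq {M q : ℕ} [NeZero q] : ((pairs 1 M).filter (RegF A B C T₁ T₂)).card =
    ∑ r ∈ sl q, (cl A B C M T₁ T₂ q r).card := by
  have hmaps : ∀ x ∈ (pairs 1 M).filter (RegF A B C T₁ T₂), res q x ∈ sl q := by
    intro x hx
    rw [mem_filter] at hx
    exact res_mem_sl hx.1
  rw [card_eq_sum_card_fiberwise hmaps]
  apply sum_congr rfl
  intro r _
  congr 1
  ext x
  rw [mem_filter, mem_filter, mem_cl, and_assoc]

/-- trivial bound -/
lemma triv (hL : 1 ≤ L) (hS : 1 ≤ S) (hX : 0 ≤ X)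
    (hT : BdF A B C L X S T₁ T₂) (M : ℕ) :
    (((pairs 1 M).filter (RegF A B C T₁ T₂)).card : ℝ) ≤ 9 * L ^ 3 * X * S ^ 2 := by
  have hL0 : 0 < L := by linarith
  set N : ℕ := ⌊L * S⌋₊ with hN
  have hLS : 1 ≤ L * S := one_le_mul_of_one_le_of_one_le hL hS
  have hN1 : (N : ℝ) ≤ L * S := Nat.floor_le (by linarith)
  set D : ℕ := ⌊L * X⌋₊ with hDdef
  have hD1 : (D : ℝ) ≤ L * X := Nat.floor_le (by positivity)
  set T : Finset ((ℤ × ℤ) × ℤ) := (Icc (-(N : ℤ)) N ×ˢ Icc (-(N : ℤ)) N) ×ˢ Ioc (0 : ℤ) D with hTT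
  have hcard : ((pairs 1 M).filter (RegF A B C T₁ T₂)).card ≤ T.card := by
    apply card_le_card_of_injOn (fun x : V × V => (x.1, qb A B C x.1 x.2))
    · intro x hx
      rw [mem_coe, mem_filter] at hx
      obtain ⟨r1, r2⟩ := hx.2
      obtain ⟨h1, h2, -, g5, g6⟩ := hT.supp _ _ (lt_of_lt_of_le r1 r2)
      have key : ∀ z : ℤ, |(z : ℝ)| ≤ L * S → z ∈ Icc (-(N : ℤ)) N := by
        intro z hz
        have h3 : (z.natAbs : ℝ) ≤ L * S := by
          rw [Nat.cast_natAbs]; push_cast; exact hz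
        have h4 : z.natAbs ≤ N := Nat.le_floor h3
        rw [mem_Icc]; omega
      rw [mem_coe, hTT, mem_product, mem_product, mem_Ioc]
      have h5 : (0 : ℝ) < (qb A B C x.1 x.2 : ℝ) := by linarith
      have h5' : 0 < qb A B C x.1 x.2 := by exact_mod_cast h5
      refine ⟨⟨key _ h1, key _ h2⟩, h5', ?_⟩
      have h6 : (((qb A B C x.1 x.2).toNat : ℕ) : ℝ) ≤ L * X := by
        have : (((qb A B C x.1 x.2).toNat : ℤ) : ℝ) = (qb A B C x.1 x.2 : ℝ) := by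
          rw [Int.toNat_of_nonneg h5'.le]
        have h7 : (((qb A B C x.1 x.2).toNat : ℕ) : ℝ) = (qb A B C x.1 x.2 : ℝ) := by
          exact_mod_cast this
        rw [h7]; linarith
      have h8 : (qb A B C x.1 x.2).toNat ≤ D := Nat.le_floor h6
      simp only
      omega
    · intro x hx y hy hxy
      rw [mem_coe, mem_filter] at hx hy
      have c1 := cross_of_mem hx.1
      have c2 := cross_of_mem hy.1
      obtain ⟨r1, r2⟩ := hx.2
      obtain ⟨-, -, g3, -, -⟩ := hT.supp _ _ (lt_of_lt_of_le r1 r2)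
      have hd : 0 < qr A B C x.1.1 x.1.2 := lt_of_lt_of_le (by positivity) g3
      simp only [Prod.mk.injEq] at hxy
      obtain ⟨e1, e2⟩ := hxy
      obtain ⟨s1, s2⟩ := second (A := A) (B := B) (C := C) x c1
      obtain ⟨t1, t2⟩ := second (A := A) (B := B) (C := C) y c2
      rw [← e1] at t1 t2
      have e2' : (qb A B C x.1 y.2 : ℝ) = qb A B C x.1 x.2 := by
        rw [← e1] at e2
        exact_mod_cast e2.symm
      rw [e2', ← s1] at t1
      rw [e2', ← s2] at t2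
      have g1 : (y.2.1 : ℝ) = x.2.1 := mul_left_cancel₀ hd.ne' t1
      have g2 : (y.2.2 : ℝ) = x.2.2 := mul_left_cancel₀ hd.ne' t2
      have g1' : x.2.1 = y.2.1 := by exact_mod_cast g1.symm
      have g2' : x.2.2 = y.2.2 := by exact_mod_cast g2.symm
      exact Prod.ext e1 (Prod.ext g1' g2')
  have hTc : (T.card : ℝ) = (2 * N + 1) ^ 2 * D := by
    rw [hTT, card_product, card_product, Int.card_Icc, Int.card_Ioc]
    have e1 : ((N : ℤ) + 1 - -(N : ℤ)).toNat = 2 * N + 1 := by omega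
    have e2 : ((D : ℤ) - 0).toNat = D := by omega
    rw [e1, e2]
    push_cast
    ring
  calc (((pairs 1 M).filter (RegF A B C T₁ T₂)).card : ℝ) ≤ (T.card : ℝ) := by exact_mod_cast hcard
    _ = (2 * N + 1) ^ 2 * D := hTc
    _ ≤ (3 * (L * S)) ^ 2 * (L * X) := by
        gcongr
        linarith
    _ = _ := by ring

end Eqf

open Finset Filter Topology
open Pool.Agent.Lib.MP391708.Eqd Pool.Agent.Lib.MP391708.T1
open scoped Classical

/-- **EQUID for a binary quadratic form**, general regions in the plane of `v` (`|v| ≪ S`). -/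
def SpecEquidF : Prop :=
  ∃ K : ℝ, 0 < K ∧ ∀ L : ℝ, 1 ≤ L → ∀ A B C : ℤ, |(A : ℝ)| ≤ L → |(B : ℝ)| ≤ L → |(C : ℝ)| ≤ L →
    ∀ X S : ℝ, 1 ≤ S → S ^ 2 ≤ L * X → ∀ T₁ T₂ : ℝ → ℝ → ℝ, BdF A B C L X S T₁ T₂ →
    ∀ M : ℕ, 4 * L ^ 5 * (X + 1) ≤ M → ∀ (q : ℕ) [NeZero q], ∀ r ∈ sl q,
      |(((pairs 1 M).filter (fun x => RegF A B C T₁ T₂ x ∧ res q x = r)).card : ℝ) -
        (((pairs 1 M).filter (RegF A B C T₁ T₂)).card : ℝ) / ((sl q).card : ℝ)| ≤
        K * L ^ 80 * (q : ℝ) ^ 4 * X * S ^ (-(1 / 5) : ℝ)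

theorem specEquidF : SpecEquidF := by
  obtain ⟨K, hK, hcc⟩ := Eqf.class_count specBoxQ specMeanQ specPwr
  refine ⟨2 * K * 16 ^ 8 + 9 * (12 * 256) ^ 11, by positivity, ?_⟩
  intro L hL A B C hA hB hC X S hS hX T₁ T₂ hT M hM q hq0 r hr
  have hq : 0 < q := Nat.pos_of_ne_zero hq0.out
  have hq1 : (1 : ℝ) ≤ q := by exact_mod_cast hq
  have hL0 : 0 < L := by linarith
  have hS0 : 0 < S := by linarith
  have hX0 : 0 ≤ X := by
    have : 0 ≤ L * X := le_trans (by positivity) hX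
    exact nonneg_of_mul_nonneg_right this hL0
  set y := S ^ (1 / 5 : ℝ) with hy
  have hy5 : y ^ 5 = S := by
    rw [hy, ← Real.rpow_natCast, ← Real.rpow_mul hS0.le]
    norm_num
  have hy10 : y ^ 10 = S ^ 2 := by
    rw [← hy5]; ring
  have hy1 : 1 ≤ y := Real.one_le_rpow hS (by norm_num)
  have hy0 : 0 < y := by linarith
  have hpw : S ^ (-(1 / 5) : ℝ) = 1 / y := by
    have e : 1 / y = S ^ (-(1 / 5) : ℝ) := by
      rw [hy, Real.rpow_neg hS0.le, one_div]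
    exact e.symm
  rw [hpw]
  have hcl : (pairs 1 M).filter (fun x => RegF A B C T₁ T₂ x ∧ res q x = r) =
      Eqf.cl A B C M T₁ T₂ q r := rfl
  have hsl := Equ.sl_card_pos q
  have hslR : (1 : ℝ) ≤ ((sl q).card : ℝ) := by exact_mod_cast hsl
  have htot := Eqf.total_eq (A := A) (B := B) (C := C) (T₁ := T₁) (T₂ := T₂) (M := M) (q := q)
  have hq4 : (1 : ℝ) ≤ (q : ℝ) ^ 4 := one_le_pow₀ hq1
  rw [hcl]
  rcases lt_or_ge y (12 * (16 * L ^ 3) ^ 2) with hsm | hbig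
  · -- small `S`
    have ht := Eqf.triv hL hS hX0 hT M
    set t := (((pairs 1 M).filter (RegF A B C T₁ T₂)).card : ℝ) with htdef
    have ht0 : 0 ≤ t := Nat.cast_nonneg _
    have h1 : ((Eqf.cl A B C M T₁ T₂ q r).card : ℝ) ≤ t := by
      rw [htdef]
      have : (Eqf.cl A B C M T₁ T₂ q r).card ≤ ((pairs 1 M).filter (RegF A B C T₁ T₂)).card := by
        apply card_le_card
        intro x hx
        rw [Eqf.mem_cl] at hx
        exact mem_filter.mpr ⟨hx.1, hx.2.1⟩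
      exact_mod_cast this
    have h2 : t / ((sl q).card : ℝ) ≤ t := div_le_self ht0 hslR
    have h3 : 0 ≤ t / ((sl q).card : ℝ) := by positivity
    have h4 : |((Eqf.cl A B C M T₁ T₂ q r).card : ℝ) - t / ((sl q).card : ℝ)| ≤ t := by
      rw [abs_le]
      have : (0 : ℝ) ≤ ((Eqf.cl A B C M T₁ T₂ q r).card : ℝ) := Nat.cast_nonneg _
      constructor <;> linarith
    refine h4.trans (ht.trans ?_)
    have hm : 12 * (16 * L ^ 3) ^ 2 = (12 * 256) * L ^ 6 := by ring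
    rw [hm] at hsm
    have h5 : S ^ 2 ≤ ((12 * 256) * L ^ 6) ^ 10 := by
      rw [← hy10]
      exact pow_le_pow_left₀ hy0.le hsm.le 10
    have h6 : 1 ≤ ((12 * 256) * L ^ 6) * (1 / y) := by
      rw [mul_one_div, one_le_div hy0]
      exact hsm.le
    have h69 : L ^ 69 ≤ L ^ 80 := pow_le_pow_right₀ hL (by norm_num)
    calc 9 * L ^ 3 * X * S ^ 2 ≤ 9 * L ^ 3 * X * ((12 * 256) * L ^ 6) ^ 10 := by gcongr
      _ = 9 * (12 * 256) ^ 10 * L ^ 63 * X * 1 := by ring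
      _ ≤ 9 * (12 * 256) ^ 10 * L ^ 63 * X * (((12 * 256) * L ^ 6) * (1 / y)) := by gcongr
      _ = 9 * (12 * 256) ^ 11 * L ^ 69 * 1 * X * (1 / y) := by ring
      _ ≤ (2 * K * 16 ^ 8 + 9 * (12 * 256) ^ 11) * L ^ 80 * (q : ℝ) ^ 4 * X * (1 / y) := by
          gcongr
          have : 0 ≤ 2 * K * 16 ^ 8 := by positivity
          linarith
  · -- large `S`
    have hT' : BdF A B C L X (y ^ 5) T₁ T₂ := by rw [hy5]; exact hT
    have hX' : y ^ 10 ≤ L * X := by rw [hy10]; exact hX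
    have hall := hcc L hL A B C hA hB hC y X hbig hX' T₁ T₂ hT' M hM q
    set E := K * (16 * L ^ 3) ^ 8 * (q : ℝ) ^ 4 * X / y with hE
    set m := zq q / (q : ℝ) ^ 3 * (Eqf.mf A B C T₁ T₂ (16 * L ^ 3) y +
      Eqf.mf A B C (Eqf.rf T₁) (Eqf.rf T₂) (16 * L ^ 3) y) with hm
    have h1 := hall r hr
    have h2 : |(((pairs 1 M).filter (RegF A B C T₁ T₂)).card : ℝ) - (sl q).card * m| ≤
        (sl q).card * E := by
      rw [htot]
      push_cast
      have e : ∑ r ∈ sl q, ((Eqf.cl A B C M T₁ T₂ q r).card : ℝ) - (sl q).card * m =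
          ∑ r ∈ sl q, (((Eqf.cl A B C M T₁ T₂ q r).card : ℝ) - m) := by
        rw [sum_sub_distrib, sum_const, nsmul_eq_mul]
      rw [e]
      refine (abs_sum_le_sum_abs _ _).trans ?_
      calc _ ≤ ∑ r ∈ sl q, E := sum_le_sum fun r hr => hall r hr
        _ = _ := by rw [sum_const, nsmul_eq_mul]
    have h3 : |(((pairs 1 M).filter (RegF A B C T₁ T₂)).card : ℝ) / ((sl q).card : ℝ) - m| ≤ E := by
      have e : (((pairs 1 M).filter (RegF A B C T₁ T₂)).card : ℝ) / ((sl q).card : ℝ) - m =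
          ((((pairs 1 M).filter (RegF A B C T₁ T₂)).card : ℝ) - (sl q).card * m) /
            ((sl q).card : ℝ) := by
        field_simp
      rw [e, abs_div, abs_of_pos (by linarith : (0 : ℝ) < ((sl q).card : ℝ)),
        div_le_iff₀ (by linarith)]
      linarith
    have h4 : |((Eqf.cl A B C M T₁ T₂ q r).card : ℝ) -
        (((pairs 1 M).filter (RegF A B C T₁ T₂)).card : ℝ) / ((sl q).card : ℝ)| ≤ 2 * E := by
      rw [abs_le] at h1 h3 ⊢
      constructor <;> linarith [h1.1, h1.2, h3.1, h3.2]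
    refine h4.trans ?_
    have hE' : 2 * E = (2 * K * 16 ^ 8) * L ^ 24 * (q : ℝ) ^ 4 * X * (1 / y) := by rw [hE]; ring
    rw [hE']
    have h24 : L ^ 24 ≤ L ^ 80 := pow_le_pow_right₀ hL (by norm_num)
    gcongr
    have : (0 : ℝ) ≤ 9 * (12 * 256) ^ 11 := by positivity
    linarith

end Pool.Agent.Lib.MP391708.TA
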