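import Pool.Agent.Lib.MP_391708_nt.T1.Equid

/-!
# Equidistribution of unimodular pairs in residue classes, for a binary quadratic form: definitions, pieces

`F(v) = A v₁² + 2 B v₁ v₂ + C v₂²` with integral `A`, `B`, `C`, of any signature.
-/

set_option autoImplicit false

namespace Pool.Agent.Lib.MP391708.TA

open Finset Filter Topology
open Pool.Agent.Lib.MP391708.Eqd
open scoped Classical

/-- the value of the form `(A, B, C)` -/
def qv (A B C : ℤ) (v : V) : ℤ := A * v.1 ^ 2 + 2 * B * v.1 * v.2 + C * v.2 ^ 2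

/-- the bilinear form -/
def qb (A B C : ℤ) (v w : V) : ℤ :=
  A * v.1 * w.1 + B * (v.1 * w.2 + v.2 * w.1) + C * v.2 * w.2

/-- the form on real vectors -/
def qr (A B C : ℤ) (a c : ℝ) : ℝ := A * a ^ 2 + 2 * B * a * c + C * c ^ 2

/-- the region: `T₁(v) < M ≤ T₂(v)`, `M = B_F(v, w)` -/
def RegF (A B C : ℤ) (T₁ T₂ : ℝ → ℝ → ℝ) (x : V × V) : Prop :=
  T₁ x.1.1 x.1.2 < (qb A B C x.1 x.2 : ℝ) ∧ (qb A B C x.1 x.2 : ℝ) ≤ T₂ x.1.1 x.1.2

/-- admissible bounds for a region at the scales `X` (of `M`) and `S` (of `|v|`) -/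
structure BdF (A B C : ℤ) (L X S : ℝ) (T₁ T₂ : ℝ → ℝ → ℝ) : Prop where
  lip₁ : ∀ a c a' c' : ℝ, T₁ a c < T₂ a c → |a' - a| ≤ S → |c' - c| ≤ S →
    |T₁ a' c' - T₁ a c| ≤ L * (X / S) * (|a' - a| + |c' - c|)
  lip₂ : ∀ a c a' c' : ℝ, T₁ a c < T₂ a c → |a' - a| ≤ S → |c' - c| ≤ S →
    |T₂ a' c' - T₂ a c| ≤ L * (X / S) * (|a' - a| + |c' - c|)
  supp : ∀ a c : ℝ, T₁ a c < T₂ a c → |a| ≤ L * S ∧ |c| ≤ L * S ∧ S ^ 2 / L ≤ qr A B C a c ∧
    0 ≤ T₁ a c ∧ T₂ a c ≤ L * X

namespace Eqf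

variable {A B C : ℤ} {L X S : ℝ} {T₁ T₂ : ℝ → ℝ → ℝ}

lemma qv_cast (v : V) : (qv A B C v : ℝ) = qr A B C v.1 v.2 := by
  simp only [qv, qr]; push_cast; ring

/-- the form is Lipschitz -/
lemma qr_lip (hL : 1 ≤ L) (_hS : 0 < S) (hA : |(A : ℝ)| ≤ L) (hB : |(B : ℝ)| ≤ L)
    (hC : |(C : ℝ)| ≤ L) {a c a' c' : ℝ} (ha : |a| ≤ 2 * L * S) (hc : |c| ≤ 2 * L * S)
    (ha' : |a'| ≤ 2 * L * S) (hc' : |c'| ≤ 2 * L * S) :
    |qr A B C a' c' - qr A B C a c| ≤ 8 * L ^ 2 * S * (|a' - a| + |c' - c|) := by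
  have e : qr A B C a' c' - qr A B C a c = A * ((a' - a) * (a' + a)) +
      2 * B * ((a' - a) * c' + a * (c' - c)) + C * ((c' - c) * (c' + c)) := by
    unfold qr; ring
  have h1 : |a' + a| ≤ 4 * L * S := by
    have := abs_add_le a' a; linarith
  have h2 : |c' + c| ≤ 4 * L * S := by
    have := abs_add_le c' c; linarith
  have u0 : 0 ≤ |a' - a| := abs_nonneg _
  have v0 : 0 ≤ |c' - c| := abs_nonneg _
  have f1 : |(A : ℝ) * ((a' - a) * (a' + a))| ≤ L * (|a' - a| * (4 * L * S)) := by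
    rw [abs_mul, abs_mul]
    exact mul_le_mul hA (mul_le_mul_of_nonneg_left h1 u0) (by positivity) (by linarith)
  have f3 : |(C : ℝ) * ((c' - c) * (c' + c))| ≤ L * (|c' - c| * (4 * L * S)) := by
    rw [abs_mul, abs_mul]
    exact mul_le_mul hC (mul_le_mul_of_nonneg_left h2 v0) (by positivity) (by linarith)
  have f2 : |2 * (B : ℝ) * ((a' - a) * c' + a * (c' - c))| ≤
      2 * L * (|a' - a| * (2 * L * S) + (2 * L * S) * |c' - c|) := by
    rw [abs_mul, abs_mul, abs_of_pos (by norm_num : (0 : ℝ) < 2)]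
    apply mul_le_mul (by linarith) _ (abs_nonneg _) (by linarith)
    refine (abs_add_le _ _).trans ?_
    rw [abs_mul, abs_mul]
    exact add_le_add (mul_le_mul_of_nonneg_left hc' u0) (mul_le_mul_of_nonneg_right ha v0)
  rw [e]
  calc _ ≤ |(A : ℝ) * ((a' - a) * (a' + a)) + 2 * B * ((a' - a) * c' + a * (c' - c))| +
        |(C : ℝ) * ((c' - c) * (c' + c))| := abs_add_le _ _
    _ ≤ |(A : ℝ) * ((a' - a) * (a' + a))| + |2 * (B : ℝ) * ((a' - a) * c' + a * (c' - c))| +
        |(C : ℝ) * ((c' - c) * (c' + c))| := by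
          have := abs_add_le ((A : ℝ) * ((a' - a) * (a' + a)))
            (2 * B * ((a' - a) * c' + a * (c' - c)))
          linarith
    _ ≤ L * (|a' - a| * (4 * L * S)) + 2 * L * (|a' - a| * (2 * L * S) + (2 * L * S) * |c' - c|) +
        L * (|c' - c| * (4 * L * S)) := by linarith
    _ = _ := by ring

/-- close to the support of the region -/
lemma close (hL : 1 ≤ L) (hS : 1 ≤ S) (hA : |(A : ℝ)| ≤ L) (hB : |(B : ℝ)| ≤ L)
    (hC : |(C : ℝ)| ≤ L) (hT : BdF A B C L X S T₁ T₂) {a c a' c' δ : ℝ}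
    (hs : T₁ a c < T₂ a c) (h1 : |a' - a| + |c' - c| ≤ δ) (hδ : 16 * L ^ 3 * δ ≤ S) :
    |a'| ≤ 2 * L * S ∧ |c'| ≤ 2 * L * S ∧ |qr A B C a' c' - qr A B C a c| ≤ 8 * L ^ 2 * S * δ ∧
      S ^ 2 / (2 * L) ≤ qr A B C a' c' := by
  have hL0 : 0 < L := by linarith
  have hS0 : 0 < S := by linarith
  obtain ⟨g1, g2, g3, -, -⟩ := hT.supp a c hs
  have hL3 : 1 ≤ L ^ 3 := one_le_pow₀ hL
  have hδ0 : 0 ≤ δ := le_trans (add_nonneg (abs_nonneg _) (abs_nonneg _)) h1
  have hδS : δ ≤ S := by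
    have : δ ≤ 16 * L ^ 3 * δ := by nlinarith
    linarith
  have u0 : 0 ≤ |a' - a| := abs_nonneg _
  have v0 : 0 ≤ |c' - c| := abs_nonneg _
  have hLS : S ≤ L * S := by nlinarith
  have b1 : |a'| ≤ 2 * L * S := by
    calc |a'| = |(a' - a) + a| := by ring_nf
      _ ≤ |a' - a| + |a| := abs_add_le _ _
      _ ≤ _ := by linarith
  have b2 : |c'| ≤ 2 * L * S := by
    calc |c'| = |(c' - c) + c| := by ring_nf
      _ ≤ |c' - c| + |c| := abs_add_le _ _
      _ ≤ _ := by linarith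
  have b3 : |qr A B C a' c' - qr A B C a c| ≤ 8 * L ^ 2 * S * δ := by
    refine (qr_lip hL hS0 hA hB hC (a := a) (c := c) (by linarith) (by linarith) b1 b2).trans ?_
    exact mul_le_mul_of_nonneg_left h1 (by positivity)
  refine ⟨b1, b2, b3, ?_⟩
  have b4 : 8 * L ^ 2 * S * δ ≤ S ^ 2 / (2 * L) := by
    rw [le_div_iff₀ (by positivity)]
    calc 8 * L ^ 2 * S * δ * (2 * L) = S * (16 * L ^ 3 * δ) := by ring
      _ ≤ S * S := mul_le_mul_of_nonneg_left hδ hS0.le
      _ = S ^ 2 := by ring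
  have b5 : S ^ 2 / L = S ^ 2 / (2 * L) + S ^ 2 / (2 * L) := by field_simp; ring
  rw [abs_le] at b3
  linarith [b3.1]

/-- end points of the interval for `b` -/
noncomputable def uf (A B C : ℤ) (T : ℝ → ℝ → ℝ) (a c : ℝ) : ℝ :=
  (a * T a c + B * a + C * c) / qr A B C a c

/-- relative length of the window -/
noncomputable def PF (A B C : ℤ) (T₁ T₂ : ℝ → ℝ → ℝ) (a c : ℝ) : ℝ :=
  max 0 (T₂ a c - T₁ a c) / qr A B C a c

lemma PF_of_not {a c : ℝ} (h : ¬ T₁ a c < T₂ a c) : PF A B C T₁ T₂ a c = 0 := by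
  unfold PF
  rw [max_eq_left (by push Not at h; linarith), zero_div]

lemma PF_nonneg (hL : 1 ≤ L) (hS : 1 ≤ S) (hT : BdF A B C L X S T₁ T₂) (a c : ℝ) :
    0 ≤ PF A B C T₁ T₂ a c := by
  by_cases h : T₁ a c < T₂ a c
  · obtain ⟨-, -, g3, -, -⟩ := hT.supp a c h
    unfold PF
    have : 0 ≤ S ^ 2 / L := by positivity
    exact div_nonneg (le_max_left _ _) (by linarith)
  · rw [PF_of_not h]

lemma PF_le (hL : 1 ≤ L) (hS : 1 ≤ S) (hX : 0 ≤ X) (hT : BdF A B C L X S T₁ T₂) (a c : ℝ) :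
    PF A B C T₁ T₂ a c ≤ L ^ 2 * X / S ^ 2 := by
  by_cases h : T₁ a c < T₂ a c
  · obtain ⟨-, -, g3, g4, g5⟩ := hT.supp a c h
    have hL0 : 0 < L := by linarith
    have hS2 : 0 < S ^ 2 := by positivity
    have hq : 0 < qr A B C a c := lt_of_lt_of_le (by positivity) g3
    unfold PF
    rw [max_eq_right (by linarith), div_le_div_iff₀ hq hS2]
    rw [div_le_iff₀ hL0] at g3
    have h6 : (T₂ a c - T₁ a c) * S ^ 2 ≤ (L * X) * S ^ 2 :=
      mul_le_mul_of_nonneg_right (by linarith) hS2.le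
    have h7 : (L * X) * S ^ 2 ≤ (L * X) * (qr A B C a c * L) :=
      mul_le_mul_of_nonneg_left g3 (by positivity)
    nlinarith
  · rw [PF_of_not h]; positivity

/-- `PF` is Lipschitz -/
lemma PF_lip (hL : 1 ≤ L) (hS : 16 * L ^ 3 ≤ S) (hX : 0 ≤ X) (hA : |(A : ℝ)| ≤ L)
    (hB : |(B : ℝ)| ≤ L) (hC : |(C : ℝ)| ≤ L) (hT : BdF A B C L X S T₁ T₂) (a c : ℝ) :
    |PF A B C T₁ T₂ (a + 1) c - PF A B C T₁ T₂ a c| ≤ 20 * L ^ 5 * X / S ^ 3 := by
  have hL0 : 0 < L := by linarith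
  have hL3 : 1 ≤ L ^ 3 := one_le_pow₀ hL
  have hS1 : 1 ≤ S := by linarith
  have hS0 : 0 < S := by linarith
  -- the main case
  have key : ∀ a a' : ℝ, |a' - a| = 1 → T₁ a c < T₂ a c →
      |PF A B C T₁ T₂ a' c - PF A B C T₁ T₂ a c| ≤ 20 * L ^ 5 * X / S ^ 3 := by
    intro a a' h1 hs
    obtain ⟨g1, g2, g3, g4, g5⟩ := hT.supp a c hs
    have h2 : |a' - a| + |c - c| ≤ 1 := by rw [sub_self, abs_zero]; linarith
    obtain ⟨c1, c2, c3, c4⟩ := close hL hS1 hA hB hC hT hs h2 (by linarith)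
    have l1 := hT.lip₁ a c a' c hs (by linarith) (by rw [sub_self, abs_zero]; linarith)
    have l2 := hT.lip₂ a c a' c hs (by linarith) (by rw [sub_self, abs_zero]; linarith)
    rw [h1, sub_self, abs_zero, add_zero, mul_one] at l1 l2
    set d := qr A B C a c with hd
    set d' := qr A B C a' c with hd'
    set m := max 0 (T₂ a c - T₁ a c) with hm
    set m' := max 0 (T₂ a' c - T₁ a' c) with hm'
    have hdp : 0 < S ^ 2 / (2 * L) := by positivity
    have hd0 : 0 < d := lt_of_lt_of_le (by positivity) g3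
    have hd0' : 0 < d' := lt_of_lt_of_le hdp c4
    have i1 : 1 / d ≤ L / S ^ 2 := by
      rw [div_le_div_iff₀ hd0 (by positivity)]
      rw [div_le_iff₀ hL0] at g3
      linarith
    have i1' : 1 / d' ≤ 2 * L / S ^ 2 := by
      rw [div_le_div_iff₀ hd0' (by positivity)]
      rw [div_le_iff₀ (by positivity)] at c4
      linarith
    have hmm : |m' - m| ≤ 2 * (L * (X / S)) := by
      have h3 : |m' - m| ≤ |(T₂ a' c - T₁ a' c) - (T₂ a c - T₁ a c)| := by
        have := abs_max_sub_max_le_abs (T₂ a' c - T₁ a' c) (T₂ a c - T₁ a c) 0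
        rw [hm, hm', max_comm 0 (T₂ a' c - T₁ a' c), max_comm 0 (T₂ a c - T₁ a c)]
        exact this
      have h4 : (T₂ a' c - T₁ a' c) - (T₂ a c - T₁ a c) =
          (T₂ a' c - T₂ a c) - (T₁ a' c - T₁ a c) := by ring
      rw [h4] at h3
      have := abs_sub (T₂ a' c - T₂ a c) (T₁ a' c - T₁ a c)
      linarith
    have hm0 : 0 ≤ m := le_max_left _ _
    have hmle : m ≤ L * X := by
      rw [hm, max_eq_right (by linarith)]; linarith
    have e : m' / d' - m / d = (m' - m) * (1 / d') + m * (d - d') * ((1 / d) * (1 / d')) := by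
      field_simp; ring
    show |m' / d' - m / d| ≤ _
    rw [e]
    have f1 : |(m' - m) * (1 / d')| ≤ (2 * (L * (X / S))) * (2 * L / S ^ 2) := by
      rw [abs_mul, abs_of_pos (by positivity : (0 : ℝ) < 1 / d')]
      exact mul_le_mul hmm i1' (by positivity) (by positivity)
    have f2 : |m * (d - d') * ((1 / d) * (1 / d'))| ≤
        ((L * X) * (8 * L ^ 2 * S * 1)) * ((L / S ^ 2) * (2 * L / S ^ 2)) := by
      rw [abs_mul, abs_mul, abs_of_nonneg hm0, abs_of_pos (by positivity : (0 : ℝ) < (1 / d) * (1 / d')),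
        abs_sub_comm d d']
      apply mul_le_mul (mul_le_mul hmle c3 (abs_nonneg _) (by positivity))
        (mul_le_mul i1 i1' (by positivity) (by positivity)) (by positivity) (by positivity)
    refine (abs_add_le _ _).trans ((add_le_add f1 f2).trans ?_)
    have k : 0 ≤ X / S ^ 3 := by positivity
    have k2 : L ^ 2 ≤ L ^ 5 := pow_le_pow_right₀ hL (by norm_num)
    calc (2 * (L * (X / S))) * (2 * L / S ^ 2) +
        ((L * X) * (8 * L ^ 2 * S * 1)) * ((L / S ^ 2) * (2 * L / S ^ 2)) =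
        (4 * L ^ 2 + 16 * L ^ 5) * (X / S ^ 3) := by field_simp; ring
      _ ≤ (20 * L ^ 5) * (X / S ^ 3) := by
          apply mul_le_mul_of_nonneg_right _ k
          linarith
      _ = _ := by ring
  by_cases h : T₁ a c < T₂ a c
  · exact key a (a + 1) (by simp) h
  · by_cases h' : T₁ (a + 1) c < T₂ (a + 1) c
    · rw [abs_sub_comm]
      exact key (a + 1) a (by simp) h'
    · rw [PF_of_not h, PF_of_not h']
      simp only [sub_self, abs_zero]
      positivity

/-- the end points vary little over a piece -/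
lemma nearF (hL : 1 ≤ L) (hS : 1 ≤ S) (hX : S ^ 2 ≤ L * X) (hA : |(A : ℝ)| ≤ L)
    (hB : |(B : ℝ)| ≤ L) (hC : |(C : ℝ)| ≤ L) (hT : BdF A B C L X S T₁ T₂)
    {a c c' cs H : ℝ} (ha : 1 ≤ a) (hH : 0 ≤ H) (hH2 : 16 * L ^ 3 * H ≤ S)
    (hs : T₁ a cs < T₂ a cs) (h1 : |c - cs| ≤ H) (h2 : |c' - cs| ≤ H)
    (h3 : |c - c'| ≤ H) {T : ℝ → ℝ → ℝ} (hTT : T = T₁ ∨ T = T₂) :
    |uf A B C T a c - uf A B C T a c'| ≤ a * (170 * L ^ 7 * X * H / S ^ 3) := by
  have hL0 : 0 < L := by linarith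
  have hS0 : 0 < S := by linarith
  have hX0 : 0 ≤ X := by
    have : 0 ≤ L * X := le_trans (by positivity) hX
    exact nonneg_of_mul_nonneg_right this hL0
  have hL3 : 1 ≤ L ^ 3 := one_le_pow₀ hL
  have hHS : H ≤ S := by
    have : H ≤ 16 * L ^ 3 * H := by nlinarith
    linarith
  obtain ⟨g1, g2, g3, g4, g5⟩ := hT.supp a cs hs
  have h1' : |a - a| + |c - cs| ≤ H := by rw [sub_self, abs_zero]; linarith
  have h2' : |a - a| + |c' - cs| ≤ H := by rw [sub_self, abs_zero]; linarith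
  obtain ⟨-, b1, -, b2⟩ := close hL hS hA hB hC hT hs h1' hH2
  obtain ⟨ba, b1', -, b2'⟩ := close hL hS hA hB hC hT hs h2' hH2
  set d := qr A B C a c with hd
  set d' := qr A B C a c' with hd'
  have hdp : 0 < S ^ 2 / (2 * L) := by positivity
  have hd0 : 0 < d := by linarith
  have hd0' : 0 < d' := by linarith
  have i1 : 1 / d ≤ 2 * L / S ^ 2 := by
    rw [div_le_div_iff₀ hd0 (by positivity)]
    rw [div_le_iff₀ (by positivity)] at b2
    linarith
  have i1' : 1 / d' ≤ 2 * L / S ^ 2 := by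
    rw [div_le_div_iff₀ hd0' (by positivity)]
    rw [div_le_iff₀ (by positivity)] at b2'
    linarith
  have dd : |d - d'| ≤ 8 * L ^ 2 * S * H := by
    have := qr_lip hL hS0 hA hB hC (a := a) (c := c') (a' := a) (c' := c) ba b1' ba b1
    refine this.trans ?_
    rw [sub_self, abs_zero, zero_add]
    exact mul_le_mul_of_nonneg_left h3 (by positivity)
  -- Lipschitz and size
  have lipT : ∀ c, |c - cs| ≤ H → |T a c - T a cs| ≤ L * (X / S) * H := by
    intro c hc
    have e : |a - a| = 0 := by rw [sub_self, abs_zero]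
    have key : |T a c - T a cs| ≤ L * (X / S) * (|a - a| + |c - cs|) := by
      rcases hTT with h | h
      · rw [h]; exact hT.lip₁ a cs a c hs (by rw [e]; linarith) (by linarith)
      · rw [h]; exact hT.lip₂ a cs a c hs (by rw [e]; linarith) (by linarith)
    refine key.trans ?_
    apply mul_le_mul_of_nonneg_left _ (by positivity)
    rw [e]; linarith
  have tc := lipT c h1
  have tc' := lipT c' h2
  have tt : |T a c - T a c'| ≤ 2 * (L * (X / S) * H) := by
    have e : T a c - T a c' = (T a c - T a cs) - (T a c' - T a cs) := by ring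
    rw [e]
    have := abs_sub (T a c - T a cs) (T a c' - T a cs)
    linarith
  have szT : |T a c'| ≤ 2 * L * X := by
    have e1 : |T a cs| ≤ L * X := by
      rcases hTT with h | h
      · rw [h, abs_of_nonneg g4]; linarith
      · rw [h, abs_of_nonneg (by linarith)]; exact g5
    have e2 : L * (X / S) * H ≤ L * X := by
      have : X / S * H ≤ X := by
        rw [div_mul_eq_mul_div, div_le_iff₀ hS0]
        exact mul_le_mul_of_nonneg_left hHS hX0
      nlinarith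
    have e5 : |T a c'| ≤ |T a c' - T a cs| + |T a cs| := by
      calc |T a c'| = |(T a c' - T a cs) + T a cs| := by ring_nf
        _ ≤ _ := abs_add_le _ _
    linarith
  have e0 : uf A B C T a c - uf A B C T a c' =
      (a * (T a c - T a c') + C * (c - c')) * (1 / d) +
      (a * T a c' + B * a + C * c') * (d' - d) * ((1 / d) * (1 / d')) := by
    unfold uf
    rw [← hd, ← hd']
    field_simp
    ring
  rw [e0]
  have a0 : 0 < a := by linarith
  have f1 : |(a * (T a c - T a c') + C * (c - c')) * (1 / d)| ≤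
      (a * (2 * (L * (X / S) * H)) + L * H) * (2 * L / S ^ 2) := by
    rw [abs_mul, abs_of_pos (by positivity : (0 : ℝ) < 1 / d)]
    apply mul_le_mul _ i1 (by positivity) (by positivity)
    refine (abs_add_le _ _).trans ?_
    rw [abs_mul, abs_mul, abs_of_pos a0]
    exact add_le_add (mul_le_mul_of_nonneg_left tt a0.le)
      (mul_le_mul hC h3 (abs_nonneg _) hL0.le)
  have f2 : |(a * T a c' + B * a + C * c') * (d' - d) * ((1 / d) * (1 / d'))| ≤
      ((a * (2 * L * X) + L * a + L * (2 * L * S)) * (8 * L ^ 2 * S * H)) *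
        ((2 * L / S ^ 2) * (2 * L / S ^ 2)) := by
    rw [abs_mul, abs_mul, abs_of_pos (by positivity : (0 : ℝ) < (1 / d) * (1 / d')),
      abs_sub_comm d' d]
    apply mul_le_mul _ (mul_le_mul i1 i1' (by positivity) (by positivity)) (by positivity)
      (by positivity)
    apply mul_le_mul _ dd (abs_nonneg _) (by positivity)
    refine (abs_add_le _ _).trans (add_le_add ((abs_add_le _ _).trans (add_le_add ?_ ?_)) ?_)
    · rw [abs_mul, abs_of_pos a0]
      exact mul_le_mul_of_nonneg_left szT a0.le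
    · rw [abs_mul, abs_of_pos a0]
      exact mul_le_mul_of_nonneg_right hB a0.le
    · rw [abs_mul]
      exact mul_le_mul hC b1' (abs_nonneg _) hL0.le
  refine (abs_add_le _ _).trans ((add_le_add f1 f2).trans ?_)
  have g : (a * (2 * (L * (X / S) * H)) + L * H) * (2 * L / S ^ 2) +
      ((a * (2 * L * X) + L * a + L * (2 * L * S)) * (8 * L ^ 2 * S * H)) *
        ((2 * L / S ^ 2) * (2 * L / S ^ 2)) =
      (4 * L ^ 2 + 64 * L ^ 5) * (a * X * H / S ^ 3) + 2 * L ^ 2 * (S * H / S ^ 3) +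
      32 * L ^ 5 * (a * H / S ^ 3) + 64 * L ^ 6 * (S * H / S ^ 3) := by
    field_simp
    ring
  rw [g]
  have x1 : 1 ≤ L * X := by nlinarith
  have x2 : S ≤ L * X := by nlinarith
  have k0 : 0 ≤ H / S ^ 3 := by positivity
  have k1 : S * H / S ^ 3 ≤ L * (a * X * H / S ^ 3) := by
    have : S ≤ L * (a * X) := by
      have : L * X ≤ L * (a * X) := by
        apply mul_le_mul_of_nonneg_left _ hL0.le
        nlinarith
      linarith
    calc S * H / S ^ 3 = S * (H / S ^ 3) := by ring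
      _ ≤ L * (a * X) * (H / S ^ 3) := mul_le_mul_of_nonneg_right this k0
      _ = _ := by ring
  have k3 : a * H / S ^ 3 ≤ L * (a * X * H / S ^ 3) := by
    have : a ≤ L * (a * X) := by nlinarith
    calc a * H / S ^ 3 = a * (H / S ^ 3) := by ring
      _ ≤ L * (a * X) * (H / S ^ 3) := mul_le_mul_of_nonneg_right this k0
      _ = _ := by ring
  have k2 : 0 ≤ a * X * H / S ^ 3 := by positivity
  have p2 : L ^ 2 ≤ L ^ 7 := pow_le_pow_right₀ hL (by norm_num)
  have p5 : L ^ 5 ≤ L ^ 7 := pow_le_pow_right₀ hL (by norm_num)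
  have p3 : L ^ 3 ≤ L ^ 7 := pow_le_pow_right₀ hL (by norm_num)
  have p6 : L ^ 6 ≤ L ^ 7 := pow_le_pow_right₀ hL (by norm_num)
  have m1 := mul_le_mul_of_nonneg_left k1 (by positivity : 0 ≤ 2 * L ^ 2)
  have m2 := mul_le_mul_of_nonneg_left k3 (by positivity : 0 ≤ 32 * L ^ 5)
  have m3 := mul_le_mul_of_nonneg_left k1 (by positivity : 0 ≤ 64 * L ^ 6)
  calc _ ≤ (4 * L ^ 2 + 64 * L ^ 5) * (a * X * H / S ^ 3) +
        2 * L ^ 2 * (L * (a * X * H / S ^ 3)) + 32 * L ^ 5 * (L * (a * X * H / S ^ 3)) +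
        64 * L ^ 6 * (L * (a * X * H / S ^ 3)) := by linarith
    _ = (4 * L ^ 2 + 64 * L ^ 5 + 2 * L ^ 3 + 32 * L ^ 6 + 64 * L ^ 7) * (a * X * H / S ^ 3) := by
        ring
    _ ≤ (170 * L ^ 7) * (a * X * H / S ^ 3) := by
        apply mul_le_mul_of_nonneg_right _ k2
        linarith
    _ = _ := by ring

end Eqf

end Pool.Agent.Lib.MP391708.TA
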