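import Pool.Agent.Lib.MP_391708_nt.TA.EqfA

/-!
# Equidistribution of unimodular pairs, for a binary quadratic form: counting in pieces
-/

set_option autoImplicit false

namespace Pool.Agent.Lib.MP391708.TA.Eqf

open Finset Filter Topology
open Pool.Agent.Lib.MP391708.Eqd Pool.Agent.Lib.MP391708.T1
open Pool.Agent.Lib.MP391708.T1.Equ (ea ra_nonneg ra_le_one bx card_bx one_le_ea RC rr res_iff
  cross_of_mem neg neg_neg' cross_neg neg_mem_pairs card_n0 er)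
open scoped Classical

variable {A B C : ℤ} {L X S : ℝ} {T₁ T₂ : ℝ → ℝ → ℝ}

/-- all unimodular pairs in the region and in a residue class -/
noncomputable def cl (A B C : ℤ) (M : ℕ) (T₁ T₂ : ℝ → ℝ → ℝ) (q : ℕ) (r : RC q) :
    Finset (V × V) :=
  (pairs 1 M).filter (fun x => RegF A B C T₁ T₂ x ∧ res q x = r)

/-- pieces -/
noncomputable def pc (A B C : ℤ) (M : ℕ) (T₁ T₂ : ℝ → ℝ → ℝ) (q : ℕ) (r : RC q) (a C₁ C₂ : ℤ) :
    Finset (V × V) :=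
  (cl A B C M T₁ T₂ q r).filter (fun x => x.1.1 = a ∧ C₁ < x.1.2 ∧ x.1.2 ≤ C₂)

lemma mem_cl {M : ℕ} {q : ℕ} {r : RC q} {x : V × V} :
    x ∈ cl A B C M T₁ T₂ q r ↔ x ∈ pairs 1 M ∧ RegF A B C T₁ T₂ x ∧ res q x = r := by
  unfold cl; rw [mem_filter]

lemma mem_pc {M : ℕ} {q : ℕ} {r : RC q} {a C₁ C₂ : ℤ} {x : V × V} :
    x ∈ pc A B C M T₁ T₂ q r a C₁ C₂ ↔ (x ∈ pairs 1 M ∧ RegF A B C T₁ T₂ x ∧ res q x = r) ∧
      x.1.1 = a ∧ C₁ < x.1.2 ∧ x.1.2 ≤ C₂ := by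
  unfold pc; rw [mem_filter, mem_cl]

/-- nothing outside the support -/
lemma supp_of_reg {x : V × V} (h : RegF A B C T₁ T₂ x) : T₁ x.1.1 x.1.2 < T₂ x.1.1 x.1.2 :=
  lt_of_lt_of_le h.1 h.2

lemma reg_iff {a : ℕ} (ha : 0 < a) {x : V × V} (hx : x.1.1 = a) (h : cross x.1 x.2 = -1)
    (hd : 0 < qr A B C x.1.1 x.1.2) :
    RegF A B C T₁ T₂ x ↔ uf A B C T₁ a x.1.2 < x.2.1 ∧ (x.2.1 : ℝ) ≤ uf A B C T₂ a x.1.2 := by
  obtain ⟨⟨a', c⟩, ⟨b, k⟩⟩ := x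
  simp only at hx
  subst hx
  simp only [cross] at h
  simp only [Int.cast_natCast] at hd
  have haR : (0 : ℝ) < a := by exact_mod_cast ha
  have hR : (a : ℝ) * k - c * b = -1 := by exact_mod_cast h
  have e2 : (a : ℝ) * (qb A B C ((a : ℤ), c) (b, k) : ℝ) =
      b * qr A B C a c - (B * a + C * c) := by
    simp only [qb, qr]; push_cast
    linear_combination ((B : ℝ) * a + C * c) * hR
  unfold RegF uf
  simp only [Int.cast_natCast]
  rw [div_lt_iff₀ hd, le_div_iff₀ hd]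
  constructor
  · rintro ⟨h1, h2⟩
    have h3 := mul_lt_mul_of_pos_left h1 haR
    have h4 := mul_le_mul_of_nonneg_left h2 haR.le
    constructor <;> linarith
  · rintro ⟨h1, h2⟩
    constructor
    · refine lt_of_mul_lt_mul_left (a := (a : ℝ)) ?_ haR.le
      linarith
    · refine le_of_mul_le_mul_left (a := (a : ℝ)) ?_ haR
      linarith

lemma pc_le {M : ℕ} {q : ℕ} {a : ℕ} (ha : 0 < a) (b0 c0 k0 : ℤ) {C₁ C₂ : ℤ} {B₁ B₂ : ℝ}
    (hpos : ∀ c : ℤ, C₁ < c → c ≤ C₂ → 0 < qr A B C a c)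
    (hu : ∀ c : ℤ, C₁ < c → c ≤ C₂ → B₁ ≤ uf A B C T₁ a c ∧ uf A B C T₂ a c ≤ B₂) :
    (pc A B C M T₁ T₂ q (rr q a c0 b0 k0) a C₁ C₂).card ≤ (bx a q b0 c0 k0 B₁ B₂ C₁ C₂).card := by
  have haZ : (a : ℤ) ≠ 0 := by exact_mod_cast ha.ne'
  apply card_le_card_of_injOn (fun x : V × V => (x.2.1, x.1.2))
  · intro x hx
    rw [mem_coe, mem_pc] at hx
    obtain ⟨⟨h1, h2, h3⟩, h4, h5, h6⟩ := hx
    have hc := cross_of_mem h1
    have hp : 0 < qr A B C x.1.1 x.1.2 := by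
      rw [h4, Int.cast_natCast]; exact hpos _ h5 h6
    rw [reg_iff ha h4 hc hp] at h2
    rw [res_iff h4] at h3
    obtain ⟨g1, g2⟩ := hu _ h5 h6
    obtain ⟨f1, f2, f3⟩ := h3
    rw [mem_coe]
    unfold bx
    rw [mem_filter, mem_product, mem_Ioc, mem_Ioc]
    refine ⟨⟨⟨?_, ?_⟩, h5, h6⟩, f2, f1, ?_⟩
    · rw [Int.floor_lt]; linarith [h2.1]
    · rw [Int.le_floor]; linarith [h2.2]
    · simp only [cross] at hc
      rw [h4] at hc
      have e : x.2.1 * x.1.2 - (1 + a * k0) = a * (x.2.2 - k0) := by linarith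
      simp only
      rw [e]
      push_cast
      exact mul_dvd_mul_left _ f3
  · intro x hx y hy hxy
    rw [mem_coe, mem_pc] at hx hy
    have h1 := cross_of_mem hx.1.1
    have h2 := cross_of_mem hy.1.1
    have h3 := hx.2.1
    have h4 := hy.2.1
    simp only [Prod.mk.injEq] at hxy
    simp only [cross] at h1 h2
    rw [h3] at h1
    rw [h4, ← hxy.1, ← hxy.2] at h2
    have h5 : (a : ℤ) * x.2.2 = a * y.2.2 := by linarith
    have h6 := mul_left_cancel₀ haZ h5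
    ext
    · rw [h3, h4]
    · exact hxy.2
    · exact hxy.1
    · exact h6

lemma le_pc {M : ℕ} (hM : ∀ x : V × V, cross x.1 x.2 = -1 → RegF A B C T₁ T₂ x → x ∈ pairs 1 M)
    {q : ℕ} {a : ℕ} (ha : 0 < a) (b0 c0 k0 : ℤ)
    {C₁ C₂ : ℤ} {B₁ B₂ : ℝ} (hpos : ∀ c : ℤ, C₁ < c → c ≤ C₂ → 0 < qr A B C a c)
    (hu : ∀ c : ℤ, C₁ < c → c ≤ C₂ → uf A B C T₁ a c ≤ B₁ ∧ B₂ ≤ uf A B C T₂ a c) :
    (bx a q b0 c0 k0 B₁ B₂ C₁ C₂).card ≤
      (pc A B C M T₁ T₂ q (rr q a c0 b0 k0) a C₁ C₂).card := by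
  have haZ : (a : ℤ) ≠ 0 := by exact_mod_cast ha.ne'
  apply card_le_card_of_injOn (fun t : ℤ × ℤ => (((a : ℤ), t.2), (t.1, (t.1 * t.2 - 1) / a)))
  · intro t ht
    rw [mem_coe] at ht
    unfold bx at ht
    rw [mem_filter, mem_product, mem_Ioc, mem_Ioc] at ht
    obtain ⟨⟨⟨h1, h2⟩, h5, h6⟩, f2, f1, f3⟩ := ht
    push_cast at f3
    obtain ⟨z, hz⟩ := f3
    have e1 : t.1 * t.2 - 1 = a * (k0 + q * z) := by linarith
    have e2 : (t.1 * t.2 - 1) / a = k0 + q * z := by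
      rw [e1]; exact Int.mul_ediv_cancel_left _ haZ
    have hc : cross ((a : ℤ), t.2) (t.1, (t.1 * t.2 - 1) / a) = -1 := by
      simp only [cross]; rw [e2]; linarith
    obtain ⟨g1, g2⟩ := hu _ h5 h6
    have hr : RegF A B C T₁ T₂ (((a : ℤ), t.2), (t.1, (t.1 * t.2 - 1) / a)) := by
      rw [reg_iff ha rfl hc (by simp only [Int.cast_natCast]; exact hpos _ h5 h6)]
      rw [Int.floor_lt] at h1
      rw [Int.le_floor] at h2
      exact ⟨by simp only; linarith, by simp only; linarith⟩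
    rw [mem_coe, mem_pc]
    refine ⟨⟨hM _ hc hr, hr, ?_⟩, rfl, h5, h6⟩
    rw [res_iff rfl]
    refine ⟨f1, f2, ?_⟩
    simp only
    rw [e2]
    exact ⟨z, by ring⟩
  · intro t _ t' _ htt
    simp only [Prod.mk.injEq] at htt
    ext
    · exact htt.2.1
    · exact htt.1.2

/-- the number of pairs in a piece -/
lemma piece (hbox : SpecBoxQ) (hL : 1 ≤ L) (hS : 1 ≤ S) (hX : S ^ 2 ≤ L * X)
    (hA : |(A : ℝ)| ≤ L) (hB : |(B : ℝ)| ≤ L) (hC : |(C : ℝ)| ≤ L)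
    (hT : BdF A B C L X S T₁ T₂) {M : ℕ}
    (hM : ∀ x : V × V, cross x.1 x.2 = -1 → RegF A B C T₁ T₂ x → x ∈ pairs 1 M)
    (a q H : ℕ) (ha : 0 < a) (hq : 0 < q) (hH : 0 < H) (hH2 : 16 * L ^ 3 * H ≤ S) (b0 c0 k0 : ℤ)
    (h : (q : ℤ) ∣ b0 * c0 - (1 + a * k0)) (n : ℤ) {R L₁ : ℝ}
    (hR : 170 * L ^ 7 * X * H / S ^ 3 ≤ R) (hL₁ : L ≤ L₁) :
    |((pc A B C M T₁ T₂ q (rr q a c0 b0 k0) a (n * H) ((n + 1) * H)).card : ℝ) -
      PF A B C T₁ T₂ a ((n : ℝ) * H) * H * (ra a q / (q : ℝ) ^ 2)| ≤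
      2 * R * H + 6 * ea a q * (1 + L₁ ^ 2 * X / S ^ 2 + 2 * R + H / a) := by
  have hL0 : 0 < L := by linarith
  have hS0 : 0 < S := by linarith
  have hX0 : 0 ≤ X := by
    have : 0 ≤ L * X := le_trans (by positivity) hX
    exact nonneg_of_mul_nonneg_right this hL0
  have haR : (1 : ℝ) ≤ a := by exact_mod_cast ha
  have ha0 : (0 : ℝ) < a := by linarith
  have hqR : (1 : ℝ) ≤ q := by exact_mod_cast hq
  have hHR : (1 : ℝ) ≤ H := by exact_mod_cast hH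
  have hR0 : 0 ≤ R := le_trans (by positivity) hR
  have hE := one_le_ea ha hq
  have hr0 := ra_nonneg q ha
  have hr1 := ra_le_one q ha
  set P := PF A B C T₁ T₂ a ((n : ℝ) * H) with hP
  have hP0 : 0 ≤ P := PF_nonneg hL hS hT _ _
  have hP1 : P ≤ L₁ ^ 2 * X / S ^ 2 := by
    refine (PF_le hL hS hX0 hT _ _).trans ?_
    gcongr
  have hrq : ra a q / (q : ℝ) ^ 2 ≤ 1 := by
    rw [div_le_one (by positivity)]
    nlinarith
  have hrq0 : 0 ≤ ra a q / (q : ℝ) ^ 2 := by positivity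
  have hHa : 0 ≤ (H : ℝ) / a := by positivity
  have hbig : 0 ≤ L₁ ^ 2 * X / S ^ 2 := by positivity
  by_cases good : ∃ c : ℤ, n * H ≤ c ∧ c ≤ (n + 1) * H ∧ T₁ a c < T₂ a c
  swap
  · -- nothing in this piece
    have e1 : pc A B C M T₁ T₂ q (rr q a c0 b0 k0) a (n * H) ((n + 1) * H) = ∅ := by
      apply Finset.eq_empty_of_forall_notMem
      intro x hx
      rw [mem_pc] at hx
      apply good
      refine ⟨x.1.2, hx.2.2.1.le, hx.2.2.2, ?_⟩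
      have h1 := supp_of_reg hx.1.2.1
      rw [hx.2.1, Int.cast_natCast] at h1
      exact h1
    have e2 : P = 0 := by
      rw [hP]
      apply PF_of_not
      intro h1
      apply good
      refine ⟨n * H, le_rfl, ?_, ?_⟩
      · have : (0 : ℤ) ≤ H := Int.natCast_nonneg _
        nlinarith
      · push_cast; exact h1
    rw [e1, e2]
    simp only [card_empty, Nat.cast_zero, zero_mul, sub_zero, abs_zero]
    positivity
  obtain ⟨cs, hs1, hs2, hs3⟩ := good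
  have hHZ : (0 : ℤ) < H := by exact_mod_cast hH
  have hs1R : (n : ℝ) * H ≤ cs := by exact_mod_cast hs1
  have hs2R : (cs : ℝ) ≤ ((n : ℝ) + 1) * H := by exact_mod_cast hs2
  have hpos' : ∀ c : ℝ, (n : ℝ) * H ≤ c → c ≤ ((n : ℝ) + 1) * H → 0 < qr A B C a c := by
    intro c hc1 hc2
    have h1 : |(a : ℝ) - a| + |c - cs| ≤ H := by
      rw [sub_self, abs_zero, zero_add, abs_le]; constructor <;> nlinarith
    obtain ⟨-, -, -, h4⟩ := close hL hS hA hB hC hT hs3 h1 hH2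
    exact lt_of_lt_of_le (by positivity) h4
  have hpos : ∀ c : ℤ, n * H < c → c ≤ (n + 1) * H → 0 < qr A B C a c := by
    intro c hc1 hc2
    have hc1R : (n : ℝ) * H < c := by exact_mod_cast hc1
    have hc2R : (c : ℝ) ≤ ((n : ℝ) + 1) * H := by exact_mod_cast hc2
    exact hpos' c hc1R.le hc2R
  have hnear : ∀ c : ℤ, n * H < c → c ≤ (n + 1) * H → ∀ T : ℝ → ℝ → ℝ, T = T₁ ∨ T = T₂ →
      |uf A B C T a c - uf A B C T a ((n : ℝ) * H)| ≤ a * R := by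
    intro c hc1 hc2 T hTT
    have hc1R : (n : ℝ) * H < c := by exact_mod_cast hc1
    have hc2R : (c : ℝ) ≤ ((n : ℝ) + 1) * H := by exact_mod_cast hc2
    refine le_trans ?_ (mul_le_mul_of_nonneg_left hR ha0.le)
    apply nearF hL hS hX hA hB hC hT haR (by positivity) hH2 hs3 _ _ _ hTT
    · rw [abs_le]; constructor <;> nlinarith
    · rw [abs_le]; constructor <;> nlinarith
    · rw [abs_le]; constructor <;> nlinarith
  set U₁ := uf A B C T₁ a ((n : ℝ) * H) with hU₁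
  set U₂ := uf A B C T₂ a ((n : ℝ) * H) with hU₂
  have hdn : 0 < qr A B C a ((n : ℝ) * H) := hpos' _ le_rfl (by nlinarith)
  have hΔ : max 0 (U₂ - U₁) = a * P := by
    set dn := qr A B C a ((n : ℝ) * H) with hdn'
    have e1 : U₂ - U₁ = (T₂ a ((n : ℝ) * H) - T₁ a ((n : ℝ) * H)) * (a / dn) := by
      rw [hU₁, hU₂]
      unfold uf
      rw [← hdn']
      field_simp
      ring
    rw [e1, hP]
    unfold PF
    rw [← hdn']
    have e2 : max 0 ((T₂ a ((n : ℝ) * H) - T₁ a ((n : ℝ) * H)) * ((a : ℝ) / dn)) =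
        max 0 (T₂ a ((n : ℝ) * H) - T₁ a ((n : ℝ) * H)) * (a / dn) := by
      rw [max_mul_of_nonneg _ _ (by positivity : (0 : ℝ) ≤ a / dn), zero_mul]
    rw [e2]
    ring
  have hCC0 : n * H ≤ (n + 1) * H := by nlinarith
  have hCC : ((((n + 1) * H : ℤ)) : ℝ) - ((n * H : ℤ) : ℝ) = H := by push_cast; ring
  -- upper bound
  have up := pc_le (M := M) (q := q) (T₁ := T₁) (T₂ := T₂) ha b0 c0 k0 (C₁ := n * H)
    (C₂ := (n + 1) * H) (B₁ := U₁ - a * R) (B₂ := U₂ + a * R) hpos (by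
      intro c hc1 hc2
      have h1 := hnear c hc1 hc2 T₁ (Or.inl rfl)
      have h2 := hnear c hc1 hc2 T₂ (Or.inr rfl)
      rw [abs_le] at h1 h2
      constructor
      · linarith [h1.1]
      · linarith [h2.2])
  have lo := le_pc hM (q := q) ha b0 c0 k0 (C₁ := n * H)
    (C₂ := (n + 1) * H) (B₁ := U₁ + a * R) (B₂ := U₂ - a * R) hpos (by
      intro c hc1 hc2
      have h1 := hnear c hc1 hc2 T₁ (Or.inl rfl)
      have h2 := hnear c hc1 hc2 T₂ (Or.inr rfl)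
      rw [abs_le] at h1 h2
      constructor
      · linarith [h1.2]
      · linarith [h2.1])
  have bu := card_bx hbox a q ha hq b0 c0 k0 h (U₁ - a * R) (U₂ + a * R) (n * H) ((n + 1) * H) hCC0
  have bl := card_bx hbox a q ha hq b0 c0 k0 h (U₁ + a * R) (U₂ - a * R) (n * H) ((n + 1) * H) hCC0
  rw [hCC] at bu bl
  set m₁ := max 0 (U₂ + a * R - (U₁ - a * R)) with hm₁
  set m₂ := max 0 (U₂ - a * R - (U₁ + a * R)) with hm₂
  have haR0 : 0 ≤ a * R := by positivity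
  have hm₁0 : 0 ≤ m₁ := le_max_left _ _
  have hm₂0 : 0 ≤ m₂ := le_max_left _ _
  have hm₁le : m₁ ≤ a * P + 2 * (a * R) := by
    rw [hm₁]
    apply max_le
    · positivity
    · have := le_max_right 0 (U₂ - U₁)
      linarith
  have hm₂le : m₂ ≤ a * P := by
    rw [hm₂]
    apply max_le
    · positivity
    · have := le_max_right 0 (U₂ - U₁)
      linarith
  have hm₂ge : a * P - 2 * (a * R) ≤ m₂ := by
    rw [← hΔ]
    rcases max_cases 0 (U₂ - U₁) with ⟨h1, -⟩ | ⟨h1, -⟩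
    · rw [h1]; linarith
    · rw [h1]
      have := le_max_right 0 (U₂ - a * R - (U₁ + a * R))
      linarith
  have w₁ : m₁ / a ≤ P + 2 * R := by
    rw [div_le_iff₀ ha0]; linarith
  have w₂ : m₂ / a ≤ P := by
    rw [div_le_iff₀ ha0]; linarith
  have w₃ : P - 2 * R ≤ m₂ / a := by
    rw [le_div_iff₀ ha0]; linarith
  have e₁ : m₁ * H / (a * (q : ℝ) ^ 2) * ra a q = (m₁ / a) * H * (ra a q / (q : ℝ) ^ 2) := by
    field_simp
  have e₂ : m₂ * H / (a * (q : ℝ) ^ 2) * ra a q = (m₂ / a) * H * (ra a q / (q : ℝ) ^ 2) := by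
    field_simp
  rw [e₁] at bu
  rw [e₂] at bl
  rw [abs_le] at bu bl
  have upR : ((pc A B C M T₁ T₂ q (rr q a c0 b0 k0) a (n * H) ((n + 1) * H)).card : ℝ) ≤
      ((bx a q b0 c0 k0 (U₁ - a * R) (U₂ + a * R) (n * H) ((n + 1) * H)).card : ℝ) := by
    exact_mod_cast up
  have loR : ((bx a q b0 c0 k0 (U₁ + a * R) (U₂ - a * R) (n * H) ((n + 1) * H)).card : ℝ) ≤
      ((pc A B C M T₁ T₂ q (rr q a c0 b0 k0) a (n * H) ((n + 1) * H)).card : ℝ) := by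
    exact_mod_cast lo
  have eu : 6 * ea a q * (1 + (m₁ + H) / a) ≤
      6 * ea a q * (1 + L₁ ^ 2 * X / S ^ 2 + 2 * R + H / a) := by
    apply mul_le_mul_of_nonneg_left _ (by linarith)
    rw [add_div]; linarith
  have el : 6 * ea a q * (1 + (m₂ + H) / a) ≤
      6 * ea a q * (1 + L₁ ^ 2 * X / S ^ 2 + 2 * R + H / a) := by
    apply mul_le_mul_of_nonneg_left _ (by linarith)
    rw [add_div]; linarith
  have f1 : (m₁ / a) * H * (ra a q / (q : ℝ) ^ 2) ≤ P * H * (ra a q / (q : ℝ) ^ 2) + 2 * R * H := by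
    have g1 : (m₁ / a) * H * (ra a q / (q : ℝ) ^ 2) ≤ (P + 2 * R) * H * (ra a q / (q : ℝ) ^ 2) := by
      gcongr
    have g2 : 2 * R * H * (ra a q / (q : ℝ) ^ 2) ≤ 2 * R * H * 1 := by gcongr
    nlinarith
  have f2 : P * H * (ra a q / (q : ℝ) ^ 2) - 2 * R * H ≤ (m₂ / a) * H * (ra a q / (q : ℝ) ^ 2) := by
    have g1 : (P - 2 * R) * H * (ra a q / (q : ℝ) ^ 2) ≤ (m₂ / a) * H * (ra a q / (q : ℝ) ^ 2) := by
      gcongr
    have g2 : 2 * R * H * (ra a q / (q : ℝ) ^ 2) ≤ 2 * R * H * 1 := by gcongr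
    nlinarith
  rw [abs_le]
  constructor
  · linarith [bl.1]
  · linarith [bu.2]

/-- the main term for one `a` -/
noncomputable def gf (A B C : ℤ) (T₁ T₂ : ℝ → ℝ → ℝ) (H n0 : ℕ) (a : ℝ) : ℝ :=
  ∑ n ∈ Ico (-(n0 : ℤ)) n0, PF A B C T₁ T₂ a ((n : ℝ) * H) * H

lemma perA (hbox : SpecBoxQ) (hL : 1 ≤ L) (hS : 1 ≤ S) (hX : S ^ 2 ≤ L * X)
    (hA : |(A : ℝ)| ≤ L) (hB : |(B : ℝ)| ≤ L) (hC : |(C : ℝ)| ≤ L)
    (hT : BdF A B C L X S T₁ T₂) {M : ℕ}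
    (hM : ∀ x : V × V, cross x.1 x.2 = -1 → RegF A B C T₁ T₂ x → x ∈ pairs 1 M)
    (a q H n0 : ℕ) (ha : 0 < a) (hq : 0 < q) (hH : 0 < H) (hH2 : 16 * L ^ 3 * H ≤ S)
    (hn0 : L * S < n0 * H) (b0 c0 k0 : ℤ)
    (h : (q : ℤ) ∣ b0 * c0 - (1 + a * k0)) {R L₁ : ℝ} (hR : 170 * L ^ 7 * X * H / S ^ 3 ≤ R)
    (hL₁ : L ≤ L₁) :
    |(((cl A B C M T₁ T₂ q (rr q a c0 b0 k0)).filter (fun x => x.1.1 = (a : ℤ))).card : ℝ) -
      gf A B C T₁ T₂ H n0 a * (ra a q / (q : ℝ) ^ 2)| ≤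
      2 * n0 * (2 * R * H + 6 * ea a q * (1 + L₁ ^ 2 * X / S ^ 2 + 2 * R + H / a)) := by
  have hHZ : (0 : ℤ) < H := by exact_mod_cast hH
  have hmaps : ∀ x ∈ (cl A B C M T₁ T₂ q (rr q a c0 b0 k0)).filter (fun x => x.1.1 = (a : ℤ)),
      (x.1.2 - 1) / (H : ℤ) ∈ Ico (-(n0 : ℤ)) n0 := by
    intro x hx
    rw [mem_filter, mem_cl] at hx
    obtain ⟨⟨h1, h2, h3⟩, h4⟩ := hx
    obtain ⟨-, h5, -⟩ := hT.supp _ _ (supp_of_reg h2)
    have h6 : |(x.1.2 : ℝ)| < ((n0 * H : ℤ) : ℝ) := by push_cast; linarith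
    have h7 : |x.1.2| < n0 * H := by
      have : ((|x.1.2| : ℤ) : ℝ) < ((n0 * H : ℤ) : ℝ) := by push_cast at h6 ⊢; exact h6
      exact_mod_cast this
    rw [abs_lt] at h7
    rw [mem_Ico]
    constructor
    · rw [Int.le_ediv_iff_mul_le hHZ]; linarith [h7.1]
    · rw [Int.ediv_lt_iff_lt_mul hHZ]; linarith [h7.2]
  rw [card_eq_sum_card_fiberwise hmaps]
  have hfib : ∀ n ∈ Ico (-(n0 : ℤ)) n0,
      (((cl A B C M T₁ T₂ q (rr q a c0 b0 k0)).filter (fun x => x.1.1 = (a : ℤ))).filter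
        (fun x => (x.1.2 - 1) / (H : ℤ) = n)) =
        pc A B C M T₁ T₂ q (rr q a c0 b0 k0) a (n * H) ((n + 1) * H) := by
    intro n _
    ext x
    rw [mem_filter, mem_filter, pc, mem_filter, and_assoc]
    have : ((x.1.2 - 1) / (H : ℤ) = n) ↔ (n * H < x.1.2 ∧ x.1.2 ≤ (n + 1) * H) := by
      rw [Int.ediv_eq_iff_of_pos hHZ]
      constructor
      · rintro ⟨h1, h2⟩
        constructor <;> nlinarith
      · rintro ⟨h1, h2⟩
        constructor <;> nlinarith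
    rw [this]
  rw [sum_congr rfl (fun n hn => by rw [hfib n hn])]
  push_cast
  unfold gf
  rw [sum_mul, ← sum_sub_distrib]
  refine (abs_sum_le_sum_abs _ _).trans ?_
  calc _ ≤ ∑ n ∈ Ico (-(n0 : ℤ)) n0,
        (2 * R * H + 6 * ea a q * (1 + L₁ ^ 2 * X / S ^ 2 + 2 * R + H / a)) := by
        apply sum_le_sum
        intro n _
        exact piece hbox hL hS hX hA hB hC hT hM a q H ha hq hH hH2 b0 c0 k0 h n hR hL₁
    _ = _ := by
        rw [sum_const, nsmul_eq_mul, card_n0]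

lemma gf_nonneg (hL : 1 ≤ L) (hS : 1 ≤ S) (hT : BdF A B C L X S T₁ T₂) {H n0 : ℕ} (a : ℝ) :
    0 ≤ gf A B C T₁ T₂ H n0 a := by
  unfold gf
  apply sum_nonneg
  intro n _
  exact mul_nonneg (PF_nonneg hL hS hT _ _) (Nat.cast_nonneg _)

lemma gf_le (hL : 1 ≤ L) (hS : 1 ≤ S) (hX : 0 ≤ X) (hT : BdF A B C L X S T₁ T₂) {H n0 : ℕ}
    (a : ℝ) : gf A B C T₁ T₂ H n0 a ≤ 2 * n0 * (L ^ 2 * X / S ^ 2 * H) := by
  unfold gf
  calc _ ≤ ∑ n ∈ Ico (-(n0 : ℤ)) n0, L ^ 2 * X / S ^ 2 * H := by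
        apply sum_le_sum
        intro n _
        apply mul_le_mul_of_nonneg_right _ (Nat.cast_nonneg _)
        exact PF_le hL hS hX hT _ _
    _ = _ := by rw [sum_const, nsmul_eq_mul, card_n0]

lemma gf_lip (hL : 1 ≤ L) (hS : 16 * L ^ 3 ≤ S) (hX : 0 ≤ X) (hA : |(A : ℝ)| ≤ L)
    (hB : |(B : ℝ)| ≤ L) (hC : |(C : ℝ)| ≤ L) (hT : BdF A B C L X S T₁ T₂) {H n0 : ℕ} (a : ℝ) :
    |gf A B C T₁ T₂ H n0 (a + 1) - gf A B C T₁ T₂ H n0 a| ≤
      2 * n0 * (20 * L ^ 5 * X / S ^ 3 * H) := by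
  unfold gf
  rw [← sum_sub_distrib]
  refine (abs_sum_le_sum_abs _ _).trans ?_
  calc _ ≤ ∑ n ∈ Ico (-(n0 : ℤ)) n0, 20 * L ^ 5 * X / S ^ 3 * H := by
        apply sum_le_sum
        intro n _
        rw [← sub_mul, abs_mul, abs_of_nonneg (Nat.cast_nonneg H : (0 : ℝ) ≤ H)]
        apply mul_le_mul_of_nonneg_right _ (Nat.cast_nonneg _)
        exact PF_lip hL hS hX hA hB hC hT a _
    _ = _ := by rw [sum_const, nsmul_eq_mul, card_n0]

end Pool.Agent.Lib.MP391708.TA.Eqf
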