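import Pool.Agent.Lib.MP_391708_nt.TA.EqfB

/-!
# Equidistribution of unimodular pairs, for a binary quadratic form: summation over the first coordinate
-/

set_option autoImplicit false

namespace Pool.Agent.Lib.MP391708.TA.Eqf

open Finset Filter Topology
open Pool.Agent.Lib.MP391708.Eqd Pool.Agent.Lib.MP391708.T1
open Pool.Agent.Lib.MP391708.T1.Equ (ea ra_nonneg ra_le_one bx card_bx one_le_ea RC rr res_iff
  cross_of_mem neg neg_neg' cross_neg neg_mem_pairs card_n0 er params er_sum log_AA abel HH NN AA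
  exists_rr rr_neg)
open scoped Classical

variable {A B C : ℤ} {L X S : ℝ} {T₁ T₂ : ℝ → ℝ → ℝ}

/-- the part with positive first coordinate -/
lemma pos_part (hbox : SpecBoxQ) (hL : 1 ≤ L) (hS : 1 ≤ S) (hX : S ^ 2 ≤ L * X)
    (hA : |(A : ℝ)| ≤ L) (hB : |(B : ℝ)| ≤ L) (hC : |(C : ℝ)| ≤ L)
    (hT : BdF A B C L X S T₁ T₂) {M : ℕ}
    (hM : ∀ x : V × V, cross x.1 x.2 = -1 → RegF A B C T₁ T₂ x → x ∈ pairs 1 M)
    (q H n0 N : ℕ) (hq : 0 < q) (hH : 0 < H) (hH2 : 16 * L ^ 3 * H ≤ S)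
    (hn0 : L * S < n0 * H) (hN : L * S < N + 1) (a0 c0 b0 k0 : ℤ)
    (h : (q : ℤ) ∣ b0 * c0 - (1 + a0 * k0)) {R L₁ : ℝ} (hR : 170 * L ^ 7 * X * H / S ^ 3 ≤ R)
    (hL₁ : L ≤ L₁) :
    |(((cl A B C M T₁ T₂ q (rr q a0 c0 b0 k0)).filter (fun x => 0 < x.1.1)).card : ℝ) -
      (∑ a ∈ (Icc 1 N).filter (fun a : ℕ => (q : ℤ) ∣ (a : ℤ) - a0),
        ra a q * gf A B C T₁ T₂ H n0 a) / (q : ℝ) ^ 2| ≤
      ∑ a ∈ Icc 1 N, er q H n0 L₁ X S R a := by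
  have hL0 : 0 < L := by linarith
  have hS0 : 0 < S := by linarith
  have hX0 : 0 ≤ X := by
    have : 0 ≤ L * X := le_trans (by positivity) hX
    exact nonneg_of_mul_nonneg_right this hL0
  have hR0 : 0 ≤ R := le_trans (by positivity) hR
  have hmaps : ∀ x ∈ (cl A B C M T₁ T₂ q (rr q a0 c0 b0 k0)).filter (fun x => 0 < x.1.1),
      x.1.1.toNat ∈ Icc 1 N := by
    intro x hx
    rw [mem_filter, mem_cl] at hx
    obtain ⟨⟨h1, h2, h3⟩, h4⟩ := hx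
    obtain ⟨h5, -⟩ := hT.supp _ _ (supp_of_reg h2)
    rw [mem_Icc]
    refine ⟨by omega, ?_⟩
    have h6 : (x.1.1 : ℝ) < ((N + 1 : ℤ) : ℝ) := by
      push_cast
      linarith [le_abs_self (x.1.1 : ℝ)]
    have h7 : x.1.1 < (N + 1 : ℤ) := by exact_mod_cast h6
    omega
  rw [card_eq_sum_card_fiberwise hmaps, sum_filter, sum_div]
  push_cast
  rw [← sum_sub_distrib]
  refine (abs_sum_le_sum_abs _ _).trans ?_
  apply sum_le_sum
  intro a ha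
  rw [mem_Icc] at ha
  have ha0 : 0 < a := ha.1
  have hfib : ((cl A B C M T₁ T₂ q (rr q a0 c0 b0 k0)).filter (fun x => 0 < x.1.1)).filter
      (fun x => x.1.1.toNat = a) =
      (cl A B C M T₁ T₂ q (rr q a0 c0 b0 k0)).filter (fun x => x.1.1 = (a : ℤ)) := by
    ext x
    rw [mem_filter, mem_filter, mem_filter, and_assoc]
    have : (0 < x.1.1 ∧ x.1.1.toNat = a) ↔ x.1.1 = (a : ℤ) := by omega
    rw [this]
  rw [hfib]
  by_cases hd : (q : ℤ) ∣ (a : ℤ) - a0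
  · rw [if_pos hd]
    have hrr : rr q a0 c0 b0 k0 = rr q a c0 b0 k0 := by
      unfold rr
      have : ((a0 : ℤ) : ZMod q) = ((a : ℤ) : ZMod q) := by
        rw [ZMod.intCast_eq_intCast_iff_dvd_sub]; exact hd
      rw [this]
    rw [hrr]
    have h' : (q : ℤ) ∣ b0 * c0 - (1 + a * k0) := by
      have : b0 * c0 - (1 + a * k0) = (b0 * c0 - (1 + a0 * k0)) - (a - a0) * k0 := by ring
      rw [this]
      exact dvd_sub h (hd.mul_right k0)
    have := perA hbox hL hS hX hA hB hC hT hM a q H n0 ha0 hq hH hH2 hn0 b0 c0 k0 h' hR hL₁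
    have e : ra a q * gf A B C T₁ T₂ H n0 a / (q : ℝ) ^ 2 =
        gf A B C T₁ T₂ H n0 a * (ra a q / (q : ℝ) ^ 2) := by
      ring
    rw [e]
    exact this
  · rw [if_neg hd]
    have hemp : (cl A B C M T₁ T₂ q (rr q a0 c0 b0 k0)).filter (fun x => x.1.1 = (a : ℤ)) = ∅ := by
      apply Finset.eq_empty_of_forall_notMem
      intro x hx
      rw [mem_filter, mem_cl] at hx
      apply hd
      have h1 := hx.1.2.2
      unfold res rr at h1
      simp only [Prod.mk.injEq, hx.2] at h1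
      have h2 := h1.1.1
      rw [eq_comm, ZMod.intCast_eq_intCast_iff_dvd_sub] at h2
      exact h2
    rw [hemp]
    simp only [card_empty, Nat.cast_zero, zero_div, sub_zero, abs_zero]
    unfold er
    have := one_le_ea ha0 hq
    have : 0 ≤ ea a q := by linarith
    positivity

/-- the reflected bounds -/
def rf (T : ℝ → ℝ → ℝ) (a c : ℝ) : ℝ := T (-a) (-c)

lemma rf_rf (T : ℝ → ℝ → ℝ) : rf (rf T) = T := by
  funext a c
  simp only [rf, neg_neg]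

lemma qr_neg (a c : ℝ) : qr A B C (-a) (-c) = qr A B C a c := by
  unfold qr; ring

lemma bd_rf (hT : BdF A B C L X S T₁ T₂) : BdF A B C L X S (rf T₁) (rf T₂) := by
  constructor
  · intro a c a' c' h h1 h2
    have e1 : |(-a') - (-a)| = |a' - a| := by rw [← abs_neg]; ring_nf
    have e2 : |(-c') - (-c)| = |c' - c| := by rw [← abs_neg]; ring_nf
    have := hT.lip₁ (-a) (-c) (-a') (-c') h (by rw [e1]; exact h1) (by rw [e2]; exact h2)
    rw [e1, e2] at this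
    exact this
  · intro a c a' c' h h1 h2
    have e1 : |(-a') - (-a)| = |a' - a| := by rw [← abs_neg]; ring_nf
    have e2 : |(-c') - (-c)| = |c' - c| := by rw [← abs_neg]; ring_nf
    have := hT.lip₂ (-a) (-c) (-a') (-c') h (by rw [e1]; exact h1) (by rw [e2]; exact h2)
    rw [e1, e2] at this
    exact this
  · intro a c h
    have := hT.supp (-a) (-c) h
    rw [abs_neg, abs_neg, qr_neg] at this
    exact this

lemma qb_neg (x : V × V) : qb A B C (neg x).1 (neg x).2 = qb A B C x.1 x.2 := by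
  simp only [qb, neg]; ring

lemma reg_neg (x : V × V) : RegF A B C (rf T₁) (rf T₂) (neg x) ↔ RegF A B C T₁ T₂ x := by
  unfold RegF
  rw [qb_neg]
  unfold rf neg
  simp

lemma neg_part {M q : ℕ} {r : RC q} :
    ((cl A B C M T₁ T₂ q r).filter (fun x => x.1.1 < 0)).card =
      ((cl A B C M (rf T₁) (rf T₂) q (-r)).filter (fun x => 0 < x.1.1)).card := by
  have hres : ∀ x : V × V, res q (neg x) = - res q x := by
    intro x
    unfold res neg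
    simp
  apply card_bij (fun x _ => neg x)
  · intro x hx
    rw [mem_filter, mem_cl] at hx ⊢
    obtain ⟨⟨h1, h2, h3⟩, h4⟩ := hx
    refine ⟨⟨neg_mem_pairs h1, (reg_neg x).mpr h2, by rw [hres, h3]⟩, ?_⟩
    simp only [neg]; omega
  · intro x _ y _ hxy
    rw [← neg_neg' x, ← neg_neg' y, hxy]
  · intro y hy
    rw [mem_filter, mem_cl] at hy
    obtain ⟨⟨h1, h2, h3⟩, h4⟩ := hy
    refine ⟨neg y, ?_, neg_neg' y⟩
    rw [mem_filter, mem_cl]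
    refine ⟨⟨neg_mem_pairs h1, ?_, by rw [hres, h3, neg_neg]⟩, ?_⟩
    · rw [← reg_neg, neg_neg']; exact h2
    · simp only [neg]; omega

lemma zero_part {M q : ℕ} {r : RC q} (hL : 1 ≤ L) (hS : L ^ 2 < S ^ 2) (hC : |(C : ℝ)| ≤ L)
    (hT : BdF A B C L X S T₁ T₂) :
    (cl A B C M T₁ T₂ q r).filter (fun x => x.1.1 = 0) = ∅ := by
  apply Finset.eq_empty_of_forall_notMem
  intro x hx
  rw [mem_filter, mem_cl] at hx
  obtain ⟨⟨h1, h2, h3⟩, h4⟩ := hx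
  have hc := cross_of_mem h1
  simp only [cross, h4, zero_mul, zero_sub] at hc
  have h5 : x.1.2 * x.2.1 = 1 := by linarith
  have h6 : x.1.2 ^ 2 = 1 := by
    rcases Int.eq_one_or_neg_one_of_mul_eq_one h5 with h | h <;> rw [h] <;> norm_num
  obtain ⟨-, -, g3, -, -⟩ := hT.supp _ _ (supp_of_reg h2)
  have e : qr A B C x.1.1 x.1.2 = C := by
    have h6' : (x.1.2 : ℝ) ^ 2 = 1 := by exact_mod_cast h6
    rw [h4]; unfold qr
    rw [h6']; push_cast; ring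
  rw [e, div_le_iff₀ (by linarith)] at g3
  have : (C : ℝ) ≤ L := (le_abs_self _).trans hC
  nlinarith

lemma card_split {M q : ℕ} {r : RC q} (hL : 1 ≤ L) (hS : L ^ 2 < S ^ 2) (hC : |(C : ℝ)| ≤ L)
    (hT : BdF A B C L X S T₁ T₂) :
    (cl A B C M T₁ T₂ q r).card = ((cl A B C M T₁ T₂ q r).filter (fun x => 0 < x.1.1)).card +
      ((cl A B C M (rf T₁) (rf T₂) q (-r)).filter (fun x => 0 < x.1.1)).card := by
  have h0 := zero_part (M := M) (q := q) (r := r) hL hS hC hT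
  rw [← neg_part]
  rw [← card_union_of_disjoint]
  · congr 1
    ext x
    rw [mem_union, mem_filter, mem_filter]
    constructor
    · intro hx
      rcases lt_trichotomy x.1.1 0 with h | h | h
      · exact Or.inr ⟨hx, h⟩
      · exfalso
        have : x ∈ (cl A B C M T₁ T₂ q r).filter (fun x => x.1.1 = 0) := mem_filter.mpr ⟨hx, h⟩
        rw [h0] at this
        exact absurd this (Finset.notMem_empty x)
      · exact Or.inl ⟨hx, h⟩
    · rintro (h | h)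
      · exact h.1
      · exact h.1
  · rw [disjoint_filter]
    intro x _ h1 h2
    omega

/-- `w` in terms of `v` and `M` -/
lemma second (x : V × V) (hc : cross x.1 x.2 = -1) :
    qr A B C x.1.1 x.1.2 * x.2.1 = qb A B C x.1 x.2 * x.1.1 + (B * x.1.1 + C * x.1.2) ∧
    qr A B C x.1.1 x.1.2 * x.2.2 = qb A B C x.1 x.2 * x.1.2 - (A * x.1.1 + B * x.1.2) := by
  have hR : (x.1.1 : ℝ) * x.2.2 - x.1.2 * x.2.1 = -1 := by
    simp only [cross] at hc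
    exact_mod_cast hc
  constructor
  · unfold qr qb
    push_cast
    linear_combination (-(B : ℝ) * x.1.1 - C * x.1.2) * hR
  · unfold qr qb
    push_cast
    linear_combination ((A : ℝ) * x.1.1 + B * x.1.2) * hR

/-- the region lies in the box -/
lemma reg_mem (hL : 1 ≤ L) (hS : 1 ≤ S) (hX : S ^ 2 ≤ L * X) (hA : |(A : ℝ)| ≤ L)
    (hB : |(B : ℝ)| ≤ L) (hC : |(C : ℝ)| ≤ L) (hT : BdF A B C L X S T₁ T₂) {M : ℕ}
    (hM : 4 * L ^ 5 * (X + 1) ≤ M) (x : V × V) (hc : cross x.1 x.2 = -1)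
    (hr : RegF A B C T₁ T₂ x) : x ∈ pairs 1 M := by
  have hL0 : 0 < L := by linarith
  have hS0 : 0 < S := by linarith
  have hX0 : 0 ≤ X := by
    have : 0 ≤ L * X := le_trans (by positivity) hX
    exact nonneg_of_mul_nonneg_right this hL0
  obtain ⟨r1, r2⟩ := hr
  obtain ⟨g1, g2, g3, g4, g5⟩ := hT.supp _ _ (lt_of_lt_of_le r1 r2)
  obtain ⟨s1, s2⟩ := second (A := A) (B := B) (C := C) x hc
  set d := qr A B C x.1.1 x.1.2 with hd
  set m : ℝ := (qb A B C x.1 x.2 : ℝ) with hm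
  have hm0 : |m| ≤ L * X := by rw [abs_of_nonneg (by linarith)]; linarith
  rw [div_le_iff₀ hL0] at g3
  have hLS : 0 ≤ L * S := by positivity
  have key : ∀ u v : ℝ, |u| ≤ L * S → |v| ≤ L * S → ∀ p r : ℝ, |p| ≤ L → |r| ≤ L → ∀ w : ℝ,
      d * w = m * u + (p * v + r * u) → |w| ≤ M := by
    intro u v hu hv p r hp hr' w hw
    have h1 : |d * w| ≤ (L * X) * (L * S) + (L * (L * S) + L * (L * S)) := by
      rw [hw]
      refine (abs_add_le _ _).trans (add_le_add ?_ ((abs_add_le _ _).trans (add_le_add ?_ ?_)))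
      · rw [abs_mul]; exact mul_le_mul hm0 hu (abs_nonneg _) (by positivity)
      · rw [abs_mul]; exact mul_le_mul hp hv (abs_nonneg _) hL0.le
      · rw [abs_mul]; exact mul_le_mul hr' hu (abs_nonneg _) hL0.le
    have hd0 : 0 < d := by
      by_contra hcon
      push Not at hcon
      have : d * L ≤ 0 := mul_nonpos_of_nonpos_of_nonneg hcon hL0.le
      nlinarith
    rw [abs_mul, abs_of_pos hd0] at h1
    have h2 : S ^ 2 * |w| ≤ (d * L) * |w| := mul_le_mul_of_nonneg_right g3 (abs_nonneg _)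
    have h3 : S ^ 2 * |w| ≤ L * ((L * X) * (L * S) + (L * (L * S) + L * (L * S))) := by
      calc S ^ 2 * |w| ≤ (d * L) * |w| := h2
        _ = L * (d * |w|) := by ring
        _ ≤ _ := mul_le_mul_of_nonneg_left h1 hL0.le
    have h4 : S * |w| ≤ L ^ 3 * (X + 2) := by
      have e : L * ((L * X) * (L * S) + (L * (L * S) + L * (L * S))) = S * (L ^ 3 * (X + 2)) := by
        ring
      rw [e] at h3
      have e2 : S ^ 2 * |w| = S * (S * |w|) := by ring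
      rw [e2] at h3
      exact le_of_mul_le_mul_left h3 hS0
    have h5 : |w| ≤ S * |w| := by nlinarith [abs_nonneg w]
    have h6 : L ^ 3 ≤ L ^ 5 := pow_le_pow_right₀ hL (by norm_num)
    have h7 : L ^ 3 * (X + 2) ≤ L ^ 5 * (X + 2) := mul_le_mul_of_nonneg_right h6 (by linarith)
    have h8 : 0 ≤ L ^ 5 := by positivity
    nlinarith
  have hsmall : ∀ z : ℤ, |(z : ℝ)| ≤ L * S → |z| ≤ M := by
    intro z hz
    have h1 : S ≤ L * X := by nlinarith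
    have h2 : L * S ≤ L * (L * X) := mul_le_mul_of_nonneg_left h1 hL0.le
    have h3 : L ^ 2 ≤ L ^ 5 := pow_le_pow_right₀ hL (by norm_num)
    have h4 : L ^ 2 * X ≤ L ^ 5 * X := mul_le_mul_of_nonneg_right h3 hX0
    have h8 : 0 ≤ L ^ 5 := by positivity
    have h5 : ((|z| : ℤ) : ℝ) ≤ (M : ℝ) := by push_cast; nlinarith
    exact_mod_cast h5
  have hbig : ∀ z : ℤ, |(z : ℝ)| ≤ M → |z| ≤ M := by
    intro z hz
    have h5 : ((|z| : ℤ) : ℝ) ≤ (M : ℝ) := by push_cast; exact hz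
    exact_mod_cast h5
  rw [mem_pairs, mem_box, mem_box]
  refine ⟨⟨⟨hsmall _ g1, hsmall _ g2⟩, hbig _ ?_, hbig _ ?_⟩, by rw [hc]; rfl⟩
  · exact key _ _ g1 g2 C B hC hB _ (by rw [s1]; ring)
  · exact key _ _ g2 g1 (-A) (-B) (by rw [abs_neg]; exact hA) (by rw [abs_neg]; exact hB) _
      (by rw [s2]; ring)

/-- the main term, for all classes -/
noncomputable def mf (A B C : ℤ) (T₁ T₂ : ℝ → ℝ → ℝ) (L₁ y : ℝ) : ℝ :=
  ∑ a ∈ Icc 1 (AA L₁ y), gf A B C T₁ T₂ (HH y) (NN L₁ y) a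

lemma pos_main (hbox : SpecBoxQ) (hmean : SpecMeanQ) (hpwr : SpecPwr) : ∃ K : ℝ, 0 < K ∧
    ∀ L : ℝ, 1 ≤ L → ∀ A B C : ℤ, |(A : ℝ)| ≤ L → |(B : ℝ)| ≤ L → |(C : ℝ)| ≤ L →
    ∀ y X : ℝ, 12 * (16 * L ^ 3) ^ 2 ≤ y → y ^ 10 ≤ L * X → ∀ T₁ T₂ : ℝ → ℝ → ℝ,
    BdF A B C L X (y ^ 5) T₁ T₂ → ∀ M : ℕ,
    (∀ x : V × V, cross x.1 x.2 = -1 → RegF A B C T₁ T₂ x → x ∈ pairs 1 M) →
    ∀ q : ℕ, 0 < q → ∀ a0 c0 b0 k0 : ℤ, (q : ℤ) ∣ b0 * c0 - (1 + a0 * k0) →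
    |(((cl A B C M T₁ T₂ q (rr q a0 c0 b0 k0)).filter (fun x => 0 < x.1.1)).card : ℝ) -
      zq q / (q : ℝ) ^ 3 * mf A B C T₁ T₂ (16 * L ^ 3) y| ≤
      K * (16 * L ^ 3) ^ 8 * (q : ℝ) ^ 4 * X / y := by
  obtain ⟨K, hK, hE⟩ := er_sum hpwr
  refine ⟨K + 1120, by positivity, ?_⟩
  intro L hL A B C hA hB hC y X hy hX T₁ T₂ hT M hM q hq a0 c0 b0 k0 h
  set L₁ := 16 * L ^ 3 with hL₁
  have hL3 : 1 ≤ L ^ 3 := one_le_pow₀ hL
  have hL₁1 : 1 ≤ L₁ := by rw [hL₁]; linarith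
  have hLL : L ≤ L₁ := by
    have : L ≤ L ^ 3 := by
      calc L = L ^ 1 := (pow_one L).symm
        _ ≤ L ^ 3 := pow_le_pow_right₀ hL (by norm_num)
    rw [hL₁]; linarith
  obtain ⟨p1, p2, p3, p4, p5, p6, p7, p8, p9⟩ := params hL₁1 hy
  have hL0 : 0 < L := by linarith
  have hL₁0 : 0 < L₁ := by linarith
  have hy1 : 1 ≤ y := by nlinarith [one_le_pow₀ hL₁1 (n := 2)]
  have hy0 : 0 < y := by linarith
  have hy5 : 1 ≤ y ^ 5 := one_le_pow₀ hy1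
  have hX0 : 0 ≤ X := by
    have : 0 ≤ L * X := le_trans (by positivity) hX
    exact nonneg_of_mul_nonneg_right this hL0
  have hq1 : (1 : ℝ) ≤ q := by exact_mod_cast hq
  have hq4 : (1 : ℝ) ≤ (q : ℝ) ^ 4 := one_le_pow₀ hq1
  have hy10 : (y ^ 5) ^ 2 = y ^ 10 := by ring
  have hX' : (y ^ 5) ^ 2 ≤ L * X := by rw [hy10]; exact hX
  have hX'' : y ^ 10 ≤ L₁ * X := hX.trans (mul_le_mul_of_nonneg_right hLL hX0)
  have hH2 : 16 * L ^ 3 * (HH y : ℝ) ≤ y ^ 5 := by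
    refine le_trans ?_ p2
    rw [← hL₁]
    have : L₁ ≤ 6 * L₁ ^ 2 := by nlinarith
    exact mul_le_mul_of_nonneg_right this (Nat.cast_nonneg _)
  have hS16 : 16 * L ^ 3 ≤ y ^ 5 := by
    have h1 : (1 : ℝ) ≤ HH y := by exact_mod_cast p1
    have h2 : 16 * L ^ 3 * 1 ≤ 16 * L ^ 3 * (HH y : ℝ) :=
      mul_le_mul_of_nonneg_left h1 (by positivity)
    linarith
  have hLS : L * y ^ 5 ≤ L₁ * y ^ 5 := mul_le_mul_of_nonneg_right hLL (by positivity)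
  have hR : 170 * L ^ 7 * X * (HH y : ℝ) / (y ^ 5) ^ 3 ≤
      80 * L₁ ^ 5 * X * (HH y : ℝ) / (y ^ 5) ^ 3 := by
    have e1 : 170 * L ^ 7 ≤ 80 * L₁ ^ 5 := by
      have e2 : L ^ 7 ≤ L ^ 15 := pow_le_pow_right₀ hL (by norm_num)
      have e3 : L₁ ^ 5 = 1048576 * L ^ 15 := by rw [hL₁]; ring
      have e4 : 0 ≤ L ^ 15 := by positivity
      rw [e3]; linarith
    gcongr
  have h1 := pos_part hbox hL hy5 hX' hA hB hC hT hM q (HH y) (NN L₁ y)
    (AA L₁ y) hq p1 hH2 (by linarith) (by linarith) a0 c0 b0 k0 h hR hLL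
  have h2 := hE L₁ hL₁1 y X hy hX'' q hq
  have hg : |gf A B C T₁ T₂ (HH y) (NN L₁ y) (AA L₁ y)| ≤ 4 * L₁ ^ 3 * X / y ^ 5 := by
    rw [abs_of_nonneg (gf_nonneg hL hy5 hT _)]
    refine (gf_le hL hy5 hX0 hT _).trans ?_
    calc 2 * (NN L₁ y : ℝ) * (L ^ 2 * X / (y ^ 5) ^ 2 * HH y) =
        2 * (NN L₁ y * HH y) * (L ^ 2 * X / y ^ 10) := by ring
      _ ≤ 2 * (2 * L₁ * y ^ 5) * (L₁ ^ 2 * X / y ^ 10) := by gcongr
      _ = _ := by field_simp; ring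
  have hD : ∀ a : ℕ, 1 ≤ a → a < AA L₁ y →
      |gf A B C T₁ T₂ (HH y) (NN L₁ y) ((a + 1 : ℕ) : ℝ) - gf A B C T₁ T₂ (HH y) (NN L₁ y) a| ≤
        36 * L₁ ^ 5 * X / y ^ 10 := by
    intro a ha1 ha2
    have := gf_lip hL hS16 hX0 hA hB hC hT (H := HH y) (n0 := NN L₁ y) (a : ℝ)
    push_cast
    refine this.trans ?_
    have e5 : 80 * L₁ * L ^ 5 ≤ 36 * L₁ ^ 5 := by
      have e3 : L₁ ^ 4 = 65536 * L ^ 12 := by rw [hL₁]; ring
      have e4 : L ^ 5 ≤ L ^ 12 := pow_le_pow_right₀ hL (by norm_num)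
      have e7 : 0 ≤ L ^ 12 := by positivity
      have e6 : 80 * L ^ 5 ≤ 36 * L₁ ^ 4 := by rw [e3]; linarith
      calc 80 * L₁ * L ^ 5 = L₁ * (80 * L ^ 5) := by ring
        _ ≤ L₁ * (36 * L₁ ^ 4) := mul_le_mul_of_nonneg_left e6 hL₁0.le
        _ = _ := by ring
    calc 2 * (NN L₁ y : ℝ) * (20 * L ^ 5 * X / (y ^ 5) ^ 3 * HH y) =
        2 * (NN L₁ y * HH y) * (20 * L ^ 5 * X / (y ^ 5) ^ 3) := by ring
      _ ≤ 2 * (2 * L₁ * y ^ 5) * (20 * L ^ 5 * X / (y ^ 5) ^ 3) := by gcongr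
      _ = (80 * L₁ * L ^ 5) * X / y ^ 10 := by field_simp; ring
      _ ≤ _ := by gcongr
  have h3 := abel hmean hq a0 (AA L₁ y) p8 (fun a => gf A B C T₁ T₂ (HH y) (NN L₁ y) a)
    (by positivity) hg hD
  have h4 : 4 * (1 + Real.log (AA L₁ y)) *
      (4 * L₁ ^ 3 * X / y ^ 5 + AA L₁ y * (36 * L₁ ^ 5 * X / y ^ 10)) ≤
        1120 * L₁ ^ 7 * X / y := by
    have e1 : 4 * L₁ ^ 3 * X / y ^ 5 + AA L₁ y * (36 * L₁ ^ 5 * X / y ^ 10) ≤
        40 * L₁ ^ 6 * X / y ^ 5 := by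
      calc 4 * L₁ ^ 3 * X / y ^ 5 + AA L₁ y * (36 * L₁ ^ 5 * X / y ^ 10) ≤
          4 * L₁ ^ 6 * X / y ^ 5 + (L₁ * y ^ 5) * (36 * L₁ ^ 5 * X / y ^ 10) := by
            have k : L₁ ^ 3 ≤ L₁ ^ 6 := pow_le_pow_right₀ hL₁1 (by norm_num)
            gcongr
        _ = _ := by field_simp; ring
    have e2 := log_AA hL₁1 hy
    have e3 : 0 ≤ Real.log (AA L₁ y) := Real.log_nonneg (by exact_mod_cast p8)
    calc 4 * (1 + Real.log (AA L₁ y)) *
        (4 * L₁ ^ 3 * X / y ^ 5 + AA L₁ y * (36 * L₁ ^ 5 * X / y ^ 10)) ≤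
        4 * (7 * L₁ * y) * (40 * L₁ ^ 6 * X / y ^ 5) := by gcongr
      _ = 1120 * L₁ ^ 7 * X / y ^ 4 := by field_simp; ring
      _ ≤ 1120 * L₁ ^ 7 * X / y := by
          apply div_le_div_of_nonneg_left (by positivity) hy0
          calc y = y ^ 1 := (pow_one y).symm
            _ ≤ y ^ 4 := pow_le_pow_right₀ hy1 (by norm_num)
  have h5 : |(∑ a ∈ (Icc 1 (AA L₁ y)).filter (fun a : ℕ => (q : ℤ) ∣ (a : ℤ) - a0),
        ra a q * gf A B C T₁ T₂ (HH y) (NN L₁ y) a) / (q : ℝ) ^ 2 -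
      zq q / (q : ℝ) ^ 3 * mf A B C T₁ T₂ L₁ y| ≤ 1120 * L₁ ^ 7 * X / y := by
    have e : (∑ a ∈ (Icc 1 (AA L₁ y)).filter (fun a : ℕ => (q : ℤ) ∣ (a : ℤ) - a0),
        ra a q * gf A B C T₁ T₂ (HH y) (NN L₁ y) a) / (q : ℝ) ^ 2 -
      zq q / (q : ℝ) ^ 3 * mf A B C T₁ T₂ L₁ y =
      (∑ a ∈ (Icc 1 (AA L₁ y)).filter (fun a : ℕ => (q : ℤ) ∣ (a : ℤ) - a0),
        ra a q * gf A B C T₁ T₂ (HH y) (NN L₁ y) a - zq q / q * mf A B C T₁ T₂ L₁ y) /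
          (q : ℝ) ^ 2 := by
      field_simp
    rw [e, abs_div, abs_of_pos (by positivity : (0 : ℝ) < (q : ℝ) ^ 2)]
    have h6 := h3.trans h4
    refine (div_le_self (abs_nonneg _) (one_le_pow₀ hq1)).trans ?_
    exact h6
  calc _ ≤ |(((cl A B C M T₁ T₂ q (rr q a0 c0 b0 k0)).filter (fun x => 0 < x.1.1)).card : ℝ) -
      (∑ a ∈ (Icc 1 (AA L₁ y)).filter (fun a : ℕ => (q : ℤ) ∣ (a : ℤ) - a0),
        ra a q * gf A B C T₁ T₂ (HH y) (NN L₁ y) a) / (q : ℝ) ^ 2| +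
      |(∑ a ∈ (Icc 1 (AA L₁ y)).filter (fun a : ℕ => (q : ℤ) ∣ (a : ℤ) - a0),
        ra a q * gf A B C T₁ T₂ (HH y) (NN L₁ y) a) / (q : ℝ) ^ 2 -
      zq q / (q : ℝ) ^ 3 * mf A B C T₁ T₂ L₁ y| := abs_sub_le _ _ _
    _ ≤ K * L₁ ^ 8 * (q : ℝ) ^ 4 * X / y + 1120 * L₁ ^ 7 * X / y := add_le_add (h1.trans h2) h5
    _ ≤ _ := by
      have k : L₁ ^ 7 ≤ L₁ ^ 8 := pow_le_pow_right₀ hL₁1 (by norm_num)
      have e1 : 1120 * L₁ ^ 7 * X / y ≤ 1120 * L₁ ^ 8 * (q : ℝ) ^ 4 * X / y := by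
        have e3 : 1120 * L₁ ^ 7 ≤ 1120 * L₁ ^ 8 * (q : ℝ) ^ 4 := by
          calc 1120 * L₁ ^ 7 ≤ 1120 * L₁ ^ 8 * 1 := by linarith
            _ ≤ _ := by gcongr
        exact div_le_div_of_nonneg_right (mul_le_mul_of_nonneg_right e3 hX0) hy0.le
      have e2 : (K + 1120) * L₁ ^ 8 * (q : ℝ) ^ 4 * X / y =
          K * L₁ ^ 8 * (q : ℝ) ^ 4 * X / y + 1120 * L₁ ^ 8 * (q : ℝ) ^ 4 * X / y := by ring
      rw [e2]
      linarith

end Pool.Agent.Lib.MP391708.TA.Eqf
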