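import Pool.Agent.Lib.MP_391708_nt.T1.NGL

/-!
# T1a, group NG: number of residue classes with isotropy conditions, general form

The form `A x² + 2 B x y + C y²` with `A C - B² = a`; for `r = (v, w)` modulo `q` with cross
product `-1` the conditions are `F (s v + t w) = 0` modulo the primes of some squarefree moduli.
-/

set_option autoImplicit false

namespace Pool.Agent.Lib.MP391708.TA.NG

open Finset
open Pool.Agent.Lib.MP391708.Eqd
open Pool.Agent.Lib.MP391708.Eqd.Loc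
open Pool.Agent.Lib.MP391708.T1.NG (PS PS_pairwise act)

/-- `F (s v + t w)` -/
def qn {R : Type*} [CommRing R] (A B C s t : R) (r : (R × R) × (R × R)) : R :=
  A * (s * r.1.1 + t * r.2.1) ^ 2 +
    2 * B * (s * r.1.1 + t * r.2.1) * (s * r.1.2 + t * r.2.2) + C * (s * r.1.2 + t * r.2.2) ^ 2

section field

variable {F : Type*} [Field F]

/-- the form splits into two independent linear factors -/
lemma exists_split {A B C ι : F} (h2 : (2 : F) ≠ 0) (hι : ι * ι = B ^ 2 - A * C) (h0 : ι ≠ 0) :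
    ∃ p q r s κ : F, κ ≠ 0 ∧ p * s - q * r ≠ 0 ∧
      ∀ x y : F, (p * x + q * y) * (r * x + s * y) = κ * (A * x ^ 2 + 2 * B * x * y + C * y ^ 2) := by
  by_cases hA : A = 0
  · have hB : B ≠ 0 := by
      rintro rfl
      rw [hA] at hι
      have : ι * ι = 0 := by rw [hι]; ring
      exact h0 (mul_self_eq_zero.mp this)
    refine ⟨0, 1, 2 * B, C, 1, one_ne_zero, ?_, ?_⟩
    · have : (0 : F) * C - 1 * (2 * B) = -(2 * B) := by ring
      rw [this]
      exact neg_ne_zero.mpr (mul_ne_zero h2 hB)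
    · intro x y; rw [hA]; ring
  · refine ⟨A, B + ι, A, B - ι, A, hA, ?_, ?_⟩
    · have : A * (B - ι) - (B + ι) * A = -(2 * ι * A) := by ring
      rw [this]
      exact neg_ne_zero.mpr (mul_ne_zero (mul_ne_zero h2 h0) hA)
    · intro x y
      linear_combination (-y ^ 2) * hι

variable [Fintype F]

/-- one isotropic vector -/
lemma iso_one {k : F} (hk : k ≠ 0) (Z : Finset ((F × F) × (F × F)))
    (hZ : ∀ z ∈ Z, z.1.1 * z.1.2 = 0 ∧ z.1.1 * z.2.2 - z.1.2 * z.2.1 = k) :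
    Z.card ≤ 2 * (Fintype.card F * Fintype.card F) := by
  classical
  let f : (F × F) × (F × F) → Bool × (F × F) := fun z =>
    if z.1.1 = 0 then (true, (z.1.2, z.2.2)) else (false, (z.1.1, z.2.1))
  have hT : (univ : Finset (Bool × (F × F))).card = 2 * (Fintype.card F * Fintype.card F) := by
    rw [card_univ]; simp
  rw [← hT]
  refine card_le_card_of_injOn f (fun _ _ => mem_coe.mpr (mem_univ _)) ?_
  intro z hz z' hz' hzz
  obtain ⟨h1, h2⟩ := hZ z hz
  obtain ⟨h1', h2'⟩ := hZ z' hz'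
  by_cases hy : z.1.1 = 0
  · by_cases hy' : z'.1.1 = 0
    · simp only [f, hy, hy', if_true, Prod.mk.injEq, true_and] at hzz
      obtain ⟨e1, e2⟩ := hzz
      rw [hy, zero_mul, zero_sub] at h2
      rw [hy', zero_mul, zero_sub, ← e1] at h2'
      have hne : z.1.2 ≠ 0 := by
        intro h; rw [h, zero_mul, neg_zero] at h2; exact hk h2.symm
      have e3 : z.2.1 = z'.2.1 := mul_left_cancel₀ hne (neg_injective (h2.trans h2'.symm))
      exact Prod.ext (Prod.ext (hy.trans hy'.symm) e1) (Prod.ext e3 e2)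
    · simp [f, hy, hy'] at hzz
  · by_cases hy' : z'.1.1 = 0
    · simp [f, hy, hy'] at hzz
    · simp only [f, hy, hy', if_false, Prod.mk.injEq, true_and] at hzz
      obtain ⟨e1, e2⟩ := hzz
      have g : z.1.2 = 0 := (mul_eq_zero.mp h1).resolve_left hy
      have g' : z'.1.2 = 0 := (mul_eq_zero.mp h1').resolve_left hy'
      rw [g, zero_mul, sub_zero] at h2
      rw [g', zero_mul, sub_zero, ← e1] at h2'
      have e3 : z.2.2 = z'.2.2 := mul_left_cancel₀ hy (h2.trans h2'.symm)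
      exact Prod.ext (Prod.ext e1 (g.trans g'.symm)) (Prod.ext e2 e3)

/-- two isotropic vectors -/
lemma iso_two {k : F} (hk : k ≠ 0) (Z : Finset ((F × F) × (F × F)))
    (hZ : ∀ z ∈ Z, z.1.1 * z.1.2 = 0 ∧ z.2.1 * z.2.2 = 0 ∧
      z.1.1 * z.2.2 - z.1.2 * z.2.1 = k) : Z.card ≤ 2 * Fintype.card F := by
  classical
  let f : (F × F) × (F × F) → Bool × F := fun z =>
    if z.1.1 = 0 then (true, z.1.2) else (false, z.1.1)
  have hT : (univ : Finset (Bool × F)).card = 2 * Fintype.card F := by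
    rw [card_univ]; simp
  rw [← hT]
  refine card_le_card_of_injOn f (fun _ _ => mem_coe.mpr (mem_univ _)) ?_
  intro z hz z' hz' hzz
  obtain ⟨h1, h3, h2⟩ := hZ z hz
  obtain ⟨h1', h3', h2'⟩ := hZ z' hz'
  by_cases hy : z.1.1 = 0
  · by_cases hy' : z'.1.1 = 0
    · simp only [f, hy, hy', if_true, Prod.mk.injEq, true_and] at hzz
      rw [hy, zero_mul, zero_sub] at h2
      rw [hy', zero_mul, zero_sub, ← hzz] at h2'
      have hne : z.1.2 ≠ 0 := by
        intro h; rw [h, zero_mul, neg_zero] at h2; exact hk h2.symm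
      have e3 : z.2.1 = z'.2.1 := mul_left_cancel₀ hne (neg_injective (h2.trans h2'.symm))
      have hb : z.2.1 ≠ 0 := by
        intro h; rw [h, mul_zero, neg_zero] at h2; exact hk h2.symm
      have e4 : z.2.2 = 0 := (mul_eq_zero.mp h3).resolve_left hb
      have e5 : z'.2.2 = 0 := (mul_eq_zero.mp h3').resolve_left (e3 ▸ hb)
      exact Prod.ext (Prod.ext (hy.trans hy'.symm) hzz) (Prod.ext e3 (e4.trans e5.symm))
    · simp [f, hy, hy'] at hzz
  · by_cases hy' : z'.1.1 = 0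
    · simp [f, hy, hy'] at hzz
    · simp only [f, hy, hy', if_false, Prod.mk.injEq, true_and] at hzz
      have g : z.1.2 = 0 := (mul_eq_zero.mp h1).resolve_left hy
      have g' : z'.1.2 = 0 := (mul_eq_zero.mp h1').resolve_left hy'
      rw [g, zero_mul, sub_zero] at h2
      rw [g', zero_mul, sub_zero, ← hzz] at h2'
      have e3 : z.2.2 = z'.2.2 := mul_left_cancel₀ hy (h2.trans h2'.symm)
      have hb : z.2.2 ≠ 0 := by
        intro h; rw [h, mul_zero] at h2; exact hk h2.symm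
      have e4 : z.2.1 = 0 := (mul_eq_zero.mp h3).resolve_right hb
      have e5 : z'.2.1 = 0 := (mul_eq_zero.mp h3').resolve_right (e3 ▸ hb)
      exact Prod.ext (Prod.ext hzz (g.trans g'.symm)) (Prod.ext (e4.trans e5.symm) e3)

/-- two vectors `x = s v + t w`, `y = s' v + t' w` in the coordinates of the linear factors -/
def lc (p q r u s t s' t' : F) (z : (F × F) × (F × F)) : (F × F) × (F × F) :=
  ((p * (s * z.1.1 + t * z.2.1) + q * (s * z.1.2 + t * z.2.2),
    r * (s * z.1.1 + t * z.2.1) + u * (s * z.1.2 + t * z.2.2)),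
   (p * (s' * z.1.1 + t' * z.2.1) + q * (s' * z.1.2 + t' * z.2.2),
    r * (s' * z.1.1 + t' * z.2.1) + u * (s' * z.1.2 + t' * z.2.2)))

omit [Fintype F] in
lemma lc_inj {p q r u s t s' t' : F} (h : p * u - q * r ≠ 0) (h' : s * t' - s' * t ≠ 0) :
    Function.Injective (lc p q r u s t s' t') := by
  intro z z' e
  have e1 := congrArg (fun x => x.1.1) e
  have e2 := congrArg (fun x => x.1.2) e
  have e3 := congrArg (fun x => x.2.1) e
  have e4 := congrArg (fun x => x.2.2) e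
  simp only [lc] at e1 e2 e3 e4
  have a1 : s * z.1.1 + t * z.2.1 = s * z'.1.1 + t * z'.2.1 :=
    mul_left_cancel₀ h (by linear_combination u * e1 - q * e2)
  have a2 : s * z.1.2 + t * z.2.2 = s * z'.1.2 + t * z'.2.2 :=
    mul_left_cancel₀ h (by linear_combination p * e2 - r * e1)
  have a3 : s' * z.1.1 + t' * z.2.1 = s' * z'.1.1 + t' * z'.2.1 :=
    mul_left_cancel₀ h (by linear_combination u * e3 - q * e4)
  have a4 : s' * z.1.2 + t' * z.2.2 = s' * z'.1.2 + t' * z'.2.2 :=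
    mul_left_cancel₀ h (by linear_combination p * e4 - r * e3)
  refine Prod.ext (Prod.ext ?_ ?_) (Prod.ext ?_ ?_)
  · exact mul_left_cancel₀ h' (by linear_combination t' * a1 - t * a3)
  · exact mul_left_cancel₀ h' (by linear_combination t' * a2 - t * a4)
  · exact mul_left_cancel₀ h' (by linear_combination s * a3 - s' * a1)
  · exact mul_left_cancel₀ h' (by linear_combination s * a4 - s' * a2)

/-- one isotropy condition -/
lemma card_one {A B C ι : F} (h2 : (2 : F) ≠ 0) (hι : ι * ι = B ^ 2 - A * C) (h0 : ι ≠ 0)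
    (c : F) (hc : c ≠ 0) (s t : F) (hst : s ≠ 0 ∨ t ≠ 0) (Z : Finset ((F × F) × (F × F)))
    (hZ : ∀ z ∈ Z, qn A B C s t z = 0 ∧ z.1.1 * z.2.2 - z.1.2 * z.2.1 = c) :
    Z.card ≤ 2 * (Fintype.card F * Fintype.card F) := by
  classical
  obtain ⟨p, q, r, u, κ, hκ, hd, hsp⟩ := exists_split (A := A) (B := B) (C := C) h2 hι h0
  obtain ⟨s', t', h'⟩ : ∃ s' t' : F, s * t' - s' * t ≠ 0 := by
    by_cases hs : s = 0
    · exact ⟨1, 0, by rw [hs]; simpa using hst.resolve_left (by simpa using hs)⟩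
    · exact ⟨0, 1, by simpa using hs⟩
  rw [← card_image_of_injective Z (lc_inj hd h')]
  refine iso_one (k := (p * u - q * r) * ((s * t' - s' * t) * c))
    (mul_ne_zero hd (mul_ne_zero h' hc)) _ ?_
  intro y hy
  obtain ⟨z, hz, rfl⟩ := mem_image.mp hy
  obtain ⟨h1, h3⟩ := hZ z hz
  refine ⟨?_, ?_⟩
  · simp only [lc]
    rw [hsp]
    simp only [qn] at h1
    linear_combination κ * h1
  · simp only [lc]
    linear_combination ((p * u - q * r) * (s * t' - s' * t)) * h3

/-- two isotropy conditions at different points -/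
lemma card_two {A B C ι : F} (h2 : (2 : F) ≠ 0) (hι : ι * ι = B ^ 2 - A * C) (h0 : ι ≠ 0)
    (c : F) (hc : c ≠ 0) (s t s' t' : F) (h' : s * t' - s' * t ≠ 0)
    (Z : Finset ((F × F) × (F × F)))
    (hZ : ∀ z ∈ Z, qn A B C s t z = 0 ∧ qn A B C s' t' z = 0 ∧
      z.1.1 * z.2.2 - z.1.2 * z.2.1 = c) : Z.card ≤ 2 * Fintype.card F := by
  classical
  obtain ⟨p, q, r, u, κ, hκ, hd, hsp⟩ := exists_split (A := A) (B := B) (C := C) h2 hι h0
  rw [← card_image_of_injective Z (lc_inj hd h')]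
  refine iso_two (k := (p * u - q * r) * ((s * t' - s' * t) * c))
    (mul_ne_zero hd (mul_ne_zero h' hc)) _ ?_
  intro y hy
  obtain ⟨z, hz, rfl⟩ := mem_image.mp hy
  obtain ⟨h1, h1', h3⟩ := hZ z hz
  refine ⟨?_, ?_, ?_⟩
  · simp only [lc]
    rw [hsp]
    simp only [qn] at h1
    linear_combination κ * h1
  · simp only [lc]
    rw [hsp]
    simp only [qn] at h1'
    linear_combination κ * h1'
  · simp only [lc]
    linear_combination ((p * u - q * r) * (s * t' - s' * t)) * h3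

end field

/-! ### the local conditions at a prime -/

/-- `l` does not divide `2 a` and `-a` is a square modulo `l` -/
def Spl (a : ℤ) (l : ℕ) : Prop := ¬ (l : ℤ) ∣ 2 * a ∧ ∃ x : ℤ, (l : ℤ) ∣ x ^ 2 + a

/-- the conditions `m i ∣ F (s i v + t i w)` at the prime `l` -/
def LC (A B C : ℤ) (m : Fin 3 → ℕ) (s t : Fin 3 → ℤ) (l : ℕ)
    (z : (ZMod l × ZMod l) × (ZMod l × ZMod l)) : Prop :=
  z.1.1 * z.2.2 - z.1.2 * z.2.1 = -1 ∧ ∀ i, l ∣ m i →
    qn (A : ZMod l) (B : ZMod l) (C : ZMod l) (s i : ZMod l) (t i : ZMod l) z = 0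

/-- hypotheses on the moduli and the points: squarefree moduli with primes that split, points
primitive, at most two active at each prime, equal points only at primes dividing `g` -/
structure Pts (a : ℤ) (m : Fin 3 → ℕ) (s t : Fin 3 → ℤ) (g : ℕ) : Prop where
  sqf : ∀ i, Squarefree (m i)
  one : ∀ i, ∀ l : ℕ, l.Prime → l ∣ m i → Spl a l
  prim : ∀ i, ∀ l : ℕ, l.Prime → l ∣ m i → ¬ ((l : ℤ) ∣ s i ∧ (l : ℤ) ∣ t i)
  two : ∀ l : ℕ, l.Prime → ¬ (l ∣ m 0 ∧ l ∣ m 1 ∧ l ∣ m 2)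
  dist : ∀ i j, i ≠ j → ∀ l : ℕ, l.Prime → l ∣ m i → l ∣ m j →
    (l : ℤ) ∣ s i * t j - s j * t i → l ∣ g

lemma card_LC {a A B C : ℤ} (hF : A * C - B ^ 2 = a) {m : Fin 3 → ℕ} {s t : Fin 3 → ℤ} {g : ℕ}
    (H : Pts a m s t g) {l : ℕ} (hl : l.Prime) (hm : ∃ i, l ∣ m i)
    (Z : Finset ((ZMod l × ZMod l) × (ZMod l × ZMod l))) (hZ : ∀ z ∈ Z, LC A B C m s t l z) :
    (Z.card : ℝ) * ∏ _i ∈ act m l, (l : ℝ) ≤ 2 * (l : ℝ) ^ 3 * (if l ∣ g then (l : ℝ) else 1) := by
  obtain ⟨i, hi⟩ := hm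
  have : Fact l.Prime := ⟨hl⟩
  obtain ⟨hl2, x, hx⟩ := H.one i l hl hi
  have hlp : Prime (l : ℤ) := Nat.prime_iff_prime_int.mp hl
  have h2 : (2 : ZMod l) ≠ 0 := by
    intro h
    have : ((2 : ℤ) : ZMod l) = 0 := by exact_mod_cast h
    rw [ZMod.intCast_zmod_eq_zero_iff_dvd] at this
    exact hl2 (this.mul_right _)
  have hxa : ((x : ZMod l)) * x = (B : ZMod l) ^ 2 - A * C := by
    have h3 : ((x ^ 2 + a : ℤ) : ZMod l) = 0 := (ZMod.intCast_zmod_eq_zero_iff_dvd _ _).mpr hx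
    rw [← hF] at h3
    push_cast at h3
    linear_combination h3
  have hx0 : (x : ZMod l) ≠ 0 := by
    intro h
    have h3 : (l : ℤ) ∣ x := (ZMod.intCast_zmod_eq_zero_iff_dvd _ _).mp h
    have h4 : (l : ℤ) ∣ a := by
      have : a = (x ^ 2 + a) - x * x := by ring
      rw [this]
      exact dvd_sub hx (h3.mul_right _)
    exact hl2 (h4.mul_left _)
  have hc : (-1 : ZMod l) ≠ 0 := neg_ne_zero.mpr one_ne_zero
  have hl0 : (0 : ℝ) < l := by exact_mod_cast hl.pos
  have hl1 : (1 : ℝ) ≤ l := by exact_mod_cast hl.one_le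
  have hprim : ∀ i, l ∣ m i → ((s i : ZMod l) ≠ 0 ∨ (t i : ZMod l) ≠ 0) := by
    intro i hi
    by_contra h
    push Not at h
    exact H.prim i l hl hi ⟨(ZMod.intCast_zmod_eq_zero_iff_dvd _ _).mp h.1,
      (ZMod.intCast_zmod_eq_zero_iff_dvd _ _).mp h.2⟩
  have h1 : (Z.card : ℝ) ≤ 2 * (l : ℝ) ^ 2 := by
    have := card_one h2 hxa hx0 (-1) hc (s i : ZMod l) (t i : ZMod l) (hprim i hi) Z
      (fun z hz => ⟨(hZ z hz).2 i hi, (hZ z hz).1⟩)
    rw [ZMod.card] at this
    calc (Z.card : ℝ) ≤ ((2 * (l * l) : ℕ) : ℝ) := by exact_mod_cast this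
      _ = 2 * (l : ℝ) ^ 2 := by push_cast; ring
  have hact : (act m l).card ≤ 2 := by
    by_contra h
    have h3 : (act m l).card = 3 := by
      have : (act m l).card ≤ (univ : Finset (Fin 3)).card := card_filter_le _ _
      simp at this
      omega
    have h4 : act m l = univ := by
      apply eq_univ_of_card
      simpa using h3
    have h5 : ∀ i, l ∣ m i := fun i => by
      have : i ∈ act m l := by rw [h4]; exact mem_univ _
      exact (mem_filter.mp this).2
    exact H.two l hl ⟨h5 0, h5 1, h5 2⟩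
  have hG : (1 : ℝ) ≤ (if l ∣ g then (l : ℝ) else 1) := by split_ifs <;> simp [hl1]
  rw [prod_const]
  rcases Nat.lt_or_ge (act m l).card 2 with h | h
  · have hp : (l : ℝ) ^ (act m l).card ≤ l := by
      calc (l : ℝ) ^ (act m l).card ≤ (l : ℝ) ^ 1 := pow_le_pow_right₀ hl1 (by omega)
        _ = l := pow_one _
    calc (Z.card : ℝ) * (l : ℝ) ^ (act m l).card ≤ (2 * (l : ℝ) ^ 2) * l := by gcongr
      _ = 2 * (l : ℝ) ^ 3 * 1 := by ring
      _ ≤ _ := by gcongr
  · have hc2 : (act m l).card = 2 := by omega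
    obtain ⟨i, j, hij, he⟩ := card_eq_two.mp hc2
    have hi' : l ∣ m i := by
      have : i ∈ act m l := by rw [he]; simp
      exact (mem_filter.mp this).2
    have hj' : l ∣ m j := by
      have : j ∈ act m l := by rw [he]; simp
      exact (mem_filter.mp this).2
    rw [hc2]
    by_cases hd : (l : ℤ) ∣ s i * t j - s j * t i
    · have hg : l ∣ g := H.dist i j hij l hl hi' hj' hd
      rw [if_pos hg]
      calc (Z.card : ℝ) * (l : ℝ) ^ 2 ≤ (2 * (l : ℝ) ^ 2) * (l : ℝ) ^ 2 := by gcongr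
        _ = _ := by ring
    · have hne : (s i : ZMod l) * (t j : ZMod l) - (s j : ZMod l) * (t i : ZMod l) ≠ 0 := by
        intro h0
        apply hd
        rw [← ZMod.intCast_zmod_eq_zero_iff_dvd]
        push_cast
        exact h0
      have := card_two h2 hxa hx0 (-1) hc (s i : ZMod l) (t i : ZMod l) (s j : ZMod l)
        (t j : ZMod l) hne Z (fun z hz => ⟨(hZ z hz).2 i hi', (hZ z hz).2 j hj', (hZ z hz).1⟩)
      rw [ZMod.card] at this
      have h3 : (Z.card : ℝ) ≤ 2 * l := by exact_mod_cast this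
      calc (Z.card : ℝ) * (l : ℝ) ^ 2 ≤ (2 * l) * (l : ℝ) ^ 2 := by gcongr
        _ = 2 * (l : ℝ) ^ 3 * 1 := by ring
        _ ≤ _ := by gcongr

/-! ### all primes -/

lemma mem_PS {a : ℤ} {m : Fin 3 → ℕ} {s t : Fin 3 → ℤ} {g : ℕ} (H : Pts a m s t g) {l : ℕ} :
    l ∈ PS m ↔ l.Prime ∧ ∃ i, l ∣ m i := by
  have h0 : ∀ i, m i ≠ 0 := fun i => (H.sqf i).ne_zero
  unfold PS
  rw [Nat.mem_primeFactors]
  constructor
  · rintro ⟨hp, hd, -⟩
    refine ⟨hp, ?_⟩
    rcases (hp.dvd_mul.mp hd) with h | h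
    · rcases (hp.dvd_mul.mp h) with h | h
      · exact ⟨0, h⟩
      · exact ⟨1, h⟩
    · exact ⟨2, h⟩
  · rintro ⟨hp, i, hi⟩
    refine ⟨hp, ?_, mul_ne_zero (mul_ne_zero (h0 0) (h0 1)) (h0 2)⟩
    fin_cases i
    · exact (hi.mul_right _).mul_right _
    · exact (hi.mul_left _).mul_right _
    · exact hi.mul_left _

/-- the classes satisfying all conditions: upper bound -/
theorem card_red_le {a A B C : ℤ} (hF : A * C - B ^ 2 = a) {m : Fin 3 → ℕ} {s t : Fin 3 → ℤ}
    {g : ℕ} (H : Pts a m s t g) (hg : 0 < g)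
    (R : Finset ((ZMod (md (PS m)) × ZMod (md (PS m))) × (ZMod (md (PS m)) × ZMod (md (PS m)))))
    (hR : ∀ z ∈ R, ∀ i : PS m, LC A B C m s t i (red (PS m) (PS_pairwise m) z i)) :
    (R.card : ℝ) * (m 0 * m 1 * m 2) ≤ 2 ^ (PS m).card * ((md (PS m) : ℕ) : ℝ) ^ 3 * g := by
  classical
  have : ∀ i : PS m, Fintype (ZMod (i : ℕ)) := fun i =>
    have : NeZero (i : ℕ) := ⟨((mem_PS H).mp i.2).1.ne_zero⟩
    ZMod.fintype _
  let T : (i : PS m) → Finset ((ZMod (i : ℕ) × ZMod (i : ℕ)) × (ZMod (i : ℕ) × ZMod (i : ℕ))) :=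
    fun i => univ.filter (fun z => LC A B C m s t i z)
  have h1 : R.card ≤ (Fintype.piFinset T).card := by
    refine card_le_card_of_injOn (red (PS m) (PS_pairwise m)) ?_
      ((red_inj (PS m) (PS_pairwise m)).injOn)
    intro z hz
    rw [mem_coe, Fintype.mem_piFinset]
    intro i
    simp only [T, mem_filter, mem_univ, true_and]
    exact hR z hz i
  rw [Fintype.card_piFinset] at h1
  have h2 : (R.card : ℝ) ≤ ∏ i : PS m, ((T i).card : ℝ) := by exact_mod_cast h1
  -- the moduli as products over the primes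
  have hm : ∀ j : Fin 3, (m j : ℝ) = ∏ i : PS m, (if (i : ℕ) ∣ m j then ((i : ℕ) : ℝ) else 1) := by
    intro j
    rw [Finset.prod_coe_sort (PS m) (fun i => if i ∣ m j then (i : ℝ) else 1),
      ← Finset.prod_filter]
    have e : (PS m).filter (fun i => i ∣ m j) = (m j).primeFactors := by
      ext l
      rw [mem_filter, mem_PS H, Nat.mem_primeFactors]
      constructor
      · rintro ⟨⟨hp, -⟩, h⟩; exact ⟨hp, h, (H.sqf j).ne_zero⟩
      · rintro ⟨hp, h, -⟩; exact ⟨⟨hp, j, h⟩, h⟩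
    rw [e, ← Nat.cast_prod, Nat.prod_primeFactors_of_squarefree (H.sqf j)]
  have hmm : ((m 0 : ℝ) * m 1 * m 2) = ∏ i : PS m, ∏ _j ∈ act m i, ((i : ℕ) : ℝ) := by
    rw [hm 0, hm 1, hm 2, ← Finset.prod_mul_distrib, ← Finset.prod_mul_distrib]
    refine Finset.prod_congr rfl fun i _ => ?_
    unfold act
    rw [Finset.prod_filter, Fin.prod_univ_three]
  have hgg : ∏ i : PS m, (if (i : ℕ) ∣ g then ((i : ℕ) : ℝ) else 1) ≤ g := by
    rw [Finset.prod_coe_sort (PS m) (fun i => if i ∣ g then (i : ℝ) else 1),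
      ← Finset.prod_filter, ← Nat.cast_prod]
    have : ∏ i ∈ (PS m).filter (fun i => i ∣ g), i ∣ g := by
      refine Finset.prod_primes_dvd g (fun l hl => ?_) (fun l hl => (mem_filter.mp hl).2)
      exact ((mem_PS H).mp (mem_filter.mp hl).1).1.prime
    exact_mod_cast Nat.le_of_dvd hg this
  have hq : ((md (PS m) : ℕ) : ℝ) = ∏ i : PS m, ((i : ℕ) : ℝ) := by
    rw [md, Nat.cast_prod]
  have hcard : (2 : ℝ) ^ (PS m).card = ∏ _i : PS m, (2 : ℝ) := by
    rw [Finset.prod_const, card_univ, Fintype.card_coe]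
  calc (R.card : ℝ) * (m 0 * m 1 * m 2)
      ≤ (∏ i : PS m, ((T i).card : ℝ)) * ∏ i : PS m, ∏ _j ∈ act m i, ((i : ℕ) : ℝ) := by
        rw [hmm]
        exact mul_le_mul_of_nonneg_right h2 (prod_nonneg fun _ _ => prod_nonneg fun _ _ => by
          positivity)
    _ = ∏ i : PS m, (((T i).card : ℝ) * ∏ _j ∈ act m i, ((i : ℕ) : ℝ)) := by
        rw [Finset.prod_mul_distrib]
    _ ≤ ∏ i : PS m, (2 * ((i : ℕ) : ℝ) ^ 3 * (if (i : ℕ) ∣ g then ((i : ℕ) : ℝ) else 1)) := by
        refine Finset.prod_le_prod (fun i _ => by positivity) (fun i _ => ?_)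
        obtain ⟨hp, hex⟩ := (mem_PS H).mp i.2
        refine card_LC hF H hp hex (T i) (fun z hz => ?_)
        simp only [T, mem_filter, mem_univ, true_and] at hz
        exact hz
    _ = (2 ^ (PS m).card * ((md (PS m) : ℕ) : ℝ) ^ 3) *
        ∏ i : PS m, (if (i : ℕ) ∣ g then ((i : ℕ) : ℝ) else 1) := by
        rw [hcard, hq, ← Finset.prod_pow, ← Finset.prod_mul_distrib, ← Finset.prod_mul_distrib]
    _ ≤ _ := by gcongr

end Pool.Agent.Lib.MP391708.TA.NG
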