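import Mathlib

/-!
# T1a: reduction of positive definite binary forms with integral Gram matrix
-/

set_option autoImplicit false

namespace Pool.Agent.Lib.MP391708.TA.Red

/-- the Gram matrix `(A, B; B, C)` of determinant `a` is reduced -/
def IsRed (a A B C : ℤ) : Prop := 0 < A ∧ 2 * |B| ≤ A ∧ A ≤ C ∧ A * C - B ^ 2 = a

lemma IsRed.bound {a A B C : ℤ} (h : IsRed a A B C) : 3 * A ^ 2 ≤ 4 * a ∧ C ≤ 2 * a := by
  obtain ⟨h1, h2, h3, h4⟩ := h
  have h5 : 4 * B ^ 2 ≤ A ^ 2 := by
    have := abs_nonneg B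
    have h6 : (2 * |B|) ^ 2 ≤ A ^ 2 := pow_le_pow_left₀ (by positivity) h2 2
    rw [mul_pow, sq_abs] at h6
    linarith
  constructor
  · nlinarith
  · nlinarith

/-- the value of the form with Gram matrix `(A, B; B, C)` -/
def q (A B C : ℤ) (v : ℤ × ℤ) : ℤ := A * v.1 ^ 2 + 2 * B * v.1 * v.2 + C * v.2 ^ 2

/-- the bilinear form -/
def bil (A B C : ℤ) (v w : ℤ × ℤ) : ℤ :=
  A * v.1 * w.1 + B * (v.1 * w.2 + v.2 * w.1) + C * v.2 * w.2

lemma round_exists (M V : ℤ) (hV : 0 < V) : ∃ k : ℤ, 2 * |M - k * V| ≤ V := by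
  refine ⟨(2 * M + V) / (2 * V), ?_⟩
  have h1 := Int.emod_add_mul_ediv (2 * M + V) (2 * V)
  have h2 := Int.emod_nonneg (2 * M + V) (by omega : 2 * V ≠ 0)
  have h3 := Int.emod_lt_of_pos (2 * M + V) (by omega : 0 < 2 * V)
  set k := (2 * M + V) / (2 * V) with hk
  set r := (2 * M + V) % (2 * V) with hr
  have h4 : 2 * (M - k * V) = r - V := by linarith
  rcases abs_cases (M - k * V) with ⟨h5, -⟩ | ⟨h5, -⟩ <;> rw [h5] <;> linarith

/-- **reduction**: every positive integral Gram matrix of determinant `a` is `SL₂(ℤ)`-equivalent to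
a reduced one -/
theorem exists_red (a : ℤ) (ha : 0 < a) : ∀ (n : ℕ) (V M W : ℤ), V.toNat ≤ n → 0 < V →
    V * W - M ^ 2 = a → ∃ A B C : ℤ, IsRed a A B C ∧ ∃ v w : ℤ × ℤ,
      v.1 * w.2 - v.2 * w.1 = 1 ∧ q A B C v = V ∧ bil A B C v w = M ∧ q A B C w = W := by
  intro n
  induction n with
  | zero =>
    intro V M W h1 h2
    omega
  | succ n ih =>
    intro V M W hn hV h
    obtain ⟨k, hk⟩ := round_exists M V hV
    set M' := M - k * V with hM'
    set W' := W - 2 * k * M + k ^ 2 * V with hW'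
    have h' : V * W' - M' ^ 2 = a := by rw [hM', hW', ← h]; ring
    by_cases hVW : V ≤ W'
    · refine ⟨V, M', W', ⟨hV, hk, hVW, h'⟩, (1, 0), (k, 1), by norm_num, ?_, ?_, ?_⟩
      · simp [q]
      · simp only [bil, hM']; ring
      · simp only [q, hM', hW']; ring
    · have hW0 : 0 < W' := by
        have : 0 < V * W' := by nlinarith [sq_nonneg M']
        exact (mul_pos_iff_of_pos_left hV).mp this
      obtain ⟨A, B, C, hR, v, w, hc, e1, e2, e3⟩ := ih W' (-M') V (by omega) hW0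
        (by rw [← h']; ring)
      -- `(v, w)` for `(W', -M', V)`; then `(-w, v)` is `(V, M', W')`... and undo the shift
      refine ⟨A, B, C, hR, (-w.1, -w.2), (v.1 - k * w.1, v.2 - k * w.2), ?_, ?_, ?_, ?_⟩
      · simp only; linarith
      · simp only [q] at e3 ⊢; linarith
      · simp only [q, bil] at e1 e2 e3 ⊢
        have : M = M' + k * V := by rw [hM']; ring
        rw [this, ← e3]
        have e2' : M' = -(A * v.1 * w.1 + B * (v.1 * w.2 + v.2 * w.1) + C * v.2 * w.2) := by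
          linarith
        rw [e2']; ring
      · simp only [q, bil] at e1 e2 e3 ⊢
        have : W = W' + 2 * k * M' + k ^ 2 * V := by rw [hM', hW']; ring
        rw [this]
        have e2' : M' = -(A * v.1 * w.1 + B * (v.1 * w.2 + v.2 * w.1) + C * v.2 * w.2) := by
          linarith
        rw [e2', ← e1, ← e3]; ring

/-- the finite set of reduced Gram matrices -/
noncomputable def reds (a : ℤ) : Finset (ℤ × ℤ × ℤ) := by
  classical
  exact (Finset.Icc (-(2 * a)) (2 * a) ×ˢ Finset.Icc (-(2 * a)) (2 * a) ×ˢ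
    Finset.Icc (-(2 * a)) (2 * a)).filter (fun t => IsRed a t.1 t.2.1 t.2.2)

lemma mem_reds {a A B C : ℤ} (h : IsRed a A B C) : (A, B, C) ∈ reds a := by
  classical
  have hb := h.bound
  obtain ⟨h1, h2, h3, h4⟩ := h
  have hB := abs_nonneg B
  have hB1 := neg_abs_le B
  have hB2 := le_abs_self B
  simp only [reds, Finset.mem_filter, Finset.mem_product, Finset.mem_Icc]
  refine ⟨⟨⟨by omega, by omega⟩, ⟨by omega, by omega⟩, ⟨by omega, by omega⟩⟩, h1, h2, h3, h4⟩

end Pool.Agent.Lib.MP391708.TA.Red
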