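import Pool.Agent.Lib.MP_391708_nt.T1.NGC
import Pool.Agent.Lib.MP_391708_nt.TA.NGL
import Pool.Agent.Lib.MP_391708_nt.TA.Red

/-!
# T1a, group NG: number of pairs `(M, V)`, `V ∣ M² + a`, with conditions at small moduli
-/

set_option autoImplicit false
set_option maxHeartbeats 4000000

namespace Pool.Agent.Lib.MP391708.TA.NG

open Finset
open Pool.Agent.Lib.MP391708.Eqd
open Pool.Agent.Lib.MP391708.Eqd.Loc
open Pool.Agent.Lib.MP391708.T1 (sl Bd)
open Pool.Agent.Lib.MP391708.T1.NG (PS PS_pairwise qf tent tent_supp tent_one tent_le_one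
  tent_nonneg win bd sl_card_ge totient_ge)
open Pool.Agent.Lib.MP391708.TA.Red (IsRed bil reds mem_reds exists_red)
open scoped Classical

/-- the region: `T₁(d) < M ≤ T₂(d)`, `d = F(v)`, `M = B_F(v, w)` -/
def RegF (A B C : ℤ) (T₁ T₂ : ℝ → ℝ) (x : V × V) : Prop :=
  T₁ (Red.q A B C x.1) < (bil A B C x.1 x.2 : ℝ) ∧ (bil A B C x.1 x.2 : ℝ) ≤ T₂ (Red.q A B C x.1)

/-- EQUID for the form `F` -/
def EquidF (A B C : ℤ) : Prop :=
  ∀ L : ℝ, 1 ≤ L → ∃ K : ℝ, ∀ X Y : ℝ, 1 ≤ Y → Y ≤ L * X → ∀ T₁ T₂ : ℝ → ℝ, Bd L X Y T₁ T₂ →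
    ∀ M : ℕ, K * (X + 1) ^ 2 ≤ M → ∀ (q : ℕ) [NeZero q], ∀ r ∈ sl q,
      |(((pairs 1 M).filter (fun x => RegF A B C T₁ T₂ x ∧ res q x = r)).card : ℝ) -
        (((pairs 1 M).filter (RegF A B C T₁ T₂)).card : ℝ) / ((sl q).card : ℝ)| ≤
        K * (q : ℝ) ^ 8 * X * Y ^ (-(1 / 20) : ℝ)

/-- **CNT** -/
def CNT (a : ℕ) : Prop :=
  ∀ c₁ C₁ : ℝ, 0 < c₁ → c₁ < C₁ →
    ∃ K : ℝ, 0 < K ∧ ∀ N Y : ℝ, 1 ≤ N → 1 ≤ Y → Y ≤ C₁ * N →
      ∀ (m : Fin 3 → ℕ) (s t : Fin 3 → ℤ) (g : ℕ), Pts (a : ℤ) m s t g → 0 < g →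
      ∀ S : Finset (ℕ × ℕ), (∀ x ∈ S, c₁ * N < x.1 ∧ (x.1 : ℝ) ≤ C₁ * N ∧ Y ≤ x.2 ∧
        (x.2 : ℝ) ≤ 2 * Y ∧ x.2 ∣ x.1 ^ 2 + a ∧
        ∀ i, (m i : ℤ) ∣ qf x.1 x.2 ((x.1 ^ 2 + a) / x.2 : ℕ) (s i) (t i)) →
      (S.card : ℝ) ≤ K * N * (4 ^ (PS m).card * g / (m 0 * m 1 * m 2)) +
        K * (md (PS m) : ℝ) ^ 12 * (N * Y ^ (-(1 / 20) : ℝ))

section form

variable {a A B C : ℤ}

lemma qf_bil (x : V × V) (s t : ℤ) :
    qf (bil A B C x.1 x.2) (Red.q A B C x.1) (Red.q A B C x.2) s t = qn A B C s t x := by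
  simp only [qf, bil, Red.q, qn]; ring

lemma q_mul (v w : V) : Red.q A B C v * Red.q A B C w =
    bil A B C v w ^ 2 + (A * C - B ^ 2) * cross v w ^ 2 := by
  simp only [Red.q, bil, cross]; ring

/-- the form is comparable with `v₁² + v₂²` -/
lemma q_le (hA : 0 < A) (ha : 0 < a) (hF : A * C - B ^ 2 = a) (v : V) :
    Red.q A B C v ≤ (A + C) * nsq v := by
  have hC : 0 < C := by
    by_contra h
    push Not at h
    nlinarith [sq_nonneg B]
  have h1 : (A + C) * nsq v - Red.q A B C v = C * v.1 ^ 2 - 2 * B * v.1 * v.2 + A * v.2 ^ 2 := by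
    simp only [nsq, Red.q]; ring
  have h2 : A * (C * v.1 ^ 2 - 2 * B * v.1 * v.2 + A * v.2 ^ 2) =
      (A * v.2 - B * v.1) ^ 2 + a * v.1 ^ 2 := by rw [← hF]; ring
  have h3 : 0 ≤ A * (C * v.1 ^ 2 - 2 * B * v.1 * v.2 + A * v.2 ^ 2) := by
    rw [h2]; positivity
  have h4 : 0 ≤ C * v.1 ^ 2 - 2 * B * v.1 * v.2 + A * v.2 ^ 2 := nonneg_of_mul_nonneg_right h3 hA
  linarith

lemma le_q (_hA : 0 < A) (ha : 0 < a) (hF : A * C - B ^ 2 = a) (v : V) :
    nsq v ≤ (A + C) * Red.q A B C v := by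
  have e1 : A * Red.q A B C v = (A * v.1 + B * v.2) ^ 2 + a * v.2 ^ 2 := by
    rw [← hF]; simp only [Red.q]; ring
  have e2 : C * Red.q A B C v = (B * v.1 + C * v.2) ^ 2 + a * v.1 ^ 2 := by
    rw [← hF]; simp only [Red.q]; ring
  have h1 : a * nsq v ≤ (A + C) * Red.q A B C v := by
    have : (A + C) * Red.q A B C v = (A * v.1 + B * v.2) ^ 2 + (B * v.1 + C * v.2) ^ 2 +
        a * nsq v := by
      rw [add_mul, e1, e2]; simp only [nsq]; ring
    rw [this]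
    nlinarith [sq_nonneg (A * v.1 + B * v.2), sq_nonneg (B * v.1 + C * v.2)]
  have h2 : 0 ≤ nsq v := nsq_nonneg v
  nlinarith

/-- total number of pairs in the region -/
lemma totalF (hA : 0 < A) (ha : 0 < a) (hF : A * C - B ^ 2 = a) (c₁ C₁ : ℝ) (hc : 0 < c₁)
    (hcC : c₁ < C₁) :
    ∃ Ct : ℝ, 0 < Ct ∧ ∀ N Y : ℝ, 1 ≤ N → 1 ≤ Y → ∀ M : ℕ,
      (((pairs 1 M).filter
        (RegF A B C (fun _ => c₁ * N) (fun s => c₁ * N + C₁ * N * tent Y s))).card : ℝ)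
        ≤ Ct * N := by
  obtain ⟨K, hK⟩ := specFirst 1 one_pos
  have hK1 : 0 < K := hK.1
  have hC : 0 < C := by
    by_contra h
    push Not at h
    nlinarith [sq_nonneg B]
  set κ : ℝ := ((A + C : ℤ) : ℝ) with hκ
  have hκ1 : 1 ≤ κ := by
    have : 1 ≤ A + C := by omega
    rw [hκ]; exact_mod_cast this
  have hκ0 : 0 < κ := by linarith
  have har : (1 : ℝ) ≤ a := by
    have : 1 ≤ a := ha
    exact_mod_cast this
  set X1 : ℝ := c₁ + C₁ + a with hX1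
  have hX1p : 1 ≤ X1 := by linarith
  set X0 : ℝ := κ * X1 with hX0
  have hX0pos : 1 ≤ X0 := by nlinarith
  obtain ⟨n, hn⟩ := exists_nat_ge (Real.log (8 * κ * X0 / c₁))
  refine ⟨(n + 1) * (K * X0), by positivity, fun N Y hN hY M => ?_⟩
  have hN0 : 0 < N := by linarith
  have hY0 : 0 < Y := by linarith
  have hXN : 1 ≤ X0 * N := by nlinarith
  refine le_trans ?_ ((win hK.2 hXN M n (Real.log (c₁ * N / (4 * κ * Y)))).trans
    (le_of_eq (by ring)))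
  refine Nat.cast_le.mpr (card_le_card ?_)
  intro x hx
  rw [mem_filter] at hx ⊢
  obtain ⟨hx0, hx1, hx2⟩ := hx
  simp only at hx1 hx2
  refine ⟨hx0, ?_⟩
  have hcr := (mem_pairs.mp hx0).2
  obtain ⟨hv, hw⟩ := nsq_pos_of_cross one_pos hcr
  have hv' : (0 : ℝ) < nsq x.1 := by exact_mod_cast hv
  have hw' : (0 : ℝ) < nsq x.2 := by exact_mod_cast hw
  set p : ℝ := (Red.q A B C x.1 : ℝ) with hp
  set r : ℝ := (Red.q A B C x.2 : ℝ) with hr
  set n1 : ℝ := (nsq x.1 : ℝ) with hn1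
  set n2 : ℝ := (nsq x.2 : ℝ) with hn2
  set μ : ℝ := (bil A B C x.1 x.2 : ℝ) with hμ
  have p1 : p ≤ κ * n1 := by rw [hp, hκ, hn1]; exact_mod_cast q_le hA ha hF x.1
  have p2 : n1 ≤ κ * p := by rw [hp, hκ, hn1]; exact_mod_cast le_q hA ha hF x.1
  have r1 : r ≤ κ * n2 := by rw [hr, hκ, hn2]; exact_mod_cast q_le hA ha hF x.2
  have r2 : n2 ≤ κ * r := by rw [hr, hκ, hn2]; exact_mod_cast le_q hA ha hF x.2
  have hprod : p * r = μ ^ 2 + a := by
    have h1 := q_mul (A := A) (B := B) (C := C) x.1 x.2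
    rw [hF, hcr] at h1
    have h2 : ((Red.q A B C x.1 * Red.q A B C x.2 : ℤ) : ℝ) =
        ((bil A B C x.1 x.2 ^ 2 + a * (-((1 : ℕ) : ℤ)) ^ 2 : ℤ) : ℝ) := by rw [h1]
    push_cast at h2
    rw [hp, hr, hμ]
    linarith
  have hp0 : 0 < p := by
    by_contra h
    push Not at h
    nlinarith
  have hr0 : 0 < r := by
    by_contra h
    push Not at h
    nlinarith
  have ht : 0 < tent Y p := by
    have : 0 < C₁ * N * tent Y p := by linarith
    exact (mul_pos_iff_of_pos_left (mul_pos (hc.trans hcC) hN0)).mp this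
  obtain ⟨hs1, hs2⟩ := tent_supp hY0 ht
  have hdot : μ ≤ (c₁ + C₁) * N := by
    have := tent_le_one Y p
    have h1 : C₁ * N * tent Y p ≤ C₁ * N * 1 :=
      mul_le_mul_of_nonneg_left this (by nlinarith)
    nlinarith
  have hd0 : 0 < μ := lt_trans (by positivity) hx1
  have hub : μ ^ 2 + a ≤ (X1 * N) ^ 2 := by
    have h1 : μ + a ≤ X1 * N := by rw [hX1]; nlinarith
    have h2 : (μ + a) ^ 2 ≤ (X1 * N) ^ 2 := pow_le_pow_left₀ (by linarith) h1 2
    have e1 : 0 ≤ 2 * μ * a := by positivity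
    have e2 : (a : ℝ) ≤ (a : ℝ) ^ 2 := by nlinarith
    have e3 : (μ + a) ^ 2 = μ ^ 2 + 2 * μ * a + (a : ℝ) ^ 2 := by ring
    linarith
  have hlb : (c₁ * N) ^ 2 ≤ p * r := by
    rw [hprod]
    have := pow_le_pow_left₀ (by positivity : 0 ≤ c₁ * N) hx1.le 2
    linarith
  have hpr : p * r ≤ (X1 * N) ^ 2 := by rw [hprod]; exact hub
  have hnn : n1 * n2 ≤ (X0 * N) ^ 2 := by
    calc n1 * n2 ≤ (κ * p) * (κ * r) := mul_le_mul p2 r2 hw'.le (by positivity)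
      _ = κ ^ 2 * (p * r) := by ring
      _ ≤ κ ^ 2 * (X1 * N) ^ 2 := by gcongr
      _ = _ := by rw [hX0]; ring
  have hscal : scal x ≤ X0 * N := by
    rw [scal]
    exact Real.sqrt_le_iff.mpr ⟨by positivity, hnn⟩
  refine ⟨hscal, ?_, ?_⟩
  · -- lower bound for the shape
    rw [shp]
    have h1 : (c₁ * N / (4 * κ * Y)) ^ 2 ≤ n2 / n1 := by
      rw [div_pow, div_le_div_iff₀ (by positivity) hv']
      calc (c₁ * N) ^ 2 * n1 ≤ (p * r) * n1 := by gcongr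
        _ ≤ (p * (κ * n2)) * (κ * p) := by gcongr
        _ = n2 * (κ ^ 2 * p ^ 2) := by ring
        _ ≤ n2 * (κ ^ 2 * (4 * Y) ^ 2) := by gcongr
        _ = n2 * (4 * κ * Y) ^ 2 := by ring
    have h2 : Real.log ((c₁ * N / (4 * κ * Y)) ^ 2) ≤ Real.log (n2 / n1) :=
      Real.log_le_log (by positivity) h1
    rw [Real.log_pow] at h2
    push_cast at h2
    linarith
  · rw [shp]
    have h1 : n2 / n1 ≤ (2 * (X0 * N) / Y) ^ 2 := by
      rw [div_pow, div_le_div_iff₀ hv' (by positivity)]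
      have hY2 : Y ≤ 2 * p := by linarith
      calc n2 * Y ^ 2 ≤ (κ * r) * (2 * p) ^ 2 := by gcongr
        _ = 4 * κ * (p * r) * p := by ring
        _ ≤ 4 * κ * (X1 * N) ^ 2 * (κ * n1) := by gcongr
        _ = (2 * (X0 * N)) ^ 2 * n1 := by rw [hX0]; ring
    have h2 : Real.log (n2 / n1) ≤ Real.log ((2 * (X0 * N) / Y) ^ 2) :=
      Real.log_le_log (by positivity) h1
    rw [Real.log_pow] at h2
    push_cast at h2
    have h3 : Real.log (2 * (X0 * N) / Y) =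
        Real.log (c₁ * N / (4 * κ * Y)) + Real.log (8 * κ * X0 / c₁) := by
      rw [← Real.log_mul (by positivity) (by positivity)]
      congr 1
      field_simp
      ring
    have h4 : Real.log (8 * κ * X0 / c₁) ≤ n + 1 := by linarith
    linarith

/-- the pairs represented by the form -/
def Rep (A B C : ℤ) (a : ℕ) (x : ℕ × ℕ) : Prop :=
  ∃ y : V × V, cross y.1 y.2 = -1 ∧ Red.q A B C y.1 = x.2 ∧ bil A B C y.1 y.2 = x.1 ∧
    Red.q A B C y.2 = ((x.1 ^ 2 + a) / x.2 : ℕ)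

lemma mem_box_of_nsq {M : ℕ} {v : V} (h : nsq v ≤ M) : v ∈ Eqd.box M := by
  have key : ∀ b : ℤ, b ^ 2 ≤ M → -(M : ℤ) ≤ b ∧ b ≤ M := by
    intro b hb
    constructor
    · nlinarith [sq_nonneg (b + 1), sq_nonneg b]
    · nlinarith [sq_nonneg (b - 1), sq_nonneg b]
  have h1 : v.1 ^ 2 ≤ M := by
    have : nsq v = v.1 ^ 2 + v.2 ^ 2 := by simp only [nsq]
    nlinarith [sq_nonneg v.2]
  have h2 : v.2 ^ 2 ≤ M := by
    have : nsq v = v.1 ^ 2 + v.2 ^ 2 := by simp only [nsq]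
    nlinarith [sq_nonneg v.1]
  unfold Eqd.box
  rw [mem_product, mem_Icc, mem_Icc]
  exact ⟨key _ h1, key _ h2⟩

/-- one form -/
theorem cntF {n : ℕ} (hn : 0 < n) (hA : 0 < A) (hF : A * C - B ^ 2 = (n : ℤ)) (hE : EquidF A B C)
    (c₁ C₁ : ℝ) (hc : 0 < c₁) (hcC : c₁ < C₁) :
    ∃ K : ℝ, 0 < K ∧ ∀ N Y : ℝ, 1 ≤ N → 1 ≤ Y → Y ≤ C₁ * N →
      ∀ (m : Fin 3 → ℕ) (s t : Fin 3 → ℤ) (g : ℕ), Pts (n : ℤ) m s t g → 0 < g →
      ∀ S : Finset (ℕ × ℕ), (∀ x ∈ S, c₁ * N < x.1 ∧ (x.1 : ℝ) ≤ C₁ * N ∧ Y ≤ x.2 ∧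
        (x.2 : ℝ) ≤ 2 * Y ∧ x.2 ∣ x.1 ^ 2 + n ∧
        ∀ i, (m i : ℤ) ∣ qf x.1 x.2 ((x.1 ^ 2 + n) / x.2 : ℕ) (s i) (t i)) →
      (∀ x ∈ S, Rep A B C n x) →
      (S.card : ℝ) ≤ K * N * (4 ^ (PS m).card * g / (m 0 * m 1 * m 2)) +
        K * (md (PS m) : ℝ) ^ 12 * (N * Y ^ (-(1 / 20) : ℝ)) := by
  have hnZ : (0 : ℤ) < n := by exact_mod_cast hn
  obtain ⟨Ct, hCt, htot⟩ := totalF hA hnZ hF c₁ C₁ hc hcC
  set L : ℝ := 4 + 4 * (c₁ + C₁) with hL
  have hL1 : 1 ≤ L := by rw [hL]; nlinarith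
  obtain ⟨K, hK⟩ := hE L hL1
  refine ⟨Ct + |K| + 1, by positivity, ?_⟩
  intro N Y hN hY hYN m s t g H hg S hS hSr
  have hN0 : 0 < N := by linarith
  have hY0 : 0 < Y := by linarith
  have hm0 : ∀ i, 0 < m i := fun i => Nat.pos_of_ne_zero (H.sqf i).ne_zero
  have hPS : ∀ p ∈ PS m, p.Prime := fun p hp => ((mem_PS H).mp hp).1
  set q : ℕ := md (PS m) with hq
  have hq0 : 0 < q := by
    rw [hq, md]; exact prod_pos fun i _ => (hPS i i.2).pos
  haveI : NeZero q := ⟨hq0.ne'⟩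
  obtain ⟨M, hM⟩ := exists_nat_ge (|K| * (N + 1) ^ 2 +
    ((A + C : ℤ) : ℝ) * ((C₁ * N) ^ 2 + n))
  have hAC : (0 : ℝ) ≤ ((A + C : ℤ) : ℝ) * ((C₁ * N) ^ 2 + n) := by
    have hC : 0 < C := by
      by_contra h
      push Not at h
      nlinarith [sq_nonneg B]
    have : (0 : ℝ) ≤ ((A + C : ℤ) : ℝ) := by exact_mod_cast (by omega : 0 ≤ A + C)
    positivity
  have hAC' : (0 : ℝ) ≤ ((A + C : ℤ) : ℝ) := by
    have hC : 0 < C := by
      by_contra h
      push Not at h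
      nlinarith [sq_nonneg B]
    exact_mod_cast (by omega : 0 ≤ A + C)
  have hK2 : 0 ≤ |K| * (N + 1) ^ 2 := by positivity
  have hM1 : K * (N + 1) ^ 2 ≤ M := by
    have := mul_le_mul_of_nonneg_right (le_abs_self K) (sq_nonneg (N + 1))
    linarith
  have hBd := bd (L := L) (N := N) (Y := Y) hc hcC hL.ge hN hY
  set T₁ : ℝ → ℝ := fun _ => c₁ * N with hT1
  set T₂ : ℝ → ℝ := fun s => c₁ * N + C₁ * N * tent Y s with hT2
  have hYL : Y ≤ L * N := hYN.trans (mul_le_mul_of_nonneg_right (by rw [hL]; linarith) hN0.le)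
  have hEq := hK N Y hY hYL T₁ T₂ hBd M hM1 q
  -- the admissible classes
  set R : Finset ((ZMod q × ZMod q) × (ZMod q × ZMod q)) :=
    (sl q).filter (fun z => ∀ i : PS m, LC A B C m s t i (red (PS m) (PS_pairwise m) z i)) with hR
  choose! φ hprops using hSr
  have hinj : Set.InjOn φ (S : Set (ℕ × ℕ)) := by
    intro x hx y hy hxy
    obtain ⟨-, h1, h2, -⟩ := hprops x hx
    obtain ⟨-, h3, h4, -⟩ := hprops y hy
    rw [hxy] at h1 h2
    exact Prod.ext (by exact_mod_cast h2.symm.trans h4) (by exact_mod_cast h1.symm.trans h3)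
  have hmaps : ∀ x ∈ S, φ x ∈ (pairs 1 M).filter (fun y => RegF A B C T₁ T₂ y ∧ res q y ∈ R) := by
    intro x hx
    obtain ⟨h4, h2, h1, h3⟩ := hprops x hx
    obtain ⟨g1, g2, g3, g4, g5, g6⟩ := hS x hx
    rw [mem_filter]
    refine ⟨?_, ⟨?_, ?_⟩, ?_⟩
    · have hx2 : 0 < x.2 := by
        have : (0 : ℝ) < x.2 := by linarith
        exact_mod_cast this
      have k0 : ((x.1 : ℤ) ^ 2 + n : ℤ) = x.2 * ((x.1 ^ 2 + n) / x.2 : ℕ) := by
        exact_mod_cast (Nat.mul_div_cancel' g5).symm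
      have k1 : 0 < ((x.1 ^ 2 + n) / x.2 : ℕ) :=
        Nat.div_pos (Nat.le_of_dvd (by positivity) g5) hx2
      have k3 : (((A + C) * ((x.1 : ℤ) ^ 2 + n) : ℤ) : ℝ) ≤ M := by
        refine le_trans ?_ hM
        have e2 : (x.1 : ℝ) ^ 2 ≤ (C₁ * N) ^ 2 := pow_le_pow_left₀ (Nat.cast_nonneg _) g2 2
        have e3 : ((A + C : ℤ) : ℝ) * ((x.1 : ℝ) ^ 2 + n) ≤
            ((A + C : ℤ) : ℝ) * ((C₁ * N) ^ 2 + n) :=
          mul_le_mul_of_nonneg_left (by linarith) hAC'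
        push_cast at e3 ⊢
        linarith
      have k4 : (A + C) * ((x.1 : ℤ) ^ 2 + n) ≤ M := by exact_mod_cast k3
      have kAC : 0 < A + C := by
        have hC : 0 < C := by
          by_contra h
          push Not at h
          nlinarith [sq_nonneg B]
        omega
      have kv : ∀ v : V, Red.q A B C v ≤ (x.1 : ℤ) ^ 2 + n → v ∈ Eqd.box M := by
        intro v hv
        refine mem_box_of_nsq ((le_q hA hnZ hF v).trans ?_)
        exact (mul_le_mul_of_nonneg_left hv kAC.le).trans k4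
      rw [mem_pairs]
      refine ⟨⟨kv _ ?_, kv _ ?_⟩, by simpa using h4⟩
      · rw [h2, k0]
        have : (1 : ℤ) ≤ ((x.1 ^ 2 + n) / x.2 : ℕ) := by exact_mod_cast k1
        have h0 : (0 : ℤ) ≤ x.2 := Int.natCast_nonneg _
        nlinarith
      · rw [h3, k0]
        have : (1 : ℤ) ≤ x.2 := by exact_mod_cast hx2
        have h0 : (0 : ℤ) ≤ ((x.1 ^ 2 + n) / x.2 : ℕ) := Int.natCast_nonneg _
        nlinarith
    · rw [h1]; exact_mod_cast g1
    · rw [h1, h2]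
      simp only [hT2]
      have : tent Y ((x.2 : ℤ) : ℝ) = 1 := by
        refine tent_one hY0 ?_ ?_ <;> push_cast <;> assumption
      rw [this]
      push_cast
      have : 0 ≤ c₁ * N := by positivity
      linarith
    · have hcr : (((φ x).1.1 : ZMod q)) * ((φ x).2.2 : ZMod q) -
          ((φ x).1.2 : ZMod q) * ((φ x).2.1 : ZMod q) = -1 := by
        have := congrArg (fun z : ℤ => (z : ZMod q)) h4
        simp only [cross] at this
        push_cast at this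
        exact this
      rw [hR, mem_filter]
      refine ⟨?_, ?_⟩
      · simp only [sl, mem_filter, mem_univ, true_and, res]
        exact hcr
      · intro i
        have hred : red (PS m) (PS_pairwise m) (res q (φ x)) i = res (i : ℕ) (φ x) := by
          have key : ∀ a : ℤ, (ZMod.prodEquivPi (fun i : PS m => (i : ℕ)) (PS_pairwise m)
              ((a : ZMod (∏ i : PS m, (i : ℕ)))) : (i : PS m) → ZMod (i : ℕ)) i =
              (a : ZMod (i : ℕ)) := by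
            intro a
            rw [map_intCast]
            rfl
          exact Prod.ext (Prod.ext (key _) (key _)) (Prod.ext (key _) (key _))
        rw [hred]
        refine ⟨?_, ?_⟩
        · have := congrArg (fun z : ℤ => (z : ZMod (i : ℕ))) h4
          simp only [cross] at this
          push_cast at this
          simp only [res]
          exact this
        · intro j hj
          have h6 := g6 j
          have h7 : ((i : ℕ) : ℤ) ∣ qf x.1 x.2 ((x.1 ^ 2 + n) / x.2 : ℕ) (s j) (t j) :=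
            (Int.natCast_dvd_natCast.mpr hj).trans h6
          rw [← h1, ← h2, ← h3, qf_bil] at h7
          have h8 := (ZMod.intCast_zmod_eq_zero_iff_dvd _ (i : ℕ)).mpr h7
          simp only [qn] at h8
          simp only [qn, res]
          push_cast at h8
          exact h8
  have hcard : S.card ≤ ((pairs 1 M).filter (fun y => RegF A B C T₁ T₂ y ∧ res q y ∈ R)).card :=
    card_le_card_of_injOn φ hmaps hinj
  have hfib : ((pairs 1 M).filter (fun y => RegF A B C T₁ T₂ y ∧ res q y ∈ R)).card =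
      ∑ r ∈ R, ((pairs 1 M).filter (fun y => RegF A B C T₁ T₂ y ∧ res q y = r)).card := by
    rw [card_eq_sum_card_fiberwise (f := res q) (t := R)]
    · refine sum_congr rfl fun r hr => ?_
      congr 1
      ext y
      simp only [mem_filter]
      constructor
      · rintro ⟨⟨a, b, c⟩, d⟩; exact ⟨a, b, d⟩
      · rintro ⟨a, b, d⟩; exact ⟨⟨a, b, by rw [d]; exact hr⟩, d⟩
    · intro y hy
      exact (mem_filter.mp hy).2.2
  have hbound : (S.card : ℝ) ≤ ∑ r ∈ R,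
      ((((pairs 1 M).filter (RegF A B C T₁ T₂)).card : ℝ) / ((sl q).card : ℝ) +
        K * (q : ℝ) ^ 8 * N * Y ^ (-(1 / 20) : ℝ)) := by
    calc (S.card : ℝ) ≤
          (((pairs 1 M).filter (fun y => RegF A B C T₁ T₂ y ∧ res q y ∈ R)).card : ℝ) := by
          exact_mod_cast hcard
      _ = ∑ r ∈ R,
          (((pairs 1 M).filter (fun y => RegF A B C T₁ T₂ y ∧ res q y = r)).card : ℝ) := by
          rw [hfib]; push_cast; rfl
      _ ≤ _ := by
          refine sum_le_sum fun r hr => ?_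
          have h1 := hEq r (mem_filter.mp hr).1
          have h2 := le_of_abs_le h1
          linarith
  rw [sum_const, nsmul_eq_mul] at hbound
  -- cardinalities
  have hAc := card_red_le hF H hg R (fun z hz i => (mem_filter.mp hz).2 i)
  have hsl := sl_card_ge q
  have hsqf : Squarefree q := by
    have : q = ∏ p ∈ PS m, p := by
      rw [hq, md]; exact Finset.prod_coe_sort (PS m) (fun i => i)
    rw [this]
    exact (Finset.squarefree_prod_of_pairwise_isCoprime (fun a ha b hb hab =>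
      (Nat.coprime_iff_isRelPrime.mp ((Nat.coprime_primes (hPS a ha) (hPS b hb)).mpr hab)))
      (fun p hp => (hPS p hp).squarefree))
  have hqpf : q.primeFactors = PS m := by
    have : q = ∏ p ∈ PS m, p := by
      rw [hq, md]; exact Finset.prod_coe_sort (PS m) (fun i => i)
    rw [this, Nat.primeFactors_prod hPS]
  have htt := totient_ge q hsqf
  rw [hqpf] at htt
  have hqR : (0 : ℝ) < q := by exact_mod_cast hq0
  have hslpos : (0 : ℝ) < ((sl q).card : ℝ) := by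
    have : (0 : ℝ) < (q.totient : ℝ) := by exact_mod_cast Nat.totient_pos.mpr hq0
    exact lt_of_lt_of_le (by positivity) hsl
  have hmpos : (0 : ℝ) < (m 0 : ℝ) * m 1 * m 2 := by
    have h0 : (0 : ℝ) < m 0 := by exact_mod_cast hm0 0
    have h1 : (0 : ℝ) < m 1 := by exact_mod_cast hm0 1
    have h2 : (0 : ℝ) < m 2 := by exact_mod_cast hm0 2
    positivity
  have hratio : (R.card : ℝ) / ((sl q).card : ℝ) ≤
      4 ^ (PS m).card * g / (m 0 * m 1 * m 2) := by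
    rw [div_le_div_iff₀ hslpos hmpos]
    have h1 : (q : ℝ) ^ 3 ≤ 2 ^ (PS m).card * ((sl q).card : ℝ) := by
      calc (q : ℝ) ^ 3 = q * (q : ℝ) ^ 2 := by ring
        _ ≤ (2 ^ (PS m).card * q.totient) * (q : ℝ) ^ 2 := by gcongr
        _ = 2 ^ (PS m).card * (q.totient * (q : ℝ) ^ 2) := by ring
        _ ≤ _ := by gcongr
    calc (R.card : ℝ) * (m 0 * m 1 * m 2) ≤ 2 ^ (PS m).card * (q : ℝ) ^ 3 * g := hAc
      _ ≤ 2 ^ (PS m).card * (2 ^ (PS m).card * ((sl q).card : ℝ)) * g := by gcongr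
      _ = 4 ^ (PS m).card * g * ((sl q).card : ℝ) := by
        have : (4 : ℝ) ^ (PS m).card = 2 ^ (PS m).card * 2 ^ (PS m).card := by
          rw [← mul_pow]; norm_num
        rw [this]; ring
  have hAq : (R.card : ℝ) ≤ (q : ℝ) ^ 4 := by
    have h1 : R.card ≤ (univ : Finset ((ZMod q × ZMod q) × (ZMod q × ZMod q))).card :=
      card_le_card (subset_univ _)
    rw [card_univ, Fintype.card_prod, Fintype.card_prod, ZMod.card] at h1
    calc (R.card : ℝ) ≤ ((q * q * (q * q) : ℕ) : ℝ) := by exact_mod_cast h1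
      _ = (q : ℝ) ^ 4 := by push_cast; ring
  have hTot := htot N Y hN hY M
  have hYp : 0 ≤ Y ^ (-(1 / 20) : ℝ) := Real.rpow_nonneg hY0.le _
  calc (S.card : ℝ) ≤ R.card * ((((pairs 1 M).filter (RegF A B C T₁ T₂)).card : ℝ) /
          ((sl q).card : ℝ) + K * (q : ℝ) ^ 8 * N * Y ^ (-(1 / 20) : ℝ)) := hbound
    _ = (R.card / ((sl q).card : ℝ)) * (((pairs 1 M).filter (RegF A B C T₁ T₂)).card : ℝ) +
        R.card * (K * (q : ℝ) ^ 8 * (N * Y ^ (-(1 / 20) : ℝ))) := by ring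
    _ ≤ (4 ^ (PS m).card * g / (m 0 * m 1 * m 2)) * (Ct * N) +
        (q : ℝ) ^ 4 * (|K| * (q : ℝ) ^ 8 * (N * Y ^ (-(1 / 20) : ℝ))) := by
        refine add_le_add ?_ ?_
        · exact mul_le_mul hratio hTot (Nat.cast_nonneg _) (by positivity)
        · refine (mul_le_mul_of_nonneg_left ?_ (Nat.cast_nonneg _)).trans
            (mul_le_mul_of_nonneg_right hAq (by positivity))
          gcongr
          exact le_abs_self K
    _ ≤ _ := by
        have e1 : 0 ≤ 4 ^ (PS m).card * (g : ℝ) / (m 0 * m 1 * m 2) * N := by positivity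
        have e2 : 0 ≤ (q : ℝ) ^ 12 * (N * Y ^ (-(1 / 20) : ℝ)) := by positivity
        have e3 := abs_nonneg K
        nlinarith

end form

/-! ### all forms of determinant `a` -/

/-- every pair is represented by a reduced form -/
lemma exists_rep {a : ℕ} (ha : 0 < a) {x : ℕ × ℕ} (hx0 : 0 < x.2) (hx : x.2 ∣ x.1 ^ 2 + a) :
    ∃ u ∈ reds (a : ℤ), Rep u.1 u.2.1 u.2.2 a x := by
  have haZ : (0 : ℤ) < a := by exact_mod_cast ha
  have h0 : (x.2 : ℤ) * ((x.1 ^ 2 + a) / x.2 : ℕ) - (-(x.1 : ℤ)) ^ 2 = a := by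
    have : (x.2 : ℤ) * ((x.1 ^ 2 + a) / x.2 : ℕ) = (x.1 : ℤ) ^ 2 + a := by
      exact_mod_cast Nat.mul_div_cancel' hx
    rw [this]
    ring
  obtain ⟨A, B, C, hR, v, w, hc, e1, e2, e3⟩ := exists_red (a : ℤ) haZ _ (x.2 : ℤ) (-(x.1 : ℤ))
    (((x.1 ^ 2 + a) / x.2 : ℕ) : ℤ) le_rfl (by exact_mod_cast hx0) h0
  refine ⟨(A, B, C), mem_reds hR, (v, (-w.1, -w.2)), ?_, e1, ?_, ?_⟩
  · simp only [cross]; linarith
  · simp only [bil] at e2 ⊢; linarith
  · simp only [Red.q] at e3 ⊢; linarith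

/-- **CNT** from EQUID for the reduced forms -/
theorem cntA {a : ℕ} (ha : 0 < a)
    (hE : ∀ A B C : ℤ, 0 < A → A * C - B ^ 2 = (a : ℤ) → EquidF A B C) : CNT a := by
  intro c₁ C₁ hc hcC
  have hred : ∀ u ∈ reds (a : ℤ), 0 < u.1 ∧ u.1 * u.2.2 - u.2.1 ^ 2 = (a : ℤ) := by
    intro u hu
    simp only [reds, mem_filter] at hu
    exact ⟨hu.2.1, hu.2.2.2.2⟩
  have hone : ∀ u : ℤ × ℤ × ℤ, ∃ K : ℝ, 0 < K ∧ (u ∈ reds (a : ℤ) →
      ∀ N Y : ℝ, 1 ≤ N → 1 ≤ Y → Y ≤ C₁ * N →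
      ∀ (m : Fin 3 → ℕ) (s t : Fin 3 → ℤ) (g : ℕ), Pts (a : ℤ) m s t g → 0 < g →
      ∀ S : Finset (ℕ × ℕ), (∀ x ∈ S, c₁ * N < x.1 ∧ (x.1 : ℝ) ≤ C₁ * N ∧ Y ≤ x.2 ∧
        (x.2 : ℝ) ≤ 2 * Y ∧ x.2 ∣ x.1 ^ 2 + a ∧
        ∀ i, (m i : ℤ) ∣ qf x.1 x.2 ((x.1 ^ 2 + a) / x.2 : ℕ) (s i) (t i)) →
      (∀ x ∈ S, Rep u.1 u.2.1 u.2.2 a x) →
      (S.card : ℝ) ≤ K * N * (4 ^ (PS m).card * g / (m 0 * m 1 * m 2)) +
        K * (md (PS m) : ℝ) ^ 12 * (N * Y ^ (-(1 / 20) : ℝ))) := by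
    intro u
    by_cases hu : u ∈ reds (a : ℤ)
    · obtain ⟨h1, h2⟩ := hred u hu
      obtain ⟨K, hK, h⟩ := cntF ha h1 h2 (hE _ _ _ h1 h2) c₁ C₁ hc hcC
      exact ⟨K, hK, fun _ => h⟩
    · exact ⟨1, one_pos, fun h => absurd h hu⟩
  choose K hK0 hK using hone
  refine ⟨∑ u ∈ reds (a : ℤ), K u + 1, add_pos_of_nonneg_of_pos
    (sum_nonneg fun u _ => (hK0 u).le) one_pos, ?_⟩
  intro N Y hN hY hYN m s t g H hg S hS
  have hN0 : 0 < N := by linarith
  have hY0 : 0 < Y := by linarith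
  have hsub : S ⊆ (reds (a : ℤ)).biUnion (fun u => S.filter (Rep u.1 u.2.1 u.2.2 a)) := by
    intro x hx
    obtain ⟨-, -, h3, -, h5, -⟩ := hS x hx
    have hx0 : 0 < x.2 := by
      have : (0 : ℝ) < x.2 := by linarith
      exact_mod_cast this
    obtain ⟨u, hu, hr⟩ := exists_rep ha hx0 h5
    exact mem_biUnion.mpr ⟨u, hu, mem_filter.mpr ⟨hx, hr⟩⟩
  have h1 : S.card ≤ ∑ u ∈ reds (a : ℤ), (S.filter (Rep u.1 u.2.1 u.2.2 a)).card :=
    (card_le_card hsub).trans card_biUnion_le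
  have e1 : 0 ≤ N * (4 ^ (PS m).card * (g : ℝ) / (m 0 * m 1 * m 2)) := by positivity
  have e2 : 0 ≤ (md (PS m) : ℝ) ^ 12 * (N * Y ^ (-(1 / 20) : ℝ)) := by positivity
  set P1 : ℝ := N * (4 ^ (PS m).card * (g : ℝ) / (m 0 * m 1 * m 2)) with hP1
  set P2 : ℝ := (md (PS m) : ℝ) ^ 12 * (N * Y ^ (-(1 / 20) : ℝ)) with hP2
  have h2 : (S.card : ℝ) ≤ ∑ u ∈ reds (a : ℤ), K u * (P1 + P2) := by
    calc (S.card : ℝ) ≤ ∑ u ∈ reds (a : ℤ), ((S.filter (Rep u.1 u.2.1 u.2.2 a)).card : ℝ) := by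
          exact_mod_cast h1
      _ ≤ _ := by
          refine sum_le_sum fun u hu => ?_
          refine (hK u hu N Y hN hY hYN m s t g H hg (S.filter (Rep u.1 u.2.1 u.2.2 a))
            (fun x hx => hS x (mem_filter.mp hx).1) (fun x hx => (mem_filter.mp hx).2)).trans ?_
          exact le_of_eq (by rw [hP1, hP2]; ring)
  rw [← sum_mul] at h2
  calc (S.card : ℝ) ≤ (∑ u ∈ reds (a : ℤ), K u) * (P1 + P2) := h2
    _ ≤ (∑ u ∈ reds (a : ℤ), K u + 1) * (P1 + P2) := by nlinarith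
    _ = _ := by rw [hP1, hP2]; ring

end Pool.Agent.Lib.MP391708.TA.NG
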