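import Pool.Agent.Lib.MP_391708_nt.TA.EqfQ
import Pool.Agent.Lib.MP_391708_nt.TA.NGC

/-!
# T1a: EQUID for positive definite forms, the shape of `TA/NGC.lean`
-/

set_option autoImplicit false

namespace Pool.Agent.Lib.MP391708.TA.NG

open Finset
open Pool.Agent.Lib.MP391708.Eqd (V cross pairs res)
open Pool.Agent.Lib.MP391708.T1 (sl Bd)
open Pool.Agent.Lib.MP391708.TA.Red (bil)
open scoped Classical

lemma regF_iff_regQ (A B C : ℤ) (T₁ T₂ : ℝ → ℝ) (x : V × V) :
    RegF A B C T₁ T₂ x ↔ TA.RegQ A B C T₁ T₂ x := by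
  have e1 : Red.q A B C x.1 = TA.qv A B C x.1 := by
    simp only [Red.q, TA.qv]
  have e2 : bil A B C x.1 x.2 = TA.qb A B C x.1 x.2 := by
    simp only [bil, TA.qb]
  unfold RegF TA.RegQ
  rw [e1, e2]

/-- **EQUID** for every positive definite form with integral Gram matrix -/
theorem equidF {A B C : ℤ} (hA : 0 < A) (hD : 0 < A * C - B ^ 2) : EquidF A B C := by
  intro L hL
  obtain ⟨K, hK⟩ := TA.specEquidQ A B C hA hD L hL
  refine ⟨K, ?_⟩
  intro X Y hY hX T₁ T₂ hB M hM q hq0 r hr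
  have h := hK X Y hY hX T₁ T₂ hB M hM q r hr
  have e1 : (pairs 1 M).filter (fun x => RegF A B C T₁ T₂ x ∧ res q x = r) =
      (pairs 1 M).filter (fun x => TA.RegQ A B C T₁ T₂ x ∧ res q x = r) := by
    apply filter_congr; intro x _; rw [regF_iff_regQ]
  have e2 : (pairs 1 M).filter (RegF A B C T₁ T₂) = (pairs 1 M).filter (TA.RegQ A B C T₁ T₂) := by
    apply filter_congr; intro x _; rw [regF_iff_regQ]
  rw [e1, e2]
  exact h

/-- **CNT** for every `a ≥ 1` -/
theorem cnt_all {a : ℕ} (ha : 0 < a) : CNT a :=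
  cntA ha fun A B C hA hF => equidF hA (by rw [hF]; exact_mod_cast ha)

end Pool.Agent.Lib.MP391708.TA.NG
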