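import Pool.Agent.Lib.MP_391708_nt.TA.Eqf

/-!
# T1a, EQUID: positive definite forms
-/

set_option autoImplicit false

namespace Pool.Agent.Lib.MP391708.TA

open Finset Filter Topology
open Pool.Agent.Lib.MP391708.Eqd Pool.Agent.Lib.MP391708.T1
open scoped Classical

/-- the region: `T₁(F(v)) < M ≤ T₂(F(v))`, `M = B_F(v, w)` -/
def RegQ (A B C : ℤ) (T₁ T₂ : ℝ → ℝ) (x : V × V) : Prop :=
  T₁ (qv A B C x.1) < (qb A B C x.1 x.2 : ℝ) ∧ (qb A B C x.1 x.2 : ℝ) ≤ T₂ (qv A B C x.1)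

/-- a positive definite form controls the size of its argument -/
lemma size_of_qr {A B C : ℤ} (_hA : 0 < A) (hD : 0 < A * C - B ^ 2) (a c : ℝ) :
    a ^ 2 ≤ (C : ℝ) * qr A B C a c ∧ c ^ 2 ≤ (A : ℝ) * qr A B C a c := by
  have hDR : (1 : ℝ) ≤ (A : ℝ) * C - B ^ 2 := by exact_mod_cast hD
  have e1 : (C : ℝ) * qr A B C a c = (A * C - B ^ 2) * a ^ 2 + (B * a + C * c) ^ 2 := by
    unfold qr; ring
  have e2 : (A : ℝ) * qr A B C a c = (A * C - B ^ 2) * c ^ 2 + (A * a + B * c) ^ 2 := by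
    unfold qr; ring
  rw [e1, e2]
  have h1 := mul_le_mul_of_nonneg_right hDR (sq_nonneg a)
  have h2 := mul_le_mul_of_nonneg_right hDR (sq_nonneg c)
  have h3 := sq_nonneg ((B : ℝ) * a + C * c)
  have h4 := sq_nonneg ((A : ℝ) * a + B * c)
  constructor <;> linarith

/-- the support -/
lemma sup_of_Bd {A B C : ℤ} (hA : 0 < A) (hC : 0 < C) (hD : 0 < A * C - B ^ 2) {N L X S : ℝ}
    (hAN : (A : ℝ) ≤ N) (hCN : (C : ℝ) ≤ N) (hN : 1 ≤ N) (hL : 1 ≤ L) (hS : 0 < S)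
    {T₁ T₂ : ℝ → ℝ} (hB : Bd L X (S ^ 2) T₁ T₂) (a c : ℝ)
    (hs : T₁ (qr A B C a c) < T₂ (qr A B C a c)) :
    |a| ≤ N * L * S ∧ |c| ≤ N * L * S ∧ S ^ 2 / L ≤ qr A B C a c ∧
      0 ≤ T₁ (qr A B C a c) ∧ T₂ (qr A B C a c) ≤ L * X := by
  obtain ⟨g1, g2, g3, g4⟩ := hB.supp _ hs
  obtain ⟨z1, z2⟩ := size_of_qr hA hD a c
  have hL0 : 0 < L := by linarith
  have hN0 : 0 < N := by linarith
  have hNL1 : 1 ≤ N * L := one_le_mul_of_one_le_of_one_le hN hL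
  have hq0 : 0 ≤ qr A B C a c := le_trans (by positivity) g1
  have key : ∀ z P : ℝ, P ≤ N → 0 ≤ P → z ^ 2 ≤ P * qr A B C a c → |z| ≤ N * L * S := by
    intro z P hP hP0 hz
    have hp : 0 ≤ N * L * S := by positivity
    have e1 : P * qr A B C a c ≤ N * (L * S ^ 2) := mul_le_mul hP g2 hq0 hN0.le
    have e2 : N * (L * S ^ 2) * 1 ≤ N * (L * S ^ 2) * (N * L) :=
      mul_le_mul_of_nonneg_left hNL1 (by positivity)
    have e3 : N * (L * S ^ 2) * (N * L) = (N * L * S) ^ 2 := by ring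
    have e4 : z ^ 2 ≤ (N * L * S) ^ 2 := by linarith
    exact abs_le_of_sq_le_sq e4 hp
  have hA' : (0 : ℝ) ≤ A := by exact_mod_cast hA.le
  have hC' : (0 : ℝ) ≤ C := by exact_mod_cast hC.le
  exact ⟨key a C hCN hC' z1, key c A hAN hA' z2, g1, g3, g4⟩

/-- the Lipschitz bound -/
lemma lip_of_Bd {A B C : ℤ} {N L S : ℝ} (hN : 1 ≤ N) (hL : 1 ≤ L) (hS : 0 < S)
    (hAN : |(A : ℝ)| ≤ N) (hBN : |(B : ℝ)| ≤ N) (hCN : |(C : ℝ)| ≤ N)
    {a c a' c' : ℝ} (g1 : |a| ≤ N * L * S) (g2 : |c| ≤ N * L * S)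
    (h1 : |a' - a| ≤ S) (h2 : |c' - c| ≤ S) :
    |qr A B C a' c' - qr A B C a c| ≤ 16 * N ^ 2 * L * S * (|a' - a| + |c' - c|) := by
  have hL0 : 0 < L := by linarith
  have hN0 : 0 < N := by linarith
  have hNL1 : 1 ≤ N * L := one_le_mul_of_one_le_of_one_le hN hL
  have hSS : 1 * S ≤ N * L * S := mul_le_mul_of_nonneg_right hNL1 hS.le
  rw [one_mul] at hSS
  have hP : 0 ≤ N * L * S := by positivity
  have b1 : |a'| ≤ 2 * (N * L * S) := by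
    calc |a'| = |(a' - a) + a| := by ring_nf
      _ ≤ |a' - a| + |a| := abs_add_le _ _
      _ ≤ _ := by linarith
  have b2 : |c'| ≤ 2 * (N * L * S) := by
    calc |c'| = |(c' - c) + c| := by ring_nf
      _ ≤ |c' - c| + |c| := abs_add_le _ _
      _ ≤ _ := by linarith
  have ee : 2 * N * (2 * L * S) = 4 * (N * L * S) := by ring
  have e := Eqf.qr_lip hN (by positivity : 0 < 2 * L * S) hAN hBN hCN (a := a) (c := c)
    (a' := a') (c' := c') (by rw [ee]; linarith) (by rw [ee]; linarith) (by rw [ee]; linarith)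
    (by rw [ee]; linarith)
  refine e.trans (le_of_eq ?_)
  ring

/-- the region of a form -/
lemma bdF_of_Bd {A B C : ℤ} (hA : 0 < A) (hC : 0 < C) (hD : 0 < A * C - B ^ 2) {N L L₂ X S : ℝ}
    (hAN : |(A : ℝ)| ≤ N) (hBN : |(B : ℝ)| ≤ N) (hCN : |(C : ℝ)| ≤ N) (hN : 1 ≤ N) (hL : 1 ≤ L)
    (hX : 0 < X) (hS : 0 < S) (hL₂ : L₂ = 16 * N ^ 2 * L ^ 2) (hLL : L ≤ L₂) (hNL : N * L ≤ L₂)
    {T₁ T₂ : ℝ → ℝ} (hB : Bd L X (S ^ 2) T₁ T₂) :
    BdF A B C L₂ X S (fun a c => T₁ (qr A B C a c)) (fun a c => T₂ (qr A B C a c)) := by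
  have hL0 : 0 < L := by linarith
  have hAN' := (le_abs_self (A : ℝ)).trans hAN
  have hCN' := (le_abs_self (C : ℝ)).trans hCN
  have hX' : 0 ≤ L * (X / S ^ 2) := by positivity
  refine ⟨?_, ?_, ?_⟩
  · intro a c a' c' hs h1 h2
    obtain ⟨g1, g2, -⟩ := sup_of_Bd hA hC hD hAN' hCN' hN hL hS hB a c hs
    refine (hB.lip₁ (qr A B C a' c') (qr A B C a c)).trans ?_
    refine (mul_le_mul_of_nonneg_left (lip_of_Bd hN hL hS hAN hBN hCN g1 g2 h1 h2) hX').trans ?_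
    rw [hL₂]
    apply le_of_eq
    field_simp
  · intro a c a' c' hs h1 h2
    obtain ⟨g1, g2, -⟩ := sup_of_Bd hA hC hD hAN' hCN' hN hL hS hB a c hs
    refine (hB.lip₂ (qr A B C a' c') (qr A B C a c)).trans ?_
    refine (mul_le_mul_of_nonneg_left (lip_of_Bd hN hL hS hAN hBN hCN g1 g2 h1 h2) hX').trans ?_
    rw [hL₂]
    apply le_of_eq
    field_simp
  · intro a c hs
    obtain ⟨g1, g2, g3, g4, g5⟩ := sup_of_Bd hA hC hD hAN' hCN' hN hL hS hB a c hs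
    have e2 : N * L * S ≤ L₂ * S := mul_le_mul_of_nonneg_right hNL hS.le
    refine ⟨g1.trans e2, g2.trans e2, ?_, g4, ?_⟩
    · refine le_trans ?_ g3
      exact div_le_div_of_nonneg_left (by positivity) hL0 hLL
    · exact g5.trans (mul_le_mul_of_nonneg_right hLL hX.le)

/-- **EQUID for positive definite forms** (all of them, imprimitive ones included). -/
def SpecEquidQ : Prop :=
  ∀ A B C : ℤ, 0 < A → 0 < A * C - B ^ 2 → ∀ L : ℝ, 1 ≤ L → ∃ K : ℝ, ∀ X Y : ℝ, 1 ≤ Y →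
    Y ≤ L * X → ∀ T₁ T₂ : ℝ → ℝ, Bd L X Y T₁ T₂ →
    ∀ M : ℕ, K * (X + 1) ^ 2 ≤ M → ∀ (q : ℕ) [NeZero q], ∀ r ∈ sl q,
      |(((pairs 1 M).filter (fun x => RegQ A B C T₁ T₂ x ∧ res q x = r)).card : ℝ) -
        (((pairs 1 M).filter (RegQ A B C T₁ T₂)).card : ℝ) / ((sl q).card : ℝ)| ≤
        K * (q : ℝ) ^ 8 * X * Y ^ (-(1 / 20) : ℝ)

lemma consts (K : ℝ) (hK : 0 < K) {N L : ℝ} (hN : 1 ≤ N) (hL : 1 ≤ L) :
    ∃ L₂ K₂ : ℝ, L₂ = 16 * N ^ 2 * L ^ 2 ∧ 1 ≤ L₂ ∧ L ≤ L₂ ∧ N * L ≤ L₂ ∧ N ≤ L₂ ∧ 0 < K₂ ∧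
      K * L₂ ^ 80 ≤ K₂ ∧ 4 * L₂ ^ 5 ≤ K₂ := by
  have hL0 : 0 < L := by linarith
  have hN0 : 0 < N := by linarith
  have hNL1 : 1 ≤ N * L := one_le_mul_of_one_le_of_one_le hN hL
  have e0 : N * L * 1 ≤ N * L * (N * L) := mul_le_mul_of_nonneg_left hNL1 (by positivity)
  have e1 : N * L ≤ 16 * N ^ 2 * L ^ 2 := by
    have : 16 * N ^ 2 * L ^ 2 = 16 * (N * L * (N * L)) := by ring
    rw [this]
    linarith
  have e2 : L ≤ N * L := by
    have := mul_le_mul_of_nonneg_right hN hL0.le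
    linarith
  have e3 : N ≤ N * L := by
    have := mul_le_mul_of_nonneg_left hL hN0.le
    linarith
  obtain ⟨L₂, hL₂⟩ : ∃ z, z = 16 * N ^ 2 * L ^ 2 := ⟨_, rfl⟩
  rw [← hL₂] at e1
  have h1 : 1 ≤ L₂ := by linarith
  have h2 : 0 < L₂ := by linarith
  exact ⟨L₂, K * L₂ ^ 80 + 4 * L₂ ^ 5, hL₂, h1, by linarith, e1, by linarith, by positivity,
    le_add_of_nonneg_right (by positivity), le_add_of_nonneg_left (by positivity)⟩

theorem specEquidQ : SpecEquidQ := by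
  obtain ⟨K, hK, h⟩ := specEquidF
  intro A B C hA hD L hL
  have hC : 0 < C := by
    have h1 : 0 < A * C := by nlinarith [sq_nonneg B]
    exact pos_of_mul_pos_right h1 hA.le
  have hAR : (1 : ℝ) ≤ A := by exact_mod_cast hA
  have hCR : (1 : ℝ) ≤ C := by exact_mod_cast hC
  have hBR := abs_nonneg (B : ℝ)
  obtain ⟨N, hN⟩ : ∃ z : ℝ, z = A + |(B : ℝ)| + C := ⟨_, rfl⟩
  have hN1 : 1 ≤ N := by linarith
  have hBN : |(B : ℝ)| ≤ N := by linarith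
  have hAN : |(A : ℝ)| ≤ N := by
    rw [abs_of_pos (by linarith)]; linarith
  have hCN : |(C : ℝ)| ≤ N := by
    rw [abs_of_pos (by linarith)]; linarith
  clear hN
  obtain ⟨L₂, K₂, hL₂, hL₂1, hLL₂, hNL₂, hNN, hK₂, hKK, h4K⟩ := consts K hK hN1 hL
  refine ⟨K₂, ?_⟩
  intro X Y hY hX T₁ T₂ hB M hM q hq0 r hr
  have hL0 : 0 < L := by linarith
  have hX0 : 0 < X := by
    have : 0 < L * X := by linarith
    exact pos_of_mul_pos_right this hL0.le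
  obtain ⟨S, hS⟩ : ∃ z, z = √Y := ⟨_, rfl⟩
  have hS2 : S ^ 2 = Y := by rw [hS]; exact Real.sq_sqrt (by linarith)
  have hS1 : 1 ≤ S := by rw [hS, Real.one_le_sqrt]; exact hY
  have hS0 : 0 < S := by linarith
  have hB' : Bd L X (S ^ 2) T₁ T₂ := by rw [hS2]; exact hB
  have hF := bdF_of_Bd hA hC hD hAN hBN hCN hN1 hL hX0 hS0 hL₂ hLL₂ hNL₂ hB'
  have hreg : ∀ x : V × V, RegF A B C (fun a c => T₁ (qr A B C a c))
      (fun a c => T₂ (qr A B C a c)) x ↔ RegQ A B C T₁ T₂ x := by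
    intro x
    unfold RegF RegQ
    rw [Eqf.qv_cast]
  have hXS : S ^ 2 ≤ L₂ * X := by
    rw [hS2]
    exact hX.trans (mul_le_mul_of_nonneg_right hLL₂ hX0.le)
  have hM' : 4 * L₂ ^ 5 * (X + 1) ≤ M := by
    refine le_trans ?_ hM
    have e1 : (X + 1) ≤ (X + 1) ^ 2 := by nlinarith
    exact mul_le_mul h4K e1 (by linarith) hK₂.le
  have hmain := h L₂ hL₂1 A B C (hAN.trans hNN) (hBN.trans hNN) (hCN.trans hNN) X S hS1 hXS
    _ _ hF M hM' q r hr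
  have e1 : (pairs 1 M).filter (fun x => RegF A B C (fun a c => T₁ (qr A B C a c))
      (fun a c => T₂ (qr A B C a c)) x ∧ res q x = r) =
      (pairs 1 M).filter (fun x => RegQ A B C T₁ T₂ x ∧ res q x = r) := by
    apply filter_congr; intro x _; rw [hreg]
  have e2 : (pairs 1 M).filter (RegF A B C (fun a c => T₁ (qr A B C a c))
      (fun a c => T₂ (qr A B C a c))) = (pairs 1 M).filter (RegQ A B C T₁ T₂) := by
    apply filter_congr; intro x _; rw [hreg]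
  rw [e1, e2] at hmain
  refine hmain.trans ?_
  have hq1 : (1 : ℝ) ≤ q := by exact_mod_cast Nat.pos_of_ne_zero hq0.out
  have hqq : (q : ℝ) ^ 4 ≤ (q : ℝ) ^ 8 := pow_le_pow_right₀ hq1 (by norm_num)
  have hpw : S ^ (-(1 / 5) : ℝ) ≤ Y ^ (-(1 / 20) : ℝ) := by
    have e3 : S ^ (-(1 / 5) : ℝ) = Y ^ (-(1 / 10) : ℝ) := by
      rw [← hS2, ← Real.rpow_natCast S 2, ← Real.rpow_mul hS0.le]
      norm_num
    rw [e3]
    exact Real.rpow_le_rpow_of_exponent_le hY (by norm_num)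
  have hS5 : 0 ≤ S ^ (-(1 / 5) : ℝ) := Real.rpow_nonneg hS0.le _
  have hq4 : 0 ≤ (q : ℝ) ^ 4 := by positivity
  exact mul_le_mul (mul_le_mul_of_nonneg_right (mul_le_mul hKK hqq hq4 hK₂.le) hX0.le) hpw hS5
    (by positivity)

end Pool.Agent.Lib.MP391708.TA
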