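import Pool.Agent.Lib.MP_391708_nt.TA.ESpec
import Pool.Agent.Lib.MP_391708_nt.QPA.EUL

/-!
# Theorem T1a, module LLX: `L(1, χ)`
-/

set_option autoImplicit false

namespace Pool.Agent.Lib.MP391708.TA

open Finset Filter Topology
open Pool.Agent.Lib.MP391708.QPA (EUL.abel_Ioc EUL.exists_l EUL.l_ne_zero EUL.us_limit EUL.D_eq)

namespace LLXM

lemma ch_eq_EUL (a : ℤ) (n : ℕ) : ch a n = QPA.EUL.ch a n := by
  unfold ch chz QPA.EUL.ch
  by_cases h : n % 2 = 0
  · rw [if_pos h, if_neg (by rw [Nat.odd_iff]; omega)]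
    norm_num
  · rw [if_neg h, if_pos (by rw [Nat.odd_iff]; omega)]

lemma not_isSquare {a : ℤ} (hN : Nsq a) : ¬ IsSquare (-a) := by
  rintro ⟨s, hs⟩
  obtain ⟨n, hn⟩ := hN
  rcases Nat.mod_two_eq_zero_or_one n with h | h
  · rw [chz_even h] at hn
    norm_num at hn
  · rw [chz_odd h, hs, jacobiSym.mul_left] at hn
    have h1 := mul_self_nonneg (jacobiSym s n)
    rw [hn] at h1
    norm_num at h1

/-- the partial sums -/
lemma sum_bound {a : ℤ} (ha : a ≠ 0) (hN : Nsq a) (N : ℕ) :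
    |∑ n ∈ range N, ch a n| ≤ 4 * a.natAbs := by
  set q := 4 * a.natAbs with hq
  have hqpos : 0 < q := by have := Int.natAbs_pos.2 ha; omega
  have hper : ∀ k : ℕ, ∑ n ∈ range (q * k), ch a n = 0 := by
    intro k
    induction k with
    | zero => simp
    | succ k ih =>
      rw [Nat.mul_succ, sum_range_add, ih, zero_add]
      have h1 : ∑ x ∈ range q, ch a (q * k + x) = ∑ x ∈ range q, ch a x := by
        refine sum_congr rfl fun x _ => ch_congr dvd_rfl ?_
        have : q * k + x ≡ x [MOD q] := by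
          rw [Nat.ModEq, Nat.mul_add_mod]
        exact this
      rw [h1]
      exact sum_period ha hN
  have h1 : ∑ n ∈ range N, ch a n = ∑ x ∈ range (N % q), ch a (q * (N / q) + x) := by
    conv_lhs => rw [← Nat.div_add_mod N q]
    rw [sum_range_add, hper, zero_add]
  rw [h1]
  refine (abs_sum_le_sum_abs _ _).trans ?_
  have h2 : ∑ x ∈ range (N % q), |ch a (q * (N / q) + x)| ≤ ∑ _x ∈ range (N % q), (1 : ℝ) :=
    sum_le_sum fun x _ => ch_abs_le a _
  refine h2.trans ?_
  rw [sum_const, card_range, nsmul_eq_mul, mul_one]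
  have h3 : N % q ≤ q := (Nat.mod_lt _ hqpos).le
  calc ((N % q : ℕ) : ℝ) ≤ (q : ℝ) := by exact_mod_cast h3
    _ = 4 * a.natAbs := by rw [hq]; push_cast; ring

lemma block_bound {a : ℤ} (ha : a ≠ 0) (hN : Nsq a) (x m : ℕ) :
    |∑ n ∈ Ioc x m, ch a n| ≤ 8 * a.natAbs := by
  rcases le_total x m with h | h
  · have h1 : ∑ n ∈ Ioc x m, ch a n = ∑ n ∈ range (m + 1), ch a n - ∑ n ∈ range (x + 1), ch a n := by
      have h2 := sum_range_add_sum_Ico (fun n => ch a n) (show x + 1 ≤ m + 1 by omega)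
      have h3 : Ico (x + 1) (m + 1) = Ioc x m := by
        ext n
        rw [mem_Ico, mem_Ioc]
        omega
      rw [← h2, h3]
      ring
    rw [h1]
    have h4 := sum_bound ha hN (m + 1)
    have h5 := sum_bound ha hN (x + 1)
    refine (abs_sub _ _).trans ?_
    linarith
  · rw [Ioc_eq_empty (by omega), sum_empty, abs_zero]
    positivity

lemma sum_range_eq (a : ℤ) (X : ℕ) :
    ∑ i ∈ range (X + 1), ch a i / (i : ℝ) = ∑ n ∈ Ioc 0 X, ch a n / (n : ℝ) := by
  rw [range_eq_Ico, sum_eq_sum_Ico_succ_bot (by omega)]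
  have h3 : Ico (0 + 1) (X + 1) = Ioc 0 X := by
    ext n
    rw [mem_Ico, mem_Ioc]
    omega
  rw [h3]
  simp

end LLXM

open LLXM in
theorem specLLX : SpecLLX := by
  intro a ha hN
  have hns := not_isSquare hN
  obtain ⟨l, B, -, hl, -⟩ := QPA.EUL.exists_l hns
  have hl' : Tendsto (fun n : ℕ => ∑ i ∈ range n, ch a i / (i : ℝ)) atTop (𝓝 l) := by
    rw [← tendsto_add_atTop_iff_nat 1]
    refine hl.congr fun X => ?_
    rw [sum_range_eq]
    exact sum_congr rfl fun n _ => by rw [ch_eq_EUL]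
  have hLL : LL a = l := hl'.limUnder_eq
  refine ⟨?_, sum_bound ha hN, ?_⟩
  · rw [hLL]
    have h1 := QPA.EUL.l_ne_zero hns hl
    have h2 : 0 ≤ l := by
      refine ge_of_tendsto (QPA.EUL.us_limit hl) ?_
      filter_upwards [self_mem_nhdsWithin] with σ hσ
      rw [QPA.EUL.D_eq hσ]
      exact (Real.exp_pos _).le
    exact lt_of_le_of_ne h2 (Ne.symm h1)
  · intro n hn
    obtain ⟨X, rfl⟩ : ∃ X, n = X + 1 := ⟨n - 1, by omega⟩
    rw [hLL]
    have hlim : Tendsto (fun Y : ℕ => |∑ i ∈ range (X + 1), ch a i / (i : ℝ) -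
        ∑ i ∈ range (Y + 1), ch a i / (i : ℝ)|) atTop
        (𝓝 |∑ i ∈ range (X + 1), ch a i / (i : ℝ) - l|) :=
      (tendsto_const_nhds.sub ((tendsto_add_atTop_iff_nat 1).2 hl')).abs
    refine le_of_tendsto hlim ?_
    filter_upwards [eventually_ge_atTop X] with Y hY
    rw [sum_range_eq, sum_range_eq, abs_sub_comm]
    have h1 : ∑ n ∈ Ioc 0 Y, ch a n / (n : ℝ) - ∑ n ∈ Ioc 0 X, ch a n / (n : ℝ)
        = ∑ n ∈ Ioc X Y, (1 / (n : ℝ)) * ch a n := by
      have := Finset.sum_Ioc_consecutive (fun n : ℕ => ch a n / (n : ℝ)) (Nat.zero_le X) hY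
      rw [← this, add_sub_cancel_left]
      refine sum_congr rfl fun n _ => ?_
      ring
    rw [h1]
    have h2 := QPA.EUL.abel_Ioc (fun n : ℕ => 1 / (n : ℝ)) (ch a) (8 * a.natAbs) X Y ?_ ?_ ?_ ?_
      (by positivity)
    · refine h2.trans (le_of_eq ?_)
      push_cast
      ring
    · intro i hi _
      apply one_div_le_one_div_of_le
      · exact_mod_cast (by omega : 0 < i)
      · push_cast; linarith
    · intro i _ _; positivity
    · intro m _ _; exact block_bound ha hN X m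
    · positivity

end Pool.Agent.Lib.MP391708.TA
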