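import Pool.Agent.Lib.MP_391708_nt.T1.RelA

/-!
# T1a, group A: the four-term relations and the four roles for `n² + a`, `a ≥ 1`

Six numbers `G, X, P, Q, R, T` = the edges of `K_4`; `M, M_4 = D P - M, M_2 = M + D_2 Q,
M_3 = D R - M_2` its vertices:
`G P Q = M² + a`, `X P T = M_4² + a`, `X Q R = M_2² + a`, `G R T = M_3² + a`.
The data type `RD` and the roles are those of `T1.RelA`.
-/

set_option autoImplicit false

namespace Pool.Agent.Lib.MP391708.TA

open T1 (RD rel)

namespace RD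

open T1.RD (M4 M2 M3 role4_M role4_G role4_P role4_Q role4_X role4_T role4_R role4_D role4_D2
  role2_M role2_G role2_P role2_Q role2_X role2_T role2_R role2_D role2_D2
  role3_M role3_G role3_P role3_Q role3_X role3_T role3_R role3_D role3_D2)

/-- a relation (with the coprimality conditions in the symmetric form) -/
structure Ok (a : ℤ) (r : RD) : Prop where
  apos : 0 < a
  gpq : r.G * r.P * r.Q = r.M ^ 2 + a
  hX : r.X = r.G + r.D * r.D2
  f1 : r.P * r.D ^ 2 - 2 * r.M * r.D + r.G * r.Q = r.X * r.T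
  f2 : r.Q * r.D2 ^ 2 + 2 * r.M * r.D2 + r.G * r.P = r.X * r.R
  X0 : r.X ≠ 0
  D0 : r.D ≠ 0
  cgx : IsCoprime r.G r.X
  cdg : IsCoprime r.D r.G

/-- a relation from `X ∣ F_1` -/
theorem exists_ok {a M G P Q X D D2 : ℤ} (ha : 0 < a) (h1 : G * P * Q = M ^ 2 + a)
    (hX : X = G + D * D2)
    (hX0 : X ≠ 0) (hD0 : D ≠ 0) (hGX : IsCoprime G X) (hDG : IsCoprime D G)
    (hS : X ∣ P * D ^ 2 - 2 * M * D + G * Q) :
    ∃ T R : ℤ, Ok a ⟨M, G, P, Q, X, T, R, D, D2⟩ := by
  have hc : IsCoprime G (D * D2) := by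
    rw [hX] at hGX
    have e : G + D * D2 = D * D2 + G * 1 := by ring
    rw [e] at hGX
    exact (IsCoprime.of_add_mul_left_right hGX)
  obtain ⟨T, R, _, a1, a2, -⟩ := rel h1 hX hX0 hc hS
  exact ⟨T, R, ha, h1, hX, a1, by simpa using (by linarith : Q * D2 ^ 2 + 2 * M * D2 + G * P = X * R),
    hX0, hD0, hGX, hDG⟩

namespace Ok

variable {a : ℤ} {r : RD}

lemma xpt (h : Ok a r) : r.X * r.P * r.T = r.M4 ^ 2 + a := by
  simp only [M4]
  linear_combination r.P * (-1) * h.f1 + h.gpq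

lemma xqr (h : Ok a r) : r.X * r.Q * r.R = r.M2 ^ 2 + a := by
  simp only [M2]
  linear_combination r.Q * (-1) * h.f2 + h.gpq

/-- `X M_3 = G (D P - D_2 Q) + (D D_2 - G) M` -/
lemma xm3 (h : Ok a r) : r.X * r.M3 = r.G * (r.D * r.P - r.D2 * r.Q) + (r.D * r.D2 - r.G) * r.M := by
  simp only [M3]
  linear_combination (-r.D) * h.f2 + (-r.M - r.D2 * r.Q) * h.hX

lemma d2t (h : Ok a r) : r.D2 * r.T = r.M4 - r.M3 := by
  apply mul_left_cancel₀ h.X0
  have e := h.xm3
  have : r.X * (r.M4 - r.M3) = r.X * r.M4 - r.X * r.M3 := by ring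
  rw [this, e]
  simp only [M4]
  linear_combination (-r.D2) * h.f1 + (-(r.D * r.P - r.M)) * h.hX

lemma grt (h : Ok a r) : r.G * r.R * r.T = r.M3 ^ 2 + a := by
  have hH2 : r.X ^ 2 ≠ 0 := pow_ne_zero 2 h.X0
  apply mul_left_cancel₀ hH2
  have e : r.X ^ 2 * (r.G * r.R * r.T) = r.G * (r.X * r.R) * (r.X * r.T) := by ring
  have e2 : r.X ^ 2 * (r.M3 ^ 2 + a) = (r.X * r.M3) ^ 2 + a * r.X ^ 2 := by ring
  rw [e, e2, h.xm3, ← h.f1, ← h.f2, h.hX]
  linear_combination ((r.G + r.D * r.D2) ^ 2) * h.gpq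

lemma G0 (h : Ok a r) : r.G ≠ 0 := by
  intro h0
  have := h.gpq
  rw [h0] at this
  nlinarith [sq_nonneg r.M, h.apos]

lemma P0 (h : Ok a r) : r.P ≠ 0 := by
  intro h0
  have := h.gpq
  rw [h0] at this
  nlinarith [sq_nonneg r.M, h.apos]

lemma Q0 (h : Ok a r) : r.Q ≠ 0 := by
  intro h0
  have := h.gpq
  rw [h0] at this
  nlinarith [sq_nonneg r.M, h.apos]

lemma cdx (h : Ok a r) : IsCoprime r.D r.X := by
  rw [h.hX]
  exact IsCoprime.add_mul_left_right h.cdg r.D2

/-- `X T = G Q` modulo `D` -/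
lemma cdt (h : Ok a r) (hq : IsCoprime r.D r.Q) : IsCoprime r.D r.T := by
  have h1 : IsCoprime r.D (r.X * r.T) := by
    rw [← h.f1]
    have e : r.P * r.D ^ 2 - 2 * r.M * r.D + r.G * r.Q =
        r.G * r.Q + r.D * (r.P * r.D - 2 * r.M) := by ring
    rw [e]
    exact IsCoprime.add_mul_left_right (h.cdg.mul_right hq) _
  exact h1.of_mul_right_right

/-- a prime dividing `D` divides `T` exactly if it divides `Q` -/
lemma dvd_t_iff (h : Ok a r) {l : ℤ} (hl : Prime l) (hD : l ∣ r.D) : l ∣ r.T ↔ l ∣ r.Q := by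
  have e : r.X * r.T = r.G * r.Q + r.D * (r.P * r.D - 2 * r.M) := by
    rw [← h.f1]; ring
  have hG : ¬ l ∣ r.G := fun hg => hl.not_isUnit (h.cdg.isUnit_of_dvd' hD hg)
  have hX : ¬ l ∣ r.X := fun hx => hl.not_isUnit (h.cdx.isUnit_of_dvd' hD hx)
  constructor
  · intro ht
    have h1 : l ∣ r.G * r.Q := by
      have : r.G * r.Q = r.X * r.T - r.D * (r.P * r.D - 2 * r.M) := by rw [e]; ring
      rw [this]
      exact dvd_sub (Dvd.dvd.mul_left ht _) (Dvd.dvd.mul_right hD _)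
    exact (hl.dvd_or_dvd h1).resolve_left hG
  · intro hq
    have h1 : l ∣ r.X * r.T := by
      rw [e]
      exact dvd_add (Dvd.dvd.mul_left hq _) (Dvd.dvd.mul_right hD _)
    exact (hl.dvd_or_dvd h1).resolve_left hX

theorem role4 (h : Ok a r) : Ok a r.role4 where
  apos := h.apos
  gpq := by simpa using h.xpt
  hX := by
    have := h.hX
    simp only [role4_X, role4_G, role4_D, role4_D2]; linarith
  f1 := by
    simp only [role4_X, role4_G, role4_D, role4_P, role4_Q, role4_M, role4_T, M4]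
    linear_combination (-1) * h.f1
  f2 := by
    apply mul_left_cancel₀ h.X0
    simp only [role4_X, role4_G, role4_D2, role4_P, role4_Q, role4_M, role4_R]
    have e4 : r.X * (r.T * (-r.D2) ^ 2 + 2 * r.M4 * -r.D2 + r.X * r.P) =
      (r.X * r.T) * r.D2 ^ 2 - 2 * r.M4 * r.D2 * r.X + r.X ^ 2 * r.P := by ring
    have e5 : r.X * (r.G * r.R) = r.G * (r.X * r.R) := by ring
    rw [e4, e5, ← h.f1, ← h.f2, h.hX]
    simp only [M4]
    ring
  X0 := h.G0
  D0 := h.D0
  cgx := by simpa using h.cgx.symm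
  cdg := by simpa using h.cdx

theorem role2 (h : Ok a r) : Ok a r.role2 where
  apos := h.apos
  gpq := by
    simp only [role2_G, role2_P, role2_Q, role2_M]
    linear_combination h.xqr
  hX := by
    have := h.hX
    simp only [role2_X, role2_G, role2_D, role2_D2]; linarith
  f1 := by
    apply mul_left_cancel₀ h.X0
    simp only [role2_X, role2_G, role2_D, role2_P, role2_Q, role2_M, role2_T]
    have e4 : r.X * (r.R * r.D ^ 2 - 2 * r.M2 * r.D + r.X * r.Q) =
      (r.X * r.R) * r.D ^ 2 - 2 * r.M2 * r.D * r.X + r.X ^ 2 * r.Q := by ring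
    have e5 : r.X * (r.G * r.T) = r.G * (r.X * r.T) := by ring
    rw [e4, e5, ← h.f1, ← h.f2, h.hX]
    simp only [M2]
    ring
  f2 := by
    simp only [role2_X, role2_G, role2_D2, role2_P, role2_Q, role2_M, role2_R, M2]
    linear_combination (-1) * h.f2
  X0 := h.G0
  D0 := h.D0
  cgx := by simpa using h.cgx.symm
  cdg := by simpa using h.cdx

lemma role4_M2 (h : Ok a r) : r.role4.M2 = r.M3 := by
  have := h.d2t
  simp only [M2, role4_M, role4_D2, role4_Q]
  linarith

theorem role3 (h : Ok a r) : Ok a r.role3 := by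
  have e : r.role3 = r.role4.role2 := by
    refine RD.ext h.role4_M2.symm rfl rfl rfl rfl rfl rfl rfl ?_
    simp
  rw [e]
  exact h.role4.role2

lemma role3_role3 (h : Ok a r) : r.role3.role3 = r := by
  have e := h.d2t
  refine RD.ext ?_ rfl rfl rfl rfl rfl rfl rfl rfl
  simp only [role3_M]
  rw [M3, role3_D, role3_R, role3_M, role3_D2, role3_Q]
  simp only [M4] at e
  linarith

end Ok

end RD

end Pool.Agent.Lib.MP391708.TA
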